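import Mathlib

set_option linter.all false

namespace Pool.Agent.U635.LI

open Finset MeasureTheory Filter Topology

/-- coefficient vectors. -/
def Blk (q k : ℕ) : Type := Fin k → ZMod q

instance (q k : ℕ) : MeasurableSpace (Blk q k) := ⊤
instance (q k : ℕ) : DiscreteMeasurableSpace (Blk q k) := ⟨fun _ => trivial⟩
instance (q k : ℕ) [NeZero q] : Fintype (Blk q k) := inferInstanceAs (Fintype (Fin k → ZMod q))
instance (q k : ℕ) : DecidableEq (Blk q k) := inferInstanceAs (DecidableEq (Fin k → ZMod q))
instance (q k : ℕ) : AddCommGroup (Blk q k) := inferInstanceAs (AddCommGroup (Fin k → ZMod q))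

lemma card_Blk (q k : ℕ) [NeZero q] : Fintype.card (Blk q k) = q ^ k := by
  have : Fintype.card (Blk q k) = Fintype.card (Fin k → ZMod q) := rfl
  rw [this, Fintype.card_fun, ZMod.card, Fintype.card_fin]

/-- value of the polynomial with coefficients `c` at `x`. -/
def ev {q k : ℕ} (c : Blk q k) (x : ZMod q) : ZMod q := ∑ j : Fin k, c j * x ^ (j:ℕ)

/-- evaluation homomorphism. -/
def evHom (q k : ℕ) (S : Finset ℕ) : Blk q k →+ (S → ZMod q) where
  toFun c := fun n => ev c ((n : ℕ) : ZMod q)
  map_zero' := by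
    funext n
    simp only [ev]
    refine Finset.sum_eq_zero fun j _ => ?_
    exact zero_mul _
  map_add' a b := by
    funext n
    simp only [ev, Pi.add_apply]
    rw [← Finset.sum_add_distrib]
    refine Finset.sum_congr rfl fun j _ => ?_
    exact add_mul _ _ _

lemma evHom_surj (q k : ℕ) [Fact q.Prime] (S : Finset ℕ) (hS : S.card ≤ k)
    (hinj : Set.InjOn (fun n : ℕ => (n : ZMod q)) S) : Function.Surjective (evHom q k S) := by
  intro v
  rcases Nat.eq_zero_or_pos k with rfl | hk
  · have hS0 : S = ∅ := Finset.card_eq_zero.1 (by omega)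
    subst hS0
    exact ⟨0, by funext n; exact absurd n.2 (Finset.notMem_empty _)⟩
  · set p := Lagrange.interpolate S (fun n : ℕ => (n : ZMod q)) (fun n => if h : n ∈ S then v ⟨n, h⟩ else 0)
      with hp
    have hdeg : p.degree < S.card := Lagrange.degree_interpolate_lt _ hinj
    have hnat : p.natDegree < k := by
      by_cases h0 : p = 0
      · rw [h0]; simpa using hk
      · rw [Polynomial.natDegree_lt_iff_degree_lt h0]
        exact lt_of_lt_of_le hdeg (by exact_mod_cast hS)
    refine ⟨(fun j : Fin k => p.coeff j : Fin k → ZMod q), ?_⟩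
    funext n
    have h1 : p.eval ((n:ℕ) : ZMod q) = v n := by
      have := Lagrange.eval_interpolate_at_node (fun n => if h : n ∈ S then v ⟨n, h⟩ else 0) hinj n.2
      simp only [Finset.coe_mem, dif_pos] at this
      exact this
    rw [← h1, Polynomial.eval_eq_sum_range' hnat, Finset.sum_range]
    rfl

lemma card_fiber {G H : Type*} [AddCommGroup G] [AddCommGroup H] [Fintype G] [DecidableEq G] [DecidableEq H]
    (φ : G →+ H) (hφ : Function.Surjective φ) (v : H) :
    (Finset.univ.filter (fun c => φ c = v)).card = (Finset.univ.filter (fun c => φ c = 0)).card := by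
  obtain ⟨c0, hc0⟩ := hφ v
  refine Finset.card_bij' (fun c _ => c - c0) (fun c _ => c + c0) ?_ ?_ ?_ ?_
  · intro c hc; simp only [mem_filter, mem_univ, true_and] at hc ⊢; rw [map_sub, hc, hc0, sub_self]
  · intro c hc; simp only [mem_filter, mem_univ, true_and] at hc ⊢; rw [map_add, hc, hc0, zero_add]
  · intro c _; simp
  · intro c _; simp

lemma card_preimage {G H : Type*} [AddCommGroup G] [AddCommGroup H] [Fintype G] [Fintype H]
    [DecidableEq G] [DecidableEq H]
    (φ : G →+ H) (hφ : Function.Surjective φ) (V : H → Prop) [DecidablePred V] :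
    (Finset.univ.filter (fun c => V (φ c))).card * Fintype.card H
      = (Finset.univ.filter V).card * Fintype.card G := by
  have key : ∀ (V : H → Prop) [DecidablePred V], (Finset.univ.filter (fun c => V (φ c))).card
      = (Finset.univ.filter V).card * (Finset.univ.filter (fun c => φ c = 0)).card := by
    intro V _
    rw [Finset.card_eq_sum_card_fiberwise (f := φ) (t := Finset.univ.filter V)
      (fun c hc => by simpa using hc)]
    rw [Finset.sum_congr rfl (g := fun _ => (Finset.univ.filter (fun c => φ c = 0)).card), Finset.sum_const,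
      smul_eq_mul]
    intro v hv
    rw [← card_fiber φ hφ v]
    congr 1
    ext c
    simp only [mem_filter, mem_univ, true_and] at hv ⊢
    constructor
    · exact fun h => h.2
    · intro h; exact ⟨by rw [h]; exact hv, h⟩
  have h1 := key V
  have h2 := key (fun _ => True)
  simp only [Finset.filter_true, Finset.card_univ] at h2
  rw [h1, h2]; ring

lemma card_nonroot (q k : ℕ) [Fact q.Prime] (S : Finset ℕ) (hS : S.card ≤ k)
    (hinj : Set.InjOn (fun n : ℕ => (n : ZMod q)) S) :
    (Finset.univ.filter (fun c : Blk q k => ∀ n ∈ S, ev c (n : ZMod q) ≠ 0)).card * q ^ S.card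
      = (q - 1) ^ S.card * q ^ k := by
  classical
  have h := card_preimage (evHom q k S) (evHom_surj q k S hS hinj) (fun v => ∀ n, v n ≠ 0)
  have e1 : (Finset.univ.filter (fun c : Blk q k => ∀ n ∈ S, ev c (n : ZMod q) ≠ 0))
      = (Finset.univ.filter (fun c => ∀ n, (evHom q k S) c n ≠ 0)) := by
    ext c
    simp only [mem_filter, mem_univ, true_and]
    constructor
    · intro h n; exact h n n.2
    · intro h n hn; exact h ⟨n, hn⟩
  have e2 : Fintype.card (S → ZMod q) = q ^ S.card := by
    rw [Fintype.card_fun, ZMod.card, Fintype.card_coe]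
  have e3 : (Finset.univ.filter (fun v : S → ZMod q => ∀ n, v n ≠ 0)).card = (q - 1) ^ S.card := by
    have : (Finset.univ.filter (fun v : S → ZMod q => ∀ n, v n ≠ 0))
        = Fintype.piFinset (fun _ : S => (Finset.univ.erase (0 : ZMod q))) := by
      ext v
      simp [Fintype.mem_piFinset]
    rw [this, Fintype.card_piFinset]
    simp [Finset.card_erase_of_mem, ZMod.card]
  rw [e1, ← e2, h, e3, card_Blk]

/-- the uniform law. -/
noncomputable def nu (q k : ℕ) [NeZero q] : Measure (Blk q k) :=
  (PMF.uniformOfFintype (Blk q k)).toMeasure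

instance (q k : ℕ) [NeZero q] : IsProbabilityMeasure (nu q k) := by unfold nu; infer_instance

lemma nu_apply (q k : ℕ) [NeZero q] (V : Blk q k → Prop) [DecidablePred V] :
    nu q k {c | V c} = ENNReal.ofReal (((Finset.univ.filter V).card : ℝ) / (q:ℝ)^k) := by
  have hq : (0:ℝ) < q := by exact_mod_cast Nat.pos_of_ne_zero (NeZero.ne q)
  unfold nu
  rw [PMF.toMeasure_uniformOfFintype_apply _ (MeasurableSet.of_discrete), card_Blk, Fintype.card_subtype,
    ENNReal.ofReal_div_of_pos (by positivity), ENNReal.ofReal_natCast]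
  congr 1
  rw [← Nat.cast_pow, ENNReal.ofReal_natCast]

lemma nu_nonroot (q k : ℕ) [Fact q.Prime] (S : Finset ℕ) (hS : S.card ≤ k)
    (hinj : Set.InjOn (fun n : ℕ => (n : ZMod q)) S) :
    nu q k {c | ∀ n ∈ S, ev c (n : ZMod q) ≠ 0} = ENNReal.ofReal (1 - 1/(q:ℝ)) ^ S.card := by
  classical
  have hq1 : 1 < q := (Fact.out : q.Prime).one_lt
  have hq : (0:ℝ) < q := by exact_mod_cast (by omega : 0 < q)
  have hq' : (1:ℝ) < q := by exact_mod_cast hq1
  rw [nu_apply, ← ENNReal.ofReal_pow (by rw [sub_nonneg, div_le_one hq]; exact hq'.le)]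
  congr 1
  have h := card_nonroot q k S hS hinj
  have h' : ((Finset.univ.filter (fun c : Blk q k => ∀ n ∈ S, ev c (n : ZMod q) ≠ 0)).card : ℝ) * (q:ℝ) ^ S.card
      = ((q:ℝ) - 1) ^ S.card * (q:ℝ) ^ k := by
    have : (((Finset.univ.filter (fun c : Blk q k => ∀ n ∈ S, ev c (n : ZMod q) ≠ 0)).card * q ^ S.card : ℕ) : ℝ)
      = (((q - 1) ^ S.card * q ^ k : ℕ) : ℝ) := by exact_mod_cast h
    push_cast [Nat.cast_sub hq1.le] at this
    exact this
  rw [div_eq_iff (by positivity)]
  have e : (1 - 1/(q:ℝ))^S.card = ((q:ℝ)-1)^S.card / (q:ℝ)^S.card := by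
    rw [← div_pow]; congr 1; field_simp
  rw [e, div_mul_eq_mul_div, eq_div_iff (by positivity)]
  exact h'

lemma nu_ne_zero (q k : ℕ) [NeZero q] :
    nu q k {c | c ≠ 0} ≤ ENNReal.ofReal (Real.exp (-(1/(q:ℝ)^k))) := by
  classical
  have hq : (0:ℝ) < q := by exact_mod_cast Nat.pos_of_ne_zero (NeZero.ne q)
  rw [nu_apply]
  apply ENNReal.ofReal_le_ofReal
  have : (Finset.univ.filter (fun c : Blk q k => c ≠ 0)).card + 1 = q ^ k := by
    rw [← card_Blk q k, ← Finset.card_univ, ← Finset.card_erase_add_one (Finset.mem_univ (0 : Blk q k))]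
    congr 2
    ext c; simp
  have h' : ((Finset.univ.filter (fun c : Blk q k => c ≠ 0)).card : ℝ) = (q:ℝ)^k - 1 := by
    rw [eq_sub_iff_add_eq]; exact_mod_cast this
  rw [h']
  have := Real.add_one_le_exp (-(1/(q:ℝ)^k))
  refine le_trans (le_of_eq ?_) this
  field_simp
  ring

end Pool.Agent.U635.LI
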