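import Mathlib

set_option linter.all false

namespace Pool.Agent.U635.LI

open Finset Filter Topology

/-- Choice of the block lengths. -/
lemma exists_q (k : ℕ → ℕ) (hk : Tendsto (fun i : ℕ => (k i : ℝ) * Real.log i / i) atTop (𝓝 0)) :
    ∃ q : ℕ → ℕ, (∀ i, (q i).Prime) ∧ (∀ i, 17 ≤ q i) ∧ (∀ᶠ i in atTop, 4 * q i ^ (k i + 1) ≤ 2 ^ i) ∧
      ∀ N : ℕ, ∀ᶠ i in atTop, (i + 1) ^ N + 1 ≤ q i := by
  have hB : ∀ i : ℕ, ∃ p, p.Prime ∧ 2 ^ (4 + i / (2 * (k i + 1))) < p ∧
      p ≤ 2 * 2 ^ (4 + i / (2 * (k i + 1))) := fun i =>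
    Nat.exists_prime_lt_and_le_two_mul _ (by positivity)
  choose q hq1 hq2 hq3 using hB
  have hlog : Tendsto (fun i : ℕ => Real.log i / i) atTop (𝓝 0) := by
    have h := Real.isLittleO_log_id_atTop.tendsto_div_nhds_zero
    exact h.comp tendsto_natCast_atTop_atTop
  refine ⟨q, hq1, fun i => ?_, ?_, fun N => ?_⟩
  · have h1 : 2 ^ 4 ≤ 2 ^ (4 + i / (2 * (k i + 1))) := Nat.pow_le_pow_right (by norm_num) (Nat.le_add_right _ _)
    have := hq2 i
    norm_num at h1
    omega
  · filter_upwards [hk.eventually_le_const (by norm_num : (0:ℝ) < 1/20), eventually_ge_atTop 28]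
      with i h1 h2
    have hi : (0:ℝ) < i := by exact_mod_cast (by omega : 0 < i)
    have hl : 1 ≤ Real.log i := by
      rw [Real.le_log_iff_exp_le hi]
      have := Real.exp_one_lt_d9
      have : (28:ℝ) ≤ i := by exact_mod_cast h2
      linarith
    have h3 : 20 * (k i : ℝ) ≤ i := by
      rw [div_le_iff₀ hi] at h1
      nlinarith [Nat.cast_nonneg (α := ℝ) (k i)]
    have h4 : 20 * k i ≤ i := by exact_mod_cast h3
    have h5 : 2 * (k i + 1) * (i / (2 * (k i + 1))) ≤ i := Nat.mul_div_le _ _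
    have h6 : (5 + i / (2 * (k i + 1))) * (k i + 1) + 2 ≤ i := by
      nlinarith
    calc 4 * q i ^ (k i + 1) ≤ 2 ^ 2 * (2 ^ (5 + i / (2 * (k i + 1)))) ^ (k i + 1) := by
          refine Nat.mul_le_mul (by norm_num) (Nat.pow_le_pow_left ((hq3 i).trans (le_of_eq ?_)) _)
          rw [show 5 + i / (2 * (k i + 1)) = (4 + i / (2 * (k i + 1))) + 1 by ring, pow_succ]; ring
      _ = 2 ^ ((5 + i / (2 * (k i + 1))) * (k i + 1) + 2) := by
          rw [← pow_mul, ← pow_add]; congr 1; ring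
      _ ≤ 2 ^ i := Nat.pow_le_pow_right (by norm_num) h6
  · have hl2 : 0 < Real.log 2 := Real.log_pos (by norm_num)
    set δ : ℝ := Real.log 2 / (2 * (4 * N + 1)) with hδ
    have hδ0 : 0 < δ := by positivity
    filter_upwards [hk.eventually_le_const hδ0, hlog.eventually_le_const hδ0, eventually_ge_atTop 3]
      with i h1 h2 h3
    have hi3 : (3:ℝ) ≤ i := by exact_mod_cast h3
    have hi : (0:ℝ) < i := by linarith
    rw [div_le_iff₀ hi] at h1 h2
    have hl0 : 0 < Real.log i := Real.log_pos (by linarith)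
    set K : ℝ := (k i : ℝ) with hK
    have hK0 : 0 ≤ K := Nat.cast_nonneg _
    have e1 : (K + 1) * Real.log i ≤ 2 * δ * i := by linarith
    have e2 : 2 * δ * (4 * N + 1) = Real.log 2 := by rw [hδ]; field_simp
    have e3 : 4 * N * ((K + 1) * Real.log i) ≤ Real.log 2 * i := by
      have hN0 : (0:ℝ) ≤ N := Nat.cast_nonneg _
      calc 4 * N * ((K + 1) * Real.log i) ≤ 4 * N * (2 * δ * i) := by gcongr
        _ = (2 * δ * (4 * N)) * i := by ring
        _ ≤ (2 * δ * (4 * N + 1)) * i := by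
          apply mul_le_mul_of_nonneg_right _ hi.le
          apply mul_le_mul_of_nonneg_left (by linarith) (by positivity)
        _ = _ := by rw [e2]
    have e4 : Real.log ((i:ℝ) + 1) ≤ 2 * Real.log i := by
      rw [← Real.log_rpow hi, show ((2:ℝ)) = ((2:ℕ):ℝ) by norm_num, Real.rpow_natCast]
      apply Real.log_le_log (by linarith)
      nlinarith
    have e5 : (i:ℝ) / (2 * (K + 1)) ≤ ((4 + i / (2 * (k i + 1)) : ℕ) : ℝ) := by
      have h := Nat.lt_div_mul_add (a := i) (b := 2 * (k i + 1)) (by positivity)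
      have h' : (i:ℝ) < ((i / (2 * (k i + 1)) : ℕ) : ℝ) * (2 * (K + 1)) + 2 * (K+1) := by
        have : ((i:ℕ):ℝ) < (((i / (2 * (k i + 1))) * (2 * (k i + 1)) + 2 * (k i + 1) : ℕ) : ℝ) := by
          exact_mod_cast h
        push_cast at this
        simpa [hK] using this
      rw [div_le_iff₀ (by positivity)]
      push_cast
      push_cast at h'
      nlinarith
    have e6 : N * Real.log ((i:ℝ)+1) ≤ ((4 + i / (2 * (k i + 1)) : ℕ) : ℝ) * Real.log 2 := by
      have hN0 : (0:ℝ) ≤ N := Nat.cast_nonneg _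
      calc N * Real.log ((i:ℝ)+1) ≤ N * (2 * Real.log i) := by gcongr
        _ ≤ (i:ℝ) / (2 * (K + 1)) * Real.log 2 := by
          rw [div_mul_eq_mul_div, le_div_iff₀ (by positivity)]
          nlinarith
        _ ≤ _ := by gcongr
    have e7 : ((i:ℝ)+1)^N ≤ 2 ^ (4 + i / (2 * (k i + 1))) := by
      have := Real.exp_le_exp.2 e6
      rw [Real.exp_nat_mul, Real.exp_nat_mul, Real.exp_log (by positivity), Real.exp_log (by norm_num)] at this
      exact this
    have e8 : (i+1)^N ≤ 2 ^ (4 + i / (2 * (k i + 1))) := by exact_mod_cast e7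
    have := hq2 i
    omega

end Pool.Agent.U635.LI
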