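import Mathlib
import Pool.Agent.U635.LIp
import Pool.Agent.U635.LIq

set_option linter.all false

namespace Pool.Agent.U635.LI

open Finset MeasureTheory Filter Topology

/-- block of `n`. -/
def blk (q : ℕ → ℕ) (n : ℕ) : ℕ × ℕ := (Nat.log 2 n, n / q (Nat.log 2 n))

abbrev X1 (q k : ℕ → ℕ) : Type := (b : ℕ × ℕ) → Blk (q b.1) (k b.1)

/-- uniform law on `[0,1]`. -/
noncomputable def Un : Measure ℝ := volume.restrict (Set.Icc 0 1)

instance : IsProbabilityMeasure Un := ⟨by simp [Un]⟩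

/-- thresholds. -/
noncomputable def th (q : ℕ → ℕ) (n : ℕ) : ℝ := (1 / Real.log n) / (1 - 1/(q (Nat.log 2 n) : ℝ))

/-- events. -/
def Ev (q k : ℕ → ℕ) (n : ℕ) : Set (X1 q k × (ℕ → ℝ)) :=
  {ω | ev (ω.1 (blk q n)) (n : ZMod (q (blk q n).1)) ≠ 0 ∧ ω.2 n ∈ Set.Icc 0 (th q n)}

lemma meas_Ev (q k : ℕ → ℕ) (n : ℕ) : MeasurableSet (Ev q k n) := by
  unfold Ev
  apply MeasurableSet.inter
  · have h : Measurable (fun ω : X1 q k × (ℕ → ℝ) => ω.1 (blk q n)) :=
      (measurable_pi_apply _).comp measurable_fst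
    exact h (MeasurableSet.of_discrete (s := {c | ev c (n : ZMod (q (blk q n).1)) ≠ 0}))
  · have h : Measurable (fun ω : X1 q k × (ℕ → ℝ) => ω.2 n) :=
      (measurable_pi_apply _).comp measurable_snd
    exact h measurableSet_Icc

section

variable (q k : ℕ → ℕ) [hq : ∀ i, Fact (q i).Prime]

/-- first coordinate law. -/
noncomputable def M1 : Measure (X1 q k) := Measure.infinitePi (fun b : ℕ × ℕ => nu (q b.1) (k b.1))

/-- second coordinate law. -/
noncomputable def M2 : Measure (ℕ → ℝ) := Measure.infinitePi (fun _ : ℕ => Un)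

instance : IsProbabilityMeasure (M1 q k) := by unfold M1; infer_instance
instance : IsProbabilityMeasure M2 := by unfold M2; infer_instance

/-- the law. -/
noncomputable def MM : Measure (X1 q k × (ℕ → ℝ)) := (M1 q k).prod M2

instance : IsProbabilityMeasure (MM q k) := by unfold MM; infer_instance

lemma log_three : (17/16 : ℝ) ≤ Real.log 3 := by
  rw [Real.le_log_iff_exp_le (by norm_num)]
  have h1 := Real.exp_one_lt_d9
  have h2 : Real.exp (1/16) ≤ 16/15 := by
    have := Real.add_one_le_exp (-(1/16) : ℝ)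
    rw [Real.exp_neg] at this
    have h3 := Real.exp_pos (1/16)
    have h4 : (15/16 : ℝ) ≤ (Real.exp (1/16))⁻¹ := by linarith
    rw [le_inv_comm₀ (by norm_num) h3] at h4
    refine h4.trans (by norm_num)
  rw [show (17/16 : ℝ) = 1 + 1/16 by norm_num, Real.exp_add]
  nlinarith [Real.exp_pos 1, Real.exp_pos (1/16)]

lemma Un_Icc (a : ℝ) (h0 : 0 ≤ a) (h1 : a ≤ 1) : Un (Set.Icc 0 a) = ENNReal.ofReal a := by
  unfold Un
  rw [Measure.restrict_apply measurableSet_Icc, Set.Icc_inter_Icc, Real.volume_Icc]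
  simp [h0, h1]

theorem prod_formula (hq17 : ∀ i, 17 ≤ q i) (S : Finset ℕ) (hS3 : ∀ n ∈ S, 3 ≤ n)
    (hSk : ∀ i, (S.filter (fun n => Nat.log 2 n = i)).card ≤ k i) :
    MM q k (⋂ n ∈ S, Ev q k n) = ∏ n ∈ S, ENNReal.ofReal (1 / Real.log n) := by
  classical
  have hset : (⋂ n ∈ S, Ev q k n) =
      (Set.pi ((S.image (blk q) : Finset (ℕ × ℕ)) : Set (ℕ × ℕ))
        (fun b => {c : Blk (q b.1) (k b.1) | ∀ n ∈ S.filter (fun n => blk q n = b), ev c (n : ZMod (q b.1)) ≠ 0}))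
      ×ˢ (Set.pi (S : Set ℕ) (fun n => Set.Icc 0 (th q n))) := by
    ext ω
    simp only [Set.mem_iInter, Ev, Set.mem_setOf_eq, Set.mem_prod, Set.mem_pi, Finset.mem_coe]
    constructor
    · intro h
      refine ⟨?_, fun n hn => (h n hn).2⟩
      intro b hb n hn
      obtain ⟨hn', rfl⟩ := mem_filter.1 hn
      exact (h n hn').1
    · rintro ⟨h1, h2⟩ n hn
      exact ⟨h1 (blk q n) (mem_image_of_mem _ hn) n (mem_filter.2 ⟨hn, rfl⟩), h2 n hn⟩
  rw [hset]
  unfold MM
  rw [Measure.prod_prod]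
  unfold M1 M2
  rw [Measure.infinitePi_pi _ (fun _ _ => MeasurableSet.of_discrete),
    Measure.infinitePi_pi _ (fun _ _ => measurableSet_Icc)]
  have e1 : (∏ b ∈ S.image (blk q), nu (q b.1) (k b.1)
      {c : Blk (q b.1) (k b.1) | ∀ n ∈ S.filter (fun n => blk q n = b), ev c (n : ZMod (q b.1)) ≠ 0})
      = ∏ n ∈ S, ENNReal.ofReal (1 - 1/(q (Nat.log 2 n) : ℝ)) := by
    rw [← Finset.prod_fiberwise_of_maps_to (t := S.image (blk q)) (g := blk q)
      (fun n hn => mem_image_of_mem _ hn)]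
    refine Finset.prod_congr rfl fun b hb => ?_
    rw [nu_nonroot (q b.1) (k b.1) (S.filter (fun n => blk q n = b))]
    · rw [Finset.prod_congr rfl (g := fun _ => ENNReal.ofReal (1 - 1/(q b.1 : ℝ))), Finset.prod_const]
      intro n hn
      obtain ⟨_, rfl⟩ := mem_filter.1 hn
      rfl
    · refine le_trans (Finset.card_le_card ?_) (hSk b.1)
      intro n hn
      obtain ⟨hn', rfl⟩ := mem_filter.1 hn
      exact mem_filter.2 ⟨hn', rfl⟩
    · intro n hn m hm hnm
      simp only [Finset.coe_filter, Set.mem_setOf_eq] at hn hm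
      have h1 := hn.2
      have h2 := hm.2
      simp only [blk] at h1 h2
      have a1 : Nat.log 2 n = b.1 := by rw [← h1]
      have a2 : Nat.log 2 m = b.1 := by rw [← h2]
      have b1 : n / q b.1 = b.2 := by rw [← a1]; rw [← h1]
      have b2 : m / q b.1 = b.2 := by rw [← a2]; rw [← h2]
      have c1 : n % q b.1 = m % q b.1 := (ZMod.natCast_eq_natCast_iff' n m (q b.1)).1 hnm
      rw [← Nat.div_add_mod n (q b.1), ← Nat.div_add_mod m (q b.1), b1, b2, c1]
  rw [e1, ← Finset.prod_mul_distrib]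
  refine Finset.prod_congr rfl fun n hn => ?_
  have hn3 : (3:ℝ) ≤ n := by exact_mod_cast hS3 n hn
  have hl : (17/16:ℝ) ≤ Real.log n := log_three.trans (Real.log_le_log (by norm_num) hn3)
  have hq' : (17:ℝ) ≤ q (Nat.log 2 n) := by exact_mod_cast hq17 _
  have hinv : 1/(q (Nat.log 2 n) : ℝ) ≤ 1/17 := one_div_le_one_div_of_le (by norm_num) hq'
  have hinv0 : 0 < 1/(q (Nat.log 2 n) : ℝ) := by positivity
  have hlp : 0 < 1 / Real.log n := by positivity
  have hd : 0 < 1 - 1/(q (Nat.log 2 n) : ℝ) := by linarith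
  have hth0 : 0 ≤ th q n := by unfold th; positivity
  have hth1 : th q n ≤ 1 := by
    unfold th
    rw [div_le_one hd, div_le_iff₀ (by linarith)]
    nlinarith
  rw [Un_Icc _ hth0 hth1, ← ENNReal.ofReal_mul hd.le]
  congr 1
  unfold th
  rw [mul_div_assoc', mul_div_cancel_left₀ _ hd.ne']

/-- indices of full blocks. -/
def J (i : ℕ) : Finset ℕ := Finset.Ico (2^i / q i + 1) (2^(i+1) / q i)

lemma card_J (i : ℕ) (h : 4 * q i ^ (k i + 1) ≤ 2 ^ i) : q i ^ k i ≤ (J q i).card := by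
  have hqp : 0 < q i := (hq i).out.pos
  have h1 : 4 * q i ^ k i ≤ 2^i / q i := by
    rw [Nat.le_div_iff_mul_le hqp]
    rw [pow_succ] at h
    linarith
  have h2 : 2 * (2^i / q i) ≤ 2^(i+1) / q i := by
    rw [Nat.le_div_iff_mul_le hqp, pow_succ]
    have := Nat.div_mul_le_self (2^i) (q i)
    nlinarith
  have h3 : 0 < q i ^ k i := pow_pos hqp _
  unfold J
  rw [Nat.card_Ico]
  omega

lemma alive_le (i0 : ℕ) (hi0 : ∀ i ≥ i0, 4 * q i ^ (k i + 1) ≤ 2 ^ i) (a b : ℕ) (ha : i0 ≤ a) :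
    M1 q k {x | ∀ i ∈ Finset.Ico a b, ∀ m ∈ J q i, x (i, m) ≠ 0} ≤ ENNReal.ofReal (Real.exp (-1)) ^ (b - a) := by
  classical
  have hset : {x : X1 q k | ∀ i ∈ Finset.Ico a b, ∀ m ∈ J q i, x (i, m) ≠ 0}
      = Set.pi (((Finset.Ico a b).biUnion (fun i => ({i} : Finset ℕ) ×ˢ J q i) : Finset (ℕ × ℕ)) : Set (ℕ × ℕ))
        (fun b => {c : Blk (q b.1) (k b.1) | c ≠ 0}) := by
    ext x
    simp only [Set.mem_setOf_eq, Set.mem_pi, Finset.mem_coe, mem_biUnion, mem_product, mem_singleton]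
    constructor
    · rintro h ⟨i, m⟩ ⟨i', hi', h1, h2⟩
      simp only at h1 h2
      subst h1
      exact h i hi' m h2
    · intro h i hi m hm
      exact h (i, m) ⟨i, hi, rfl, hm⟩
  rw [hset]
  unfold M1
  rw [Measure.infinitePi_pi _ (fun _ _ => MeasurableSet.of_discrete), Finset.prod_biUnion]
  · have hstep : ∀ i ∈ Finset.Ico a b, (∏ b ∈ ({i} : Finset ℕ) ×ˢ J q i, nu (q b.1) (k b.1) {c | c ≠ 0})
        ≤ ENNReal.ofReal (Real.exp (-1)) := by
      intro i hi
      rw [Finset.prod_product, Finset.prod_singleton]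
      simp only
      have hcard := card_J q k i (hi0 i (ha.trans (mem_Ico.1 hi).1))
      calc (∏ m ∈ J q i, nu (q i) (k i) {c | c ≠ 0})
          ≤ ∏ m ∈ J q i, ENNReal.ofReal (Real.exp (-(1/(q i:ℝ)^(k i)))) :=
            Finset.prod_le_prod' fun m _ => nu_ne_zero (q i) (k i)
        _ = ENNReal.ofReal (Real.exp (-(1/(q i:ℝ)^(k i))) ^ (J q i).card) := by
            rw [Finset.prod_const, ENNReal.ofReal_pow (Real.exp_pos _).le]
        _ ≤ _ := by
            apply ENNReal.ofReal_le_ofReal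
            rw [← Real.exp_nat_mul]
            apply Real.exp_le_exp.2
            have hqp : (0:ℝ) < (q i : ℝ) ^ k i := by
              have : (0:ℝ) < q i := by exact_mod_cast (hq i).out.pos
              positivity
            have hc : (q i : ℝ) ^ k i ≤ ((J q i).card : ℝ) := by exact_mod_cast hcard
            have : 1 ≤ ((J q i).card : ℝ) * (1 / (q i : ℝ) ^ k i) := by
              rw [mul_one_div, le_div_iff₀ hqp]; linarith
            linarith
    refine (Finset.prod_le_prod' hstep).trans (le_of_eq ?_)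
    rw [Finset.prod_const, Nat.card_Ico]
  · intro i _ j _ hij
    simp only [Function.onFun]
    rw [Finset.disjoint_left]
    rintro ⟨u, v⟩ h1 h2
    simp only [mem_product, mem_singleton] at h1 h2
    exact hij (h1.1.symm.trans h2.1)

lemma ae_dead (i0 : ℕ) (hi0 : ∀ i ≥ i0, 4 * q i ^ (k i + 1) ≤ 2 ^ i) :
    ∀ᵐ x ∂(M1 q k), ∀ a ≥ i0, ∃ i ≥ a, ∃ m ∈ J q i, x (i, m) = 0 := by
  rw [ae_all_iff]
  intro a
  by_cases ha : a ≥ i0
  · have hz : M1 q k {x | ∀ i ≥ a, ∀ m ∈ J q i, x (i, m) ≠ 0} = 0 := by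
      have hlt : ENNReal.ofReal (Real.exp (-1)) < 1 := by
        rw [← ENNReal.ofReal_one]
        exact (ENNReal.ofReal_lt_ofReal_iff one_pos).2 (by simpa using Real.exp_lt_exp.2 (show (-1:ℝ) < 0 by norm_num))
      have ht := ENNReal.tendsto_pow_atTop_nhds_zero_of_lt_one hlt
      refine le_antisymm (ge_of_tendsto' ht fun n => ?_) bot_le
      have h := alive_le q k i0 hi0 a (a + n) ha
      rw [Nat.add_sub_cancel_left] at h
      refine le_trans (measure_mono ?_) h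
      intro x hx i hi m hm
      exact hx i (mem_Ico.1 hi).1 m hm
    rw [ae_iff]
    refine measure_mono_null ?_ hz
    intro x hx
    simp only [Set.mem_setOf_eq] at hx ⊢
    push Not at hx
    exact hx.2
  · exact Filter.Eventually.of_forall fun x h => absurd h ha

theorem gaps (hi0 : ∀ᶠ i in atTop, 4 * q i ^ (k i + 1) ≤ 2 ^ i)
    (hN : ∀ N : ℕ, ∀ᶠ i in atTop, (i + 1) ^ N + 1 ≤ q i) :
    ∀ᵐ ω ∂(MM q k), ∀ N n0 : ℕ, ∃ n ≥ n0, ∃ h : ℕ, (Real.log n) ^ N ≤ h ∧ h ≤ n ∧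
      ∀ j, n < j → j ≤ n + h → ω ∉ Ev q k j := by
  obtain ⟨i0, hi0⟩ := eventually_atTop.1 hi0
  have hd := ae_dead q k i0 hi0
  have hd2 : ∀ᵐ ω ∂(MM q k), ∀ a ≥ i0, ∃ i ≥ a, ∃ m ∈ J q i, ω.1 (i, m) = 0 :=
    Measure.quasiMeasurePreserving_fst.ae hd
  filter_upwards [hd2] with ω hω N n0
  obtain ⟨i1, hi1⟩ := eventually_atTop.1 (hN N)
  obtain ⟨i, hi, m, hm, hx⟩ := hω (max i0 (max i1 (max n0 1))) (le_max_left _ _)
  have hii0 : i0 ≤ i := (le_max_left _ _).trans hi
  have hii1 : i1 ≤ i := ((le_max_left _ _).trans (le_max_right _ _)).trans hi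
  have hin0 : n0 ≤ i := ((le_max_left _ _).trans ((le_max_right _ _).trans (le_max_right _ _))).trans hi
  have hi1' : 1 ≤ i := ((le_max_right _ _).trans ((le_max_right _ _).trans (le_max_right _ _))).trans hi
  have hqp : 0 < q i := (hq i).out.pos
  simp only [J, mem_Ico] at hm
  have g1 : 2^i < (2^i / q i + 1) * q i := by
    have := Nat.lt_div_mul_add (a := 2^i) hqp
    linarith
  have g2 : 2^i < m * q i := lt_of_lt_of_le g1 (Nat.mul_le_mul_right _ hm.1)
  have g3 : (m+1) * q i ≤ 2^(i+1) := by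
    have : m + 1 ≤ 2^(i+1) / q i := hm.2
    exact (Nat.mul_le_mul_right _ this).trans (Nat.div_mul_le_self _ _)
  have g4 : q i ≤ 2^i := by
    have h := hi0 i hii0
    have h2 : q i ^ 1 ≤ q i ^ (k i + 1) := Nat.pow_le_pow_right hqp (by omega)
    rw [pow_one] at h2
    omega
  have g5 : i < 2^i := Nat.lt_two_pow_self
  refine ⟨m * q i, by omega, q i - 1, ?_, by omega, ?_⟩
  · have h1 := hi1 i hii1
    have h2 : (((i + 1) ^ N : ℕ) : ℝ) ≤ ((q i - 1 : ℕ) : ℝ) := by
      exact_mod_cast (by omega : (i+1)^N ≤ q i - 1)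
    refine le_trans ?_ h2
    push_cast
    have hpos : (1:ℝ) ≤ ((m * q i : ℕ) : ℝ) := by exact_mod_cast (by omega : 1 ≤ m * q i)
    have h3 : Real.log ((m * q i : ℕ) : ℝ) ≤ (i:ℝ) + 1 := by
      have h4 : ((m * q i : ℕ) : ℝ) ≤ (2:ℝ)^(i+1) := by
        have : m * q i ≤ 2^(i+1) := by nlinarith
        exact_mod_cast this
      have h5 := Real.log_le_log (by linarith) h4
      rw [Real.log_pow] at h5
      have h6 := Real.log_two_lt_d9
      push_cast at h5
      have h7 : (0:ℝ) ≤ i := Nat.cast_nonneg _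
      have h8 : 0 < Real.log 2 := Real.log_pos (by norm_num)
      push_cast
      nlinarith
    have h3' := pow_le_pow_left₀ (Real.log_nonneg hpos) h3 N
    push_cast at h3'
    exact h3'
  · intro j hj1 hj2 hj3
    have hjq : j < (m+1) * q i := by
      have : (m+1) * q i = m * q i + q i := by ring
      omega
    have hj4 : j < 2^(i+1) := lt_of_lt_of_le hjq g3
    have hlog : Nat.log 2 j = i := by
      rw [Nat.log_eq_iff (Or.inr ⟨by norm_num, by omega⟩)]
      exact ⟨by omega, hj4⟩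
    have hdiv : j / q i = m := by
      apply Nat.div_eq_of_lt_le
      · exact hj1.le
      · exact hjq
    have hb : blk q j = (i, m) := by
      unfold blk; rw [hlog, hdiv]
    simp only [Ev, Set.mem_setOf_eq] at hj3
    apply hj3.1
    rw [hb, hx]
    unfold ev
    exact Finset.sum_eq_zero fun _ _ => zero_mul _

end

theorem partB (k : ℕ → ℕ) (hk : Tendsto (fun i : ℕ => (k i : ℝ) * Real.log i / i) atTop (𝓝 0)) :
    ∃ (Ω : Type) (_ : MeasurableSpace Ω) (P : Measure Ω) (E : ℕ → Set Ω),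
      IsProbabilityMeasure P ∧ (∀ n, MeasurableSet (E n)) ∧
      (∀ S : Finset ℕ, (∀ n ∈ S, 3 ≤ n) →
        (∀ i, (S.filter (fun n => 2^i ≤ n ∧ n < 2^(i+1))).card ≤ k i) →
        P.real (⋂ n ∈ S, E n) = ∏ n ∈ S, 1 / Real.log n) ∧
      ∀ᵐ ω ∂P, ∀ N n0 : ℕ, ∃ n ≥ n0, ∃ h : ℕ, (Real.log n) ^ N ≤ h ∧ h ≤ n ∧
        ∀ j, n < j → j ≤ n + h → ω ∉ E j := by
  obtain ⟨q, hq1, hq2, hq3, hq4⟩ := exists_q k hk
  haveI : ∀ i, Fact (q i).Prime := fun i => ⟨hq1 i⟩
  refine ⟨X1 q k × (ℕ → ℝ), inferInstance, MM q k, Ev q k, inferInstance, meas_Ev q k, ?_, gaps q k hq3 hq4⟩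
  intro S hS3 hSk
  have h := prod_formula q k hq2 S hS3 (fun i => by
    refine le_trans (Finset.card_le_card ?_) (hSk i)
    intro n hn
    obtain ⟨hn, hn2⟩ := mem_filter.1 hn
    have h3 := hS3 n hn
    rw [Nat.log_eq_iff (Or.inr ⟨by norm_num, by omega⟩)] at hn2
    exact mem_filter.2 ⟨hn, hn2⟩)
  unfold Measure.real
  rw [h, ENNReal.toReal_prod]
  refine Finset.prod_congr rfl fun n hn => ?_
  apply ENNReal.toReal_ofReal
  have : (1:ℝ) ≤ n := by exact_mod_cast (by have := hS3 n hn; omega : 1 ≤ n)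
  have := Real.log_nonneg this
  positivity

end Pool.Agent.U635.LI
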