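import Mathlib

set_option linter.all false

namespace Pool.Agent.U635.LI

open Finset MeasureTheory

lemma choose_step (s j : ℕ) (μ : ℝ) : ((s:ℝ) - μ) * (s.choose j : ℝ)
    = ((j:ℝ)+1) * (s.choose (j+1) : ℝ) + ((j:ℝ) - μ) * (s.choose j : ℝ) := by
  have h : ((s.choose (j+1) : ℕ) : ℝ) * ((j:ℝ)+1) = (s.choose j : ℝ) * ((s:ℝ) - j) := by
    rcases le_or_gt j s with h | h
    · have := Nat.choose_succ_right_eq s j
      have h2 : ((s.choose (j+1) * (j+1) : ℕ) : ℝ) = ((s.choose j * (s-j) : ℕ) : ℝ) := by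
        exact_mod_cast this
      push_cast [Nat.cast_sub h] at h2
      exact h2
    · rw [Nat.choose_eq_zero_of_lt h, Nat.choose_eq_zero_of_lt (by omega)]; simp
  linear_combination (-1 : ℝ) * h

lemma moments_eq (W : Finset ℕ) (w₁ w₂ : Finset ℕ → ℝ) (μ : ℝ) (k : ℕ)
    (h : ∀ T ∈ W.powerset, T.card ≤ k →
      (∑ U ∈ W.powerset, w₁ U * (if T ⊆ U then 1 else 0)) =
        ∑ U ∈ W.powerset, w₂ U * (if T ⊆ U then 1 else 0)) :
    ∀ m j : ℕ, m + j ≤ k →
      (∑ U ∈ W.powerset, w₁ U * (((U.card:ℝ) - μ)^m * (U.card.choose j : ℝ))) =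
        ∑ U ∈ W.powerset, w₂ U * (((U.card:ℝ) - μ)^m * (U.card.choose j : ℝ)) := by
  intro m
  induction m with
  | zero =>
    intro j hj
    have key : ∀ w : Finset ℕ → ℝ,
        (∑ U ∈ W.powerset, w U * (((U.card:ℝ) - μ)^0 * (U.card.choose j : ℝ)))
          = ∑ T ∈ powersetCard j W, ∑ U ∈ W.powerset, w U * (if T ⊆ U then 1 else 0) := by
      intro w
      rw [Finset.sum_comm]
      refine Finset.sum_congr rfl fun U hU => ?_
      rw [← Finset.mul_sum, pow_zero, one_mul, ← Finset.card_powersetCard j U,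
        Finset.sum_boole]
      congr 2
      congr 1
      ext T
      simp only [mem_powersetCard, mem_filter, mem_powerset] at hU ⊢
      constructor
      · rintro ⟨a, b⟩; exact ⟨⟨a.trans hU, b⟩, a⟩
      · rintro ⟨⟨a, b⟩, c⟩; exact ⟨c, b⟩
    rw [key, key]
    refine Finset.sum_congr rfl fun T hT => ?_
    rw [mem_powersetCard] at hT
    exact h T (mem_powerset.2 hT.1) (by omega)
  | succ m ih =>
    intro j hj
    have key : ∀ w : Finset ℕ → ℝ,
        (∑ U ∈ W.powerset, w U * (((U.card:ℝ) - μ)^(m+1) * (U.card.choose j : ℝ)))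
          = ((j:ℝ)+1) * (∑ U ∈ W.powerset, w U * (((U.card:ℝ) - μ)^m * (U.card.choose (j+1) : ℝ)))
            + ((j:ℝ) - μ) * (∑ U ∈ W.powerset, w U * (((U.card:ℝ) - μ)^m * (U.card.choose j : ℝ))) := by
      intro w
      rw [Finset.mul_sum, Finset.mul_sum, ← Finset.sum_add_distrib]
      refine Finset.sum_congr rfl fun U _ => ?_
      have := choose_step U.card j μ
      rw [pow_succ]
      linear_combination (w U * ((U.card:ℝ) - μ)^m) * this
    rw [key, key, ih (j+1) (by omega), ih j (by omega)]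

/-- the weight of `U` under independent choices. -/
noncomputable def cw (W : Finset ℕ) (p : ℕ → ℝ) (U : Finset ℕ) : ℝ :=
  (∏ i ∈ U, p i) * ∏ i ∈ W \ U, (1 - p i)

lemma cw_sub (W : Finset ℕ) (p : ℕ → ℝ) (T : Finset ℕ) (hT : T ⊆ W) :
    (∑ U ∈ W.powerset, cw W p U * (if T ⊆ U then 1 else 0)) = ∏ i ∈ T, p i := by
  have h := Finset.prod_add p (fun i => if i ∈ T then 0 else 1 - p i) W
  have h1 : (∏ i ∈ W, (p i + (if i ∈ T then 0 else 1 - p i))) = ∏ i ∈ T, p i := by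
    rw [← Finset.prod_sdiff hT]
    have a : (∏ i ∈ W \ T, (p i + (if i ∈ T then 0 else 1 - p i))) = 1 := by
      refine Finset.prod_eq_one fun i hi => ?_
      rw [if_neg (mem_sdiff.1 hi).2]; ring
    rw [a, one_mul]
    refine Finset.prod_congr rfl fun i hi => ?_
    rw [if_pos hi]; ring
  rw [← h1, h]
  refine Finset.sum_congr rfl fun U hU => ?_
  unfold cw
  by_cases hTU : T ⊆ U
  · rw [if_pos hTU, mul_one]
    congr 1
    refine Finset.prod_congr rfl fun i hi => ?_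
    rw [if_neg]
    intro hiT
    exact (mem_sdiff.1 hi).2 (hTU hiT)
  · rw [if_neg hTU, mul_zero]
    obtain ⟨i, hi, hiU⟩ := Finset.not_subset.1 hTU
    rw [Finset.prod_eq_zero (i := i) (s := W \ U) (mem_sdiff.2 ⟨hT hi, hiU⟩) (by rw [if_pos hi]),
      mul_zero]

lemma cw_nonneg (W : Finset ℕ) (p : ℕ → ℝ) (h0 : ∀ i ∈ W, 0 ≤ p i) (h1 : ∀ i ∈ W, p i ≤ 1)
    (U : Finset ℕ) (hU : U ∈ W.powerset) : 0 ≤ cw W p U := by
  unfold cw
  refine mul_nonneg (Finset.prod_nonneg fun i hi => h0 i (mem_powerset.1 hU hi))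
    (Finset.prod_nonneg fun i hi => ?_)
  have := h1 i (mem_sdiff.1 hi).1
  linarith

lemma cw_exp (W : Finset ℕ) (p : ℕ → ℝ) (h0 : ∀ i ∈ W, 0 ≤ p i) (h1 : ∀ i ∈ W, p i ≤ 1)
    (t : ℝ) (ht : |t| ≤ 1) :
    (∑ U ∈ W.powerset, cw W p U * Real.exp (t * ((U.card:ℝ) - ∑ i ∈ W, p i)))
      ≤ Real.exp ((∑ i ∈ W, p i) * t^2) := by
  set μ := ∑ i ∈ W, p i with hμ
  have hμ0 : 0 ≤ μ := Finset.sum_nonneg h0
  have h := Finset.prod_add (fun i => p i * Real.exp t) (fun i => 1 - p i) W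
  have e1 : (∑ U ∈ W.powerset, cw W p U * Real.exp (t * ((U.card:ℝ) - μ)))
      = Real.exp (-(t*μ)) * ∏ i ∈ W, (p i * Real.exp t + (1 - p i)) := by
    rw [h, Finset.mul_sum]
    refine Finset.sum_congr rfl fun U _ => ?_
    unfold cw
    rw [Finset.prod_mul_distrib, Finset.prod_const, ← Real.exp_nat_mul]
    rw [show t * ((U.card:ℝ) - μ) = -(t*μ) + (U.card:ℝ) * t by ring, Real.exp_add]
    ring
  rw [e1]
  have e2 : (∏ i ∈ W, (p i * Real.exp t + (1 - p i))) ≤ Real.exp (μ * (Real.exp t - 1)) := by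
    rw [hμ, Finset.sum_mul, Real.exp_sum]
    refine Finset.prod_le_prod (fun i hi => ?_) (fun i hi => ?_)
    · have := h1 i hi
      have := h0 i hi
      have := Real.exp_pos t
      nlinarith [mul_nonneg (h0 i hi) (Real.exp_pos t).le]
    · have := Real.add_one_le_exp (p i * (Real.exp t - 1))
      linarith
  have e3 : μ * (Real.exp t - 1) + -(t*μ) ≤ μ * t^2 := by
    have := (abs_le.1 (Real.abs_exp_sub_one_sub_id_le ht)).2
    nlinarith
  calc Real.exp (-(t*μ)) * ∏ i ∈ W, (p i * Real.exp t + (1 - p i))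
      ≤ Real.exp (-(t*μ)) * Real.exp (μ * (Real.exp t - 1)) := by
        exact mul_le_mul_of_nonneg_left e2 (Real.exp_pos _).le
    _ = Real.exp (μ * (Real.exp t - 1) + -(t*μ)) := by rw [← Real.exp_add]; ring_nf
    _ ≤ _ := Real.exp_le_exp.2 e3

lemma cw_moment (W : Finset ℕ) (p : ℕ → ℝ) (h0 : ∀ i ∈ W, 0 ≤ p i) (h1 : ∀ i ∈ W, p i ≤ 1)
    (t : ℝ) (ht0 : 0 < t) (ht : t ≤ 1) (r : ℕ) :
    (∑ U ∈ W.powerset, cw W p U * (((U.card:ℝ) - ∑ i ∈ W, p i)^(2*r)))
      ≤ ((2*r).factorial : ℝ) / t^(2*r) * (2 * Real.exp ((∑ i ∈ W, p i) * t^2)) := by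
  set μ := ∑ i ∈ W, p i with hμ
  have htp : 0 < t^(2*r) := pow_pos ht0 _
  have hf : (0:ℝ) < ((2*r).factorial : ℝ) := by exact_mod_cast Nat.factorial_pos _
  have key : ∀ x : ℝ, x^(2*r) ≤ ((2*r).factorial : ℝ) / t^(2*r) *
      (Real.exp (t * x) + Real.exp ((-t) * x)) := by
    intro x
    have a := Real.pow_div_factorial_le_exp |t * x| (abs_nonneg _) (2*r)
    have b : Real.exp |t*x| ≤ Real.exp (t * x) + Real.exp ((-t) * x) := by
      rcases abs_cases (t*x) with ⟨h, _⟩ | ⟨h, _⟩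
      · rw [h]; have := Real.exp_pos ((-t)*x); linarith
      · rw [h, show -(t*x) = (-t)*x by ring]; have := Real.exp_pos (t*x); linarith
    have c : |t*x|^(2*r) = t^(2*r) * x^(2*r) := by
      rw [Even.pow_abs (even_two_mul r), mul_pow]
    rw [c] at a
    have d := a.trans b
    rw [div_le_iff₀ hf] at d
    rw [div_mul_eq_mul_div, le_div_iff₀ htp]
    linarith
  calc (∑ U ∈ W.powerset, cw W p U * (((U.card:ℝ) - μ)^(2*r)))
      ≤ ∑ U ∈ W.powerset, cw W p U * (((2*r).factorial : ℝ) / t^(2*r) *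
        (Real.exp (t * ((U.card:ℝ) - μ)) + Real.exp ((-t) * ((U.card:ℝ) - μ)))) := by
        refine Finset.sum_le_sum fun U hU => ?_
        exact mul_le_mul_of_nonneg_left (key _) (cw_nonneg W p h0 h1 U hU)
    _ = ((2*r).factorial : ℝ) / t^(2*r) *
        ((∑ U ∈ W.powerset, cw W p U * Real.exp (t * ((U.card:ℝ) - μ)))
          + (∑ U ∈ W.powerset, cw W p U * Real.exp ((-t) * ((U.card:ℝ) - μ)))) := by
        rw [← Finset.sum_add_distrib, Finset.mul_sum]
        refine Finset.sum_congr rfl fun U _ => ?_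
        ring
    _ ≤ ((2*r).factorial : ℝ) / t^(2*r) * (Real.exp (μ * t^2) + Real.exp (μ * (-t)^2)) := by
        refine mul_le_mul_of_nonneg_left ?_ (by positivity)
        refine add_le_add (cw_exp W p h0 h1 t ?_) (cw_exp W p h0 h1 (-t) ?_)
        · rw [abs_of_pos ht0]; exact ht
        · rw [abs_neg, abs_of_pos ht0]; exact ht
    _ = _ := by rw [neg_sq]; ring

section prob

variable {Ω : Type*} [MeasurableSpace Ω]

open Classical in
/-- the random set in the window. -/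
noncomputable def A (E : ℕ → Set Ω) (W : Finset ℕ) (ω : Ω) : Finset ℕ := W.filter (fun i => ω ∈ E i)

lemma A_sub (E : ℕ → Set Ω) (W : Finset ℕ) (ω : Ω) : A E W ω ⊆ W := by
  classical
  intro i hi
  exact (Finset.mem_filter.1 hi).1

lemma meas_A (E : ℕ → Set Ω) (hE : ∀ n, MeasurableSet (E n)) (W U : Finset ℕ) (hU : U ⊆ W) :
    MeasurableSet {ω | A E W ω = U} := by
  have : {ω | A E W ω = U} = ⋂ i ∈ W, {ω | ω ∈ E i ↔ i ∈ U} := by
    ext ω
    simp only [Set.mem_setOf_eq, Set.mem_iInter, A]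
    constructor
    · intro h i hi
      rw [← h]; simp [hi]
    · intro h
      ext i
      simp only [mem_filter]
      constructor
      · rintro ⟨a, b⟩; exact (h i a).1 b
      · intro a; exact ⟨hU a, (h i (hU a)).2 a⟩
  rw [this]
  refine Finset.measurableSet_biInter _ fun i _ => ?_
  by_cases hi : i ∈ U
  · have : {ω | ω ∈ E i ↔ i ∈ U} = E i := by ext ω; simp [hi]
    rw [this]; exact hE i
  · have : {ω | ω ∈ E i ↔ i ∈ U} = (E i)ᶜ := by ext ω; simp [hi]
    rw [this]; exact (hE i).compl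

lemma law (P : Measure Ω) [IsProbabilityMeasure P] (E : ℕ → Set Ω) (hE : ∀ n, MeasurableSet (E n))
    (W : Finset ℕ) (Q : Finset ℕ → Prop) [DecidablePred Q] :
    P.real {ω | Q (A E W ω)} =
      ∑ U ∈ W.powerset, P.real {ω | A E W ω = U} * (if Q U then 1 else 0) := by
  have e : {ω | Q (A E W ω)} = ⋃ U ∈ W.powerset.filter Q, {ω | A E W ω = U} := by
    ext ω
    simp only [Set.mem_setOf_eq, Set.mem_iUnion, mem_filter, mem_powerset]
    constructor
    · intro h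
      exact ⟨_, ⟨A_sub E W ω, h⟩, rfl⟩
    · rintro ⟨U, ⟨_, h⟩, h2⟩
      rw [h2]; exact h
  rw [e, measureReal_biUnion_finset]
  · rw [Finset.sum_filter]
    refine Finset.sum_congr rfl fun U _ => ?_
    split_ifs <;> simp
  · intro U _ V _ hUV
    refine Set.disjoint_left.2 fun ω h1 h2 => hUV ?_
    simp only [Set.mem_setOf_eq] at h1 h2
    rw [← h1, ← h2]
  · intro U hU
    exact meas_A E hE W U (mem_powerset.1 (mem_filter.1 hU).1)

lemma tail (P : Measure Ω) [IsProbabilityMeasure P] (E : ℕ → Set Ω) (hE : ∀ n, MeasurableSet (E n))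
    (W : Finset ℕ) (p : ℕ → ℝ) (h0 : ∀ i ∈ W, 0 ≤ p i) (h1 : ∀ i ∈ W, p i ≤ 1) (k r : ℕ)
    (hk : 2 * r ≤ k)
    (hind : ∀ T ⊆ W, T.card ≤ k → P.real (⋂ i ∈ T, E i) = ∏ i ∈ T, p i)
    (hr : (r:ℝ) ≤ ∑ i ∈ W, p i) (hμ : 0 < ∑ i ∈ W, p i) (ε : ℝ) (hε : 0 < ε) :
    P.real {ω | ε * (∑ i ∈ W, p i) ≤ |((A E W ω).card : ℝ) - ∑ i ∈ W, p i|}
      ≤ 2 * (4 * Real.exp 1 * r / (ε^2 * ∑ i ∈ W, p i)) ^ r := by
  classical
  set μ := ∑ i ∈ W, p i with hμd
  rcases Nat.eq_zero_or_pos r with rfl | hrpos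
  · simp only [pow_zero, mul_one]
    have := measureReal_le_one (μ := P) (s := {ω | ε * μ ≤ |((A E W ω).card : ℝ) - μ|})
    linarith
  have hr0 : (0:ℝ) < r := by exact_mod_cast hrpos
  have hagree : ∀ T ∈ W.powerset, T.card ≤ k →
      (∑ U ∈ W.powerset, P.real {ω | A E W ω = U} * (if T ⊆ U then 1 else 0)) =
        ∑ U ∈ W.powerset, cw W p U * (if T ⊆ U then 1 else 0) := by
    intro T hT hTk
    rw [mem_powerset] at hT
    rw [cw_sub W p T hT, ← hind T hT hTk, ← law P E hE W (fun U => T ⊆ U)]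
    congr 1
    ext ω
    simp only [Set.mem_setOf_eq, Set.mem_iInter, A, subset_iff, mem_filter]
    constructor
    · intro h i hi; exact (h hi).2
    · intro h i hi; exact ⟨hT hi, h i hi⟩
  have hmom := moments_eq W _ _ μ k hagree (2*r) 0 (by omega)
  simp only [Nat.choose_zero_right, Nat.cast_one, mul_one] at hmom
  set t : ℝ := Real.sqrt (r/μ) with ht
  have ht0 : 0 < t := Real.sqrt_pos.2 (by positivity)
  have ht1 : t ≤ 1 := by
    rw [ht, Real.sqrt_le_one]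
    rw [div_le_one hμ]; exact hr
  have ht2 : t^2 = r/μ := Real.sq_sqrt (by positivity)
  have hm := cw_moment W p h0 h1 t ht0 ht1 r
  rw [← hμd, ← hmom] at hm
  rw [law P E hE W (fun U => ε * μ ≤ |((U.card : ℝ)) - μ|)]
  have hεμ : 0 < (ε*μ)^(2*r) := by positivity
  have step : (∑ U ∈ W.powerset, P.real {ω | A E W ω = U} *
      (if ε * μ ≤ |((U.card : ℝ)) - μ| then 1 else 0))
      ≤ (∑ U ∈ W.powerset, P.real {ω | A E W ω = U} * ((U.card:ℝ) - μ)^(2*r)) / (ε*μ)^(2*r) := by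
    rw [Finset.sum_div]
    refine Finset.sum_le_sum fun U _ => ?_
    rw [mul_div_assoc]
    refine mul_le_mul_of_nonneg_left ?_ measureReal_nonneg
    split_ifs with hc
    · rw [le_div_iff₀ hεμ, one_mul, ← Even.pow_abs (even_two_mul r) ((U.card:ℝ) - μ)]
      exact pow_le_pow_left₀ (by positivity) hc _
    · have : 0 ≤ ((U.card:ℝ) - μ)^(2*r) := Even.pow_nonneg (even_two_mul r) _
      positivity
  refine step.trans ?_
  refine (div_le_div_of_nonneg_right hm hεμ.le).trans ?_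
  have e1 : μ * t^2 = r := by rw [ht2]; field_simp
  have e2 : t^(2*r) = (r/μ)^r := by rw [pow_mul, ht2]
  have e3 : (ε*μ)^(2*r) = (ε^2*μ^2)^r := by rw [pow_mul, mul_pow]
  have e4 : ((2*r).factorial : ℝ) ≤ (4*r^2:ℝ)^r := by
    have : (2*r).factorial ≤ (2*r)^(2*r) := Nat.factorial_le_pow _
    have h2 : ((2*r).factorial : ℝ) ≤ (2*r:ℝ)^(2*r) := by exact_mod_cast this
    refine h2.trans (le_of_eq ?_)
    rw [pow_mul]; congr 1; ring
  have e5 : Real.exp (r:ℝ) = (Real.exp 1)^r := by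
    rw [← Real.exp_nat_mul, mul_one]
  rw [e1, e2, e3, e5]
  have e6 : ((2*r).factorial : ℝ) / (r/μ)^r * (2 * Real.exp 1 ^ r) / (ε^2*μ^2)^r
      ≤ (4*r^2:ℝ)^r / (r/μ)^r * (2 * Real.exp 1 ^ r) / (ε^2*μ^2)^r := by
    gcongr
  refine e6.trans (le_of_eq ?_)
  have e7 : (4*r^2:ℝ)^r / (r/μ)^r * (2 * Real.exp 1 ^ r) / (ε^2*μ^2)^r
      = 2 * ((4*r^2:ℝ) / (r/μ) * Real.exp 1 / (ε^2*μ^2))^r := by
    rw [div_pow, mul_pow, div_pow]; ring
  rw [e7]
  congr 2
  field_simp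

end prob

end Pool.Agent.U635.LI
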