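import Mathlib
import Pool.Agent.U635.LIa

set_option linter.all false

namespace Pool.Agent.U635.LI

open Finset MeasureTheory Filter Topology

lemma num (κ ε L h μ : ℝ) (hκ : 0 < κ) (hε : 0 < ε) (hL : 0 < L) (h1 : 1 ≤ Real.log L)
    (h2 : 1 ≤ κ * L / (4 * Real.log L)) (h3 : κ ≤ L) (h4 : 4 * Real.exp 1 * κ / ε^2 ≤ L)
    (h5 : L ^ (3 + 12/κ : ℝ) ≤ h) (h6 : h / (2 * L) ≤ μ) :
    ((⌊κ * L / (2 * Real.log L)⌋₊ : ℕ) : ℝ) ≤ μ ∧ 0 < μ ∧
      (4 * Real.exp 1 * ((⌊κ * L / (2 * Real.log L)⌋₊ : ℕ) : ℝ) / (ε^2 * μ)) ^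
        (⌊κ * L / (2 * Real.log L)⌋₊) ≤ Real.exp (-(3 * L)) := by
  set ℓ := Real.log L with hℓ
  set r := ⌊κ * L / (2 * ℓ)⌋₊ with hr
  have hℓ0 : 0 < ℓ := by linarith
  have hL1 : 1 ≤ L := by
    by_contra hc
    push Not at hc
    have := Real.log_nonpos hL.le hc.le
    linarith
  set D : ℝ := L ^ (12/κ : ℝ) with hD
  have hD1 : 1 ≤ D := Real.one_le_rpow hL1 (by positivity)
  have hD0 : 0 < D := by linarith
  have e1 : L ^ (3 + 12/κ : ℝ) = L^3 * D := by
    rw [Real.rpow_add hL, hD]; norm_cast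
  have hμ1 : L^2 * D / 2 ≤ μ := by
    refine le_trans ?_ h6
    rw [le_div_iff₀ (by positivity)]
    rw [e1] at h5
    nlinarith
  have hμ0 : 0 < μ := lt_of_lt_of_le (by positivity) hμ1
  have hr1 : (r:ℝ) ≤ κ * L / (2 * ℓ) := Nat.floor_le (by positivity)
  have hr2 : κ * L / (2 * ℓ) ≤ κ * L / 2 := by
    apply div_le_div_of_nonneg_left (by positivity) (by norm_num) (by linarith)
  have hr3 : (r:ℝ) ≤ κ * L / 2 := hr1.trans hr2
  have hr4 : κ * L / (4 * ℓ) ≤ r := by
    have a := (Nat.lt_floor_add_one (κ * L / (2 * ℓ))).le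
    have b : κ * L / (2 * ℓ) = 2 * (κ * L / (4 * ℓ)) := by field_simp; ring
    rw [← hr] at a
    linarith
  have hr0 : (0:ℝ) ≤ r := Nat.cast_nonneg _
  refine ⟨?_, hμ0, ?_⟩
  · refine hr3.trans (le_trans ?_ hμ1)
    have : κ * L ≤ L^2 * D := by nlinarith [mul_le_mul h3 le_rfl hL.le hL.le, sq_nonneg L]
    linarith
  · have hb : 4 * Real.exp 1 * (r:ℝ) / (ε^2 * μ) ≤ 1/D := by
      rw [div_le_div_iff₀ (by positivity) hD0]
      have hee := Real.exp_pos 1
      have a1 : 4 * Real.exp 1 * κ ≤ L * ε^2 := by rwa [div_le_iff₀ (by positivity)] at h4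
      have a2 : 4 * Real.exp 1 * (r:ℝ) * D ≤ 4 * Real.exp 1 * (κ * L / 2) * D := by gcongr
      have a3 : 4 * Real.exp 1 * (κ * L / 2) * D = (4 * Real.exp 1 * κ) * (L * D / 2) := by ring
      have a4 : (4 * Real.exp 1 * κ) * (L * D / 2) ≤ (L * ε^2) * (L * D / 2) := by
        apply mul_le_mul_of_nonneg_right a1 (by positivity)
      have a5 : (L * ε^2) * (L * D / 2) = ε^2 * (L^2 * D / 2) := by ring
      have a6 : ε^2 * (L^2 * D / 2) ≤ ε^2 * μ := by gcongr
      linarith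
    have hb0 : 0 ≤ 4 * Real.exp 1 * (r:ℝ) / (ε^2 * μ) := by positivity
    refine (pow_le_pow_left₀ hb0 hb r).trans ?_
    have e2 : (1/D)^r = Real.exp (-(12/κ * ℓ * r)) := by
      rw [one_div, inv_pow, Real.exp_neg, hD, ← Real.rpow_natCast, ← Real.rpow_mul hL.le,
        Real.rpow_def_of_pos hL]
      congr 2; ring
    rw [e2]
    apply Real.exp_le_exp.2
    have : 12/κ * ℓ * (κ * L / (4 * ℓ)) ≤ 12/κ * ℓ * r := by gcongr
    have e3 : 12/κ * ℓ * (κ * L / (4 * ℓ)) = 3 * L := by field_simp; ring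
    linarith

lemma mu_bounds (n h : ℕ) (hn : 2 ≤ n) (hh : h ≤ n) :
    (h:ℝ) / (Real.log n + Real.log 2) ≤ ∑ i ∈ Ioc n (n+h), 1 / Real.log i ∧
    ∑ i ∈ Ioc n (n+h), 1 / Real.log i ≤ (h:ℝ) / Real.log n := by
  have hn' : (2:ℝ) ≤ n := by exact_mod_cast hn
  have hlog : 0 < Real.log n := Real.log_pos (by linarith)
  have hl2 : 0 < Real.log 2 := Real.log_pos (by norm_num)
  have hc : (Ioc n (n+h)).card = h := by simp
  constructor
  · have := Finset.card_nsmul_le_sum (Ioc n (n+h)) (fun i : ℕ => 1 / Real.log i)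
      (1 / (Real.log n + Real.log 2)) (fun i hi => by
        rw [mem_Ioc] at hi
        have hi1 : (n:ℝ) < i := by exact_mod_cast hi.1
        have hi2 : (i:ℝ) ≤ n * 2 := by exact_mod_cast (by omega : i ≤ n * 2)
        apply one_div_le_one_div_of_le (Real.log_pos (by linarith))
        rw [← Real.log_mul (by positivity) (by norm_num)]
        exact Real.log_le_log (by linarith) hi2)
    rw [hc, nsmul_eq_mul] at this
    simpa [div_eq_mul_inv] using this
  · have := Finset.sum_le_card_nsmul (Ioc n (n+h)) (fun i : ℕ => 1 / Real.log i)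
      (1 / Real.log n) (fun i hi => by
        rw [mem_Ioc] at hi
        have hi1 : (n:ℝ) < i := by exact_mod_cast hi.1
        exact one_div_le_one_div_of_le hlog (Real.log_le_log (by linarith) hi1.le))
    rw [hc, nsmul_eq_mul] at this
    simpa [div_eq_mul_inv] using this

variable {Ω : Type*} [MeasurableSpace Ω]

/-- the bad event. -/
def bad (E : ℕ → Set Ω) (κ ε : ℝ) (n : ℕ) : Set Ω :=
  ⋃ h ∈ (Finset.Icc 1 n).filter (fun h : ℕ => (Real.log n) ^ (3 + 12/κ : ℝ) ≤ h),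
    {ω | ε * (∑ i ∈ Ioc n (n+h), 1 / Real.log i) ≤
      |((A E (Ioc n (n+h)) ω).card : ℝ) - ∑ i ∈ Ioc n (n+h), 1 / Real.log i|}

lemma ev_conds (κ ε : ℝ) (hκ : 0 < κ) (hε : 0 < ε) : ∀ᶠ n : ℕ in atTop,
    0 < Real.log n ∧ 1 ≤ Real.log (Real.log n) ∧ 1 ≤ κ * Real.log n / (4 * Real.log (Real.log n)) ∧
    κ ≤ Real.log n ∧ 4 * Real.exp 1 * κ / ε^2 ≤ Real.log n ∧ 1/ε ≤ Real.log n ∧ 3 ≤ n := by
  have tl : Tendsto (fun n : ℕ => Real.log n) atTop atTop :=
    Real.tendsto_log_atTop.comp tendsto_natCast_atTop_atTop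
  have tll : Tendsto (fun n : ℕ => Real.log (Real.log n)) atTop atTop :=
    Real.tendsto_log_atTop.comp tl
  have hlittle : ∀ᶠ n : ℕ in atTop, ‖Real.log (Real.log n)‖ ≤ (κ/4) * ‖Real.log n‖ :=
    tl.eventually (Real.isLittleO_log_id_atTop.def (by positivity : (0:ℝ) < κ/4))
  filter_upwards [tl.eventually_gt_atTop 0, tll.eventually_ge_atTop 1, hlittle,
    tl.eventually_ge_atTop κ, tl.eventually_ge_atTop (4 * Real.exp 1 * κ / ε^2),
    tl.eventually_ge_atTop (1/ε), eventually_ge_atTop 3] with n h1 h2 h3 h4 h5 h6 h7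
  refine ⟨h1, h2, ?_, h4, h5, h6, h7⟩
  rw [Real.norm_of_nonneg (by linarith), Real.norm_of_nonneg h1.le] at h3
  rw [le_div_iff₀ (by linarith)]
  linarith

theorem partA_eps (P : Measure Ω) [IsProbabilityMeasure P] (E : ℕ → Set Ω)
    (hE : ∀ n, MeasurableSet (E n)) (κ : ℝ) (hκ : 0 < κ)
    (hind : ∀ᶠ n : ℕ in atTop, ∀ S : Finset ℕ, S ⊆ Ioc n (2*n) →
      (S.card:ℝ) ≤ κ * Real.log n / Real.log (Real.log n) →
      P.real (⋂ i ∈ S, E i) = ∏ i ∈ S, 1 / Real.log i) (ε : ℝ) (hε : 0 < ε) :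
    ∀ᵐ ω ∂P, ∀ᶠ n : ℕ in atTop, ∀ h : ℕ, (Real.log n) ^ (3 + 12/κ : ℝ) ≤ h → h ≤ n →
      |((A E (Ioc n (n+h)) ω).card : ℝ) * Real.log n / h - 1| ≤ 2 * ε := by
  classical
  have hev := (ev_conds κ ε hκ hε).and hind
  obtain ⟨n0, hn0⟩ := eventually_atTop.1 hev
  -- measure of the bad events
  have hmeas : ∀ n ≥ n0, P (bad E κ ε n) ≤ ENNReal.ofReal (2 / (n:ℝ)^2) := by
    intro n hn
    obtain ⟨⟨c0, c1, c2, c3, c4, c5, c6⟩, hin⟩ := hn0 n hn
    have hnpos : (0:ℝ) < n := by exact_mod_cast (by omega : 0 < n)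
    have h3 : Real.exp (-(3 * Real.log n)) = 1 / (n:ℝ)^3 := by
      rw [Real.exp_neg, one_div]; congr 1
      rw [show 3 * Real.log n = ((3:ℕ):ℝ) * Real.log n by norm_num, Real.exp_nat_mul, Real.exp_log hnpos]
    have hone : ∀ h ∈ (Finset.Icc 1 n).filter (fun h : ℕ => (Real.log n) ^ (3 + 12/κ : ℝ) ≤ h),
        P {ω | ε * (∑ i ∈ Ioc n (n+h), 1 / Real.log i) ≤
      |((A E (Ioc n (n+h)) ω).card : ℝ) - ∑ i ∈ Ioc n (n+h), 1 / Real.log i|}
        ≤ ENNReal.ofReal (2 / (n:ℝ)^3) := by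
      intro h hh
      simp only [mem_filter, mem_Icc] at hh
      obtain ⟨mb1, mb2⟩ := mu_bounds n h (by omega) hh.1.2
      have hl2 : Real.log 2 ≤ Real.log n := Real.log_le_log (by norm_num) (by exact_mod_cast (by omega : 2 ≤ n))
      have mb3 : (h:ℝ) / (2 * Real.log n) ≤ ∑ i ∈ Ioc n (n+h), 1 / Real.log i := by
        refine le_trans ?_ mb1
        have hl20 : 0 < Real.log 2 := Real.log_pos (by norm_num)
        apply div_le_div_of_nonneg_left (by positivity) (by linarith) (by linarith)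
      obtain ⟨q1, q2, q3⟩ := num κ ε (Real.log n) h _ hκ hε c0 c1 c2 c3 c4 hh.2 mb3
      have ht := tail P E hE (Ioc n (n+h)) (fun i : ℕ => 1 / Real.log i)
        (fun i hi => by
          rw [mem_Ioc] at hi
          have : (1:ℝ) ≤ i := by exact_mod_cast (by omega : 1 ≤ i)
          have := Real.log_nonneg this
          positivity)
        (fun i hi => by
          rw [mem_Ioc] at hi
          have hi3 : (3:ℝ) ≤ i := by exact_mod_cast (by omega : 3 ≤ i)
          have : 1 ≤ Real.log i := by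
            rw [Real.le_log_iff_exp_le (by linarith)]
            have := Real.exp_one_lt_d9
            linarith
          rw [div_le_one (by linarith)]; exact this)
        (2 * ⌊κ * Real.log n / (2 * Real.log (Real.log n))⌋₊) _ le_rfl
        (fun T hT hTc => by
          refine hin T (hT.trans ?_) ?_
          · intro i hi; simp only [mem_Ioc] at hi ⊢; omega
          · have a : (T.card : ℝ) ≤ 2 * (⌊κ * Real.log n / (2 * Real.log (Real.log n))⌋₊ : ℝ) := by
              exact_mod_cast hTc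
            have b : (⌊κ * Real.log n / (2 * Real.log (Real.log n))⌋₊ : ℝ) ≤ κ * Real.log n / (2 * Real.log (Real.log n)) :=
              Nat.floor_le (by positivity)
            have c : κ * Real.log n / Real.log (Real.log n) = 2 * (κ * Real.log n / (2 * Real.log (Real.log n))) := by
              field_simp
            rw [c]; linarith)
        q1 q2 ε hε
      have ht2 := ht.trans (mul_le_mul_of_nonneg_left q3 (by norm_num))
      rw [h3] at ht2
      rw [← ofReal_measureReal]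
      apply ENNReal.ofReal_le_ofReal
      refine ht2.trans (le_of_eq (by ring))
    unfold bad
    refine (measure_biUnion_finset_le _ _).trans ((Finset.sum_le_sum hone).trans ?_)
    rw [Finset.sum_const, nsmul_eq_mul]
    have hcard : (((Finset.Icc 1 n).filter (fun h : ℕ => (Real.log n) ^ (3 + 12/κ : ℝ) ≤ h)).card : ENNReal) ≤ ENNReal.ofReal n := by
      rw [ENNReal.ofReal_natCast]
      exact_mod_cast (card_filter_le _ _).trans (by simp)
    refine (mul_le_mul_left hcard _).trans ?_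
    rw [← ENNReal.ofReal_mul (by positivity)]
    apply ENNReal.ofReal_le_ofReal
    apply le_of_eq
    field_simp
  have hsum : ∑' n : ℕ, P (if n0 ≤ n then bad E κ ε n else ∅) ≠ ⊤ := by
    have hs : Summable (fun n : ℕ => 2 / (n:ℝ)^2) := by
      have := (Real.summable_one_div_nat_pow (p := 2)).2 (by norm_num)
      simpa [div_eq_mul_inv] using this.mul_left 2
    refine ne_top_of_le_ne_top hs.tsum_ofReal_ne_top (ENNReal.tsum_le_tsum fun n => ?_)
    split_ifs with hn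
    · exact hmeas n hn
    · simp
  have hbc := ae_eventually_notMem hsum
  filter_upwards [hbc] with ω hω
  filter_upwards [hω, eventually_ge_atTop n0] with n h1 hn h hh1 hh2
  rw [if_pos hn] at h1
  obtain ⟨⟨c0, c1, c2, c3, c4, c5, c6⟩, hin⟩ := hn0 n hn
  have hhpos : (0:ℝ) < h := lt_of_lt_of_le (Real.rpow_pos_of_pos c0 _) hh1
  have hh3 : 1 ≤ h := by
    have : 0 < h := by exact_mod_cast hhpos
    omega
  simp only [bad, Set.mem_iUnion, not_exists, Set.mem_setOf_eq, not_le] at h1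
  have h2 := h1 h (by simp only [mem_filter, mem_Icc]; exact ⟨⟨hh3, hh2⟩, hh1⟩)
  obtain ⟨mb1, mb2⟩ := mu_bounds n h (by omega) hh2
  set μ := ∑ i ∈ Ioc n (n+h), 1 / Real.log i with hμ
  set a : ℝ := ((A E (Ioc n (n+h)) ω).card : ℝ) with ha
  have hl20 : 0 < Real.log 2 := Real.log_pos (by norm_num)
  have hl21 : Real.log 2 ≤ 1 := by have := Real.log_two_lt_d9; linarith
  have u1 : μ * Real.log n / h ≤ 1 := by
    rw [div_le_one hhpos]
    rwa [le_div_iff₀ c0] at mb2
  have u2 : 1 - ε ≤ μ * Real.log n / h := by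
    rw [le_div_iff₀ hhpos]
    rw [div_le_iff₀ (by linarith)] at mb1
    have hμ0 : 0 ≤ μ := le_trans (by positivity) ((div_le_iff₀ (by linarith : 0 < Real.log n + Real.log 2)).2 mb1)
    have e1 : μ * Real.log n = μ * (Real.log n + Real.log 2) - μ * Real.log 2 := by ring
    have e2 : μ ≤ h * ε := by
      refine mb2.trans ?_
      rw [div_le_iff₀ c0]
      have : 1 ≤ ε * Real.log n := by rwa [div_le_iff₀' hε] at c5
      nlinarith
    nlinarith
  have u3 : |a - μ| * Real.log n / h ≤ ε := by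
    have : |a - μ| * Real.log n / h ≤ (ε * μ) * Real.log n / h := by gcongr
    refine this.trans ?_
    rw [show ε * μ * Real.log n / h = ε * (μ * Real.log n / h) by ring]
    nlinarith
  have e : a * Real.log n / h - 1 = (a - μ) * Real.log n / h + (μ * Real.log n / h - 1) := by ring
  rw [e]
  refine (abs_add_le _ _).trans ?_
  have u4 : |(a - μ) * Real.log n / h| = |a - μ| * Real.log n / h := by
    rw [abs_div, abs_mul, abs_of_pos c0, abs_of_pos hhpos]
  rw [u4]
  have u5 : |μ * Real.log n / h - 1| ≤ ε := by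
    rw [abs_le]; constructor <;> linarith
  linarith

theorem partA (P : Measure Ω) [IsProbabilityMeasure P] (E : ℕ → Set Ω)
    (hE : ∀ n, MeasurableSet (E n)) (κ : ℝ) (hκ : 0 < κ)
    (hind : ∀ᶠ n : ℕ in atTop, ∀ S : Finset ℕ, S ⊆ Ioc n (2*n) →
      (S.card:ℝ) ≤ κ * Real.log n / Real.log (Real.log n) →
      P.real (⋂ i ∈ S, E i) = ∏ i ∈ S, 1 / Real.log i) :
    ∀ᵐ ω ∂P, ∀ ε > 0, ∀ᶠ n : ℕ in atTop, ∀ h : ℕ, (Real.log n) ^ (3 + 12/κ : ℝ) ≤ h → h ≤ n →
      |((A E (Ioc n (n+h)) ω).card : ℝ) * Real.log n / h - 1| ≤ ε := by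
  have h := fun m : ℕ => partA_eps P E hE κ hκ hind (1 / ((m:ℝ)+1)) (by positivity)
  rw [← ae_all_iff] at h
  filter_upwards [h] with ω hω ε hε
  obtain ⟨m, hm⟩ := exists_nat_gt (2/ε)
  filter_upwards [hω m] with n hn h h1 h2
  refine (hn h h1 h2).trans ?_
  rw [mul_one_div, div_le_iff₀ (by positivity)]
  rw [div_lt_iff₀ hε] at hm
  nlinarith

end Pool.Agent.U635.LI
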