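import Mathlib
import Pool.Agent.U635.LIa2

set_option linter.all false

namespace Pool.Agent.U635.LI

open Finset MeasureTheory Filter Topology

lemma num2 (ε L h μ : ℝ) (K : ℕ) (hε : 0 < ε) (hK : 2 ≤ K) (hL4 : 4 ≤ L)
    (h4 : 8 * Real.exp 1 / ε^2 * Real.exp 4 ≤ L)
    (h5 : L ^ 3 * Real.exp (9 * L / K) ≤ h) (h6 : h / (2 * L) ≤ μ) :
    ((min (K/2) ⌊L⌋₊ : ℕ) : ℝ) ≤ μ ∧ 0 < μ ∧
      (4 * Real.exp 1 * ((min (K/2) ⌊L⌋₊ : ℕ) : ℝ) / (ε^2 * μ)) ^ (min (K/2) ⌊L⌋₊)
        ≤ Real.exp (-(3 * L)) := by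
  set r := min (K/2) ⌊L⌋₊ with hr
  have hL : 0 < L := by linarith
  have hK0 : (0:ℝ) < K := by exact_mod_cast (by omega : 0 < K)
  set X : ℝ := Real.exp (9 * L / K) with hX
  have hX1 : 1 ≤ X := Real.one_le_exp (by positivity)
  have hX0 : 0 < X := by linarith
  have hμ1 : L^2 * X / 2 ≤ μ := by
    refine le_trans ?_ h6
    rw [le_div_iff₀ (by positivity)]
    nlinarith
  have hμ0 : 0 < μ := lt_of_lt_of_le (by positivity) hμ1
  have hr1 : (r:ℝ) ≤ L := by
    have : (r:ℝ) ≤ (⌊L⌋₊ : ℝ) := by exact_mod_cast min_le_right _ _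
    exact this.trans (Nat.floor_le hL.le)
  have hr0 : (0:ℝ) ≤ r := Nat.cast_nonneg _
  refine ⟨?_, hμ0, ?_⟩
  · refine hr1.trans (le_trans ?_ hμ1)
    have : L^2 * 1 ≤ L^2 * X := by gcongr
    nlinarith
  · have hb : 4 * Real.exp 1 * (r:ℝ) / (ε^2 * μ) ≤ Real.exp (-4 - 9 * L / K) := by
      have hee := Real.exp_pos 1
      have he4 := Real.exp_pos 4
      rw [Real.exp_sub, Real.exp_neg, ← hX, div_le_div_iff₀ (by positivity) hX0]
      have a1 : 8 * Real.exp 1 * Real.exp 4 ≤ L * ε^2 := by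
        rw [div_mul_eq_mul_div, div_le_iff₀ (by positivity)] at h4; exact h4
      have a1' : 8 * Real.exp 1 ≤ (L * ε^2) * (Real.exp 4)⁻¹ := by
        rw [le_mul_inv_iff₀ he4]; exact a1
      have a2 : 4 * Real.exp 1 * (r:ℝ) * X ≤ 4 * Real.exp 1 * L * X := by gcongr
      have a3 : 4 * Real.exp 1 * L * X = (8 * Real.exp 1) * (L * X / 2) := by ring
      have a4 : (8 * Real.exp 1) * (L * X / 2) ≤ ((L * ε^2) * (Real.exp 4)⁻¹) * (L * X / 2) := by
        apply mul_le_mul_of_nonneg_right a1' (by positivity)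
      have a5 : ((L * ε^2) * (Real.exp 4)⁻¹) * (L * X / 2) = (Real.exp 4)⁻¹ * (ε^2 * (L^2 * X / 2)) := by ring
      have a6 : (Real.exp 4)⁻¹ * (ε^2 * (L^2 * X / 2)) ≤ (Real.exp 4)⁻¹ * (ε^2 * μ) := by gcongr
      linarith
    have hb0 : 0 ≤ 4 * Real.exp 1 * (r:ℝ) / (ε^2 * μ) := by positivity
    refine (pow_le_pow_left₀ hb0 hb r).trans ?_
    rw [← Real.exp_nat_mul]
    apply Real.exp_le_exp.2
    have h9 : 0 ≤ 9 * L / K := by positivity
    rcases le_total (K/2) ⌊L⌋₊ with hc | hc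
    · have hrK : r = K/2 := min_eq_left hc
      have h3 : K ≤ 3 * r := by omega
      have h3' : (K:ℝ) ≤ 3 * r := by exact_mod_cast h3
      have : 3 * L ≤ r * (9 * L / K) := by
        rw [mul_div_assoc', le_div_iff₀ hK0]
        nlinarith
      nlinarith
    · have hrL : r = ⌊L⌋₊ := min_eq_right hc
      have h3 : L - 1 ≤ r := by
        rw [hrL]; have := (Nat.lt_floor_add_one L).le; linarith
      have : 0 ≤ r * (9 * L / K) := by positivity
      nlinarith

/-- threshold. -/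
noncomputable def thr (k : ℕ → ℕ) (n : ℕ) : ℝ := (Real.log n) ^ 3 * Real.exp (9 * Real.log n / k n)

variable {Ω : Type*} [MeasurableSpace Ω]

/-- the bad event. -/
def bad2 (E : ℕ → Set Ω) (k : ℕ → ℕ) (ε : ℝ) (n : ℕ) : Set Ω :=
  ⋃ h ∈ (Finset.Icc 1 n).filter (fun h : ℕ => thr k n ≤ h),
    {ω | ε * (∑ i ∈ Ioc n (n+h), 1 / Real.log i) ≤
      |((A E (Ioc n (n+h)) ω).card : ℝ) - ∑ i ∈ Ioc n (n+h), 1 / Real.log i|}

lemma ev_conds2 (ε : ℝ) (hε : 0 < ε) : ∀ᶠ n : ℕ in atTop,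
    4 ≤ Real.log n ∧ 8 * Real.exp 1 / ε^2 * Real.exp 4 ≤ Real.log n ∧ 1/ε ≤ Real.log n ∧ 3 ≤ n := by
  have tl : Tendsto (fun n : ℕ => Real.log n) atTop atTop :=
    Real.tendsto_log_atTop.comp tendsto_natCast_atTop_atTop
  filter_upwards [tl.eventually_ge_atTop 4, tl.eventually_ge_atTop (8 * Real.exp 1 / ε^2 * Real.exp 4),
    tl.eventually_ge_atTop (1/ε), eventually_ge_atTop 3] with n h1 h2 h3 h4
  exact ⟨h1, h2, h3, h4⟩

theorem partA2_eps (P : Measure Ω) [IsProbabilityMeasure P] (E : ℕ → Set Ω)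
    (hE : ∀ n, MeasurableSet (E n)) (k : ℕ → ℕ)
    (hind : ∀ᶠ n : ℕ in atTop, 2 ≤ k n ∧ ∀ S : Finset ℕ, S ⊆ Ioc n (2*n) → S.card ≤ k n →
      P.real (⋂ i ∈ S, E i) = ∏ i ∈ S, 1 / Real.log i) (ε : ℝ) (hε : 0 < ε) :
    ∀ᵐ ω ∂P, ∀ᶠ n : ℕ in atTop, ∀ h : ℕ, thr k n ≤ h → h ≤ n →
      |((A E (Ioc n (n+h)) ω).card : ℝ) * Real.log n / h - 1| ≤ 2 * ε := by
  classical
  have hev := (ev_conds2 ε hε).and hind
  obtain ⟨n0, hn0⟩ := eventually_atTop.1 hev
  -- measure of the bad events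
  have hmeas : ∀ n ≥ n0, P (bad2 E k ε n) ≤ ENNReal.ofReal (2 / (n:ℝ)^2) := by
    intro n hn
    obtain ⟨⟨c0', c1, c5, c6⟩, hk2, hin⟩ := hn0 n hn
    have c0 : 0 < Real.log n := by linarith
    have hnpos : (0:ℝ) < n := by exact_mod_cast (by omega : 0 < n)
    have h3 : Real.exp (-(3 * Real.log n)) = 1 / (n:ℝ)^3 := by
      rw [Real.exp_neg, one_div]; congr 1
      rw [show 3 * Real.log n = ((3:ℕ):ℝ) * Real.log n by norm_num, Real.exp_nat_mul, Real.exp_log hnpos]
    have hone : ∀ h ∈ (Finset.Icc 1 n).filter (fun h : ℕ => thr k n ≤ h),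
        P {ω | ε * (∑ i ∈ Ioc n (n+h), 1 / Real.log i) ≤
      |((A E (Ioc n (n+h)) ω).card : ℝ) - ∑ i ∈ Ioc n (n+h), 1 / Real.log i|}
        ≤ ENNReal.ofReal (2 / (n:ℝ)^3) := by
      intro h hh
      simp only [mem_filter, mem_Icc] at hh
      obtain ⟨mb1, mb2⟩ := mu_bounds n h (by omega) hh.1.2
      have hl2 : Real.log 2 ≤ Real.log n := Real.log_le_log (by norm_num) (by exact_mod_cast (by omega : 2 ≤ n))
      have mb3 : (h:ℝ) / (2 * Real.log n) ≤ ∑ i ∈ Ioc n (n+h), 1 / Real.log i := by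
        refine le_trans ?_ mb1
        have hl20 : 0 < Real.log 2 := Real.log_pos (by norm_num)
        apply div_le_div_of_nonneg_left (by positivity) (by linarith) (by linarith)
      obtain ⟨q1, q2, q3⟩ := num2 ε (Real.log n) h _ (k n) hε hk2 c0' c1 hh.2 mb3
      have ht := tail P E hE (Ioc n (n+h)) (fun i : ℕ => 1 / Real.log i)
        (fun i hi => by
          rw [mem_Ioc] at hi
          have : (1:ℝ) ≤ i := by exact_mod_cast (by omega : 1 ≤ i)
          have := Real.log_nonneg this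
          positivity)
        (fun i hi => by
          rw [mem_Ioc] at hi
          have hi3 : (3:ℝ) ≤ i := by exact_mod_cast (by omega : 3 ≤ i)
          have : 1 ≤ Real.log i := by
            rw [Real.le_log_iff_exp_le (by linarith)]
            have := Real.exp_one_lt_d9
            linarith
          rw [div_le_one (by linarith)]; exact this)
        (k n) (min (k n / 2) ⌊Real.log n⌋₊) (by omega)
        (fun T hT hTc => by
          refine hin T (hT.trans ?_) hTc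
          intro i hi; simp only [mem_Ioc] at hi ⊢; omega)
        q1 q2 ε hε
      have ht2 := ht.trans (mul_le_mul_of_nonneg_left q3 (by norm_num))
      rw [h3] at ht2
      rw [← ofReal_measureReal]
      apply ENNReal.ofReal_le_ofReal
      refine ht2.trans (le_of_eq (by ring))
    unfold bad2
    refine (measure_biUnion_finset_le _ _).trans ((Finset.sum_le_sum hone).trans ?_)
    rw [Finset.sum_const, nsmul_eq_mul]
    have hcard : (((Finset.Icc 1 n).filter (fun h : ℕ => thr k n ≤ h)).card : ENNReal) ≤ ENNReal.ofReal n := by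
      rw [ENNReal.ofReal_natCast]
      exact_mod_cast (card_filter_le _ _).trans (by simp)
    refine (mul_le_mul_left hcard _).trans ?_
    rw [← ENNReal.ofReal_mul (by positivity)]
    apply ENNReal.ofReal_le_ofReal
    apply le_of_eq
    field_simp
  have hsum : ∑' n : ℕ, P (if n0 ≤ n then bad2 E k ε n else ∅) ≠ ⊤ := by
    have hs : Summable (fun n : ℕ => 2 / (n:ℝ)^2) := by
      have := (Real.summable_one_div_nat_pow (p := 2)).2 (by norm_num)
      simpa [div_eq_mul_inv] using this.mul_left 2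
    refine ne_top_of_le_ne_top hs.tsum_ofReal_ne_top (ENNReal.tsum_le_tsum fun n => ?_)
    split_ifs with hn
    · exact hmeas n hn
    · simp
  have hbc := ae_eventually_notMem hsum
  filter_upwards [hbc] with ω hω
  filter_upwards [hω, eventually_ge_atTop n0] with n h1 hn h hh1 hh2
  rw [if_pos hn] at h1
  obtain ⟨⟨c0', c1, c5, c6⟩, hk2, hin⟩ := hn0 n hn
  have c0 : 0 < Real.log n := by linarith
  have hhpos : (0:ℝ) < h := lt_of_lt_of_le (by unfold thr; positivity) hh1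
  have hh3 : 1 ≤ h := by
    have : 0 < h := by exact_mod_cast hhpos
    omega
  simp only [bad2, Set.mem_iUnion, not_exists, Set.mem_setOf_eq, not_le] at h1
  have h2 := h1 h (by simp only [mem_filter, mem_Icc]; exact ⟨⟨hh3, hh2⟩, hh1⟩)
  obtain ⟨mb1, mb2⟩ := mu_bounds n h (by omega) hh2
  set μ := ∑ i ∈ Ioc n (n+h), 1 / Real.log i with hμ
  set a : ℝ := ((A E (Ioc n (n+h)) ω).card : ℝ) with ha
  have hl20 : 0 < Real.log 2 := Real.log_pos (by norm_num)
  have hl21 : Real.log 2 ≤ 1 := by have := Real.log_two_lt_d9; linarith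
  have u1 : μ * Real.log n / h ≤ 1 := by
    rw [div_le_one hhpos]
    rwa [le_div_iff₀ c0] at mb2
  have u2 : 1 - ε ≤ μ * Real.log n / h := by
    rw [le_div_iff₀ hhpos]
    rw [div_le_iff₀ (by linarith)] at mb1
    have hμ0 : 0 ≤ μ := le_trans (by positivity) ((div_le_iff₀ (by linarith : 0 < Real.log n + Real.log 2)).2 mb1)
    have e1 : μ * Real.log n = μ * (Real.log n + Real.log 2) - μ * Real.log 2 := by ring
    have e2 : μ ≤ h * ε := by
      refine mb2.trans ?_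
      rw [div_le_iff₀ c0]
      have : 1 ≤ ε * Real.log n := by rwa [div_le_iff₀' hε] at c5
      nlinarith
    nlinarith
  have u3 : |a - μ| * Real.log n / h ≤ ε := by
    have : |a - μ| * Real.log n / h ≤ (ε * μ) * Real.log n / h := by gcongr
    refine this.trans ?_
    rw [show ε * μ * Real.log n / h = ε * (μ * Real.log n / h) by ring]
    nlinarith
  have e : a * Real.log n / h - 1 = (a - μ) * Real.log n / h + (μ * Real.log n / h - 1) := by ring
  rw [e]
  refine (abs_add_le _ _).trans ?_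
  have u4 : |(a - μ) * Real.log n / h| = |a - μ| * Real.log n / h := by
    rw [abs_div, abs_mul, abs_of_pos c0, abs_of_pos hhpos]
  rw [u4]
  have u5 : |μ * Real.log n / h - 1| ≤ ε := by
    rw [abs_le]; constructor <;> linarith
  linarith

theorem partA2 (P : Measure Ω) [IsProbabilityMeasure P] (E : ℕ → Set Ω)
    (hE : ∀ n, MeasurableSet (E n)) (k : ℕ → ℕ)
    (hind : ∀ᶠ n : ℕ in atTop, 2 ≤ k n ∧ ∀ S : Finset ℕ, S ⊆ Ioc n (2*n) → S.card ≤ k n →
      P.real (⋂ i ∈ S, E i) = ∏ i ∈ S, 1 / Real.log i) :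
    ∀ᵐ ω ∂P, ∀ ε > 0, ∀ᶠ n : ℕ in atTop, ∀ h : ℕ, thr k n ≤ h → h ≤ n →
      |((A E (Ioc n (n+h)) ω).card : ℝ) * Real.log n / h - 1| ≤ ε := by
  have h := fun m : ℕ => partA2_eps P E hE k hind (1 / ((m:ℝ)+1)) (by positivity)
  rw [← ae_all_iff] at h
  filter_upwards [h] with ω hω ε hε
  obtain ⟨m, hm⟩ := exists_nat_gt (2/ε)
  filter_upwards [hω m] with n hn h h1 h2
  refine (hn h h1 h2).trans ?_
  rw [mul_one_div, div_le_iff₀ (by positivity)]
  rw [div_lt_iff₀ hε] at hm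
  nlinarith

end Pool.Agent.U635.LI
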