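import Mathlib
import Pool.Agent.U635.LIc

set_option linter.all false

namespace Pool.Agent.U635.LI

open Finset MeasureTheory Filter Topology

/-- `R(x,y)` for a set of integers. -/
noncomputable def R (B : Set ℕ) (x y : ℝ) : ℝ :=
  (({n : ℕ | n ∈ B ∧ x < n ∧ (n:ℝ) ≤ x + y}.ncard : ℕ) : ℝ) / (y / Real.log x)

/-- the question `Q1` for a set of integers. -/
def Q1For (B : Set ℕ) : Prop :=
  ∀ ε : ℝ, 0 < ε → ∃ N : ℝ, 1 < N ∧ ∀ x y : ℝ, N ≤ x → Real.log x ^ N ≤ y → y ≤ x →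
    |R B x y - 1| ≤ ε

open Classical in
/-- counting in windows. -/
noncomputable def cn (B : Set ℕ) (n h : ℕ) : ℕ := ((Ioc n (n+h)).filter (fun m => m ∈ B)).card

lemma ncard_eq (B : Set ℕ) (x y : ℝ) (hx : 0 ≤ x) (hy : 0 ≤ y) :
    {n : ℕ | n ∈ B ∧ x < n ∧ (n:ℝ) ≤ x + y}.ncard = cn B ⌊x⌋₊ (⌊x+y⌋₊ - ⌊x⌋₊) := by
  classical
  have hle : ⌊x⌋₊ ≤ ⌊x+y⌋₊ := Nat.floor_le_floor (by linarith)
  unfold cn
  rw [← Set.ncard_coe_finset]
  congr 1
  ext m
  simp only [Set.mem_setOf_eq, Finset.coe_filter, mem_Ioc]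
  rw [Nat.add_sub_cancel' hle, ← Nat.floor_lt hx, Nat.le_floor_iff (by linarith)]
  tauto

lemma cn_mono (B : Set ℕ) (n h h' : ℕ) (h1 : h ≤ h') : cn B n h ≤ cn B n h' := by
  classical
  unfold cn
  refine Finset.card_le_card (Finset.filter_subset_filter _ ?_)
  intro m hm
  simp only [mem_Ioc] at hm ⊢
  omega

lemma cn_succ (B : Set ℕ) (n h : ℕ) : cn B n (h+1) ≤ cn B n h + 1 := by
  classical
  unfold cn
  have : (Ioc n (n+(h+1))).filter (fun m => m ∈ B) ⊆ insert (n+h+1) ((Ioc n (n+h)).filter (fun m => m ∈ B)) := by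
    intro m hm
    simp only [mem_filter, mem_Ioc, mem_insert] at hm ⊢
    by_cases hh : m = n+h+1
    · exact Or.inl hh
    · exact Or.inr ⟨⟨hm.1.1, by omega⟩, hm.2⟩
  exact (Finset.card_le_card this).trans (Finset.card_insert_le _ _)

set_option maxHeartbeats 2000000 in
theorem real_form (B : Set ℕ) (k : ℕ → ℕ)
    (hB : ∀ ε > 0, ∀ᶠ n : ℕ in atTop, ∀ h : ℕ, thr k n ≤ h → h ≤ n →
      |(cn B n h : ℝ) * Real.log n / h - 1| ≤ ε) :
    ∀ ε > 0, ∀ᶠ x : ℝ in atTop, ∀ y : ℝ,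
      (Real.log x) ^ 4 * Real.exp (9 * Real.log x / k ⌊x⌋₊) ≤ y → y ≤ x → |R B x y - 1| ≤ ε := by
  intro ε hε
  set δ : ℝ := min 1 (ε/8) with hδ
  have hδ0 : 0 < δ := lt_min one_pos (by positivity)
  have hδ1 : δ ≤ 1 := min_le_left _ _
  have hδε : 8 * δ ≤ ε := by have := min_le_right 1 (ε/8); rw [← hδ] at this; linarith
  have hfl : Tendsto (fun x : ℝ => ⌊x⌋₊) atTop atTop := tendsto_nat_floor_atTop
  filter_upwards [hfl.eventually (hB δ hδ0), Real.tendsto_log_atTop.eventually_ge_atTop (1/δ + 3),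
    eventually_ge_atTop 3] with x hx hlx hx3 y hy1 hy2
  set n := ⌊x⌋₊ with hn
  set L := Real.log x with hL
  have hinvδ : 1 ≤ 1/δ := by rw [le_div_iff₀ hδ0]; linarith
  have hL4 : 4 ≤ L := by linarith
  have hx0 : 0 ≤ x := by linarith
  set τ : ℝ := L^3 * Real.exp (9 * L / k n) with hτ
  have hexp1 : 1 ≤ Real.exp (9 * L / k n) := Real.one_le_exp (by positivity)
  have hL3 : 1 ≤ L^3 := one_le_pow₀ (by linarith)
  have hτ1 : 1 ≤ τ := one_le_mul_of_one_le_of_one_le hL3 hexp1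
  have hyτ : L * τ ≤ y := by
    refine le_trans (le_of_eq ?_) hy1
    rw [hτ]; ring
  have hy4 : L^4 ≤ y := by
    refine le_trans ?_ hy1
    exact le_mul_of_one_le_right (by positivity) hexp1
  have hyL : L ≤ y := (le_mul_of_one_le_right (by linarith) hτ1).trans hyτ
  have hy0 : 0 < y := by linarith
  have hnx : (n:ℝ) ≤ x := Nat.floor_le hx0
  have hxn : x < n + 1 := Nat.lt_floor_add_one x
  have hn2 : (2:ℝ) ≤ n := by linarith
  have hn0 : (0:ℝ) < n := by linarith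
  have hnL : Real.log n ≤ L := Real.log_le_log hn0 hnx
  have hl21 : Real.log 2 ≤ 1 := by have := Real.log_two_lt_d9; linarith
  have hLn : L ≤ Real.log n + 1 := by
    have h1 : L ≤ Real.log (n * 2) := Real.log_le_log (by linarith) (by linarith)
    rw [Real.log_mul (by positivity) (by norm_num)] at h1
    linarith
  have hln0 : 0 < Real.log n := by linarith
  have hratio : L ≤ (1+δ) * Real.log n := by
    have h1 : 1/δ ≤ Real.log n := by linarith
    have h2 : 1 ≤ δ * Real.log n := by rwa [div_le_iff₀' hδ0] at h1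
    linarith
  -- the integer window
  set h1 := ⌊x+y⌋₊ - n with hh1
  have hle : n ≤ ⌊x+y⌋₊ := Nat.floor_le_floor (by linarith)
  have hxy1 : (⌊x+y⌋₊ : ℝ) ≤ x + y := Nat.floor_le (by linarith)
  have hxy2 : x + y < ⌊x+y⌋₊ + 1 := Nat.lt_floor_add_one _
  have hh1r : (h1 : ℝ) = ⌊x+y⌋₊ - n := by rw [hh1, Nat.cast_sub hle]
  have hh1n : h1 ≤ n + 1 := by
    have : (⌊x+y⌋₊ : ℝ) < 2 * n + 2 := by linarith
    have : ⌊x+y⌋₊ < 2 * n + 2 := by exact_mod_cast this
    omega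
  set h := min h1 n with hhdef
  have hhn : h ≤ n := min_le_right _ _
  have hhh1 : h ≤ h1 := min_le_left _ _
  have hh1h : h1 ≤ h + 1 := by omega
  have b1 : (h:ℝ) ≤ y + 1 := by
    have : (h:ℝ) ≤ h1 := by exact_mod_cast hhh1
    linarith
  have b2 : y - 2 ≤ (h:ℝ) := by
    have : (h1:ℝ) ≤ h + 1 := by exact_mod_cast hh1h
    linarith
  have hthr : thr k n ≤ h := by
    have e1 : thr k n ≤ τ := by
      unfold thr
      rw [hτ]
      gcongr
    have e2 : 4 * τ ≤ L * τ := mul_le_mul_of_nonneg_right hL4 (by linarith)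
    linarith
  have hmain := hx h hthr hhn
  set c : ℝ := (cn B n h : ℝ) with hc
  have hcount1 : c ≤ (cn B n h1 : ℝ) := by
    rw [hc]; exact Nat.cast_le.2 (cn_mono B n h h1 hhh1)
  have hcount2 : (cn B n h1 : ℝ) ≤ c + 1 := by
    have h9 : cn B n h1 ≤ cn B n h + 1 := (cn_mono B n h1 (h+1) hh1h).trans (cn_succ B n h)
    have h10 : ((cn B n h1 : ℕ) : ℝ) ≤ ((cn B n h + 1 : ℕ) : ℝ) := Nat.cast_le.2 h9
    rw [hc]; push_cast at h10; exact h10
  have hR : R B x y = (cn B n h1 : ℝ) * L / y := by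
    unfold R
    rw [ncard_eq B x y hx0 hy0.le, ← hn, ← hh1, ← hL]
    field_simp
  have hh0 : (0:ℝ) < h := by linarith
  rw [abs_le] at hmain
  have c1 : c * Real.log n ≤ (1+δ) * h := by
    have := hmain.2
    rw [sub_le_iff_le_add, div_le_iff₀ hh0] at this
    linarith
  have c2 : (1-δ) * h ≤ c * Real.log n := by
    have h3 : 1 - δ ≤ c * Real.log n / h := by linarith [hmain.1]
    rwa [le_div_iff₀ hh0] at h3
  have hc0 : 0 ≤ c := Nat.cast_nonneg _
  have hLδ : 1 ≤ δ * L := by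
    have h1 : 1/δ ≤ L := by linarith
    rwa [div_le_iff₀' hδ0] at h1
  have d1 : L ≤ δ * y := by
    have hLL : 1 ≤ L * L := by
      calc (1:ℝ) ≤ 4 * 4 := by norm_num
        _ ≤ L * L := mul_le_mul hL4 hL4 (by norm_num) (by linarith)
    have hL2 : L * L ≤ y := by
      refine le_trans ?_ hy4
      have : L^4 = (L*L)*(L*L) := by ring
      rw [this]
      exact le_mul_of_one_le_left (by positivity) hLL
    calc L = 1 * L := (one_mul L).symm
      _ ≤ (δ * L) * L := mul_le_mul_of_nonneg_right hLδ (by linarith)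
      _ = δ * (L * L) := by ring
      _ ≤ δ * y := mul_le_mul_of_nonneg_left hL2 hδ0.le
  have d2 : 2 ≤ δ * y := by linarith
  rw [hR, abs_le]
  constructor
  · suffices hs : 1 - ε ≤ (cn B n h1 : ℝ) * L / y by linarith
    rw [le_div_iff₀ hy0]
    -- (1 - ε) y ≤ count * L
    have e1 : (1-δ) * h ≤ (cn B n h1 : ℝ) * L := by
      calc (1-δ) * h ≤ c * Real.log n := c2
        _ ≤ c * L := by gcongr
        _ ≤ _ := by gcongr
    have e2 : (1-δ) * (y - 2) ≤ (1-δ) * h := by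
      apply mul_le_mul_of_nonneg_left b2; linarith
    have e3 : (1-δ) * (y - 2) = y - δ * y - 2 + 2 * δ := by ring
    have e4 : 8 * δ * y ≤ ε * y := mul_le_mul_of_nonneg_right hδε hy0.le
    have e5 : 0 ≤ δ * y := by positivity
    have e6 : (1 - ε) * y = y - ε * y := by ring
    first | linarith | nlinarith
  · rw [sub_le_iff_le_add, div_le_iff₀ hy0]
    have e0 : c * L ≤ (1+δ) * ((1+δ) * h) := by
      calc c * L ≤ c * ((1+δ) * Real.log n) := by gcongr
        _ = (1+δ) * (c * Real.log n) := by ring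
        _ ≤ _ := by gcongr
    have e1 : (cn B n h1 : ℝ) * L ≤ (1+δ) * ((1+δ) * h) + L := by
      calc (cn B n h1 : ℝ) * L ≤ (c+1) * L := by gcongr
        _ = c * L + L := by ring
        _ ≤ _ := by linarith
    have e2 : (1+δ) * ((1+δ) * h) ≤ (1+δ) * ((1+δ) * (y+1)) := by gcongr
    have e3 : (y+1) ≤ (1+δ) * y := by linarith
    have e4 : (1+δ) * ((1+δ) * (y+1)) ≤ (1+δ) * ((1+δ) * ((1+δ) * y)) := by gcongr
    have e5 : (1+δ) * ((1+δ) * ((1+δ) * y)) ≤ (1 + 7*δ) * y := by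
      have g1 : δ * δ ≤ δ := mul_le_of_le_one_left hδ0.le hδ1
      have g2 : δ * δ * δ ≤ δ := (mul_le_of_le_one_right (by positivity) hδ1).trans g1
      have g3 : (1+δ)*(1+δ)*(1+δ) ≤ 1 + 7*δ := by
        have : (1+δ)*(1+δ)*(1+δ) = 1 + 3*δ + 3*(δ*δ) + δ*δ*δ := by ring
        rw [this]; linarith
      calc (1+δ) * ((1+δ) * ((1+δ) * y)) = ((1+δ)*(1+δ)*(1+δ)) * y := by ring
        _ ≤ _ := mul_le_mul_of_nonneg_right g3 hy0.le
    have e6 : 8 * δ * y ≤ ε * y := mul_le_mul_of_nonneg_right hδε hy0.le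
    have e7 : (1 + 7*δ) * y = y + 7 * (δ * y) := by ring
    have e8 : (ε + 1) * y = ε * y + y := by ring
    rw [e8]
    have e9 : 8 * δ * y = 8 * (δ * y) := by ring
    linarith

theorem q1_of (B : Set ℕ) (k : ℕ → ℕ)
    (hB : ∀ ε > 0, ∀ᶠ x : ℝ in atTop, ∀ y : ℝ,
      (Real.log x) ^ 4 * Real.exp (9 * Real.log x / k ⌊x⌋₊) ≤ y → y ≤ x → |R B x y - 1| ≤ ε)
    (κ : ℝ) (hκ : 0 < κ)
    (hk : ∀ᶠ n : ℕ in atTop, κ * Real.log n / Real.log (Real.log n) ≤ k n) : Q1For B := by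
  intro ε hε
  have hfl : Tendsto (fun x : ℝ => ⌊x⌋₊) atTop atTop := tendsto_nat_floor_atTop
  have hev := ((hB ε hε).and (hfl.eventually hk)).and
    ((Real.tendsto_log_atTop.eventually_ge_atTop 10).and (eventually_ge_atTop (3:ℝ)))
  obtain ⟨x0, hx0⟩ := eventually_atTop.1 hev
  refine ⟨max (max x0 (4 + 10/κ)) 2, lt_of_lt_of_le one_lt_two (le_max_right _ _), ?_⟩
  intro x y hx hy1 hy2
  obtain ⟨⟨h1, h2⟩, h3, h4⟩ := hx0 x (((le_max_left _ _).trans (le_max_left _ _)).trans hx)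
  refine h1 y ?_ hy2
  refine le_trans ?_ hy1
  set L := Real.log x with hL
  set n := ⌊x⌋₊ with hn
  have hx00 : 0 ≤ x := by linarith
  have hnx : (n:ℝ) ≤ x := Nat.floor_le hx00
  have hxn : x < n + 1 := Nat.lt_floor_add_one x
  have hn2 : (2:ℝ) ≤ n := by linarith
  have hn0 : (0:ℝ) < n := by linarith
  have hnL : Real.log n ≤ L := Real.log_le_log hn0 hnx
  have hl21 : Real.log 2 ≤ 1 := by have := Real.log_two_lt_d9; linarith
  have hLn : L ≤ Real.log n + 1 := by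
    have h1 : L ≤ Real.log (n * 2) := Real.log_le_log (by linarith) (by linarith)
    rw [Real.log_mul (by positivity) (by norm_num)] at h1
    linarith
  have hln0 : 9 ≤ Real.log n := by linarith
  have hL1 : 1 ≤ L := by linarith
  have hL0 : 0 < L := by linarith
  have hll0 : 0 < Real.log (Real.log n) := Real.log_pos (by linarith)
  have hll : Real.log (Real.log n) ≤ Real.log L := Real.log_le_log (by linarith) hnL
  have hkpos : 0 < κ * Real.log n / Real.log (Real.log n) := by positivity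
  have hkn0 : (0:ℝ) < k n := lt_of_lt_of_le hkpos h2
  have e1 : 9 * L / k n ≤ 10/κ * Real.log L := by
    rw [div_le_iff₀ hkn0]
    rw [div_le_iff₀ hll0] at h2
    -- κ log n ≤ k n * loglog n ≤ k n * log L
    have g1 : κ * Real.log n ≤ k n * Real.log L := h2.trans (by gcongr)
    have g2 : 9 * L ≤ 10 * Real.log n := by linarith
    have g3 : 10 / κ * Real.log L * k n = 10 / κ * (k n * Real.log L) := by ring
    rw [g3]
    calc 9 * L ≤ 10 * Real.log n := g2
      _ = 10 / κ * (κ * Real.log n) := by field_simp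
      _ ≤ _ := by gcongr
  have e2 : L^4 * Real.exp (9 * L / k n) ≤ L ^ (4 + 10/κ : ℝ) := by
    rw [Real.rpow_add hL0]
    have : Real.exp (9 * L / k n) ≤ L ^ (10/κ : ℝ) := by
      rw [Real.rpow_def_of_pos hL0]
      apply Real.exp_le_exp.2
      rw [mul_comm (Real.log L)]
      exact e1
    have h4' : L ^ (4:ℝ) = L^4 := by norm_cast
    rw [h4']
    gcongr
  refine e2.trans ?_
  apply Real.rpow_le_rpow_of_exponent_le hL1
  exact (le_max_right _ _).trans (le_max_left _ _)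

end Pool.Agent.U635.LI
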