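import Mathlib
import Pool.Agent.U635.LIb
import Pool.Agent.U635.LId

set_option linter.all false

namespace Pool.Agent.U635.LI

open Finset MeasureTheory Filter Topology

/-- Choice of the block lengths. -/
lemma exists_q2 (k : ℕ → ℕ) (hk : Tendsto (fun i : ℕ => (k i : ℝ) / i) atTop (𝓝 0)) :
    ∃ q : ℕ → ℕ, (∀ i, (q i).Prime) ∧ (∀ i, 17 ≤ q i) ∧ (∀ᶠ i in atTop, 4 * q i ^ (k i + 1) ≤ 2 ^ i) ∧
      ∀ i : ℕ, 2 ^ (4 + i / (2 * (k i + 1))) < q i := by
  have hB : ∀ i : ℕ, ∃ p, p.Prime ∧ 2 ^ (4 + i / (2 * (k i + 1))) < p ∧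
      p ≤ 2 * 2 ^ (4 + i / (2 * (k i + 1))) := fun i =>
    Nat.exists_prime_lt_and_le_two_mul _ (by positivity)
  choose q hq1 hq2 hq3 using hB
  refine ⟨q, hq1, fun i => ?_, ?_, hq2⟩
  · have h1 : 2 ^ 4 ≤ 2 ^ (4 + i / (2 * (k i + 1))) :=
      Nat.pow_le_pow_right (by norm_num) (Nat.le_add_right _ _)
    have := hq2 i
    norm_num at h1
    omega
  · filter_upwards [hk.eventually_le_const (by norm_num : (0:ℝ) < 1/20), eventually_ge_atTop 28]
      with i h1 h2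
    have hi : (0:ℝ) < i := by exact_mod_cast (by omega : 0 < i)
    have h3 : 20 * (k i : ℝ) ≤ i := by
      rw [div_le_iff₀ hi] at h1
      linarith
    have h4 : 20 * k i ≤ i := by exact_mod_cast h3
    have h5 : 2 * (k i + 1) * (i / (2 * (k i + 1))) ≤ i := Nat.mul_div_le _ _
    have h6 : (5 + i / (2 * (k i + 1))) * (k i + 1) + 2 ≤ i := by
      nlinarith
    calc 4 * q i ^ (k i + 1) ≤ 2 ^ 2 * (2 ^ (5 + i / (2 * (k i + 1)))) ^ (k i + 1) := by
          refine Nat.mul_le_mul (by norm_num) (Nat.pow_le_pow_left ((hq3 i).trans (le_of_eq ?_)) _)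
          rw [show 5 + i / (2 * (k i + 1)) = (4 + i / (2 * (k i + 1))) + 1 by ring, pow_succ]; ring
      _ = 2 ^ ((5 + i / (2 * (k i + 1))) * (k i + 1) + 2) := by
          rw [← pow_mul, ← pow_add]; congr 1; ring
      _ ≤ 2 ^ i := Nat.pow_le_pow_right (by norm_num) h6

theorem gaps2 (q k : ℕ → ℕ) [hq : ∀ i, Fact (q i).Prime] (hk1 : ∀ i, 1 ≤ k i)
    (hi0 : ∀ᶠ i in atTop, 4 * q i ^ (k i + 1) ≤ 2 ^ i)
    (hN : ∀ i : ℕ, 2 ^ (4 + i / (2 * (k i + 1))) < q i) :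
    ∀ᵐ ω ∂(MM q k), ∀ n0 : ℕ, ∃ n ≥ n0, ∃ h : ℕ,
      (n:ℝ) ^ (1 / (4 * (k (Nat.log 2 n) : ℝ)) : ℝ) ≤ h ∧ h ≤ n ∧
      ∀ j, n < j → j ≤ n + h → ω ∉ Ev q k j := by
  obtain ⟨i0, hi0⟩ := eventually_atTop.1 hi0
  have hd := ae_dead q k i0 hi0
  have hd2 : ∀ᵐ ω ∂(MM q k), ∀ a ≥ i0, ∃ i ≥ a, ∃ m ∈ J q i, ω.1 (i, m) = 0 :=
    Measure.quasiMeasurePreserving_fst.ae hd
  filter_upwards [hd2] with ω hω n0
  obtain ⟨i, hi, m, hm, hx⟩ := hω (max i0 (max n0 1)) (le_max_left _ _)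
  have hii0 : i0 ≤ i := (le_max_left _ _).trans hi
  have hin0 : n0 ≤ i := ((le_max_left _ _).trans (le_max_right _ _)).trans hi
  have hi1' : 1 ≤ i := ((le_max_right _ _).trans (le_max_right _ _)).trans hi
  have hqp : 0 < q i := (hq i).out.pos
  simp only [J, mem_Ico] at hm
  have g1 : 2^i < (2^i / q i + 1) * q i := by
    have := Nat.lt_div_mul_add (a := 2^i) hqp
    linarith
  have g2 : 2^i < m * q i := lt_of_lt_of_le g1 (Nat.mul_le_mul_right _ hm.1)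
  have g3 : (m+1) * q i ≤ 2^(i+1) := by
    have : m + 1 ≤ 2^(i+1) / q i := hm.2
    exact (Nat.mul_le_mul_right _ this).trans (Nat.div_mul_le_self _ _)
  have g4 : q i ≤ 2^i := by
    have h := hi0 i hii0
    have h2 : q i ^ 1 ≤ q i ^ (k i + 1) := Nat.pow_le_pow_right hqp (by omega)
    rw [pow_one] at h2
    omega
  have g5 : i < 2^i := Nat.lt_two_pow_self
  have g6 : m * q i < 2^(i+1) := by
    have : (m+1) * q i = m * q i + q i := by ring
    omega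
  have glog : Nat.log 2 (m * q i) = i := by
    rw [Nat.log_eq_iff (Or.inr ⟨by norm_num, by omega⟩)]
    exact ⟨by omega, g6⟩
  refine ⟨m * q i, by omega, q i - 1, ?_, by omega, ?_⟩
  · rw [glog]
    have hki : (1:ℝ) ≤ k i := by exact_mod_cast hk1 i
    have h1 : (((m * q i : ℕ)) : ℝ) ≤ (2:ℝ) ^ ((i:ℝ)+1) := by
      have : (((m * q i : ℕ)) : ℝ) ≤ (2:ℝ)^(i+1) := by exact_mod_cast g6.le
      refine this.trans (le_of_eq ?_)
      rw [← Real.rpow_natCast]; push_cast; rfl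
    have h2 : (((m * q i : ℕ)) : ℝ) ^ (1 / (4 * (k i : ℝ)) : ℝ) ≤ (2:ℝ) ^ (((i:ℝ)+1) * (1 / (4 * (k i : ℝ)))) := by
      rw [Real.rpow_mul (by norm_num)]
      exact Real.rpow_le_rpow (Nat.cast_nonneg _) h1 (by positivity)
    have h3 : ((i:ℝ)+1) * (1 / (4 * (k i : ℝ))) ≤ ((4 + i / (2 * (k i + 1)) : ℕ) : ℝ) := by
      have h := Nat.lt_div_mul_add (a := i) (b := 2 * (k i + 1)) (by positivity)
      have h' : (i:ℝ) < ((i / (2 * (k i + 1)) : ℕ) : ℝ) * (2 * ((k i : ℝ) + 1)) + 2 * ((k i : ℝ)+1) := by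
        have : ((i:ℕ):ℝ) < (((i / (2 * (k i + 1))) * (2 * (k i + 1)) + 2 * (k i + 1) : ℕ) : ℝ) := by
          exact_mod_cast h
        push_cast at this
        simpa using this
      set D : ℝ := ((i / (2 * (k i + 1)) : ℕ) : ℝ) with hD
      have hD0 : 0 ≤ D := Nat.cast_nonneg _
      rw [mul_one_div, div_le_iff₀ (by positivity)]
      rw [Nat.cast_add, ← hD]
      push_cast
      have e1 : 2 * ((k i : ℝ)+1) ≤ 4 * (k i : ℝ) := by linarith
      have e2 : D * (2 * ((k i : ℝ) + 1)) ≤ D * (4 * (k i : ℝ)) := mul_le_mul_of_nonneg_left e1 hD0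
      nlinarith
    have h4 : (2:ℝ) ^ (((i:ℝ)+1) * (1 / (4 * (k i : ℝ)))) ≤ (2:ℝ) ^ (((4 + i / (2 * (k i + 1)) : ℕ)) : ℝ) :=
      Real.rpow_le_rpow_of_exponent_le (by norm_num) h3
    rw [Real.rpow_natCast] at h4
    have h5 : (((2 ^ (4 + i / (2 * (k i + 1))) : ℕ)) : ℝ) ≤ ((q i - 1 : ℕ) : ℝ) := by
      have := hN i
      exact Nat.cast_le.2 (by omega)
    push_cast at h5
    have h6 := (h2.trans h4).trans h5
    exact h6
  · intro j hj1 hj2 hj3
    have hjq : j < (m+1) * q i := by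
      have : (m+1) * q i = m * q i + q i := by ring
      omega
    have hj4 : j < 2^(i+1) := lt_of_lt_of_le hjq g3
    have hlog : Nat.log 2 j = i := by
      rw [Nat.log_eq_iff (Or.inr ⟨by norm_num, by omega⟩)]
      exact ⟨by omega, hj4⟩
    have hdiv : j / q i = m := by
      apply Nat.div_eq_of_lt_le
      · exact hj1.le
      · exact hjq
    have hb : blk q j = (i, m) := by
      unfold blk; rw [hlog, hdiv]
    simp only [Ev, Set.mem_setOf_eq] at hj3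
    apply hj3.1
    rw [hb, hx]
    unfold ev
    exact Finset.sum_eq_zero fun _ _ => zero_mul _

/-- powers of `log n` are below `n^(1/(4k))`. -/
lemma pow_log_le (k : ℕ → ℕ) (hk1 : ∀ i, 1 ≤ k i)
    (hk : Tendsto (fun i : ℕ => (k i : ℝ) * Real.log i / i) atTop (𝓝 0)) (N : ℝ) (hN : 0 < N) :
    ∀ᶠ n : ℕ in atTop, (Real.log n) ^ N ≤ (n:ℝ) ^ (1 / (4 * (k (Nat.log 2 n) : ℝ)) : ℝ) := by
  have hl2 : 0 < Real.log 2 := Real.log_pos (by norm_num)
  have hl21 : Real.log 2 ≤ 1 := by have := Real.log_two_lt_d9; linarith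
  set δ : ℝ := Real.log 2 / (8 * N) with hδ
  have hδ0 : 0 < δ := by positivity
  have hev := (hk.eventually_le_const hδ0).and (eventually_ge_atTop 3)
  obtain ⟨i1, hi1⟩ := eventually_atTop.1 hev
  filter_upwards [eventually_ge_atTop (2^i1), eventually_ge_atTop 3] with n hn hn3
  set i := Nat.log 2 n with hi
  have hii : i1 ≤ i := by
    rw [hi]; exact Nat.le_log_of_pow_le (by norm_num) hn
  obtain ⟨h1, h2⟩ := hi1 i hii
  have hi3 : (3:ℝ) ≤ i := by exact_mod_cast h2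
  have hi0 : (0:ℝ) < i := by linarith
  have hli : 0 < Real.log i := Real.log_pos (by linarith)
  rw [div_le_iff₀ hi0] at h1
  have hp1 : 2^i ≤ n := Nat.pow_log_le_self 2 (by omega)
  have hp2 : n < 2^(i+1) := Nat.lt_pow_succ_log_self (by norm_num) n
  have hnpos : (0:ℝ) < n := by exact_mod_cast (by omega : 0 < n)
  have hlog1 : i * Real.log 2 ≤ Real.log n := by
    rw [← Real.log_pow]
    apply Real.log_le_log (by positivity)
    exact_mod_cast hp1
  have hlog2 : Real.log n ≤ (i:ℝ) + 1 := by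
    have : Real.log n ≤ Real.log ((2:ℝ)^(i+1)) := by
      apply Real.log_le_log hnpos
      exact_mod_cast hp2.le
    rw [Real.log_pow] at this
    push_cast at this
    nlinarith
  have hLpos : 0 < Real.log n := lt_of_lt_of_le (by positivity) hlog1
  have hll : Real.log (Real.log n) ≤ 2 * Real.log i := by
    have e4 : Real.log ((i:ℝ) + 1) ≤ 2 * Real.log i := by
      rw [← Real.log_rpow hi0, show ((2:ℝ)) = ((2:ℕ):ℝ) by norm_num, Real.rpow_natCast]
      apply Real.log_le_log (by linarith)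
      nlinarith
    exact (Real.log_le_log hLpos hlog2).trans e4
  have hki : (1:ℝ) ≤ k i := by exact_mod_cast hk1 i
  rw [Real.rpow_def_of_pos hLpos, Real.rpow_def_of_pos hnpos]
  apply Real.exp_le_exp.2
  rw [mul_one_div, le_div_iff₀ (by positivity)]
  calc Real.log (Real.log n) * N * (4 * (k i : ℝ)) ≤ (2 * Real.log i) * N * (4 * (k i : ℝ)) := by gcongr
    _ = 8 * N * ((k i : ℝ) * Real.log i) := by ring
    _ ≤ 8 * N * (δ * i) := by gcongr
    _ = i * Real.log 2 := by rw [hδ]; field_simp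
    _ ≤ _ := hlog1

lemma not_q1 (B : Set ℕ) (k : ℕ → ℕ) (hk1 : ∀ i, 1 ≤ k i)
    (hk : Tendsto (fun i : ℕ => (k i : ℝ) * Real.log i / i) atTop (𝓝 0))
    (hB : ∀ n0 : ℕ, ∃ n ≥ n0, ∃ h : ℕ, (n:ℝ) ^ (1 / (4 * (k (Nat.log 2 n) : ℝ)) : ℝ) ≤ h ∧ h ≤ n ∧
      ∀ j, n < j → j ≤ n + h → j ∉ B) : ¬ Q1For B := by
  intro hQ
  obtain ⟨N, hN1, hN⟩ := hQ (1/2) (by norm_num)
  obtain ⟨n1, hn1⟩ := eventually_atTop.1 (pow_log_le k hk1 hk N (by linarith))
  obtain ⟨n2, hn2⟩ := exists_nat_ge N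
  obtain ⟨n, hn, h, h1, h2, h3⟩ := hB (max n1 n2)
  have hnN : N ≤ (n:ℝ) := hn2.trans (by exact_mod_cast (le_max_right _ _).trans hn)
  have h4 := hN n h hnN ((hn1 n ((le_max_left _ _).trans hn)).trans h1) (by exact_mod_cast h2)
  have h5 : R B n h = 0 := by
    unfold R
    have : {m : ℕ | m ∈ B ∧ (n:ℝ) < m ∧ (m:ℝ) ≤ n + h} = ∅ := by
      ext m
      simp only [Set.mem_setOf_eq, Set.mem_empty_iff_false, iff_false]
      rintro ⟨a, b, c⟩
      exact h3 m (by exact_mod_cast b) (by exact_mod_cast c) a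
    rw [this]; simp
  rw [h5] at h4
  norm_num at h4

end Pool.Agent.U635.LI
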