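import Mathlib

/-!
# A race of powers of independent uniform variables
-/

set_option autoImplicit false
set_option linter.unusedSectionVars false

namespace Pool.Agent.U635

open MeasureTheory ProbabilityTheory
open scoped ENNReal

variable {V : Type*}

/-- `c` wins the race with weights `w` and labels `a`. -/
def IsWin (w : V → ℝ) (a : V → unitInterval) (c : V) : Prop :=
  0 < w c ∧ ∀ j, j ≠ c → 0 < w j → (a j : ℝ) < (a c : ℝ) ^ (w j / w c)

theorem IsWin.unique {w : V → ℝ} {a : V → unitInterval} {c d : V} (hc : IsWin w a c) (hd : IsWin w a d) :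
    c = d := by
  by_contra hne
  have h1 := hc.2 d (fun h => hne h.symm) hd.1
  have h2 := hd.2 c hne hc.1
  have hs : 0 < w d / w c := div_pos hd.1 hc.1
  have h3 := Real.rpow_lt_rpow (a c).2.1 h2 hs
  rw [← Real.rpow_mul (a d).2.1] at h3
  have h4 : w c / w d * (w d / w c) = 1 := by
    have := hc.1.ne'
    have := hd.1.ne'
    field_simp
  rw [h4, Real.rpow_one] at h3
  exact lt_irrefl _ (h1.trans h3)

/-- the uniform product measure -/
noncomputable abbrev mu (V : Type*) : Measure (V → unitInterval) :=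
  Measure.infinitePi fun _ : V => (volume : Measure unitInterval)

theorem lint_rpow (q : ℝ) (hq : 0 ≤ q) :
    ∫⁻ t : unitInterval, ENNReal.ofReal ((t : ℝ) ^ q) = ENNReal.ofReal (1 / (1 + q)) := by
  have h1 : ∫⁻ t : unitInterval, ENNReal.ofReal ((t : ℝ) ^ q) =
      ∫⁻ x in (Set.Icc (0 : ℝ) 1), ENNReal.ofReal (x ^ q) := by
    have := unitInterval.measurePreserving_coe.lintegral_comp
      (f := fun x : ℝ => ENNReal.ofReal (x ^ q)) (by fun_prop)
    exact this
  have h2 : IntervalIntegrable (fun x : ℝ => x ^ q) volume 0 1 :=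
    intervalIntegral.intervalIntegrable_rpow' (by linarith)
  have h3 : IntegrableOn (fun x : ℝ => x ^ q) (Set.Icc 0 1) volume := by
    rw [integrableOn_Icc_iff_integrableOn_Ioc]
    exact (intervalIntegrable_iff_integrableOn_Ioc_of_le zero_le_one).1 h2
  rw [h1, ← ofReal_integral_eq_lintegral_ofReal h3]
  · rw [integral_Icc_eq_integral_Ioc, ← intervalIntegral.integral_of_le zero_le_one,
      integral_rpow (Or.inl (by linarith))]
    rw [Real.one_rpow, Real.zero_rpow (by linarith), sub_zero, add_comm]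
  · refine (ae_restrict_iff' measurableSet_Icc).2 (Filter.Eventually.of_forall fun x hx => ?_)
    exact Real.rpow_nonneg hx.1 _

theorem rpow_mem (t : unitInterval) {q : ℝ} (hq : 0 ≤ q) : (t : ℝ) ^ q ∈ Set.Icc (0 : ℝ) 1 :=
  ⟨Real.rpow_nonneg t.2.1 _, Real.rpow_le_one t.2.1 t.2.2 hq⟩

/-- the probability that `c` beats all of `F` -/
theorem race_prob [DecidableEq V] (c : V) (F : Finset V) (hc : c ∉ F) (q : V → ℝ)
    (hq : ∀ j, 0 ≤ q j) :
    mu V {a | ∀ j ∈ F, (a j : ℝ) < (a c : ℝ) ^ (q j)} =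
      ENNReal.ofReal (1 / (1 + ∑ j ∈ F, q j)) := by
  have hind : iIndepFun (fun (i : V) (a : V → unitInterval) => a i) (mu V) :=
    iIndepFun_infinitePi (P := fun _ : V => (volume : Measure unitInterval)) (X := fun _ x => x)
      (fun _ => measurable_id)
  have h1 : IndepFun (fun (a : V → unitInterval) (i : ({c} : Finset V)) => a i)
      (fun (a : V → unitInterval) (i : F) => a i) (mu V) :=
    hind.indepFun_finset {c} F (Finset.disjoint_singleton_left.2 hc)
      (fun i => measurable_pi_apply i)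
  have h2 : IndepFun (fun a : V → unitInterval => a c) (fun (a : V → unitInterval) (i : F) => a i) (mu V) :=
    h1.comp (φ := fun b : ({c} : Finset V) → unitInterval => b ⟨c, Finset.mem_singleton_self c⟩)
      (ψ := id) (measurable_pi_apply _) measurable_id
  have h3 : (mu V).map (fun a : V → unitInterval => (a c, fun i : F => a i)) =
      (volume : Measure unitInterval).prod (Measure.pi fun _ : F => (volume : Measure unitInterval)) := by
    have := (indepFun_iff_map_prod_eq_prod_map_map (measurable_pi_apply c).aemeasurable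
      (by fun_prop : Measurable (fun (a : V → unitInterval) (i : F) => a i)).aemeasurable).1 h2
    rw [this]
    congr 1
    · exact Measure.infinitePi_map_eval (fun _ : V => (volume : Measure unitInterval)) c
    · exact Measure.infinitePi_map_restrict (fun _ : V => (volume : Measure unitInterval)) (I := F)
  let B : Set (unitInterval × (F → unitInterval)) := {p | ∀ j : F, (p.2 j : ℝ) < (p.1 : ℝ) ^ (q j)}
  have hB : MeasurableSet B := by
    have : B = ⋂ j : F, {p : unitInterval × (F → unitInterval) | (p.2 j : ℝ) < (p.1 : ℝ) ^ (q j)} := by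
      ext p; simp [B]
    rw [this]
    refine MeasurableSet.iInter fun j => measurableSet_lt (by fun_prop) (by fun_prop)
  have h4 : {a : V → unitInterval | ∀ j ∈ F, (a j : ℝ) < (a c : ℝ) ^ (q j)} =
      (fun a : V → unitInterval => (a c, fun i : F => a i)) ⁻¹' B := by
    ext a
    simp only [B, Set.mem_preimage, Set.mem_ofPred_eq, Subtype.forall]
  rw [h4, ← Measure.map_apply (by fun_prop) hB, h3, Measure.prod_apply hB]
  rw [← lint_rpow _ (Finset.sum_nonneg fun j _ => hq j)]
  refine lintegral_congr fun t => ?_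
  have h5 : Prod.mk t ⁻¹' B =
      Set.pi Set.univ fun j : F => Set.Iio (⟨(t : ℝ) ^ (q j), rpow_mem t (hq j)⟩ : unitInterval) := by
    ext b
    simp only [B, Set.mem_preimage, Set.mem_ofPred_eq, Set.mem_pi, Set.mem_univ, true_imp_iff,
      Set.mem_Iio]
    refine forall_congr' fun j => ?_
    rw [← Subtype.coe_lt_coe]
  rw [h5, Measure.pi_pi]
  simp only [unitInterval.volume_Iio]
  rw [← ENNReal.ofReal_prod_of_nonneg (fun j _ => Real.rpow_nonneg t.2.1 _)]
  congr 1
  rw [Real.rpow_sum_of_nonneg t.2.1 (fun j _ => hq j)]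
  exact Finset.prod_coe_sort F (fun j => (t : ℝ) ^ q j)

/-- Two races with nearly equal weights have a common winner with high probability. -/
theorem race_lower [DecidableEq V] (w1 w2 : V → ℝ) (h1 : ∀ j, 0 ≤ w1 j) (h2 : ∀ j, 0 ≤ w2 j)
    (S : Finset V) (hS1 : ∀ j, 0 < w1 j → j ∈ S) (hS2 : ∀ j, 0 < w2 j → j ∈ S)
    (hpos : 0 < ∑ j ∈ S, max (w1 j) (w2 j)) :
    ENNReal.ofReal ((∑ j ∈ S, min (w1 j) (w2 j)) / ∑ j ∈ S, max (w1 j) (w2 j)) ≤
      mu V {a | ∃ c, IsWin w1 a c ∧ IsWin w2 a c} := by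
  classical
  set m : V → ℝ := fun j => min (w1 j) (w2 j) with hm
  set M : V → ℝ := fun j => max (w1 j) (w2 j) with hM
  have hm0 : ∀ j, 0 ≤ m j := fun j => le_min (h1 j) (h2 j)
  have hM0 : ∀ j, 0 ≤ M j := fun j => (h1 j).trans (le_max_left _ _)
  let S' := S.filter (fun c => 0 < m c)
  let A : V → Set (V → unitInterval) := fun c => {a | ∀ j ∈ S.erase c, (a j : ℝ) < (a c : ℝ) ^ (M j / m c)}
  have hAwin : ∀ c ∈ S', ∀ a ∈ A c, IsWin w1 a c ∧ IsWin w2 a c := by
    intro c hc a ha
    have hmc : 0 < m c := (Finset.mem_filter.1 hc).2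
    have hc1 : 0 < w1 c := lt_of_lt_of_le hmc (min_le_left _ _)
    have hc2 : 0 < w2 c := lt_of_lt_of_le hmc (min_le_right _ _)
    refine ⟨⟨hc1, fun j hj hwj => ?_⟩, ⟨hc2, fun j hj hwj => ?_⟩⟩
    · refine lt_of_lt_of_le (ha j (Finset.mem_erase.2 ⟨hj, hS1 j hwj⟩)) ?_
      refine Real.rpow_le_rpow_of_exponent_ge' (a c).2.1 (a c).2.2
        (div_nonneg (h1 j) (h1 c)) ?_
      exact div_le_div₀ (hM0 j) (le_max_left _ _) hmc (min_le_left _ _)
    · refine lt_of_lt_of_le (ha j (Finset.mem_erase.2 ⟨hj, hS2 j hwj⟩)) ?_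
      refine Real.rpow_le_rpow_of_exponent_ge' (a c).2.1 (a c).2.2
        (div_nonneg (h2 j) (h2 c)) ?_
      exact div_le_div₀ (hM0 j) (le_max_right _ _) hmc (min_le_right _ _)
  have hAm : ∀ c, MeasurableSet (A c) := by
    intro c
    have : A c = ⋂ j ∈ S.erase c, {a : V → unitInterval | (a j : ℝ) < (a c : ℝ) ^ (M j / m c)} := by
      ext a; simp [A]
    rw [this]
    refine Finset.measurableSet_biInter _ fun j _ => measurableSet_lt (by fun_prop) (by fun_prop)
  have hdisj : (S' : Set V).PairwiseDisjoint A := by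
    intro c hc d hd hcd
    rw [Function.onFun, Set.disjoint_left]
    intro a ha ha'
    exact hcd ((hAwin c hc a ha).1.unique (hAwin d hd a ha').1)
  have hsub : (⋃ c ∈ S', A c) ⊆ {a | ∃ c, IsWin w1 a c ∧ IsWin w2 a c} := by
    intro a ha
    simp only [Set.mem_iUnion] at ha
    obtain ⟨c, hc, ha⟩ := ha
    exact ⟨c, hAwin c hc a ha⟩
  refine le_trans ?_ (measure_mono hsub)
  rw [measure_biUnion_finset hdisj (fun c _ => hAm c)]
  have hval : ∀ c ∈ S', ENNReal.ofReal (m c / ∑ j ∈ S, M j) ≤ mu V (A c) := by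
    intro c hc
    have hmc : 0 < m c := (Finset.mem_filter.1 hc).2
    have hcS : c ∈ S := (Finset.mem_filter.1 hc).1
    rw [race_prob c (S.erase c) (Finset.notMem_erase _ _) (fun j => M j / m c)
      (fun j => div_nonneg (hM0 j) hmc.le)]
    apply ENNReal.ofReal_le_ofReal
    rw [← Finset.sum_div]
    have e1 : 1 / (1 + (∑ j ∈ S.erase c, M j) / m c) = m c / (m c + ∑ j ∈ S.erase c, M j) := by
      field_simp
    rw [e1]
    have e2 : ∑ j ∈ S, M j = M c + ∑ j ∈ S.erase c, M j := (Finset.add_sum_erase S M hcS).symm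
    have e3 : 0 ≤ ∑ j ∈ S.erase c, M j := Finset.sum_nonneg fun j _ => hM0 j
    have e4 : m c ≤ M c := (min_le_left _ _).trans (le_max_left _ _)
    refine div_le_div_of_nonneg_left hmc.le (by linarith) ?_
    rw [e2]; linarith
  refine le_trans ?_ (Finset.sum_le_sum hval)
  rw [← ENNReal.ofReal_sum_of_nonneg (fun c _ => div_nonneg (hm0 c)
    (Finset.sum_nonneg fun j _ => hM0 j)), ← Finset.sum_div]
  apply ENNReal.ofReal_le_ofReal
  refine div_le_div_of_nonneg_right ?_ hpos.le
  rw [Finset.sum_filter]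
  refine Finset.sum_le_sum fun c _ => ?_
  split_ifs with h
  · exact le_rfl
  · exact not_lt.1 h

/-- real-number version of the upper bound -/
theorem race_upper [DecidableEq V] [Countable V] (w1 w2 : V → ℝ) (h1 : ∀ j, 0 ≤ w1 j)
    (h2 : ∀ j, 0 ≤ w2 j)
    (S : Finset V) (hS1 : ∀ j, 0 < w1 j → j ∈ S) (hS2 : ∀ j, 0 < w2 j → j ∈ S)
    (N : ℝ) (hN : 0 < N) (e1 : ∑ j ∈ S, w1 j = N) (e2 : ∑ j ∈ S, w2 j = N) :
    mu V {a | ¬ ∃ c, IsWin w1 a c ∧ IsWin w2 a c} ≤
      ENNReal.ofReal (2 * (1 - (∑ j ∈ S, min (w1 j) (w2 j)) / N)) := by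
  have hwm : ∀ w : V → ℝ, ∀ c, MeasurableSet {a : V → unitInterval | IsWin w a c} := by
    intro w c
    unfold IsWin
    refine MeasurableSet.inter (MeasurableSet.const _) ?_
    have : {a : V → unitInterval | ∀ j, j ≠ c → 0 < w j → (a j : ℝ) < (a c : ℝ) ^ (w j / w c)} =
        ⋂ j, {a : V → unitInterval | j ≠ c → 0 < w j → (a j : ℝ) < (a c : ℝ) ^ (w j / w c)} := by
      ext a; simp
    change MeasurableSet {a : V → unitInterval | ∀ j, j ≠ c → 0 < w j → (a j : ℝ) < (a c : ℝ) ^ (w j / w c)}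
    rw [this]
    refine MeasurableSet.iInter fun j => ?_
    by_cases hj : j ≠ c ∧ 0 < w j
    · have : {a : V → unitInterval | j ≠ c → 0 < w j → (a j : ℝ) < (a c : ℝ) ^ (w j / w c)} =
          {a : V → unitInterval | (a j : ℝ) < (a c : ℝ) ^ (w j / w c)} := by
        ext a; simp [hj.1, hj.2]
      rw [this]
      exact measurableSet_lt (by fun_prop) (by fun_prop)
    · have : {a : V → unitInterval | j ≠ c → 0 < w j → (a j : ℝ) < (a c : ℝ) ^ (w j / w c)} =
          Set.univ := by
        ext a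
        simp only [Set.mem_ofPred_eq, Set.mem_univ, iff_true]
        intro g1 g2
        exact (hj ⟨g1, g2⟩).elim
      rw [this]
      exact MeasurableSet.univ
  have hM : MeasurableSet {a : V → unitInterval | ∃ c, IsWin w1 a c ∧ IsWin w2 a c} := by
    have : {a : V → unitInterval | ∃ c, IsWin w1 a c ∧ IsWin w2 a c} =
        ⋃ c, ({a | IsWin w1 a c} ∩ {a | IsWin w2 a c}) := by
      ext a; simp
    rw [this]
    exact MeasurableSet.iUnion fun c => (hwm w1 c).inter (hwm w2 c)
  set m := ∑ j ∈ S, min (w1 j) (w2 j) with hm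
  have hmm : ∑ j ∈ S, max (w1 j) (w2 j) = 2 * N - m := by
    have : ∑ j ∈ S, max (w1 j) (w2 j) = ∑ j ∈ S, (w1 j + w2 j - min (w1 j) (w2 j)) := by
      refine Finset.sum_congr rfl fun j _ => ?_
      have := max_add_min (w1 j) (w2 j)
      linarith
    rw [this, Finset.sum_sub_distrib, Finset.sum_add_distrib, e1, e2]
    ring
  have hm0 : 0 ≤ m := Finset.sum_nonneg fun j _ => le_min (h1 j) (h2 j)
  have hmN : m ≤ N := by
    rw [← e1]
    exact Finset.sum_le_sum fun j _ => min_le_left _ _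
  have hpos : 0 < ∑ j ∈ S, max (w1 j) (w2 j) := by rw [hmm]; linarith
  have hlow := race_lower w1 w2 h1 h2 S hS1 hS2 hpos
  have hcompl : {a : V → unitInterval | ¬ ∃ c, IsWin w1 a c ∧ IsWin w2 a c} =
      {a : V → unitInterval | ∃ c, IsWin w1 a c ∧ IsWin w2 a c}ᶜ := rfl
  rw [hcompl, prob_compl_eq_one_sub hM]
  refine (tsub_le_tsub_left hlow _).trans ?_
  rw [hmm, ← ENNReal.ofReal_one, ← ENNReal.ofReal_sub _ (div_nonneg hm0 (by linarith))]
  apply ENNReal.ofReal_le_ofReal
  have hne : 2 * N - m ≠ 0 := by linarith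
  have h3 : 1 - m / (2 * N - m) = (2 * N - 2 * m) / (2 * N - m) := by
    rw [eq_div_iff hne, sub_mul, div_mul_cancel₀ _ hne]; ring
  have h4 : 2 * (1 - m / N) = (2 * N - 2 * m) / N := by
    field_simp
  rw [h3, h4]
  exact div_le_div_of_nonneg_left (by linarith) hN (by linarith)

end Pool.Agent.U635
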