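import Pool.Agent.U635.Walk
import Pool.Agent.U635.Race

/-!
# Random finite partitions of a recurrent graph
-/

set_option autoImplicit false
set_option linter.unusedSectionVars false

namespace Pool.Agent.U635

open Pool.Agent.TH968.UST MeasureTheory Filter ProbabilityTheory
open scoped ENNReal Topology

variable {V : Type*}

section Supp

theorem avg_ne_zero {G : SimpleGraph V} {f : V → ℝ≥0∞} {v : V} (h : avg G f v ≠ 0) :
    ∃ w, G.Adj v w ∧ f w ≠ 0 := by
  by_contra hc
  push Not at hc
  apply h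
  have : avg G f v ≤ avg G (fun _ => 0) v := avg_mono G v fun w hw => (hc w hw).le
  rw [avg_zero] at this
  exact le_antisymm this zero_le

theorem pk_supp1 (G : SimpleGraph V) (hf : ∀ v, (G.neighborSet v).Finite) :
    ∀ (k : ℕ) (x : V), {c | pk G k x c ≠ 0}.Finite := by
  intro k
  induction k with
  | zero =>
    intro x
    refine (Set.finite_singleton x).subset fun c hc => ?_
    by_contra h
    apply hc
    have : ¬ x = c := fun h' => h (by simp [h'])
    simp [pk, this]
  | succ k ih =>
    intro x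
    refine ((hf x).biUnion fun y _ => ih y).subset fun c hc => ?_
    obtain ⟨w, hw, hw2⟩ := avg_ne_zero (show avg G (fun y => pk G k y c) x ≠ 0 from hc)
    exact Set.mem_biUnion hw hw2

theorem pk_supp2 (G : SimpleGraph V) (hf : ∀ v, (G.neighborSet v).Finite) :
    ∀ (k : ℕ) (c : V), {x | pk G k x c ≠ 0}.Finite := by
  intro k c
  induction k with
  | zero =>
    refine (Set.finite_singleton c).subset fun x hx => ?_
    by_contra h
    apply hx
    have : ¬ x = c := fun h' => h (by simp [h'])
    simp [pk, this]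
  | succ k ih =>
    refine (ih.biUnion fun y _ => hf y).subset fun x hx => ?_
    obtain ⟨w, hw, hw2⟩ := avg_ne_zero (show avg G (fun y => pk G k y c) x ≠ 0 from hx)
    exact Set.mem_biUnion (show w ∈ {y | pk G k y c ≠ 0} from hw2) hw.symm

theorem PN_supp1 (G : SimpleGraph V) (hf : ∀ v, (G.neighborSet v).Finite) (N : ℕ) (x : V) :
    {c | PN G N x c ≠ 0}.Finite := by
  refine (Set.Finite.biUnion (Finset.finite_toSet (Finset.range N))
    fun k _ => pk_supp1 G hf k x).subset fun c hc => ?_
  have hc' : PN G N x c ≠ 0 := hc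
  unfold PN at hc'
  obtain ⟨k, hk, hk2⟩ := Finset.exists_ne_zero_of_sum_ne_zero hc'
  exact Set.mem_biUnion (Finset.mem_coe.2 hk) hk2

theorem PN_supp2 (G : SimpleGraph V) (hf : ∀ v, (G.neighborSet v).Finite) (N : ℕ) (c : V) :
    {x | PN G N x c ≠ 0}.Finite := by
  refine (Set.Finite.biUnion (Finset.finite_toSet (Finset.range N))
    fun k _ => pk_supp2 G hf k c).subset fun x hc => ?_
  have hc' : PN G N x c ≠ 0 := hc
  unfold PN at hc'
  obtain ⟨k, hk, hk2⟩ := Finset.exists_ne_zero_of_sum_ne_zero hc'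
  exact Set.mem_biUnion (Finset.mem_coe.2 hk) hk2

theorem PN_le (G : SimpleGraph V) (hf : ∀ v, (G.neighborSet v).Finite) (N : ℕ) (x c : V)
    (hx : ∃ w, G.Adj x w) : PN G N x c ≤ N := by
  rw [← PN_mass G hf N x hx]
  exact ENNReal.le_tsum c

end Supp

section Rel

/-- weights of the race at `x` -/
noncomputable def wt (G : SimpleGraph V) (N : ℕ) (x c : V) : ℝ := (PN G N x c).toReal

theorem wt_nonneg (G : SimpleGraph V) (N : ℕ) (x c : V) : 0 ≤ wt G N x c :=
  ENNReal.toReal_nonneg

theorem wt_pos {G : SimpleGraph V} {N : ℕ} {x c : V} (h : 0 < wt G N x c) :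
    PN G N x c ≠ 0 := by
  intro h0
  unfold wt at h
  rw [h0] at h
  simp at h

/-- `x` and `y` have a common winner. -/
def Com (G : SimpleGraph V) (N : ℕ) (a : V → unitInterval) (x y : V) : Prop :=
  ∃ c, IsWin (wt G N x) a c ∧ IsWin (wt G N y) a c

/-- The equivalence relation of level `n`. -/
def Rel (G : SimpleGraph V) (N : ℕ → ℕ) (a : V → ℕ → unitInterval) (n : ℕ) (x y : V) : Prop :=
  x = y ∨ (0 < n ∧ ∀ m, n ≤ m → Com G (N m) (fun v => a v m) x y)

theorem Com.symm {G : SimpleGraph V} {N : ℕ} {a : V → unitInterval} {x y : V}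
    (h : Com G N a x y) : Com G N a y x := by
  obtain ⟨c, h1, h2⟩ := h
  exact ⟨c, h2, h1⟩

theorem Com.trans {G : SimpleGraph V} {N : ℕ} {a : V → unitInterval} {x y z : V}
    (h : Com G N a x y) (h' : Com G N a y z) : Com G N a x z := by
  obtain ⟨c, h1, h2⟩ := h
  obtain ⟨d, h3, h4⟩ := h'
  have : c = d := h2.unique h3
  subst this
  exact ⟨c, h1, h4⟩

variable {G : SimpleGraph V} {N : ℕ → ℕ} {a : V → ℕ → unitInterval}

theorem Rel.refl (n : ℕ) (x : V) : Rel G N a n x x := Or.inl rfl

theorem Rel.symm {n : ℕ} {x y : V} (h : Rel G N a n x y) : Rel G N a n y x := by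
  rcases h with h | ⟨h1, h2⟩
  · exact Or.inl h.symm
  · exact Or.inr ⟨h1, fun m hm => (h2 m hm).symm⟩

theorem Rel.trans {n : ℕ} {x y z : V} (h : Rel G N a n x y) (h' : Rel G N a n y z) :
    Rel G N a n x z := by
  rcases h with rfl | ⟨h1, h2⟩
  · exact h'
  · rcases h' with rfl | ⟨h3, h4⟩
    · exact Or.inr ⟨h1, h2⟩
    · exact Or.inr ⟨h1, fun m hm => (h2 m hm).trans (h4 m hm)⟩

theorem Rel.mono {n m : ℕ} (hnm : n ≤ m) {x y : V} (h : Rel G N a n x y) : Rel G N a m x y := by
  rcases h with h | ⟨h1, h2⟩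
  · exact Or.inl h
  · exact Or.inr ⟨h1.trans_le hnm, fun k hk => h2 k (hnm.trans hk)⟩

theorem Rel.zero {x y : V} : Rel G N a 0 x y ↔ x = y := by
  constructor
  · rintro (h | ⟨h, -⟩)
    · exact h
    · exact (lt_irrefl _ h).elim
  · exact Or.inl

theorem Rel.finite (hf : ∀ v, (G.neighborSet v).Finite) (n : ℕ) (x : V) :
    {y | Rel G N a n x y}.Finite := by
  have h1 : ({x} ∪ ⋃ c ∈ {c | PN G (N n) x c ≠ 0}, {y | PN G (N n) y c ≠ 0} : Set V).Finite :=
    (Set.finite_singleton x).union
      ((PN_supp1 G hf (N n) x).biUnion fun c _ => PN_supp2 G hf (N n) c)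
  refine h1.subset fun y hy => ?_
  rcases hy with h | ⟨_, h2⟩
  · exact Or.inl (by simp [h])
  · obtain ⟨c, k1, k2⟩ := h2 n le_rfl
    refine Or.inr (Set.mem_biUnion (show c ∈ {c | PN G (N n) x c ≠ 0} from wt_pos k1.1) ?_)
    exact wt_pos k2.1

end Rel

section Prob

/-- the iid labels -/
noncomputable abbrev lam (V : Type*) : Measure (V → ℕ → unitInterval) :=
  Measure.infinitePi fun _ : V => Measure.infinitePi fun _ : ℕ => (volume : Measure unitInterval)

theorem lam_level (n : ℕ) : (lam V).map (fun a v => a v n) = mu V := by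
  have h := Measure.infinitePi_map_pi
    (μ := fun _ : V => Measure.infinitePi fun _ : ℕ => (volume : Measure unitInterval))
    (f := fun (_ : V) (b : ℕ → unitInterval) => b n) (fun _ => measurable_pi_apply n)
  have h2 : ∀ _ : V, Measure.map (fun b : ℕ → unitInterval => b n)
      (Measure.infinitePi fun _ : ℕ => (volume : Measure unitInterval)) = volume := fun _ =>
    Measure.infinitePi_map_eval (fun _ : ℕ => (volume : Measure unitInterval)) n
  rw [show lam V = Measure.infinitePi fun _ : V =>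
    Measure.infinitePi fun _ : ℕ => (volume : Measure unitInterval) from rfl, h]
  congr 1
  ext1 v
  exact h2 v

/-- probability that two adjacent vertices have no common winner -/
theorem com_prob [Countable V] (G : SimpleGraph V) (hf : ∀ v, (G.neighborSet v).Finite) (N : ℕ)
    (hN : 1 ≤ N) {x y : V} (hx : ∃ w, G.Adj x w) (hy : ∃ w, G.Adj y w) :
    mu V {a | ¬ Com G N a x y} ≤ 2 * dl G N x y := by
  classical
  set S : Finset V := (PN_supp1 G hf N x).toFinset ∪ (PN_supp1 G hf N y).toFinset with hS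
  have hS1 : ∀ j, PN G N x j ≠ 0 → j ∈ S := fun j hj =>
    Finset.mem_union_left _ ((Set.Finite.mem_toFinset _).2 hj)
  have hS2 : ∀ j, PN G N y j ≠ 0 → j ∈ S := fun j hj =>
    Finset.mem_union_right _ ((Set.Finite.mem_toFinset _).2 hj)
  have hfin : ∀ z, (∃ w, G.Adj z w) → ∀ c, PN G N z c ≠ ∞ := fun z hz c =>
    ne_top_of_le_ne_top (ENNReal.natCast_ne_top N) (PN_le G hf N z c hz)
  have hsum : ∀ z, (∃ w, G.Adj z w) → (∀ j, PN G N z j ≠ 0 → j ∈ S) →
      ∑ j ∈ S, wt G N z j = N := by
    intro z hz hzS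
    unfold wt
    rw [← ENNReal.toReal_sum fun c _ => hfin z hz c]
    have h1 : ∑ c ∈ S, PN G N z c = N := by
      rw [← PN_mass G hf N z hz]
      exact (tsum_eq_sum fun c hc => by_contra fun h => hc (hzS c h)).symm
    rw [h1, ENNReal.toReal_natCast]
  have hN' : (0 : ℝ) < N := by exact_mod_cast hN
  have h := race_upper (wt G N x) (wt G N y) (wt_nonneg G N x) (wt_nonneg G N y) S
    (fun j hj => hS1 j (wt_pos hj)) (fun j hj => hS2 j (wt_pos hj)) N hN'
    (hsum x hx hS1) (hsum y hy hS2)
  refine h.trans ?_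
  have hov : ov G N x y = ENNReal.ofReal (∑ j ∈ S, min (wt G N x j) (wt G N y j)) := by
    unfold ov
    rw [tsum_eq_sum (s := S), ENNReal.ofReal_sum_of_nonneg
      (fun j _ => le_min (wt_nonneg G N x j) (wt_nonneg G N y j))]
    · refine Finset.sum_congr rfl fun j _ => ?_
      unfold wt
      rw [← ENNReal.toReal_min (hfin x hx j) (hfin y hy j), ENNReal.ofReal_toReal]
      exact ne_top_of_le_ne_top (hfin x hx j) (min_le_left _ _)
    · intro j hj
      have : PN G N x j = 0 := by_contra fun h => hj (hS1 j h)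
      rw [this]; simp
  have hm0 : 0 ≤ ∑ j ∈ S, min (wt G N x j) (wt G N y j) :=
    Finset.sum_nonneg fun j _ => le_min (wt_nonneg G N x j) (wt_nonneg G N y j)
  rw [ENNReal.ofReal_mul (by norm_num), ENNReal.ofReal_sub _ (div_nonneg hm0 hN'.le),
    ENNReal.ofReal_one, ENNReal.ofReal_div_of_pos hN', ← hov, ENNReal.ofReal_natCast]
  unfold dl
  simp

theorem com_lam [Countable V] (G : SimpleGraph V) (hf : ∀ v, (G.neighborSet v).Finite)
    (N : ℕ) (hN : 1 ≤ N) {x y : V} (hx : ∃ w, G.Adj x w) (hy : ∃ w, G.Adj y w) (n : ℕ) :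
    lam V {a | ¬ Com G N (fun v => a v n) x y} ≤ 2 * dl G N x y := by
  refine le_trans ?_ (com_prob G hf N hN hx hy)
  rw [← lam_level n]
  exact Measure.le_map_apply (by fun_prop : Measurable fun (a : V → ℕ → unitInterval) v =>
    a v n).aemeasurable {a | ¬ Com G N a x y}

/-- Every edge is eventually inside a class. -/
theorem ae_rel [Countable V] (G : SimpleGraph V) (hf : ∀ v, (G.neighborSet v).Finite)
    (N : ℕ → ℕ) (hN : ∀ n, 1 ≤ N n)
    (hgood : ∀ x y, G.Adj x y → ∑' n, dl G (N n) x y ≠ ∞) :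
    ∀ᵐ a ∂(lam V), ∀ x y, G.Adj x y → ∃ n, Rel G N a n x y := by
  rw [ae_all_iff]; intro x
  rw [ae_all_iff]; intro y
  by_cases hxy : G.Adj x y
  · have h1 : ∑' n, lam V {a | ¬ Com G (N n) (fun v => a v n) x y} ≠ ∞ := by
      have h2 : ∑' n, lam V {a | ¬ Com G (N n) (fun v => a v n) x y} ≤
          ∑' n, 2 * dl G (N n) x y :=
        ENNReal.tsum_le_tsum fun n => com_lam G hf (N n) (hN n) ⟨y, hxy⟩ ⟨x, hxy.symm⟩ n
      rw [ENNReal.tsum_mul_left] at h2
      exact ne_top_of_le_ne_top (ENNReal.mul_ne_top (by norm_num) (hgood x y hxy)) h2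
    filter_upwards [ae_eventually_notMem h1] with a ha _
    obtain ⟨n0, hn0⟩ := eventually_atTop.1 ha
    refine ⟨n0 + 1, Or.inr ⟨by omega, fun m hm => ?_⟩⟩
    have := hn0 m (by omega)
    simpa using this
  · exact Filter.Eventually.of_forall fun a h => (hxy h).elim

/-- The order labels are distinct. -/
theorem ae_inj [Countable V] : ∀ᵐ a ∂(lam V), Function.Injective fun v => a v 0 := by
  have h0 : ∀ v w : V, v ≠ w → ∀ᵐ b ∂(mu V), b v ≠ b w := by
    intro v w hvw
    have h1 := Measure.infinitePi_map_eval_prod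
      (P := fun _ : V => (volume : Measure unitInterval)) hvw
    have hD : MeasurableSet {p : unitInterval × unitInterval | p.1 = p.2} :=
      measurableSet_eq_fun measurable_fst measurable_snd
    have h2 : ((volume : Measure unitInterval).prod volume)
        {p : unitInterval × unitInterval | p.1 = p.2} = 0 := by
      rw [Measure.prod_apply hD]
      have : ∀ t : unitInterval, volume (Prod.mk t ⁻¹' {p : unitInterval × unitInterval |
          p.1 = p.2}) = 0 := by
        intro t
        have : Prod.mk t ⁻¹' {p : unitInterval × unitInterval | p.1 = p.2} = {t} := by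
          ext s
          simp [eq_comm]
        rw [this]
        exact measure_singleton t
      simp [this]
    rw [← h1, Measure.map_apply (by fun_prop) hD] at h2
    rw [ae_iff]
    simpa using h2
  have h1 : ∀ᵐ a ∂(lam V), ∀ v w : V, v ≠ w → a v 0 ≠ a w 0 := by
    rw [ae_all_iff]; intro v
    rw [ae_all_iff]; intro w
    by_cases hvw : v = w
    · exact Filter.Eventually.of_forall fun a h => (h hvw).elim
    · have h2 := h0 v w hvw
      rw [← lam_level 0] at h2
      have h3 := ae_of_ae_map (by fun_prop : Measurable fun (a : V → ℕ → unitInterval) v =>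
        a v 0).aemeasurable h2
      filter_upwards [h3] with a ha _
      exact ha
  filter_upwards [h1] with a ha v w hvw
  by_contra hne
  exact ha v w hne hvw

end Prob

section Conn

variable {G : SimpleGraph V} {N : ℕ → ℕ} {a : V → ℕ → unitInterval}

theorem rel_of_walk (h : ∀ x y, G.Adj x y → ∃ n, Rel G N a n x y) {x y : V} (p : G.Walk x y) :
    ∃ n, Rel G N a n x y := by
  induction p with
  | nil => exact ⟨0, Rel.refl 0 _⟩
  | @cons u v w hadj p ih =>
    obtain ⟨n, hn⟩ := h _ _ hadj
    obtain ⟨m, hm⟩ := ih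
    exact ⟨max n m, (hn.mono (le_max_left _ _)).trans (hm.mono (le_max_right _ _))⟩

/-- In a connected graph every finite set of vertices is eventually inside one class. -/
theorem rel_finset (hc : G.Connected) (h : ∀ x y, G.Adj x y → ∃ n, Rel G N a n x y)
    (x : V) (D : Finset V) : ∃ n0, ∀ n, n0 ≤ n → ∀ y ∈ D, Rel G N a n x y := by
  classical
  induction D using Finset.induction_on with
  | empty => exact ⟨0, fun n _ y hy => absurd hy (Finset.notMem_empty y)⟩
  | insert z D hz ih =>
    obtain ⟨n0, hn0⟩ := ih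
    obtain ⟨p⟩ := hc.preconnected x z
    obtain ⟨m, hm⟩ := rel_of_walk h p
    refine ⟨max n0 m, fun n hn y hy => ?_⟩
    rcases Finset.mem_insert.1 hy with rfl | hy
    · exact hm.mono ((le_max_right _ _).trans hn)
    · exact hn0 n ((le_max_left _ _).trans hn) y hy

end Conn

end Pool.Agent.U635
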