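import Pool.Agent.U635.Defs
import Pool.Agent.U635.Part

/-!
# Recurrence does not depend on the starting vertex
-/

set_option autoImplicit false
set_option linter.unusedSectionVars false

namespace Pool.Agent.U635

open Pool.Agent.TH968.UST MeasureTheory Filter
open scoped ENNReal Topology

variable {V : Type*}

open Classical in
theorem avg_fin (G : SimpleGraph V) (hf : ∀ v, (G.neighborSet v).Finite) (f : V → ℝ≥0∞) (v : V) :
    avg G f v = (∑ w ∈ (hf v).toFinset, f w) / dg G v := by
  unfold avg dg
  congr 1
  rw [tsum_eq_sum (s := (hf v).toFinset)]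
  · refine Finset.sum_congr rfl fun w hw => ?_
    have : G.Adj v w := (Set.Finite.mem_toFinset _).1 hw
    rw [if_pos this]
  · intro w hw
    have : ¬ G.Adj v w := fun h => hw ((Set.Finite.mem_toFinset _).2 h)
    rw [if_neg this]

theorem avg_iSup (G : SimpleGraph V) (hf : ∀ v, (G.neighborSet v).Finite) (f : ℕ → V → ℝ≥0∞)
    (hm : ∀ w, Monotone fun n => f n w) (v : V) :
    avg G (fun w => ⨆ n, f n w) v = ⨆ n, avg G (f n) v := by
  simp only [avg_fin G hf]
  rw [ENNReal.finsetSum_iSup_of_monotone fun w => hm w]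
  simp only [div_eq_mul_inv]
  rw [ENNReal.iSup_mul]

open Classical in
/-- maximum principle at one vertex -/
theorem eq_one_of_avg (G : SimpleGraph V) (hf : ∀ v, (G.neighborSet v).Finite) {g : V → ℝ≥0∞}
    (hg : ∀ w, g w ≤ 1) {v w : V} (hvw : G.Adj v w) (h : avg G g v = 1) : g w = 1 := by
  have hv : ∃ w, G.Adj v w := ⟨w, hvw⟩
  have h1 : avg G g v * dg G v + (1 - g w) ≤ dg G v := by
    rw [avg_mul_dg G _ v hv (hf v)]
    have e1 : (1 - g w) = ∑' x, (if x = w then (1 - g w) else 0) := by rw [tsum_ite_eq]
    rw [e1, ← ENNReal.tsum_add]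
    unfold dg
    refine ENNReal.tsum_le_tsum fun x => ?_
    by_cases hx : x = w
    · subst hx
      rw [if_pos hvw, if_pos hvw, if_pos rfl, add_tsub_cancel_of_le (hg x)]
    · rw [if_neg hx, add_zero]
      split_ifs
      · exact hg x
      · exact le_rfl
  rw [h, one_mul] at h1
  have h3 : (1 : ℝ≥0∞) - g w ≤ 0 := by
    have := ENNReal.le_sub_of_add_le_left (dg_ne_top G v (hf v)) h1
    rwa [tsub_self] at this
  exact le_antisymm (hg w) (tsub_eq_zero_iff_le.1 (le_antisymm h3 zero_le))

open Classical in
/-- minimum principle at one vertex -/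
theorem le_of_avg_le (G : SimpleGraph V) (hf : ∀ v, (G.neighborSet v).Finite) {u : V → ℝ≥0∞}
    {m : ℝ≥0∞} (hmt : m ≠ ∞) (hm : ∀ w, m ≤ u w) {v w : V} (hvw : G.Adj v w)
    (h : avg G u v ≤ m) : u w ≤ m := by
  have hv : ∃ w, G.Adj v w := ⟨w, hvw⟩
  have h1 : m * dg G v + (u w - m) ≤ avg G u v * dg G v := by
    rw [avg_mul_dg G _ v hv (hf v)]
    have e1 : (u w - m) = ∑' x, (if x = w then (u w - m) else 0) := by rw [tsum_ite_eq]
    rw [e1]
    unfold dg
    rw [← ENNReal.tsum_mul_left, ← ENNReal.tsum_add]
    refine ENNReal.tsum_le_tsum fun x => ?_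
    by_cases hx : x = w
    · subst hx
      rw [if_pos hvw, if_pos hvw, if_pos rfl, mul_one, add_tsub_cancel_of_le (hm x)]
    · rw [if_neg hx, add_zero]
      split_ifs
      · rw [mul_one]; exact hm x
      · simp
  have h2 : m * dg G v + (u w - m) ≤ m * dg G v := h1.trans (mul_le_mul_left h _)
  have h3 : u w - m ≤ 0 := by
    have := ENNReal.le_sub_of_add_le_left (ENNReal.mul_ne_top hmt (dg_ne_top G v (hf v))) h2
    rwa [tsub_self] at this
  exact tsub_eq_zero_iff_le.1 (le_antisymm h3 zero_le)

theorem hit_succ_of_ne (G : SimpleGraph V) {o v : V} (h : v ≠ o) (n : ℕ) :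
    hit G o (n + 1) v = avg G (hit G o n) v := by simp [hit, h]

theorem iSup_hit_eq_avg (G : SimpleGraph V) (hf : ∀ v, (G.neighborSet v).Finite) {o v : V}
    (h : v ≠ o) : ⨆ n, hit G o n v = avg G (fun w => ⨆ n, hit G o n w) v := by
  rw [avg_iSup G hf _ (fun w => hit_monotone G o w)]
  apply le_antisymm
  · refine iSup_le fun n => ?_
    refine (hit_mono G o n v).trans ?_
    rw [hit_succ_of_ne G h]
    exact le_iSup (fun n => avg G (hit G o n) v) n
  · refine iSup_le fun n => ?_
    rw [← hit_succ_of_ne G h]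
    exact le_iSup (fun n => hit G o n v) (n + 1)

/-- Recurrence at one vertex of a connected graph implies recurrence at every vertex. -/
theorem recurrent_of_at (G : SimpleGraph V) (hf : ∀ v, (G.neighborSet v).Finite)
    (hc : G.Connected) (o : V) (ho : RecurrentAt G o) : Recurrent G := by
  intro x hx
  -- `o` is not isolated
  have hnb : ∀ v : V, ∃ w, G.Adj v w := by
    intro v
    obtain ⟨y, hxy⟩ := hx
    by_cases hvx : v = x
    · exact ⟨y, hvx ▸ hxy⟩
    · obtain ⟨p⟩ := hc.preconnected v x
      cases p with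
      | nil => exact (hvx rfl).elim
      | cons h _ => exact ⟨_, h⟩
  have hoR := ho (hnb o)
  -- hitting probabilities of `o` are all one
  set g : V → ℝ≥0∞ := fun v => ⨆ n, hit G o n v with hg
  have hg1 : ∀ v, g v ≤ 1 := fun v => iSup_le fun n => hit_le_one G hf o n v
  have hgo : g o = 1 := le_antisymm (hg1 o) ((hit_self G o 0).symm.le.trans
    (le_iSup (fun n => hit G o n o) 0))
  have hgavg : ∀ v, g v = 1 → avg G g v = 1 := by
    intro v hv
    by_cases hvo : v = o
    · rw [hvo, hg, avg_iSup G hf _ (fun w => hit_monotone G o w)]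
      exact hoR
    · rw [← iSup_hit_eq_avg G hf hvo]
      exact hv
  have hgall : ∀ v, g v = 1 := by
    have hwg : ∀ {a b : V} (p : G.Walk a b), g b = 1 → g a = 1 := by
      intro a b p
      induction p with
      | nil => exact fun h => h
      | @cons a b c hab p ih =>
        exact fun h => eq_one_of_avg G hf hg1 hab.symm (hgavg b (ih h))
    intro v
    obtain ⟨p⟩ := hc.preconnected v o
    exact hwg p hgo
  -- the hitting probability of `x` is minimal at `o`
  set u : V → ℝ≥0∞ := fun v => ⨆ n, hit G x n v with hu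
  have hu1 : ∀ v, u v ≤ 1 := fun v => iSup_le fun n => hit_le_one G hf x n v
  have hux : u x = 1 := le_antisymm (hu1 x) ((hit_self G x 0).symm.le.trans
    (le_iSup (fun n => hit G x n x) 0))
  have hsuper : ∀ v, avg G u v ≤ u v := by
    intro v
    by_cases hvx : v = x
    · rw [hvx, hux, ← avg_one G x (hnb x) (hf x)]
      exact avg_mono G x fun w _ => hu1 w
    · exact (iSup_hit_eq_avg G hf hvx).ge
  have hmin : ∀ v, u o ≤ u v := by
    intro v
    have h1 : ∀ n v, hit G o n v * u o ≤ u v := by
      intro n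
      induction n with
      | zero =>
        intro v
        by_cases hvo : v = o
        · rw [hvo, hit_self, one_mul]
        · simp [hit, hvo]
      | succ n ih =>
        intro v
        by_cases hvo : v = o
        · rw [hvo, hit_self, one_mul]
        · rw [hit_succ_of_ne G hvo, ← avg_mul]
          exact (avg_mono G v fun w _ => ih w).trans (hsuper v)
    have h2 : (⨆ n, hit G o n v) * u o ≤ u v := by
      rw [ENNReal.iSup_mul]
      exact iSup_le fun n => h1 n v
    have h3 : ⨆ n, hit G o n v = 1 := hgall v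
    rwa [h3, one_mul] at h2
  have hmt : u o ≠ ∞ := ne_top_of_le_ne_top ENNReal.one_ne_top (hu1 o)
  -- propagation of the minimum
  have hprop : ∀ a b : V, G.Adj a b → u a ≤ u o → (u b ≤ u o ∨ 1 ≤ u o) := by
    intro a b hab ha
    by_cases hax : a = x
    · right
      rw [hax, hux] at ha
      exact ha
    · left
      refine le_of_avg_le G hf hmt hmin hab ?_
      exact (hsuper a).trans ha
  have hwalk : ∀ {a b : V} (p : G.Walk a b), u b ≤ u o → (u a ≤ u o ∨ 1 ≤ u o) := by
    intro a b p
    induction p with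
    | nil => exact fun h => Or.inl h
    | @cons a b c hab p ih =>
      intro h
      rcases ih h with h | h
      · exact hprop b a hab.symm h
      · exact Or.inr h
  have huo : 1 ≤ u o := by
    obtain ⟨p⟩ := hc.preconnected x o
    rcases hwalk p le_rfl with h | h
    · rwa [hux] at h
    · exact h
  have hall : ∀ v, u v = 1 := fun v => le_antisymm (hu1 v) (huo.trans (hmin v))
  rw [← avg_iSup G hf _ (fun w => hit_monotone G x w)]
  have : avg G u x = avg G (fun _ => 1) x := by
    congr 1
    funext v
    exact hall v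
  change avg G u x = 1
  rw [this, avg_one G x (hnb x) (hf x)]

end Pool.Agent.U635
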