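import Mathlib

/-!
# Vague limits on `(0, ∞)` from moments of order at least two
-/

set_option autoImplicit false

namespace Pool.Agent.U635.Vague

open MeasureTheory Filter Topology Set
open scoped CompactlySupported

/-- the extension by zero -/
noncomputable def ex (f : Ioi (0 : ℝ) → ℝ) : ℝ → ℝ := Function.extend Subtype.val f 0

lemma ex_val (f : Ioi (0 : ℝ) → ℝ) (x : Ioi (0 : ℝ)) : ex f x = f x :=
  Subtype.val_injective.extend_apply _ _ _

lemma ex_of_nonpos (f : Ioi (0 : ℝ) → ℝ) {x : ℝ} (hx : x ≤ 0) : ex f x = 0 := by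
  unfold ex
  rw [Function.extend_apply']
  · rfl
  · rintro ⟨y, rfl⟩
    exact absurd y.2 (not_lt.2 hx)

lemma ex_cont {f : Ioi (0 : ℝ) → ℝ} (hf : Continuous f) (hs : HasCompactSupport f) :
    Continuous (ex f) := HasCompactSupport.continuous_extend_zero isOpen_Ioi hf hs

lemma ex_zero_near {f : Ioi (0 : ℝ) → ℝ} (hs : HasCompactSupport f) :
    ∀ᶠ x in 𝓝 (0 : ℝ), ex f x = 0 := by
  have hK : IsCompact (Subtype.val '' tsupport f) := hs.isCompact.image continuous_subtype_val
  have h0 : (0 : ℝ) ∉ Subtype.val '' tsupport f := by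
    rintro ⟨y, -, hy⟩
    have := y.2
    rw [hy] at this
    exact lt_irrefl _ (mem_Ioi.1 this)
  filter_upwards [hK.isClosed.isOpen_compl.mem_nhds h0] with x hx
  rcases le_or_gt x 0 with h | h
  · exact ex_of_nonpos f h
  · have h1 : ex f x = f ⟨x, h⟩ := ex_val f ⟨x, h⟩
    rw [h1]
    by_contra h2
    exact hx ⟨⟨x, h⟩, subset_tsupport _ (Function.mem_support.2 h2), rfl⟩

lemma div_cont {f : Ioi (0 : ℝ) → ℝ} (hf : Continuous f) (hs : HasCompactSupport f) :
    Continuous (fun x => ex f x / x ^ 2) := by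
  rw [continuous_iff_continuousAt]
  intro x
  rcases eq_or_ne x 0 with rfl | hx
  · have h1 : (fun x => ex f x / x ^ 2) =ᶠ[𝓝 0] fun _ => (0 : ℝ) := by
      filter_upwards [ex_zero_near hs] with y hy
      rw [hy, zero_div]
    exact (continuousAt_congr h1).2 continuousAt_const
  · exact (ex_cont hf hs).continuousAt.div (continuousAt_id.pow 2) (pow_ne_zero 2 hx)

lemma div_mul (f : Ioi (0 : ℝ) → ℝ) (x : ℝ) : ex f x / x ^ 2 * x ^ 2 = ex f x := by
  rcases eq_or_ne x 0 with rfl | hx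
  · rw [ex_of_nonpos f le_rfl]; simp
  · field_simp

lemma integral_comap (Q : Measure ℝ) (f : Ioi (0 : ℝ) → ℝ) :
    ∫ x, f x ∂(Measure.comap Subtype.val Q) = ∫ x, ex f x ∂Q := by
  have h1 : ∫ x, f x ∂(Measure.comap Subtype.val Q) =
      ∫ x : Ioi (0 : ℝ), ex f (x : ℝ) ∂(Measure.comap Subtype.val Q) := by
    congr 1
    funext x
    exact (ex_val f x).symm
  rw [h1, integral_subtype_comap measurableSet_Ioi (ex f)]
  refine setIntegral_eq_integral_of_forall_compl_eq_zero fun x hx => ?_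
  exact ex_of_nonpos f (not_lt.1 hx)

section

variable {Q : ℕ → Measure ℝ} [∀ d, IsFiniteMeasure (Q d)]

lemma ae01 {ρ : Measure ℝ} (h : ρ (Icc 0 1)ᶜ = 0) : ∀ᵐ x ∂ρ, x ∈ Icc (0 : ℝ) 1 :=
  measure_eq_zero_iff_ae_notMem.1 h |>.mono fun x hx => by simpa using hx

lemma integrable_cont {ρ : Measure ℝ} [IsFiniteMeasure ρ] (h : ρ (Icc 0 1)ᶜ = 0) {g : ℝ → ℝ}
    (hg : Continuous g) : Integrable g ρ := by
  obtain ⟨C, hC⟩ := isCompact_Icc.exists_bound_of_continuousOn (hg.continuousOn (s := Icc (0 : ℝ) 1))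
  refine Integrable.of_bound hg.aestronglyMeasurable C ?_
  filter_upwards [ae01 h] with x hx using hC x hx

/-- moments of polynomials -/
lemma poly_moment {ρ : Measure ℝ} [IsFiniteMeasure ρ] (h : ρ (Icc 0 1)ᶜ = 0) (p : Polynomial ℝ) :
    ∫ x, p.eval x * x ^ 2 ∂ρ = p.sum fun j a => a * ∫ x, x ^ (j + 2) ∂ρ := by
  have h1 : ∀ x : ℝ, p.eval x * x ^ 2 = ∑ j ∈ p.support, p.coeff j * x ^ (j + 2) := by
    intro x
    rw [Polynomial.eval_eq_sum, Polynomial.sum, Finset.sum_mul]
    refine Finset.sum_congr rfl fun j _ => ?_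
    ring
  simp_rw [h1]
  rw [integral_finsetSum _ fun j _ => ?_]
  · rw [Polynomial.sum]
    refine Finset.sum_congr rfl fun j _ => ?_
    rw [integral_const_mul]
  · exact (integrable_cont h (by fun_prop)).const_mul _

/-- The limits of the integrals of the functions `g x * x ^ 2`, `g` continuous. -/
theorem exists_lim (hQ : ∀ d, Q d (Icc 0 1)ᶜ = 0) {c : ℕ → ℝ}
    (hc : ∀ k, 2 ≤ k → Tendsto (fun d => ∫ x, x ^ k ∂(Q d)) atTop (𝓝 (c k)))
    {g : ℝ → ℝ} (hg : Continuous g) :
    ∃ l, Tendsto (fun d => ∫ x, g x * x ^ 2 ∂(Q d)) atTop (𝓝 l) := by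
  have h2 := hc 2 le_rfl
  have hc2 : 0 ≤ c 2 := ge_of_tendsto' h2 fun d => integral_nonneg fun x => by positivity
  apply cauchySeq_tendsto_of_complete
  rw [Metric.cauchySeq_iff']
  intro ε hε
  set η : ℝ := ε / (4 * (c 2 + 1)) with hη
  have hη0 : 0 < η := by positivity
  obtain ⟨p, hp⟩ := exists_polynomial_near_of_continuousOn 0 1 g hg.continuousOn η hη0
  have hb : Tendsto (fun d => ∫ x, p.eval x * x ^ 2 ∂(Q d)) atTop
      (𝓝 (p.sum fun j a => a * c (j + 2))) := by
    simp_rw [fun d => poly_moment (hQ d) p]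
    unfold Polynomial.sum
    exact tendsto_finsetSum _ fun j _ => (hc (j + 2) (by omega)).const_mul _
  have key : ∀ d, |∫ x, g x * x ^ 2 ∂(Q d) - ∫ x, p.eval x * x ^ 2 ∂(Q d)| ≤
      η * ∫ x, x ^ 2 ∂(Q d) := by
    intro d
    rw [← integral_sub (integrable_cont (hQ d) (by fun_prop)) (integrable_cont (hQ d) (by fun_prop)),
      ← integral_const_mul, ← Real.norm_eq_abs]
    refine norm_integral_le_of_norm_le ((integrable_cont (hQ d) (by fun_prop)).const_mul _) ?_
    filter_upwards [ae01 (hQ d)] with x hx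
    have h3 := hp x hx
    rw [Real.norm_eq_abs, ← sub_mul, abs_mul, abs_of_nonneg (by positivity : 0 ≤ x ^ 2)]
    refine mul_le_mul_of_nonneg_right ?_ (by positivity)
    rw [abs_sub_comm]
    exact h3.le
  obtain ⟨N₁, hN₁⟩ := eventually_atTop.1 (h2.eventually_lt_const (show c 2 < c 2 + 1 by linarith))
  obtain ⟨N₂, hN₂⟩ := Metric.cauchySeq_iff.1 hb.cauchySeq (ε / 2) (by positivity)
  have k2 : ∀ d, N₁ ≤ d → |∫ x, g x * x ^ 2 ∂(Q d) - ∫ x, p.eval x * x ^ 2 ∂(Q d)| < ε / 4 := by
    intro d hd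
    refine (key d).trans_lt ?_
    have h3 := mul_lt_mul_of_pos_left (hN₁ d hd) hη0
    have h4 : η * (c 2 + 1) = ε / 4 := by
      rw [hη]
      field_simp
    linarith
  refine ⟨max N₁ N₂, fun d hd => ?_⟩
  have h3 := hN₂ d ((le_max_right _ _).trans hd) (max N₁ N₂) (le_max_right _ _)
  have h4 := k2 d ((le_max_left _ _).trans hd)
  have h5 := k2 (max N₁ N₂) (le_max_left _ _)
  rw [Real.dist_eq] at h3 ⊢
  rw [abs_lt] at *
  constructor <;> linarith [h3.1, h3.2, h4.1, h4.2, h5.1, h5.2]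

/-- **Vague limits from moments.** If the measures `Q d` on `[0, 1]` have convergent moments of all orders
`≥ 2`, and the limit of the third moments is positive, then the measures have a vague limit on `(0, ∞)`,
which is locally finite and not zero. -/
theorem vague (hQ : ∀ d, Q d (Icc 0 1)ᶜ = 0) {c : ℕ → ℝ}
    (hc : ∀ k, 2 ≤ k → Tendsto (fun d => ∫ x, x ^ k ∂(Q d)) atTop (𝓝 (c k))) (h3 : 0 < c 3) :
    ∃ μ : Measure (Ioi (0 : ℝ)), IsLocallyFiniteMeasure μ ∧ μ ≠ 0 ∧
      ∀ f : Ioi (0 : ℝ) → ℝ, Continuous f → HasCompactSupport f →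
        Tendsto (fun d => ∫ x, f x ∂(Measure.comap Subtype.val (Q d))) atTop (𝓝 (∫ x, f x ∂μ)) := by
  have hloc : LocallyCompactSpace (Ioi (0 : ℝ)) := isOpen_Ioi.locallyCompactSpace
  have hc2 : 0 ≤ c 2 := ge_of_tendsto' (hc 2 le_rfl) fun d => integral_nonneg fun x => by positivity
  have hlim : ∀ f : C_c(Ioi (0 : ℝ), ℝ), ∃ l, Tendsto (fun d => ∫ x, f x ∂(Measure.comap Subtype.val (Q d)))
      atTop (𝓝 l) := by
    intro f
    obtain ⟨l, hl⟩ := exists_lim hQ hc (div_cont f.continuous f.hasCompactSupport)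
    refine ⟨l, ?_⟩
    simp_rw [integral_comap]
    simp_rw [div_mul] at hl
    exact hl
  choose L hL using hlim
  have hint : ∀ (f : C_c(Ioi (0 : ℝ), ℝ)) (d : ℕ), Integrable f (Measure.comap Subtype.val (Q d)) := by
    intro f d
    have : IsFiniteMeasure (Measure.comap (Subtype.val : Ioi (0 : ℝ) → ℝ) (Q d)) :=
      ⟨by rw [(MeasurableEmbedding.subtype_coe measurableSet_Ioi).comap_apply]; exact measure_lt_top _ _⟩
    exact f.continuous.integrable_of_hasCompactSupport f.hasCompactSupport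
  have hadd : ∀ f g, L (f + g) = L f + L g := fun f g =>
    tendsto_nhds_unique (hL (f + g)) (((hL f).add (hL g)).congr fun d => by
      rw [← integral_add (hint f d) (hint g d)]
      rfl)
  have hsmul : ∀ (a : ℝ) f, L (a • f) = a • L f := fun a f =>
    tendsto_nhds_unique (hL (a • f)) (((hL f).const_mul a).congr fun d => by
      rw [← integral_const_mul]
      rfl)
  let Λ : C_c(Ioi (0 : ℝ), ℝ) →ₚ[ℝ] ℝ := PositiveLinearMap.mk₀
    { toFun := L, map_add' := hadd, map_smul' := hsmul } fun f hf =>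
      ge_of_tendsto' (hL f) fun d => integral_nonneg fun x => hf x
  have hΛ : ∀ f, Λ f = L f := fun f => rfl
  refine ⟨RealRMK.rieszMeasure Λ, ?_, ?_, ?_⟩
  · infer_instance
  · intro h0
    have hz : ∀ f, L f = 0 := by
      intro f
      rw [← hΛ, ← RealRMK.integral_rieszMeasure, h0, integral_zero_measure]
    set η : ℝ := c 3 / (4 * (c 2 + 1)) with hη
    have hη0 : 0 < η := by positivity
    let r : ℝ → ℝ := fun x => max 0 (min 1 (x / η - 1)) * max 0 (min 1 (2 - x))
    have hr : Continuous r := by fun_prop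
    have hr0 : ∀ x, 0 ≤ r x := fun x => mul_nonneg (le_max_left _ _) (le_max_left _ _)
    have hr1 : ∀ x, 2 * η ≤ x → x ≤ 1 → r x = 1 := by
      intro x h1 h2
      have h4 : 1 ≤ x / η - 1 := by
        rw [le_sub_iff_add_le, le_div_iff₀ hη0]; linarith
      simp only [r]
      rw [min_eq_left h4, min_eq_left (by linarith : (1 : ℝ) ≤ 2 - x)]
      simp
    have hr2 : ∀ x, r x ≠ 0 → x ∈ Icc η 2 := by
      intro x hx
      by_contra h1
      apply hx
      rw [mem_Icc, not_and_or, not_le, not_le] at h1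
      simp only [r]
      rcases h1 with h1 | h1
      · have h4 : x / η - 1 ≤ 0 := by
          rw [sub_nonpos, div_le_one hη0]; exact h1.le
        rw [min_eq_right (h4.trans zero_le_one), max_eq_left h4, zero_mul]
      · rw [min_eq_right (by linarith : 2 - x ≤ 1), max_eq_left (by linarith : 2 - x ≤ 0), mul_zero]
    have hcs : HasCompactSupport (fun x : Ioi (0 : ℝ) => (x : ℝ) ^ 3 * r x) := by
      have hK : IsCompact ((Subtype.val : Ioi (0 : ℝ) → ℝ) ⁻¹' Icc η 2) := by
        rw [isOpen_Ioi.isOpenEmbedding_subtypeVal.isInducing.isCompact_preimage_iff]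
        · exact isCompact_Icc
        · rw [Subtype.range_coe]
          exact fun x hx => lt_of_lt_of_le hη0 hx.1
      refine HasCompactSupport.intro hK fun x hx => ?_
      have : r x = 0 := by
        by_contra h
        exact hx (hr2 x h)
      rw [this, mul_zero]
    let f : C_c(Ioi (0 : ℝ), ℝ) := ⟨⟨fun x => (x : ℝ) ^ 3 * r x, by fun_prop⟩, hcs⟩
    have hle : ∀ d, ∫ x, x ^ 3 ∂(Q d) - 2 * η * ∫ x, x ^ 2 ∂(Q d) ≤
        ∫ x, f x ∂(Measure.comap Subtype.val (Q d)) := by
      intro d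
      have hf : ∀ x : ℝ, 0 < x → ex f x = x ^ 3 * r x := fun x hx => ex_val f ⟨x, hx⟩
      rw [integral_comap, ← integral_const_mul,
        ← integral_sub (integrable_cont (hQ d) (by fun_prop)) (integrable_cont (hQ d) (by fun_prop))]
      refine integral_mono_ae (integrable_cont (hQ d) (by fun_prop))
        (integrable_cont (hQ d) (ex_cont f.continuous f.hasCompactSupport)) ?_
      filter_upwards [ae01 (hQ d)] with x hx
      rcases hx.1.eq_or_lt with h1 | h1
      · rw [← h1, ex_of_nonpos _ le_rfl]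
        simp
      · rw [hf x h1]
        rcases le_or_gt (2 * η) x with h4 | h4
        · rw [hr1 x h4 hx.2]
          have : 0 ≤ 2 * η * x ^ 2 := by positivity
          linarith
        · have h5 : 0 ≤ x ^ 3 * r x := mul_nonneg (by positivity) (hr0 x)
          nlinarith [sq_nonneg x, mul_nonneg (sq_nonneg x) (sub_nonneg.2 h4.le)]
    have h4 := le_of_tendsto_of_tendsto' ((hc 3 (by norm_num)).sub ((hc 2 le_rfl).const_mul (2 * η)))
      (hL f) hle
    rw [hz f] at h4
    have h5 : 2 * η * c 2 < c 3 := by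
      rw [hη]
      have h6 : 2 * (c 3 / (4 * (c 2 + 1))) * c 2 = c 3 * (c 2 / (2 * (c 2 + 1))) := by
        field_simp
        ring
      rw [h6]
      have h7 : c 2 / (2 * (c 2 + 1)) < 1 := by
        rw [div_lt_one (by positivity)]
        linarith
      nlinarith
    linarith
  · intro f hf hs
    have h4 := hL ⟨⟨f, hf⟩, hs⟩
    rw [← hΛ, ← RealRMK.integral_rieszMeasure] at h4
    exact h4

end

end Pool.Agent.U635.Vague
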