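import Pool.Agent.H349R2.Tet.Pack
import Pool.Agent.H349R2.Tet.Basic

/-!
# Reduced bases of lattices in space
-/

set_option autoImplicit false

open Set Filter Topology
open Pool.Agent.H349R2.Tet

namespace Pool.Agent.U635.Ct

/-- squared Euclidean norm -/
def nq (x : V) : ℝ := x 0 ^ 2 + x 1 ^ 2 + x 2 ^ 2

/-- Euclidean inner product -/
def ip (x y : V) : ℝ := x 0 * y 0 + x 1 * y 1 + x 2 * y 2

theorem nq_nonneg (x : V) : 0 ≤ nq x := by unfold nq; positivity

theorem gram_sorted {a b c p q s : ℝ} (ha : 0 < a) (hab : a ≤ b) (hbc : b ≤ c) (hp : |p| ≤ a / 2)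
    (hq : |q| ≤ a / 2) (hs : |s| ≤ b / 2) (hn : p * q * s < 0 → |p| + |q| + |s| ≤ (a + b) / 2) :
    a * b * c / 4 ≤ a * b * c + 2 * p * q * s - a * s ^ 2 - b * q ^ 2 - c * p ^ 2 := by
  have hP := abs_nonneg p
  have hQ := abs_nonneg q
  have hS := abs_nonneg s
  have h1 : a * s ^ 2 ≤ a * (b / 2) * |s| := by
    rw [← sq_abs s]
    nlinarith [mul_nonneg ha.le hS]
  have h2 : b * q ^ 2 ≤ b * (a / 2) * |q| := by
    rw [← sq_abs q]
    nlinarith [mul_nonneg (ha.le.trans hab) hQ]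
  have h3 : c * p ^ 2 ≤ c * (a / 2) * |p| := by
    rw [← sq_abs p]
    nlinarith [mul_nonneg ((ha.le.trans hab).trans hbc) hP]
  have hb : 0 < b := ha.trans_le hab
  have hc : 0 < c := hb.trans_le hbc
  have h4 : a * (b / 2) * |s| ≤ a * c / 2 * |s| := by nlinarith [mul_nonneg ha.le hS]
  have h5 : b * (a / 2) * |q| ≤ a * c / 2 * |q| := by nlinarith [mul_nonneg ha.le hQ]
  rcases lt_or_ge (p * q * s) 0 with h | h
  · have h6 := hn h
    have h7 : |p| * |q| * |s| ≤ a / 2 * (a / 2) * (b / 2) := by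
      apply mul_le_mul (mul_le_mul hp hq hQ (by linarith)) hs hS (by positivity)
    have h8 : -(|p| * |q| * |s|) ≤ p * q * s := by
      rw [← abs_mul, ← abs_mul]
      exact neg_abs_le _
    have h9 : a * c / 2 * (|p| + |q| + |s|) ≤ a * c / 2 * ((a + b) / 2) :=
      mul_le_mul_of_nonneg_left h6 (by positivity)
    have h10 : a * c / 2 * ((a + b) / 2) ≤ a * c / 2 * b :=
      mul_le_mul_of_nonneg_left (by linarith) (by positivity)
    have h11 : a / 2 * (a / 2) * (b / 2) ≤ a * b * c / 8 := by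
      have : a * a * b ≤ a * c * b := by
        apply mul_le_mul_of_nonneg_right _ hb.le
        exact mul_le_mul_of_nonneg_left (hab.trans hbc) ha.le
      nlinarith
    nlinarith
  · have h6 : a * (b / 2) * |s| ≤ a * b * c / 4 := by
      have : |s| ≤ c / 2 := hs.trans (by linarith)
      calc a * (b / 2) * |s| ≤ a * (b / 2) * (c / 2) := mul_le_mul_of_nonneg_left this (by positivity)
        _ = _ := by ring
    have h7 : b * (a / 2) * |q| ≤ a * b * c / 4 := by
      have : |q| ≤ c / 2 := hq.trans (by linarith)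
      calc b * (a / 2) * |q| ≤ b * (a / 2) * (c / 2) := mul_le_mul_of_nonneg_left this (by positivity)
        _ = _ := by ring
    have h8 : c * (a / 2) * |p| ≤ a * b * c / 4 := by
      have : |p| ≤ b / 2 := hp.trans (by linarith)
      calc c * (a / 2) * |p| ≤ c * (a / 2) * (b / 2) := mul_le_mul_of_nonneg_left this (by positivity)
        _ = _ := by ring
    nlinarith

theorem gram_low {a b c p q s : ℝ} (ha : 0 < a) (hb : 0 < b) (hc : 0 < c) (hp : |p| ≤ a / 2)
    (hp' : |p| ≤ b / 2) (hq : |q| ≤ a / 2) (hq' : |q| ≤ c / 2) (hs : |s| ≤ b / 2) (hs' : |s| ≤ c / 2)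
    (hn : p * q * s < 0 → |p| + |q| + |s| ≤ (a + b) / 2 ∧ |p| + |q| + |s| ≤ (a + c) / 2 ∧
      |p| + |q| + |s| ≤ (b + c) / 2) :
    a * b * c / 4 ≤ a * b * c + 2 * p * q * s - a * s ^ 2 - b * q ^ 2 - c * p ^ 2 := by
  rcases le_total a b with h1 | h1 <;> rcases le_total b c with h2 | h2 <;>
    rcases le_total a c with h3 | h3
  · exact gram_sorted ha h1 h2 hp hq hs fun h => (hn h).1
  · exact gram_sorted ha h1 h2 hp hq hs fun h => (hn h).1
  · have := gram_sorted (p := q) (q := p) (s := s) ha h3 h2 hq hp hs' fun h => by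
      have := (hn (by linarith [mul_comm p q, mul_assoc p q s, show q * p * s = p * q * s by ring])).2.1
      linarith
    linarith
  · have := gram_sorted (p := q) (q := s) (s := p) hc h3 h1 hq' hs' hp fun h => by
      have := (hn (by linarith [show q * s * p = p * q * s by ring])).2.1
      linarith
    linarith
  · have := gram_sorted (p := p) (q := s) (s := q) hb h1 h3 hp' hs hq fun h => by
      have := (hn (by linarith [show p * s * q = p * q * s by ring])).1
      linarith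
    linarith
  · have := gram_sorted (p := s) (q := p) (s := q) hb h2 h3 hs hp' hq' fun h => by
      have := (hn (by linarith [show s * p * q = p * q * s by ring])).2.2
      linarith
    linarith
  · have := gram_sorted (p := s) (q := q) (s := p) hc h2 h1 hs' hq' hp' fun h => by
      have := (hn (by linarith [show s * q * p = p * q * s by ring])).2.2
      linarith
    linarith
  · have := gram_sorted (p := s) (q := q) (s := p) hc h2 h1 hs' hq' hp' fun h => by
      have := (hn (by linarith [show s * q * p = p * q * s by ring])).2.2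
      linarith
    linarith

/-- Gram identity -/
theorem gram (b : Fin 3 → V) : dt b ^ 2 = nq (b 0) * nq (b 1) * nq (b 2) +
    2 * ip (b 0) (b 1) * ip (b 0) (b 2) * ip (b 1) (b 2) - nq (b 0) * ip (b 1) (b 2) ^ 2 -
    nq (b 1) * ip (b 0) (b 2) ^ 2 - nq (b 2) * ip (b 0) (b 1) ^ 2 := by
  rw [dt_eq]
  unfold nq ip
  ring

theorem mem_lat3 {b : Fin 3 → V} {x : V} : x ∈ lat b ↔
    ∃ z0 z1 z2 : ℤ, x = (z0 : ℝ) • b 0 + (z1 : ℝ) • b 1 + (z2 : ℝ) • b 2 := by
  constructor
  · rintro ⟨z, rfl⟩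
    exact ⟨z 0, z 1, z 2, by rw [Fin.sum_univ_three]⟩
  · rintro ⟨z0, z1, z2, rfl⟩
    exact ⟨![z0, z1, z2], by rw [Fin.sum_univ_three]; simp⟩

theorem basis_mem (b : Fin 3 → V) (i : Fin 3) : b i ∈ lat b := by
  rw [mem_lat3]
  fin_cases i
  · exact ⟨1, 0, 0, by simp⟩
  · exact ⟨0, 1, 0, by simp⟩
  · exact ⟨0, 0, 1, by simp⟩

theorem step0 (b : Fin 3 → V) (m n : ℤ) :
    lat ![b 0 + (m : ℝ) • b 1 + (n : ℝ) • b 2, b 1, b 2] = lat b ∧
    dt ![b 0 + (m : ℝ) • b 1 + (n : ℝ) • b 2, b 1, b 2] = dt b := by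
  constructor
  · ext x
    rw [mem_lat3, mem_lat3]
    constructor
    · rintro ⟨z0, z1, z2, rfl⟩
      refine ⟨z0, z1 + z0 * m, z2 + z0 * n, ?_⟩
      simp only [Matrix.cons_val_zero, Matrix.cons_val_one, Matrix.cons_val]
      push_cast
      module
    · rintro ⟨z0, z1, z2, rfl⟩
      refine ⟨z0, z1 - z0 * m, z2 - z0 * n, ?_⟩
      simp only [Matrix.cons_val_zero, Matrix.cons_val_one, Matrix.cons_val]
      push_cast
      module
  · rw [dt_eq, dt_eq]
    simp
    ring

theorem step1 (b : Fin 3 → V) (m n : ℤ) :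
    lat ![b 0, b 1 + (m : ℝ) • b 0 + (n : ℝ) • b 2, b 2] = lat b ∧
    dt ![b 0, b 1 + (m : ℝ) • b 0 + (n : ℝ) • b 2, b 2] = dt b := by
  constructor
  · ext x
    rw [mem_lat3, mem_lat3]
    constructor
    · rintro ⟨z0, z1, z2, rfl⟩
      refine ⟨z0 + z1 * m, z1, z2 + z1 * n, ?_⟩
      simp only [Matrix.cons_val_zero, Matrix.cons_val_one, Matrix.cons_val]
      push_cast
      module
    · rintro ⟨z0, z1, z2, rfl⟩
      refine ⟨z0 - z1 * m, z1, z2 - z1 * n, ?_⟩
      simp only [Matrix.cons_val_zero, Matrix.cons_val_one, Matrix.cons_val]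
      push_cast
      module
  · rw [dt_eq, dt_eq]
    simp
    ring

theorem step2 (b : Fin 3 → V) (m n : ℤ) :
    lat ![b 0, b 1, b 2 + (m : ℝ) • b 0 + (n : ℝ) • b 1] = lat b ∧
    dt ![b 0, b 1, b 2 + (m : ℝ) • b 0 + (n : ℝ) • b 1] = dt b := by
  constructor
  · ext x
    rw [mem_lat3, mem_lat3]
    constructor
    · rintro ⟨z0, z1, z2, rfl⟩
      refine ⟨z0 + z2 * m, z1 + z2 * n, z2, ?_⟩
      simp only [Matrix.cons_val_zero, Matrix.cons_val_one, Matrix.cons_val]
      push_cast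
      module
    · rintro ⟨z0, z1, z2, rfl⟩
      refine ⟨z0 - z2 * m, z1 - z2 * n, z2, ?_⟩
      simp only [Matrix.cons_val_zero, Matrix.cons_val_one, Matrix.cons_val]
      push_cast
      module
  · rw [dt_eq, dt_eq]
    simp
    ring

/-- Cramer's rule -/
theorem cramer (b : Fin 3 → V) (t : Fin 3 → ℝ) :
    dt ![t 0 • b 0 + t 1 • b 1 + t 2 • b 2, b 1, b 2] = t 0 * dt b ∧
    dt ![b 0, t 0 • b 0 + t 1 • b 1 + t 2 • b 2, b 2] = t 1 * dt b ∧
    dt ![b 0, b 1, t 0 • b 0 + t 1 • b 1 + t 2 • b 2] = t 2 * dt b := by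
  refine ⟨?_, ?_, ?_⟩ <;>
  · rw [dt_eq, dt_eq]
    simp
    ring

/-- every vector is a combination of the basis -/
theorem expand {b : Fin 3 → V} (hb : dt b ≠ 0) (u : V) :
    u = (dt ![u, b 1, b 2] / dt b) • b 0 + (dt ![b 0, u, b 2] / dt b) • b 1 +
      (dt ![b 0, b 1, u] / dt b) • b 2 := by
  have key : dt b • u = dt ![u, b 1, b 2] • b 0 + dt ![b 0, u, b 2] • b 1 + dt ![b 0, b 1, u] • b 2 := by
    rw [dt_eq, dt_eq, dt_eq, dt_eq]
    ext i
    fin_cases i <;> simp <;> ring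
  have h2 : u = (dt b)⁻¹ • (dt b • u) := by
    rw [smul_smul, inv_mul_cancel₀ hb, one_smul]
  rw [key] at h2
  conv_lhs => rw [h2]
  rw [smul_add, smul_add, smul_smul, smul_smul, smul_smul, div_eq_inv_mul, div_eq_inv_mul,
    div_eq_inv_mul]

/-- a lattice has finitely many points in a bounded region -/
theorem lat_finite {b : Fin 3 → V} (hb : dt b ≠ 0) (R : ℝ) : {u | u ∈ lat b ∧ ‖u‖ ≤ R}.Finite := by
  -- the coordinates are bounded
  have hc : Continuous fun u : V => |dt ![u, b 1, b 2] / dt b| + |dt ![b 0, u, b 2] / dt b| +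
      |dt ![b 0, b 1, u] / dt b| := by
    simp only [dt_eq]
    simp
    fun_prop
  obtain ⟨M, hM⟩ := (isCompact_closedBall (0 : V) R).exists_bound_of_continuousOn hc.continuousOn
  have hfin : (Set.Icc (-⌈M⌉) ⌈M⌉ : Set ℤ).Finite := Set.finite_Icc _ _
  refine Set.Finite.subset ((hfin.prod (hfin.prod hfin)).image
    (fun z : ℤ × ℤ × ℤ => (z.1 : ℝ) • b 0 + (z.2.1 : ℝ) • b 1 + (z.2.2 : ℝ) • b 2)) ?_
  rintro u ⟨hu, huR⟩
  rw [mem_lat3] at hu
  obtain ⟨z0, z1, z2, rfl⟩ := hu
  have h1 := hM _ (mem_closedBall_zero_iff.2 huR)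
  obtain ⟨c0, c1, c2⟩ := cramer b ![(z0 : ℝ), z1, z2]
  simp only [Matrix.cons_val_zero, Matrix.cons_val_one, Matrix.cons_val] at c0 c1 c2
  rw [c0, c1, c2, mul_div_cancel_right₀ _ hb, mul_div_cancel_right₀ _ hb,
    mul_div_cancel_right₀ _ hb, Real.norm_eq_abs, abs_of_nonneg (by positivity)] at h1
  have hMc := Int.le_ceil M
  have key : ∀ z : ℤ, |(z : ℝ)| ≤ M → z ∈ (Set.Icc (-⌈M⌉) ⌈M⌉ : Set ℤ) := by
    intro z hz
    rw [abs_le] at hz
    constructor
    · have : (-(⌈M⌉ : ℝ)) ≤ z := by linarith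
      exact_mod_cast this
    · have : (z : ℝ) ≤ ⌈M⌉ := by linarith
      exact_mod_cast this
  have a0 := abs_nonneg (z0 : ℝ)
  have a1 := abs_nonneg (z1 : ℝ)
  have a2 := abs_nonneg (z2 : ℝ)
  exact ⟨(z0, z1, z2), ⟨key _ (by linarith), key _ (by linarith), key _ (by linarith)⟩, rfl⟩

theorem norm_sq_le_nq (x : V) : ‖x‖ ^ 2 ≤ nq x := by
  have h : ‖x‖ ≤ √(nq x) := by
    rw [pi_norm_le_iff_of_nonneg (Real.sqrt_nonneg _)]
    intro i
    rw [Real.norm_eq_abs]
    apply Real.abs_le_sqrt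
    unfold nq
    fin_cases i <;> simp <;> nlinarith [sq_nonneg (x 0), sq_nonneg (x 1), sq_nonneg (x 2)]
  calc ‖x‖ ^ 2 ≤ √(nq x) ^ 2 := by gcongr
    _ = nq x := Real.sq_sqrt (nq_nonneg x)

/-- a reduced basis -/
theorem reduced {b : Fin 3 → V} (hb : dt b ≠ 0) {ρ : ℝ} (hρ : 0 < ρ)
    (hmin : ∀ u ∈ lat b, u ≠ 0 → ρ ≤ nq u) :
    ∃ b' : Fin 3 → V, lat b' = lat b ∧ |dt b'| = |dt b| ∧ ρ ^ 3 / 4 ≤ dt b ^ 2 ∧
      ∀ i, nq (b' i) ≤ 4 * dt b ^ 2 / ρ ^ 2 := by
  classical
  set f : (Fin 3 → V) → ℝ := fun b' => nq (b' 0) + nq (b' 1) + nq (b' 2) with hf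
  set R := f b with hR
  set B : Set (Fin 3 → V) := {b' | lat b' = lat b ∧ |dt b'| = |dt b| ∧ f b' ≤ R} with hB
  have hBfin : B.Finite := by
    refine Set.Finite.subset (Set.Finite.pi' fun _ : Fin 3 => lat_finite hb (√R)) ?_
    rintro b' ⟨h1, -, h3⟩ i
    refine ⟨by rw [← h1]; exact basis_mem b' i, ?_⟩
    apply Real.le_sqrt_of_sq_le
    refine (norm_sq_le_nq _).trans (le_trans ?_ h3)
    simp only [hf]
    have n0 := nq_nonneg (b' 0)
    have n1 := nq_nonneg (b' 1)
    have n2 := nq_nonneg (b' 2)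
    fin_cases i <;> simp <;> linarith
  obtain ⟨b', hb', hb'min⟩ := Set.exists_min_image B f hBfin ⟨b, rfl, rfl, le_rfl⟩
  obtain ⟨h1, h2, h3⟩ := hb'
  have hmin' : ∀ c : Fin 3 → V, lat c = lat b' → dt c = dt b' → f b' ≤ f c := by
    intro c hc1 hc2
    by_contra hcon
    rw [not_le] at hcon
    have := hb'min c ⟨hc1.trans h1, by rw [hc2, h2], (hcon.le.trans h3)⟩
    linarith
  have hd0 : dt b' ≠ 0 := by
    intro h
    rw [h, abs_zero] at h2
    exact hb (abs_eq_zero.1 h2.symm)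
  have hne : ∀ i, b' i ≠ 0 := fun i => ((dt_ne_zero_iff b').1 hd0).ne_zero i
  have hlow : ∀ i, ρ ≤ nq (b' i) := fun i => hmin _ (by rw [← h1]; exact basis_mem b' i) (hne i)
  have e0 : ∀ m n : ℤ, nq (b' 0) ≤ nq (b' 0 + (m : ℝ) • b' 1 + (n : ℝ) • b' 2) := by
    intro m n
    have := hmin' _ (step0 b' m n).1 (step0 b' m n).2
    simp only [hf, Matrix.cons_val_zero, Matrix.cons_val_one, Matrix.cons_val] at this
    linarith
  have e1 : ∀ m n : ℤ, nq (b' 1) ≤ nq (b' 1 + (m : ℝ) • b' 0 + (n : ℝ) • b' 2) := by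
    intro m n
    have := hmin' _ (step1 b' m n).1 (step1 b' m n).2
    simp only [hf, Matrix.cons_val_zero, Matrix.cons_val_one, Matrix.cons_val] at this
    linarith
  have e2 : ∀ m n : ℤ, nq (b' 2) ≤ nq (b' 2 + (m : ℝ) • b' 0 + (n : ℝ) • b' 1) := by
    intro m n
    have := hmin' _ (step2 b' m n).1 (step2 b' m n).2
    simp only [hf, Matrix.cons_val_zero, Matrix.cons_val_one, Matrix.cons_val] at this
    linarith
  have ex : ∀ (x y z : V) (m n : ℝ), nq (x + m • y + n • z) = nq x + m ^ 2 * nq y + n ^ 2 * nq z +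
      2 * m * ip x y + 2 * n * ip x z + 2 * m * n * ip y z := by
    intro x y z m n
    unfold nq ip
    simp
    ring
  have isym : ∀ x y : V, ip x y = ip y x := fun x y => by unfold ip; ring
  set a := nq (b' 0) with ha
  set c := nq (b' 1) with hc
  set d := nq (b' 2) with hd
  set p := ip (b' 0) (b' 1) with hp
  set q := ip (b' 0) (b' 2) with hq
  set s := ip (b' 1) (b' 2) with hs
  have g0 : ∀ m n : ℤ, 0 ≤ (m : ℝ) ^ 2 * c + (n : ℝ) ^ 2 * d + 2 * m * p + 2 * n * q + 2 * m * n * s := by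
    intro m n
    have := e0 m n
    rw [ex] at this
    linarith
  have g1 : ∀ m n : ℤ, 0 ≤ (m : ℝ) ^ 2 * a + (n : ℝ) ^ 2 * d + 2 * m * p + 2 * n * s + 2 * m * n * q := by
    intro m n
    have := e1 m n
    rw [ex, isym (b' 1) (b' 0)] at this
    linarith
  have g2 : ∀ m n : ℤ, 0 ≤ (m : ℝ) ^ 2 * a + (n : ℝ) ^ 2 * c + 2 * m * q + 2 * n * s + 2 * m * n * p := by
    intro m n
    have := e2 m n
    rw [ex, isym (b' 2) (b' 0), isym (b' 2) (b' 1)] at this
    linarith
  have ka : ρ ≤ a := hlow 0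
  have kc : ρ ≤ c := hlow 1
  have kd : ρ ≤ d := hlow 2
  have hG := gram_low (a := a) (b := c) (c := d) (p := p) (q := q) (s := s) (by linarith) (by linarith)
    (by linarith)
    (by have x1 := g1 1 0; have x2 := g1 (-1) 0; push_cast at x1 x2; rw [abs_le]; constructor <;> linarith)
    (by have x1 := g0 1 0; have x2 := g0 (-1) 0; push_cast at x1 x2; rw [abs_le]; constructor <;> linarith)
    (by have x1 := g2 1 0; have x2 := g2 (-1) 0; push_cast at x1 x2; rw [abs_le]; constructor <;> linarith)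
    (by have x1 := g0 0 1; have x2 := g0 0 (-1); push_cast at x1 x2; rw [abs_le]; constructor <;> linarith)
    (by have x1 := g2 0 1; have x2 := g2 0 (-1); push_cast at x1 x2; rw [abs_le]; constructor <;> linarith)
    (by have x1 := g1 0 1; have x2 := g1 0 (-1); push_cast at x1 x2; rw [abs_le]; constructor <;> linarith)
    (by
      intro hneg
      have y0 := g0 1 1
      have y1 := g0 1 (-1)
      have y2 := g0 (-1) 1
      have y3 := g0 (-1) (-1)
      have z0 := g1 1 1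
      have z1 := g1 1 (-1)
      have z2 := g1 (-1) 1
      have z3 := g1 (-1) (-1)
      have w0 := g2 1 1
      have w1 := g2 1 (-1)
      have w2 := g2 (-1) 1
      have w3 := g2 (-1) (-1)
      push_cast at y0 y1 y2 y3 z0 z1 z2 z3 w0 w1 w2 w3
      rcases lt_trichotomy p 0 with hp0 | hp0 | hp0
      · rcases lt_trichotomy q 0 with hq0 | hq0 | hq0
        · have hs0 : s < 0 := by
            by_contra hcon
            rw [not_lt] at hcon
            nlinarith [mul_pos_of_neg_of_neg hp0 hq0, mul_nonneg (mul_pos_of_neg_of_neg hp0 hq0).le hcon]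
          rw [abs_of_neg hp0, abs_of_neg hq0, abs_of_neg hs0]
          refine ⟨?_, ?_, ?_⟩ <;> linarith
        · rw [hq0] at hneg; simp at hneg
        · have hs0 : 0 < s := by
            by_contra hcon
            rw [not_lt] at hcon
            have := mul_nonneg_of_nonpos_of_nonpos (mul_neg_of_neg_of_pos hp0 hq0).le hcon
            linarith
          rw [abs_of_neg hp0, abs_of_pos hq0, abs_of_pos hs0]
          refine ⟨?_, ?_, ?_⟩ <;> linarith
      · rw [hp0] at hneg; simp at hneg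
      · rcases lt_trichotomy q 0 with hq0 | hq0 | hq0
        · have hs0 : 0 < s := by
            by_contra hcon
            rw [not_lt] at hcon
            have := mul_nonneg_of_nonpos_of_nonpos (mul_neg_of_pos_of_neg hp0 hq0).le hcon
            linarith
          rw [abs_of_pos hp0, abs_of_neg hq0, abs_of_pos hs0]
          refine ⟨?_, ?_, ?_⟩ <;> linarith
        · rw [hq0] at hneg; simp at hneg
        · have hs0 : s < 0 := by
            by_contra hcon
            rw [not_lt] at hcon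
            have := mul_nonneg (mul_pos hp0 hq0).le hcon
            linarith
          rw [abs_of_pos hp0, abs_of_pos hq0, abs_of_neg hs0]
          refine ⟨?_, ?_, ?_⟩ <;> linarith)
  have hgram : dt b ^ 2 = a * c * d + 2 * p * q * s - a * s ^ 2 - c * q ^ 2 - d * p ^ 2 := by
    rw [← sq_abs (dt b), ← h2, sq_abs, gram b']
  rw [← hgram] at hG
  have hac : ρ ^ 2 ≤ a * c := by nlinarith
  have had : ρ ^ 2 ≤ a * d := by nlinarith
  have hcd : ρ ^ 2 ≤ c * d := by nlinarith
  refine ⟨b', h1, h2, ?_, ?_⟩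
  · have : ρ ^ 3 ≤ a * c * d := by
      calc ρ ^ 3 = ρ ^ 2 * ρ := by ring
        _ ≤ a * c * d := mul_le_mul hac kd hρ.le (mul_nonneg (by linarith) (by linarith))
    linarith
  · intro i
    rw [le_div_iff₀ (by positivity)]
    fin_cases i
    · show a * ρ ^ 2 ≤ _
      have : a * ρ ^ 2 ≤ a * (c * d) := mul_le_mul_of_nonneg_left hcd (by linarith)
      linarith
    · show c * ρ ^ 2 ≤ _
      have : c * ρ ^ 2 ≤ c * (a * d) := mul_le_mul_of_nonneg_left had (by linarith)
      linarith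
    · show d * ρ ^ 2 ≤ _
      have : d * ρ ^ 2 ≤ d * (a * c) := mul_le_mul_of_nonneg_left hac (by linarith)
      linarith

end Pool.Agent.U635.Ct
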