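import Pool.Agent.U635.CtA
import Pool.Agent.H73R3.Hull
import Pool.Agent.N791.RU.Basic

/-!
# Limits of lattices, and lattice packings of bodies and of their reflections
-/

set_option autoImplicit false

open MeasureTheory Set Filter Topology
open scoped ENNReal
open Pool.Agent.H349R2.Tet Pool.Agent.TH219.DL

namespace Pool.Agent.U635.Ct

theorem int_limit {f : ℕ → ℝ} {t : ℝ} (h : Tendsto f atTop (𝓝 t))
    (hz : ∀ᶠ k in atTop, ∃ z : ℤ, f k = z) : ∃ z : ℤ, t = z ∧ ∀ᶠ k in atTop, f k = z := by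
  have h1 : ∀ᶠ k in atTop, |f k - t| < 1 / 4 := by
    have := h.eventually (Metric.ball_mem_nhds t (show (0:ℝ) < 1 / 4 by norm_num))
    filter_upwards [this] with k hk
    rwa [Real.dist_eq] at hk
  obtain ⟨N, hN⟩ := (h1.and hz).exists_forall_of_atTop
  obtain ⟨z, hzN⟩ := (hN N le_rfl).2
  have h2 : ∀ k ≥ N, f k = z := by
    intro k hk
    obtain ⟨w, hw⟩ := (hN k hk).2
    have h3 := (hN k hk).1
    have h4 := (hN N le_rfl).1
    rw [hw] at h3
    rw [hzN] at h4
    have h5 : |((w - z : ℤ) : ℝ)| < 1 := by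
      push_cast
      rw [abs_lt] at h3 h4 ⊢
      constructor <;> linarith
    have h6 : w - z = 0 := by
      rw [← Int.abs_lt_one_iff]
      exact_mod_cast h5
    rw [hw, sub_eq_zero.1 h6]
  refine ⟨z, ?_, eventually_atTop.2 ⟨N, h2⟩⟩
  exact tendsto_nhds_unique h (tendsto_const_nhds.congr' (by
    filter_upwards [eventually_ge_atTop N] with k hk
    exact (h2 k hk).symm))

theorem dt_cont : Continuous (dt : (Fin 3 → V) → ℝ) := by
  have : (dt : (Fin 3 → V) → ℝ) = fun b => b 0 0 * b 1 1 * b 2 2 - b 0 0 * b 1 2 * b 2 1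
    - b 0 1 * b 1 0 * b 2 2 + b 0 1 * b 1 2 * b 2 0 + b 0 2 * b 1 0 * b 2 1
    - b 0 2 * b 1 1 * b 2 0 := funext dt_eq
  rw [this]
  fun_prop

theorem lat_limit {bs : ℕ → Fin 3 → V} {b : Fin 3 → V} (hb : dt b ≠ 0)
    (h : Tendsto bs atTop (𝓝 b)) {us : ℕ → V} {u : V} (hu : Tendsto us atTop (𝓝 u))
    (hm : ∀ᶠ k in atTop, us k ∈ lat (bs k)) :
    ∃ z0 z1 z2 : ℤ, u = (z0 : ℝ) • b 0 + (z1 : ℝ) • b 1 + (z2 : ℝ) • b 2 ∧
      ∀ᶠ k in atTop, us k = (z0 : ℝ) • bs k 0 + (z1 : ℝ) • bs k 1 + (z2 : ℝ) • bs k 2 := by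
  have hd : Tendsto (fun k => dt (bs k)) atTop (𝓝 (dt b)) := (dt_cont.tendsto b).comp h
  have hne : ∀ᶠ k in atTop, dt (bs k) ≠ 0 := hd.eventually_ne hb
  have hcomp : ∀ i, Tendsto (fun k => bs k i) atTop (𝓝 (b i)) := fun i =>
    ((continuous_apply i).tendsto b).comp h
  have c0 : Continuous fun p : V × (Fin 3 → V) => dt ![p.1, p.2 1, p.2 2] := by
    simp only [dt_eq]; simp; fun_prop
  have c1 : Continuous fun p : V × (Fin 3 → V) => dt ![p.2 0, p.1, p.2 2] := by
    simp only [dt_eq]; simp; fun_prop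
  have c2 : Continuous fun p : V × (Fin 3 → V) => dt ![p.2 0, p.2 1, p.1] := by
    simp only [dt_eq]; simp; fun_prop
  have hub : Tendsto (fun k => (us k, bs k)) atTop (𝓝 (u, b)) := hu.prodMk_nhds h
  have t0 : Tendsto (fun k => dt ![us k, bs k 1, bs k 2] / dt (bs k)) atTop
      (𝓝 (dt ![u, b 1, b 2] / dt b)) := ((c0.tendsto (u, b)).comp hub).div hd hb
  have t1 : Tendsto (fun k => dt ![bs k 0, us k, bs k 2] / dt (bs k)) atTop
      (𝓝 (dt ![b 0, u, b 2] / dt b)) := ((c1.tendsto (u, b)).comp hub).div hd hb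
  have t2 : Tendsto (fun k => dt ![bs k 0, bs k 1, us k] / dt (bs k)) atTop
      (𝓝 (dt ![b 0, b 1, u] / dt b)) := ((c2.tendsto (u, b)).comp hub).div hd hb
  have hint : ∀ᶠ k in atTop, (∃ z : ℤ, dt ![us k, bs k 1, bs k 2] / dt (bs k) = z) ∧
      (∃ z : ℤ, dt ![bs k 0, us k, bs k 2] / dt (bs k) = z) ∧
      ∃ z : ℤ, dt ![bs k 0, bs k 1, us k] / dt (bs k) = z := by
    filter_upwards [hne, hm] with k hk hmk
    rw [mem_lat3] at hmk
    obtain ⟨z0, z1, z2, e⟩ := hmk
    obtain ⟨d0, d1, d2⟩ := cramer (bs k) ![(z0 : ℝ), z1, z2]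
    simp only [Matrix.cons_val_zero, Matrix.cons_val_one, Matrix.cons_val] at d0 d1 d2
    rw [e, d0, d1, d2, mul_div_cancel_right₀ _ hk, mul_div_cancel_right₀ _ hk,
      mul_div_cancel_right₀ _ hk]
    exact ⟨⟨z0, rfl⟩, ⟨z1, rfl⟩, ⟨z2, rfl⟩⟩
  obtain ⟨z0, e0, f0⟩ := int_limit t0 (hint.mono fun k hk => hk.1)
  obtain ⟨z1, e1, f1⟩ := int_limit t1 (hint.mono fun k hk => hk.2.1)
  obtain ⟨z2, e2, f2⟩ := int_limit t2 (hint.mono fun k hk => hk.2.2)
  refine ⟨z0, z1, z2, ?_, ?_⟩
  · rw [← e0, ← e1, ← e2]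
    exact expand hb u
  · filter_upwards [hne, f0, f1, f2] with k hk g0 g1 g2
    rw [← g0, ← g1, ← g2]
    exact expand hk (us k)

/-- the pairs `(σ, c)` such that `y ↦ σ y + c` maps the family to itself: translations by the points
of the lattice, and if `star` holds the reflections in `(v + u) / 2`, `u` in the lattice -/
def InF (star : Bool) (v : V) (b : Fin 3 → V) (σ : ℝ) (c : V) : Prop :=
  (σ = 1 ∧ c ∈ lat b) ∨ (star = true ∧ σ = -1 ∧ c - v ∈ lat b)

/-- packing, in terms of `InF` -/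
def PK (star : Bool) (v : V) (b : Fin 3 → V) (K : Set V) : Prop :=
  dt b ≠ 0 ∧ ∀ (σ : ℝ) (c : V), InF star v b σ c → ¬ (σ = 1 ∧ c = 0) →
    ∀ x ∈ interior K, ∀ y ∈ interior K, x ≠ σ • y + c

theorem lat_neg' {b : Fin 3 → V} {x : V} (hx : x ∈ lat b) : -x ∈ lat b := by
  have := pack_sub_mem (pack_zero_mem b) hx
  rwa [zero_sub] at this

theorem PK_L {v : V} {b : Fin 3 → V} {K : Set V} :
    PK false v b K ↔ LinearIndependent ℝ b ∧ IsPack K (famL b) := by
  rw [packs_famL, packs_iff]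
  unfold PK
  refine and_congr_right fun hb => ⟨fun h u hu hu0 => ?_, fun h σ c hc h0 x hx y hy e => ?_⟩
  · rintro ⟨x, hx, hxu⟩
    refine h 1 u (Or.inl ⟨rfl, hu⟩) (fun h2 => hu0 h2.2) x hx _ hxu ?_
    rw [one_smul, sub_add_cancel]
  · rcases hc with ⟨rfl, hc⟩ | ⟨h1, -⟩
    · refine h c hc (fun h2 => h0 ⟨rfl, h2⟩) ⟨x, hx, ?_⟩
      rw [e, one_smul, add_sub_cancel_right]
      exact hy
    · exact absurd h1 (by decide)

theorem PK_Ls {v : V} {b : Fin 3 → V} {K : Set V} :
    PK true v b K ↔ LinearIndependent ℝ b ∧ IsPack K (famLs v b) := by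
  rw [← dt_ne_zero_iff]
  unfold PK
  refine and_congr_right fun hb => ⟨fun h => ?_, fun h σ c hc h0 x hx y hy e => ?_⟩
  · apply famLs_pack
    · rintro s hs hs0 ⟨x, hx, hxs⟩
      refine h 1 s (Or.inl ⟨rfl, hs⟩) (fun h2 => hs0 h2.2) x hx _ hxs ?_
      rw [one_smul, sub_add_cancel]
    · intro s hs
      rw [← mem_true, interior_mem, Set.disjoint_left]
      rintro x hx ⟨y, hy, hyx⟩
      refine h (-1) (v + s) (Or.inr ⟨rfl, rfl, by rwa [add_sub_cancel_left]⟩) (fun h2 => by
        have := h2.1; norm_num at this) x hx y hy ?_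
      rw [neg_one_smul, ← hyx]
      simp
  · have hz : ((false, (0 : V)) : Bool × V) ∈ famLs v b := Or.inl ⟨rfl, pack_zero_mem b⟩
    rcases hc with ⟨rfl, hc⟩ | ⟨-, rfl, hc⟩
    · have hd := h (false, 0) hz (false, c) (Or.inl ⟨rfl, hc⟩) (fun e' => h0 ⟨rfl, (congrArg Prod.snd e').symm⟩)
      rw [interior_mem, interior_mem, Set.disjoint_left] at hd
      refine hd (a := x) ⟨x, hx, by simp⟩ ⟨y, hy, ?_⟩
      rw [e, one_smul]
      simp
    · have hd := h (false, 0) hz (true, c) (Or.inr ⟨rfl, c - v, hc, by simp⟩) (fun e' => by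
        have := congrArg Prod.fst e'
        exact Bool.false_ne_true this)
      rw [interior_mem, interior_mem, Set.disjoint_left] at hd
      refine hd (a := x) ⟨x, hx, by simp⟩ ⟨y, hy, ?_⟩
      rw [e, neg_one_smul]
      simp

/-- `δ_L` or `δ_{L*}` -/
noncomputable def dX (star : Bool) (K : Set V) : ℝ≥0∞ := bif star then dLs K else dL K

/-- the number of bodies per point of the lattice -/
def mX (star : Bool) : ℝ := bif star then 2 else 1

theorem mX_pos (star : Bool) : 0 < mX star := by cases star <;> simp [mX]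

/-- the density -/
noncomputable def rX (star : Bool) (K : Set V) (b : Fin 3 → V) : ℝ :=
  mX star * (volume K).toReal / |dt b|

/-- the family of the packing -/
def fX (star : Bool) (v : V) (b : Fin 3 → V) : Set (Bool × V) := bif star then famLs v b else famL b

theorem PK_iff {star : Bool} {v : V} {b : Fin 3 → V} {K : Set V} :
    PK star v b K ↔ LinearIndependent ℝ b ∧ IsPack K (fX star v b) := by
  cases star
  · exact PK_L
  · exact PK_Ls

theorem den_eq {star : Bool} {v : V} {b : Fin 3 → V} {K : Set V} (hK : Body K) (h : PK star v b K) :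
    den K (fX star v b) = ENNReal.ofReal (rX star K b) := by
  have hli := (PK_iff.1 h).1
  have hd : 0 < |dt b| := abs_pos.2 h.1
  have hv : volume K = ENNReal.ofReal (volume K).toReal :=
    (ENNReal.ofReal_toReal hK.1.measure_lt_top.ne).symm
  have h1 : dens K b = ENNReal.ofReal ((volume K).toReal / |dt b|) := by
    rw [dens_eq b hli _ hK.1, ENNReal.ofReal_div_of_pos hd, ← hv]
  cases star
  · show den K (famL b) = _
    rw [den_famL, h1]
    unfold rX mX
    simp
  · show den K (famLs v b) = _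
    have h2 : ENNReal.ofReal (rX true K b) = dens K b + dens K b := by
      rw [h1, ← ENNReal.ofReal_add (by positivity) (by positivity)]
      congr 1
      unfold rX mX
      simp only [cond_true]
      ring
    rw [h2]
    apply le_antisymm
    · refine (Pool.Agent.N791.RU.den_split K _).trans ?_
      rw [Pool.Agent.N791.RU.split_famLs_false, Pool.Agent.N791.RU.split_famLs_true,
        Pool.Agent.N791.RU.den_true, den_famL,
        dens_eq b hli _ (rfl_compact hK.1 v), vol_rfl hK.1.measurableSet, ← dens_eq b hli _ hK.1]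
    · refine le_trans ?_ (den_famLs K v b)
      rw [dens_eq b hli _ (hK.1.union (rfl_compact hK.1 v)), dens_eq b hli _ hK.1, ← ENNReal.add_div]
      apply ENNReal.div_le_div_right
      have hdj : Disjoint (interior K) (interior (rfl' K v)) := by
        have e : rfl' K v = mem K (true, v + 0) := by
          rw [mem_true]; unfold tr; simp
        rw [e, interior_mem, Set.disjoint_left]
        rintro x hx ⟨y, hy, hyx⟩
        refine h.2 (-1) v (Or.inr ⟨rfl, rfl, by rw [sub_self]; exact pack_zero_mem b⟩) (fun h2 => by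
          have := h2.1; norm_num at this) x hx y hy ?_
        rw [neg_one_smul, ← hyx]
        simp
      have hrc : Convex ℝ (rfl' K v) := by
        rintro _ ⟨x, hx, rfl⟩ _ ⟨y, hy, rfl⟩ α β hα hβ hαβ
        refine ⟨α • x + β • y, hK.2.1 hx hy hα hβ hαβ, ?_⟩
        have e : v = α • v + β • v := by rw [← add_smul, hαβ, one_smul]
        simp only [smul_sub]
        nth_rewrite 1 [e]
        abel
      calc volume K + volume K = volume (interior K) + volume (interior (rfl' K v)) := by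
            rw [vol_int hK.2.1, vol_int hrc, vol_rfl hK.1.measurableSet]
        _ = volume (interior K ∪ interior (rfl' K v)) :=
            (measure_union hdj isOpen_interior.measurableSet).symm
        _ ≤ volume (K ∪ rfl' K v) :=
            measure_mono (Set.union_subset_union interior_subset interior_subset)

theorem dX_ge {star : Bool} {v : V} {b : Fin 3 → V} {K : Set V} (hK : Body K) (h : PK star v b K) :
    ENNReal.ofReal (rX star K b) ≤ dX star K := by
  rw [← den_eq hK h]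
  have h1 := PK_iff.1 h
  cases star
  · exact le_iSup₂_of_le (f := fun (b : Fin 3 → V)
      (_ : LinearIndependent ℝ b ∧ IsPack K (famL b)) => den K (famL b)) b h1 le_rfl
  · exact le_iSup_of_le v (le_iSup₂_of_le (f := fun (b : Fin 3 → V)
      (_ : LinearIndependent ℝ b ∧ IsPack K (famLs v b)) => den K (famLs v b)) b h1 le_rfl)

theorem dX_exists {star : Bool} {K : Set V} (hK : Body K) {c : ℝ≥0∞} (hc : c < dX star K) :
    ∃ (v : V) (b : Fin 3 → V), PK star v b K ∧ c < ENNReal.ofReal (rX star K b) := by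
  cases star
  · change c < dL K at hc
    unfold dL at hc
    rw [lt_iSup_iff] at hc
    obtain ⟨b, hc⟩ := hc
    rw [lt_iSup_iff] at hc
    obtain ⟨hb, hc⟩ := hc
    have h : PK false 0 b K := PK_L.2 hb
    refine ⟨0, b, h, ?_⟩
    rw [← den_eq hK h]
    exact hc
  · change c < dLs K at hc
    unfold dLs at hc
    rw [lt_iSup_iff] at hc
    obtain ⟨v, hc⟩ := hc
    rw [lt_iSup_iff] at hc
    obtain ⟨b, hc⟩ := hc
    rw [lt_iSup_iff] at hc
    obtain ⟨hb, hc⟩ := hc
    have h : PK true v b K := PK_Ls.2 hb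
    refine ⟨v, b, h, ?_⟩
    rw [← den_eq hK h]
    exact hc

/-- nonzero lattice vectors of a packing of a set which contains a ball -/
theorem PK_low {star : Bool} {v : V} {b : Fin 3 → V} {K : Set V} (h : PK star v b K) {p : V} {r : ℝ}
    (hr : 0 < r) (hball : Metric.ball p r ⊆ K) : ∀ u ∈ lat b, u ≠ 0 → r ^ 2 ≤ nq u := by
  intro u hu hu0
  by_contra hcon
  rw [not_le] at hcon
  have h1 : ‖u‖ < r := by
    have := (norm_sq_le_nq u).trans_lt hcon
    exact lt_of_pow_lt_pow_left₀ 2 hr.le this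
  have hint : Metric.ball p r ⊆ interior K := interior_maximal hball Metric.isOpen_ball
  refine h.2 1 u (Or.inl ⟨rfl, hu⟩) (fun h2 => hu0 h2.2) (p + u) (hint ?_) p
    (hint (Metric.mem_ball_self hr)) (by rw [one_smul])
  rw [Metric.mem_ball, dist_eq_norm, add_sub_cancel_left]
  exact h1

/-- normalisation of the parameters -/
theorem normalise {star : Bool} {v : V} {b : Fin 3 → V} {K : Set V} (h : PK star v b K) {p : V} {r : ℝ}
    (hr : 0 < r) (hball : Metric.ball p r ⊆ K) :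
    ∃ (v' : V) (b' : Fin 3 → V), (∀ A : Set V, PK star v' b' A ↔ PK star v b A) ∧
      |dt b'| = |dt b| ∧ r ^ 6 / 4 ≤ dt b ^ 2 ∧ (∀ i, ‖b' i‖ ≤ 2 * |dt b| / r ^ 2) ∧
      ‖v'‖ ≤ 3 * (2 * |dt b| / r ^ 2) := by
  obtain ⟨b', h1, h2, h3, h4⟩ := reduced h.1 (ρ := r ^ 2) (by positivity) (PK_low h hr hball)
  have hd0 : dt b' ≠ 0 := by
    intro h0
    rw [h0, abs_zero] at h2
    exact h.1 (abs_eq_zero.1 h2.symm)
  have hnorm : ∀ i, ‖b' i‖ ≤ 2 * |dt b| / r ^ 2 := by
    intro i
    have h5 := (norm_sq_le_nq (b' i)).trans (h4 i)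
    have h6 : 4 * dt b ^ 2 / (r ^ 2) ^ 2 = (2 * |dt b| / r ^ 2) ^ 2 := by
      rw [div_pow, mul_pow, sq_abs]
      norm_num
    rw [h6] at h5
    exact (sq_le_sq₀ (norm_nonneg _) (by positivity)).1 h5
  set t0 := dt ![v, b' 1, b' 2] / dt b' with ht0
  set t1 := dt ![b' 0, v, b' 2] / dt b' with ht1
  set t2 := dt ![b' 0, b' 1, v] / dt b' with ht2
  have hv : v = t0 • b' 0 + t1 • b' 1 + t2 • b' 2 := expand hd0 v
  set v' := Int.fract t0 • b' 0 + Int.fract t1 • b' 1 + Int.fract t2 • b' 2 with hv'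
  have hvv : v - v' ∈ lat b' := by
    rw [mem_lat3]
    refine ⟨⌊t0⌋, ⌊t1⌋, ⌊t2⌋, ?_⟩
    rw [hv, hv', Int.fract, Int.fract, Int.fract]
    module
  have hF : ∀ (σ : ℝ) (c : V), InF star v' b' σ c ↔ InF star v b σ c := by
    intro σ c
    unfold InF
    rw [← h1]
    refine or_congr Iff.rfl (and_congr_right fun _ => and_congr_right fun _ => ⟨fun h5 => ?_, fun h5 => ?_⟩)
    · have := pack_sub_mem h5 hvv
      have e : c - v' - (v - v') = c - v := by abel
      rwa [e] at this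
    · have := pack_sub_mem h5 (lat_neg' hvv)
      have e : c - v - -(v - v') = c - v' := by abel
      rwa [e] at this
  refine ⟨v', b', fun A => ?_, h2, ?_, hnorm, ?_⟩
  · unfold PK
    constructor
    · rintro ⟨-, h5⟩
      exact ⟨h.1, fun σ c hc => h5 σ c ((hF σ c).2 hc)⟩
    · rintro ⟨-, h5⟩
      exact ⟨hd0, fun σ c hc => h5 σ c ((hF σ c).1 hc)⟩
  · have e : (r ^ 2) ^ 3 = r ^ 6 := by ring
    rwa [e] at h3
  · have hfr : ∀ t : ℝ, ∀ i, ‖Int.fract t • b' i‖ ≤ 2 * |dt b| / r ^ 2 := by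
      intro t i
      rw [norm_smul, Real.norm_eq_abs, abs_of_nonneg (Int.fract_nonneg t)]
      calc Int.fract t * ‖b' i‖ ≤ 1 * ‖b' i‖ :=
            mul_le_mul_of_nonneg_right (Int.fract_lt_one t).le (norm_nonneg _)
        _ ≤ _ := by rw [one_mul]; exact hnorm i
    calc ‖v'‖ ≤ ‖Int.fract t0 • b' 0 + Int.fract t1 • b' 1‖ + ‖Int.fract t2 • b' 2‖ := norm_add_le _ _
      _ ≤ ‖Int.fract t0 • b' 0‖ + ‖Int.fract t1 • b' 1‖ + ‖Int.fract t2 • b' 2‖ := by
          gcongr; exact norm_add_le _ _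
      _ ≤ _ := by linarith [hfr t0 0, hfr t1 1, hfr t2 2]

end Pool.Agent.U635.Ct
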