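import Pool.Agent.U635.CtB

/-!
# Contact points of the densest packings of a minimiser
-/

set_option autoImplicit false

open MeasureTheory Set Filter Topology
open scoped ENNReal
open Pool.Agent.H349R2.Tet Pool.Agent.TH219.DL

namespace Pool.Agent.U635.Ct

/-- the convex hull of the part of `K` outside the ball of radius `ε` about `x` -/
def trunc (K : Set V) (x : V) (ε : ℝ) : Set V := convexHull ℝ (K \ Metric.ball x ε)

theorem trunc_sub {K : Set V} (hK : Convex ℝ K) (x : V) (ε : ℝ) : trunc K x ε ⊆ K :=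
  convexHull_min sdiff_subset hK

theorem trunc_compact {K : Set V} (hK : IsCompact K) (x : V) (ε : ℝ) : IsCompact (trunc K x ε) :=
  Pool.Agent.H73R3.compact_hull (hK.diff Metric.isOpen_ball)

theorem sub_trunc (K : Set V) (x : V) (ε : ℝ) : K \ Metric.ball x ε ⊆ trunc K x ε :=
  subset_convexHull ℝ _

theorem trunc_notMem {K : Set V} (hK : Convex ℝ K) {x : V} (hx : x ∈ K.extremePoints ℝ) {ε : ℝ}
    (hε : 0 < ε) : x ∉ trunc K x ε := by
  intro h
  have h1 : x ∈ (trunc K x ε).extremePoints ℝ :=
    inter_extremePoints_subset_extremePoints_of_subset (trunc_sub hK x ε) ⟨h, hx⟩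
  have h2 : x ∈ K \ Metric.ball x ε := extremePoints_convexHull_subset h1
  exact h2.2 (Metric.mem_ball_self hε)

theorem extreme_notInt {K : Set V} {x : V} (hx : x ∈ K.extremePoints ℝ) : x ∉ interior K := by
  intro h
  obtain ⟨r, hr, hball⟩ := Metric.isOpen_iff.1 isOpen_interior x h
  set e : V := fun _ => r / 2 with he
  have hne : ‖e‖ = r / 2 := by
    rw [he, pi_norm_const, Real.norm_eq_abs, abs_of_pos (by positivity)]
  have h1 : x + e ∈ K := interior_subset (hball (by
    rw [Metric.mem_ball, dist_eq_norm, add_sub_cancel_left, hne]; linarith))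
  have h2 : x - e ∈ K := interior_subset (hball (by
    rw [Metric.mem_ball, dist_eq_norm, sub_sub_cancel_left, norm_neg, hne]; linarith))
  have h3 := hx.2 h1 h2 ⟨1 / 2, 1 / 2, by norm_num, by norm_num, by norm_num, by
    module⟩
  have h4 : e = 0 := by
    have := congrArg (fun z => z - x) h3
    simpa using this
  rw [h4, norm_zero] at hne
  linarith

theorem vol_trunc {K : Set V} (hK : Body K) {x : V} (hx : x ∈ K.extremePoints ℝ) {ε : ℝ}
    (hε : 0 < ε) : volume (trunc K x ε) < volume K := by
  have hcl : IsClosed (trunc K x ε) := (trunc_compact hK.1 x ε).isClosed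
  have hxc : x ∈ closure (interior K) := by
    rw [hK.2.1.closure_interior_eq_closure_of_nonempty_interior hK.2.2]
    exact subset_closure hx.1
  have hne : ((trunc K x ε)ᶜ ∩ interior K).Nonempty := by
    rw [mem_closure_iff] at hxc
    exact hxc _ hcl.isOpen_compl (trunc_notMem hK.2.1 hx hε)
  have hop : IsOpen ((trunc K x ε)ᶜ ∩ interior K) := hcl.isOpen_compl.inter isOpen_interior
  have hpos : 0 < volume ((trunc K x ε)ᶜ ∩ interior K) := hop.measure_pos volume hne
  have hdj : Disjoint (trunc K x ε) ((trunc K x ε)ᶜ ∩ interior K) :=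
    Set.disjoint_left.2 fun z hz hz2 => hz2.1 hz
  calc volume (trunc K x ε) < volume (trunc K x ε) + volume ((trunc K x ε)ᶜ ∩ interior K) :=
        ENNReal.lt_add_right ((measure_mono (trunc_sub hK.2.1 x ε)).trans_lt
          hK.1.measure_lt_top).ne hpos.ne'
    _ = volume (trunc K x ε ∪ ((trunc K x ε)ᶜ ∩ interior K)) :=
        (measure_union hdj hop.measurableSet).symm
    _ ≤ volume K := measure_mono (union_subset (trunc_sub hK.2.1 x ε)
        (inter_subset_right.trans interior_subset))

theorem dX_pos (star : Bool) {K : Set V} (hK : Body K) : 0 < dX star K := by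
  cases star
  · exact lt_of_lt_of_le (ENNReal.ofReal_pos.2 (by norm_num)) (dL_low hK)
  · exact lt_of_lt_of_le (ENNReal.ofReal_pos.2 (by norm_num)) (dLs_low hK)

theorem ball_of {K : Set V} (hK : Body K) {x : V} (hx : x ∈ K.extremePoints ℝ) :
    ∃ (p : V) (r : ℝ), 0 < r ∧ Metric.ball p r ⊆ K ∧
      ∀ ε ≤ r, Disjoint (Metric.ball p r) (Metric.ball x ε) := by
  obtain ⟨p, hp⟩ := hK.2.2
  obtain ⟨r1, hr1, hball⟩ := Metric.isOpen_iff.1 isOpen_interior p hp
  have hpx : p ≠ x := fun h => extreme_notInt hx (h ▸ hp)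
  have hd : 0 < dist p x := dist_pos.2 hpx
  refine ⟨p, min r1 (dist p x / 2), lt_min hr1 (by linarith),
    (Metric.ball_subset_ball (min_le_left _ _)).trans (hball.trans interior_subset), ?_⟩
  intro ε hε
  apply Metric.ball_disjoint_ball
  have h1 := min_le_right r1 (dist p x / 2)
  linarith

theorem vol_pos {K : Set V} (hK : Body K) : 0 < (volume K).toReal := by
  apply ENNReal.toReal_pos _ hK.1.measure_lt_top.ne
  have := isOpen_interior.measure_pos volume hK.2.2
  exact (this.trans_le (measure_mono interior_subset)).ne'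

theorem dt_low {star : Bool} {v : V} {b : Fin 3 → V} {K : Set V} (h : PK star v b K) {p : V} {r : ℝ}
    (hr : 0 < r) (hball : Metric.ball p r ⊆ K) : r ^ 3 / 2 ≤ |dt b| := by
  obtain ⟨-, -, -, -, h1, -, -⟩ := normalise h hr hball
  have h2 : (r ^ 3 / 2) ^ 2 ≤ |dt b| ^ 2 := by
    rw [sq_abs]
    calc (r ^ 3 / 2) ^ 2 = r ^ 6 / 4 := by ring
      _ ≤ _ := h1
  exact (sq_le_sq₀ (by positivity) (abs_nonneg _)).1 h2

theorem dX_fin (star : Bool) {K : Set V} (hK : Body K) : dX star K < ∞ := by
  obtain ⟨p, hp⟩ := hK.2.2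
  obtain ⟨r, hr, hball⟩ := Metric.isOpen_iff.1 isOpen_interior p hp
  have hball : Metric.ball p r ⊆ K := hball.trans interior_subset
  by_contra hcon
  rw [not_lt, top_le_iff] at hcon
  obtain ⟨v, b, h1, h2⟩ := dX_exists (star := star) hK
    (c := ENNReal.ofReal (mX star * (volume K).toReal / (r ^ 3 / 2))) (by
      rw [hcon]; exact ENNReal.ofReal_lt_top)
  have h3 := dt_low h1 hr hball
  have hm := mX_pos star
  have hv := vol_pos hK
  have h4 : rX star K b ≤ mX star * (volume K).toReal / (r ^ 3 / 2) := by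
    unfold rX
    exact div_le_div_of_nonneg_left (by positivity) (by positivity) h3
  exact absurd (ENNReal.ofReal_le_ofReal h4) (not_le.2 h2)

end Pool.Agent.U635.Ct
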