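import Pool.Agent.U635.CtC

/-!
# Contact points of the densest packings of a minimiser: the limit argument
-/

set_option autoImplicit false

open MeasureTheory Set Filter Topology
open scoped ENNReal
open Pool.Agent.H349R2.Tet Pool.Agent.TH219.DL

namespace Pool.Agent.U635.Ct

/-- `x` is a contact point of `K` and another member of the packing -/
def Touch (star : Bool) (v : V) (b : Fin 3 → V) (K : Set V) (x : V) : Prop :=
  ∃ (σ : ℝ) (c : V), InF star v b σ c ∧ ¬ (σ = 1 ∧ c = 0) ∧ ∃ y ∈ K, x = σ • y + c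

theorem mX_eq_div {a D : ℝ} (hD : 0 < D) {m V0 : ℝ} (h : 0 < a) (h1 : m * V0 / a ≤ D)
    (h2 : a ≤ m * V0 / D) : m * V0 / a = D := by
  apply le_antisymm h1
  rw [le_div_iff₀ h]
  rw [le_div_iff₀ hD] at h2
  linarith

/-- one step: for the truncated body `K' ⊆ K` with smaller volume and no smaller density there is a
packing of `K'`, of determinant less than `m Vol(K) / δ(K)`, in which some of the bodies `K + c`
overlap -/
theorem one_step {star : Bool} {K K' : Set V} (hK : Body K) (hK' : Body K')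
    (hv : volume K' < volume K) (hd : dX star K ≤ dX star K') {p : V} {r : ℝ} (hr : 0 < r)
    (hball : Metric.ball p r ⊆ K') :
    ∃ (v : V) (b : Fin 3 → V), PK star v b K' ∧
      |dt b| < mX star * (volume K).toReal / (dX star K).toReal ∧ r ^ 6 / 4 ≤ dt b ^ 2 ∧
      (∀ i, ‖b i‖ ≤ 2 * (mX star * (volume K).toReal / (dX star K).toReal) / r ^ 2) ∧
      ‖v‖ ≤ 3 * (2 * (mX star * (volume K).toReal / (dX star K).toReal) / r ^ 2) ∧
      ∃ (σ : ℝ) (c x y : V), InF star v b σ c ∧ ¬ (σ = 1 ∧ c = 0) ∧ x ∈ interior K ∧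
        y ∈ interior K ∧ x = σ • y + c := by
  set D := (dX star K).toReal with hD
  have hDe : dX star K = ENNReal.ofReal D := (ENNReal.ofReal_toReal (dX_fin star hK).ne).symm
  have hDp : 0 < D := ENNReal.toReal_pos (dX_pos star hK).ne' (dX_fin star hK).ne
  have hm := mX_pos star
  have hV := vol_pos hK
  have hV' := vol_pos hK'
  have hVV : (volume K').toReal < (volume K).toReal :=
    (ENNReal.toReal_lt_toReal hK'.1.measure_lt_top.ne hK.1.measure_lt_top.ne).2 hv
  obtain ⟨v, b, h1, h2⟩ := dX_exists (star := star) hK'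
    (c := ENNReal.ofReal (D * ((volume K').toReal / (volume K).toReal))) (by
      refine lt_of_lt_of_le ?_ hd
      rw [hDe, ENNReal.ofReal_lt_ofReal_iff hDp]
      have : (volume K').toReal / (volume K).toReal < 1 := (div_lt_one hV).2 hVV
      nlinarith)
  have hbp : 0 < |dt b| := abs_pos.2 h1.1
  have h3 : |dt b| < mX star * (volume K).toReal / D := by
    have h4 := (ENNReal.ofReal_lt_ofReal_iff (by unfold rX; positivity)).1 h2
    unfold rX at h4
    rw [lt_div_iff₀ hbp] at h4
    rw [lt_div_iff₀ hDp]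
    have h5 : D * ((volume K').toReal / (volume K).toReal) * |dt b| =
      (|dt b| * D / (volume K).toReal) * (volume K').toReal := by ring
    rw [h5] at h4
    have h6 := lt_of_mul_lt_mul_right h4 hV'.le
    rwa [div_lt_iff₀ hV] at h6
  obtain ⟨v', b', g1, g2, g3, g4, g5⟩ := normalise h1 hr hball
  have hnot : ¬ PK star v' b' K := by
    intro h
    have h5 := (g1 K).1 h
    have h6 := dX_ge hK h5
    rw [hDe, ENNReal.ofReal_le_ofReal_iff hDp.le] at h6
    unfold rX at h6
    rw [div_le_iff₀ hbp] at h6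
    rw [lt_div_iff₀ hDp] at h3
    linarith
  have hP' := (g1 K').2 h1
  refine ⟨v', b', hP', by rw [g2]; exact h3, ?_, fun i => (g4 i).trans (by gcongr),
    g5.trans (by gcongr), ?_⟩
  · rw [← sq_abs, g2, sq_abs]
    exact g3
  · unfold PK at hnot
    push Not at hnot
    obtain ⟨σ, c, f1, f2, x, hx, y, hy, f3⟩ := hnot hP'.1
    exact ⟨σ, c, x, y, f1, fun h => f2 h.1 h.2, hx, hy, f3⟩

/-- points of the interior are interior points of all but finitely many of the truncated bodies -/
theorem int_trunc {K : Set V} {x : V} (hx : x ∈ K.extremePoints ℝ) {e : ℕ → ℝ}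
    (he : Tendsto e atTop (𝓝 0)) {z : V} (hz : z ∈ interior K) :
    ∃ δ > 0, ∀ᶠ k in atTop, Metric.ball z δ ⊆ interior (trunc K x (e k)) := by
  obtain ⟨r1, hr1, hball⟩ := Metric.isOpen_iff.1 isOpen_interior z hz
  have hzx : z ≠ x := fun h => extreme_notInt hx (h ▸ hz)
  have hd : 0 < dist z x := dist_pos.2 hzx
  refine ⟨min r1 (dist z x / 2), lt_min hr1 (by linarith), ?_⟩
  filter_upwards [he.eventually (gt_mem_nhds (show (0:ℝ) < dist z x / 2 by linarith))] with k hk
  apply interior_maximal _ Metric.isOpen_ball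
  refine subset_trans ?_ (sub_trunc K x (e k))
  intro w hw
  refine ⟨interior_subset (hball (Metric.ball_subset_ball (min_le_left _ _) hw)), ?_⟩
  have h1 : Disjoint (Metric.ball z (min r1 (dist z x / 2))) (Metric.ball x (e k)) := by
    apply Metric.ball_disjoint_ball
    have h1 := min_le_right r1 (dist z x / 2)
    linarith
  exact Set.disjoint_left.1 h1 hw

theorem sig_sq {star : Bool} {v : V} {b : Fin 3 → V} {σ : ℝ} {c : V} (h : InF star v b σ c) :
    σ = 1 ∨ σ = -1 := by
  rcases h with ⟨h, -⟩ | ⟨-, h, -⟩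
  · exact Or.inl h
  · exact Or.inr h

/-- the argument in the limit -/
theorem limit_step {star : Bool} {K : Set V} (hK : Body K) {x : V} (hx : x ∈ K.extremePoints ℝ)
    {e : ℕ → ℝ} (he : Tendsto e atTop (𝓝 0)) {p : V} {r : ℝ} (hr : 0 < r)
    {Δ : ℝ} {bs : ℕ → Fin 3 → V} {vs cs xs ys : ℕ → V} {σs : ℕ → ℝ} {b : Fin 3 → V}
    {v c x' y' : V} {σ : ℝ}
    (hb : Tendsto bs atTop (𝓝 b)) (hv : Tendsto vs atTop (𝓝 v)) (hc : Tendsto cs atTop (𝓝 c))
    (hxs : Tendsto xs atTop (𝓝 x')) (hys : Tendsto ys atTop (𝓝 y'))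
    (hσ : Tendsto σs atTop (𝓝 σ))
    (h1 : ∀ k, PK star (vs k) (bs k) (trunc K x (e k))) (h2 : ∀ k, |dt (bs k)| ≤ Δ)
    (h3 : ∀ k, r ^ 6 / 4 ≤ dt (bs k) ^ 2)
    (hball : ∀ k, Metric.ball p r ⊆ trunc K x (e k))
    (h4 : ∀ k, InF star (vs k) (bs k) (σs k) (cs k)) (h5 : ∀ k, ¬ (σs k = 1 ∧ cs k = 0))
    (h6 : ∀ k, xs k ∈ interior K) (h7 : ∀ k, ys k ∈ interior K)
    (h8 : ∀ k, xs k = σs k • ys k + cs k) :
    PK star v b K ∧ |dt b| ≤ Δ ∧ Touch star v b K x := by
  have hdt : Tendsto (fun k => dt (bs k)) atTop (𝓝 (dt b)) := (dt_cont.tendsto b).comp hb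
  have hdt2 : r ^ 6 / 4 ≤ dt b ^ 2 := ge_of_tendsto' (hdt.pow 2) h3
  have hb0 : dt b ≠ 0 := by
    intro h
    rw [h] at hdt2
    have : 0 < r ^ 6 := by positivity
    linarith
  have hdtΔ : |dt b| ≤ Δ := le_of_tendsto' hdt.abs h2
  -- the limit is a packing of `K`
  have hPK : PK star v b K := by
    refine ⟨hb0, fun σ' c' hF hne x1 hx1 y1 hy1 heq => ?_⟩
    obtain ⟨δ, hδ, hev⟩ := int_trunc hx he hx1
    obtain ⟨δ', hδ', hev'⟩ := int_trunc hx he hy1
    have hcomp : ∀ i, Tendsto (fun k => bs k i) atTop (𝓝 (b i)) := fun i =>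
      ((continuous_apply i).tendsto b).comp hb
    rcases hF with ⟨rfl, hc'⟩ | ⟨hstar, rfl, hc'⟩
    · rw [mem_lat3] at hc'
      obtain ⟨z0, z1, z2, ez⟩ := hc'
      have hlim : Tendsto (fun k => (z0 : ℝ) • bs k 0 + (z1 : ℝ) • bs k 1 + (z2 : ℝ) • bs k 2) atTop
          (𝓝 c') := by
        rw [ez]
        exact (((hcomp 0).const_smul _).add ((hcomp 1).const_smul _)).add ((hcomp 2).const_smul _)
      have hne0 : c' ≠ 0 := fun h => hne ⟨rfl, h⟩
      have hlim2 := hlim.const_add y1
      have e1 : y1 + c' = x1 := by rw [heq, one_smul]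
      rw [e1] at hlim2
      obtain ⟨k, k1, k2, k3, k4⟩ := (hev.and (hev'.and ((hlim.eventually_ne hne0).and
        (hlim2.eventually (Metric.ball_mem_nhds x1 hδ))))).exists
      refine (h1 k).2 1 _ (Or.inl ⟨rfl, mem_lat3.2 ⟨z0, z1, z2, rfl⟩⟩) (fun h => k3 h.2) _ (k1 k4)
        y1 (k2 (Metric.mem_ball_self hδ')) ?_
      rw [one_smul]
    · rw [mem_lat3] at hc'
      obtain ⟨z0, z1, z2, ez⟩ := hc'
      have hlim : Tendsto (fun k => vs k +
          ((z0 : ℝ) • bs k 0 + (z1 : ℝ) • bs k 1 + (z2 : ℝ) • bs k 2)) atTop (𝓝 c') := by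
        have e2 : c' = v + ((z0 : ℝ) • b 0 + (z1 : ℝ) • b 1 + (z2 : ℝ) • b 2) := by
          rw [← ez]; abel
        rw [e2]
        exact hv.add ((((hcomp 0).const_smul _).add ((hcomp 1).const_smul _)).add
          ((hcomp 2).const_smul _))
      have hlim2 := hlim.const_add (-y1)
      have e1 : -y1 + c' = x1 := by rw [heq, neg_one_smul]
      rw [e1] at hlim2
      obtain ⟨k, k1, k2, k4⟩ := (hev.and (hev'.and
        (hlim2.eventually (Metric.ball_mem_nhds x1 hδ)))).exists
      refine (h1 k).2 (-1) (vs k + ((z0 : ℝ) • bs k 0 + (z1 : ℝ) • bs k 1 + (z2 : ℝ) • bs k 2))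
        (Or.inr ⟨hstar, rfl, ?_⟩) (fun h => by
        have := h.1; norm_num at this) _ (k1 k4) y1 (k2 (Metric.mem_ball_self hδ')) ?_
      · rw [add_sub_cancel_left]
        exact mem_lat3.2 ⟨z0, z1, z2, rfl⟩
      · rw [neg_one_smul]
  refine ⟨hPK, hdtΔ, ?_⟩
  -- the contact
  have hx'K : x' ∈ K := hK.1.isClosed.mem_of_tendsto hxs
    (Eventually.of_forall fun k => interior_subset (h6 k))
  have hy'K : y' ∈ K := hK.1.isClosed.mem_of_tendsto hys
    (Eventually.of_forall fun k => interior_subset (h7 k))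
  have heq : x' = σ • y' + c := by
    refine tendsto_nhds_unique hxs ?_
    have : xs = fun k => σs k • ys k + cs k := funext h8
    rw [this]
    exact (hσ.smul hys).add hc
  have hnear : ∀ k, min (dist (xs k) x) (dist (ys k) x) ≤ e k := by
    intro k
    by_contra hcon
    rw [not_le, lt_min_iff] at hcon
    have hin : ∀ z ∈ interior K, e k < dist z x → z ∈ interior (trunc K x (e k)) := by
      intro z hz hzd
      have hop : IsOpen (interior K ∩ (Metric.closedBall x (e k))ᶜ) :=
        isOpen_interior.inter Metric.isClosed_closedBall.isOpen_compl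
      refine interior_maximal ?_ hop ⟨hz, ?_⟩
      · refine subset_trans ?_ (sub_trunc K x (e k))
        rintro w ⟨hw1, hw2⟩
        exact ⟨interior_subset hw1, fun h => hw2 (Metric.ball_subset_closedBall h)⟩
      · rw [mem_compl_iff, Metric.mem_closedBall, not_le]
        exact hzd
    exact (h1 k).2 _ _ (h4 k) (h5 k) _ (hin _ (h6 k) hcon.1) _ (hin _ (h7 k) hcon.2) (h8 k)
  have hnear' : min (dist x' x) (dist y' x) ≤ 0 :=
    le_of_tendsto_of_tendsto' ((hxs.dist tendsto_const_nhds).min (hys.dist tendsto_const_nhds)) he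
      hnear
  have hor : x' = x ∨ y' = x := by
    rcases min_le_iff.1 hnear' with h | h
    · exact Or.inl (dist_le_zero.1 h)
    · exact Or.inr (dist_le_zero.1 h)
  -- the limit of the signs and of the translations
  obtain ⟨z, hz1, hz2⟩ := int_limit hσ (Eventually.of_forall fun k => by
    rcases sig_sq (h4 k) with h | h
    · exact ⟨1, by rw [h]; norm_num⟩
    · exact ⟨-1, by rw [h]; norm_num⟩)
  have hlow : ∀ᶠ k in atTop, σs k = 1 → r ^ 2 ≤ nq (cs k) := by
    refine Eventually.of_forall fun k hk => ?_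
    refine PK_low (h1 k) hr (hball k) (cs k) ?_ fun h => h5 k ⟨hk, h⟩
    rcases h4 k with h | h
    · exact h.2
    · rw [hk] at h
      have := h.2.1
      norm_num at this
  have hmain : InF star v b σ c ∧ ¬ (σ = 1 ∧ c = 0) := by
    have hzz : (z : ℝ) = 1 ∨ (z : ℝ) = -1 := by
      obtain ⟨k, hk⟩ := hz2.exists
      rw [← hk]
      exact sig_sq (h4 k)
    rcases hzz with hzz | hzz
    · have hs1 : σ = 1 := hz1.trans hzz
      have hs : ∀ᶠ k in atTop, σs k = 1 := hz2.mono fun k hk => hk.trans hzz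
      have hlat : ∀ᶠ k in atTop, cs k ∈ lat (bs k) := by
        filter_upwards [hs] with k hk
        rcases h4 k with h | h
        · exact h.2
        · rw [hk] at h
          have := h.2.1
          norm_num at this
      obtain ⟨z0, z1, z2, g1, -⟩ := lat_limit hb0 hb hc hlat
      refine ⟨Or.inl ⟨hs1, mem_lat3.2 ⟨z0, z1, z2, g1⟩⟩, fun h => ?_⟩
      have hnqc : Continuous nq := by unfold nq; fun_prop
      have hl : r ^ 2 ≤ nq c := by
        refine ge_of_tendsto ((hnqc.tendsto c).comp hc) ?_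
        filter_upwards [hlow, hs] with k k1 k2
        exact k1 k2
      rw [h.2] at hl
      have h0 : nq (0 : V) = 0 := by unfold nq; simp
      rw [h0] at hl
      have : 0 < r ^ 2 := by positivity
      linarith
    · have hs1 : σ = -1 := hz1.trans hzz
      have hs : ∀ᶠ k in atTop, σs k = -1 := hz2.mono fun k hk => hk.trans hzz
      have hst : star = true := by
        obtain ⟨k, hk⟩ := hs.exists
        rcases h4 k with h | h
        · rw [hk] at h
          have := h.1
          norm_num at this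
        · exact h.1
      have hlat : ∀ᶠ k in atTop, cs k - vs k ∈ lat (bs k) := by
        filter_upwards [hs] with k hk
        rcases h4 k with h | h
        · rw [hk] at h
          have := h.1
          norm_num at this
        · exact h.2.2
      obtain ⟨z0, z1, z2, g1, -⟩ := lat_limit hb0 hb (hc.sub hv) hlat
      refine ⟨Or.inr ⟨hst, hs1, mem_lat3.2 ⟨z0, z1, z2, g1⟩⟩, fun h => ?_⟩
      have := h.1
      rw [hs1] at this
      norm_num at this
  obtain ⟨hF, hne⟩ := hmain
  rcases hor with rfl | rfl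
  · exact ⟨σ, c, hF, hne, y', hy'K, heq⟩
  · rcases hF with ⟨hs, hc'⟩ | ⟨hst, hs, hc'⟩
    · refine ⟨1, -c, Or.inl ⟨rfl, lat_neg' hc'⟩, fun h => hne ⟨hs, neg_eq_zero.1 h.2⟩, x', hx'K, ?_⟩
      rw [heq, hs]
      simp
    · refine ⟨-1, c, Or.inr ⟨hst, rfl, hc'⟩, fun h => ?_, x', hx'K, ?_⟩
      · have := h.1
        norm_num at this
      · rw [heq, hs]
        simp

/-- **Contact points.** Let `x` be an extreme point of the body `K`, and let no body between
`K \ ball x ε` and `K` have a smaller packing density. Then in some densest packing `K` touches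
another member at `x`. -/
theorem contact {star : Bool} {K : Set V} (hK : Body K) {x : V} (hx : x ∈ K.extremePoints ℝ)
    {ε : ℝ} (hε : 0 < ε)
    (hmin : ∀ K' : Set V, Body K' → K \ Metric.ball x ε ⊆ K' → K' ⊆ K → dX star K ≤ dX star K') :
    ∃ (v : V) (b : Fin 3 → V), PK star v b K ∧ ENNReal.ofReal (rX star K b) = dX star K ∧
      Touch star v b K x := by
  obtain ⟨p, r, hr, hball, hdisj⟩ := ball_of hK hx
  set D := (dX star K).toReal with hD
  have hDe : dX star K = ENNReal.ofReal D := (ENNReal.ofReal_toReal (dX_fin star hK).ne).symm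
  have hDp : 0 < D := ENNReal.toReal_pos (dX_pos star hK).ne' (dX_fin star hK).ne
  have hm := mX_pos star
  have hV := vol_pos hK
  set Δ := mX star * (volume K).toReal / D with hΔ
  set s := min ε r with hs
  have hs0 : 0 < s := lt_min hε hr
  set e : ℕ → ℝ := fun k => s / ((k : ℝ) + 1) with he
  have he0 : ∀ k, 0 < e k := fun k => by rw [he]; positivity
  have hes : ∀ k, e k ≤ s := fun k => by
    rw [he]
    exact div_le_self hs0.le (by linarith [Nat.cast_nonneg (α := ℝ) k])
  have helim : Tendsto e atTop (𝓝 0) := by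
    have := (tendsto_one_div_add_atTop_nhds_zero_nat (𝕜 := ℝ)).const_mul s
    rw [mul_zero] at this
    refine this.congr fun k => ?_
    rw [he]
    ring
  have hballk : ∀ k, Metric.ball p r ⊆ trunc K x (e k) := fun k => by
    refine subset_trans ?_ (sub_trunc K x (e k))
    intro z hz
    exact ⟨hball hz, fun h =>
      Set.disjoint_left.1 (hdisj (e k) ((hes k).trans (min_le_right _ _))) hz h⟩
  have hfar : ∀ k, K \ Metric.ball x ε ⊆ trunc K x (e k) := fun k => by
    refine subset_trans ?_ (sub_trunc K x (e k))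
    intro z hz
    exact ⟨hz.1, fun h => hz.2 (Metric.ball_subset_ball ((hes k).trans (min_le_left _ _)) h)⟩
  have hbody : ∀ k, Body (trunc K x (e k)) := fun k =>
    ⟨trunc_compact hK.1 x (e k), convex_convexHull ℝ _,
      ⟨p, interior_maximal (hballk k) Metric.isOpen_ball (Metric.mem_ball_self hr)⟩⟩
  have hstep := fun k => one_step hK (hbody k) (vol_trunc hK hx (he0 k))
    (hmin _ (hbody k) (hfar k) (trunc_sub hK.2.1 x (e k))) hr (hballk k)
  choose vs bs h1 h2 h3 hbb hvb σs cs xs ys h4 h5 h6 h7 h8 using hstep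
  obtain ⟨R, hR⟩ := hK.1.isBounded.exists_norm_le
  set B := 2 * Δ / r ^ 2 with hB
  have hΔ0 : 0 < Δ := by rw [hΔ]; positivity
  have hB0 : 0 < B := by rw [hB]; positivity
  have hσ1 : ∀ k, ‖σs k‖ = 1 := fun k => by
    rcases sig_sq (h4 k) with h | h <;> rw [h] <;> simp
  have hR0 : 0 ≤ R := (norm_nonneg x).trans (hR x hx.1)
  set M := 3 * B + 2 * R + 1 with hM
  have hbd : ∀ k, (bs k, vs k, cs k, xs k, ys k, σs k) ∈ Metric.closedBall
      (0 : (Fin 3 → V) × V × V × V × V × ℝ) M := by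
    intro k
    have gx := hR _ (interior_subset (h6 k))
    have gy := hR _ (interior_subset (h7 k))
    have gc : ‖cs k‖ ≤ 2 * R := by
      have : cs k = xs k - σs k • ys k := by rw [h8 k]; abel
      rw [this]
      refine (norm_sub_le _ _).trans ?_
      rw [norm_smul, hσ1 k, one_mul]
      linarith
    have gb : ‖bs k‖ ≤ B := (pi_norm_le_iff_of_nonneg hB0.le).2 (hbb k)
    have gv : ‖vs k‖ ≤ 3 * B := hvb k
    rw [mem_closedBall_zero_iff]
    simp only [Prod.norm_def]
    have gs := hσ1 k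
    refine max_le ?_ (max_le ?_ (max_le ?_ (max_le ?_ (max_le ?_ ?_)))) <;> linarith
  obtain ⟨a, -, φ, hφ, hlim⟩ := tendsto_subseq_of_bounded Metric.isBounded_closedBall hbd
  obtain ⟨b, v, c, x', y', σ⟩ := a
  rw [Prod.tendsto_iff] at hlim
  obtain ⟨l1, hlim⟩ := hlim
  rw [Prod.tendsto_iff] at hlim
  obtain ⟨l2, hlim⟩ := hlim
  rw [Prod.tendsto_iff] at hlim
  obtain ⟨l3, hlim⟩ := hlim
  rw [Prod.tendsto_iff] at hlim
  obtain ⟨l4, hlim⟩ := hlim
  rw [Prod.tendsto_iff] at hlim
  obtain ⟨l5, l6⟩ := hlim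
  obtain ⟨g1, g2, g3⟩ := limit_step hK hx (e := fun k => e (φ k)) (helim.comp hφ.tendsto_atTop) hr
    l1 l2 l3 l4 l5 l6 (fun k => h1 (φ k)) (Δ := Δ) (fun k => (h2 (φ k)).le) (fun k => h3 (φ k))
    (fun k => hballk (φ k)) (fun k => h4 (φ k)) (fun k => h5 (φ k)) (fun k => h6 (φ k))
    (fun k => h7 (φ k)) (fun k => h8 (φ k))
  refine ⟨v, b, g1, ?_, g3⟩
  have g4 := dX_ge hK g1
  rw [hDe, ENNReal.ofReal_le_ofReal_iff hDp.le] at g4
  rw [hDe]
  congr 1
  exact mX_eq_div hDp (abs_pos.2 g1.1) g4 g2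

end Pool.Agent.U635.Ct
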