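import Pool.Agent.U635.CtD

/-!
# Contact points of the densest packings: statements with the families of the members
-/

set_option autoImplicit false

open MeasureTheory Set Filter Topology
open scoped ENNReal
open Pool.Agent.H349R2.Tet Pool.Agent.TH219.DL

namespace Pool.Agent.U635.Ct

/-- `K` has no smaller value of `δ` than the bodies between `K \ ball x ε` and `K`, for some
`ε > 0` -/
def LocMin (δ : Set V → ℝ≥0∞) (K : Set V) (x : V) : Prop :=
  ∃ ε : ℝ, 0 < ε ∧ ∀ K' : Set V, Body K' → K \ Metric.ball x ε ⊆ K' → K' ⊆ K → δ K ≤ δ K'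

/-- the densest lattice packings of `K`, given by the sets of the indices of their members -/
def DenseL (K : Set V) : Set (Set (Bool × V)) :=
  {S | ∃ b : Fin 3 → V, LinearIndependent ℝ b ∧ S = famL b ∧ IsPack K S ∧ den K S = dL K}

/-- the densest packings of `K` by `K + u` and `v - K + u`, `u` in a lattice -/
def DenseLs (K : Set V) : Set (Set (Bool × V)) :=
  {S | ∃ (v : V) (b : Fin 3 → V), LinearIndependent ℝ b ∧ S = famLs v b ∧ IsPack K S ∧
    den K S = dLs K}

/-- the points at which `K` touches another member of a packing of the collection `P` -/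
def Con (P : Set (Set (Bool × V))) (K : Set V) : Set V :=
  {x | x ∈ K ∧ ∃ S ∈ P, (false, (0 : V)) ∈ S ∧ ∃ p ∈ S, p ≠ (false, 0) ∧ x ∈ mem K p}

theorem touch_mem {star : Bool} {v : V} {b : Fin 3 → V} {K : Set V} {x : V}
    (h : Touch star v b K x) : ∃ p ∈ fX star v b, p ≠ (false, 0) ∧ x ∈ mem K p := by
  obtain ⟨σ, c, hF, hne, y, hy, rfl⟩ := h
  rcases hF with ⟨rfl, hc⟩ | ⟨rfl, rfl, hc⟩
  · refine ⟨(false, c), ?_, fun e => hne ⟨rfl, congrArg Prod.snd e⟩, y, hy, by simp⟩
    cases star
    · exact ⟨rfl, hc⟩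
    · exact Or.inl ⟨rfl, hc⟩
  · refine ⟨(true, c), Or.inr ⟨rfl, c - v, hc, by simp⟩, fun e => ?_, y, hy, by simp⟩
    exact Bool.false_ne_true (congrArg Prod.fst e).symm

theorem contact_L {K : Set V} (hK : Body K) {x : V} (hx : x ∈ K.extremePoints ℝ)
    (h : LocMin dL K x) : x ∈ Con (DenseL K) K := by
  obtain ⟨ε, hε, hmin⟩ := h
  obtain ⟨v, b, h1, h2, h3⟩ := contact (star := false) hK hx hε hmin
  obtain ⟨p, h4, h5, h6⟩ := touch_mem h3
  have h7 := PK_iff.1 h1
  refine ⟨hx.1, famL b, ⟨b, h7.1, rfl, h7.2, ?_⟩, ⟨rfl, pack_zero_mem b⟩, p, h4, h5, h6⟩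
  have := den_eq hK h1
  rw [h2] at this
  exact this

theorem contact_Ls {K : Set V} (hK : Body K) {x : V} (hx : x ∈ K.extremePoints ℝ)
    (h : LocMin dLs K x) : x ∈ Con (DenseLs K) K := by
  obtain ⟨ε, hε, hmin⟩ := h
  obtain ⟨v, b, h1, h2, h3⟩ := contact (star := true) hK hx hε hmin
  obtain ⟨p, h4, h5, h6⟩ := touch_mem h3
  have h7 := PK_iff.1 h1
  refine ⟨hx.1, famLs v b, ⟨v, b, h7.1, rfl, h7.2, ?_⟩, Or.inl ⟨rfl, pack_zero_mem b⟩, p, h4, h5, h6⟩
  have := den_eq hK h1
  rw [h2] at this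
  exact this

theorem mn_loc {δ : Set V → ℝ≥0∞} {K : Set V} (h : δ K = mn δ) (x : V) : LocMin δ K x :=
  ⟨1, one_pos, fun K' hK' _ _ => h.le.trans (iInf₂_le K' hK')⟩

/-- a body all of whose extreme points are contact points is the closed convex hull of its contact
points -/
theorem hull_con {K : Set V} (hK : Body K) {P : Set (Set (Bool × V))}
    (h : ∀ x ∈ K.extremePoints ℝ, x ∈ Con P K) : K = closure (convexHull ℝ (Con P K)) := by
  apply Subset.antisymm
  · conv_lhs => rw [← closure_convexHull_extremePoints hK.1 hK.2.1]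
    exact closure_mono (convexHull_mono h)
  · exact closure_minimal (convexHull_min (fun x hx => hx.1) hK.2.1) hK.1.isClosed

theorem lat_countable (b : Fin 3 → V) : (lat b).Countable := by
  have : lat b = Set.range fun z : Fin 3 → ℤ => ∑ i, (z i : ℝ) • b i := by
    ext x
    unfold lat
    simp only [Set.mem_ofPred_eq, mem_range]
    exact ⟨fun ⟨z, hz⟩ => ⟨z, hz.symm⟩, fun ⟨z, hz⟩ => ⟨z, hz.symm⟩⟩
  rw [this]
  exact countable_range _

theorem famL_countable (b : Fin 3 → V) : (famL b).Countable := by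
  refine (((lat_countable b).image fun c => (false, c))).mono ?_
  rintro ⟨s, c⟩ ⟨h1, h2⟩
  exact ⟨c, h2, by rw [show s = false from h1]⟩

theorem famLs_countable (v : V) (b : Fin 3 → V) : (famLs v b).Countable := by
  refine (((lat_countable b).image fun c => (false, c)).union
    ((lat_countable b).image fun c => (true, v + c))).mono ?_
  rintro ⟨s, c⟩ (⟨h1, h2⟩ | ⟨h1, u, hu, h2⟩)
  · exact Or.inl ⟨c, h2, by rw [show s = false from h1]⟩
  · refine Or.inr ⟨u, hu, ?_⟩
    rw [show s = true from h1, show c = v + u from h2]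

/-- two members of a packing by translates of a strictly convex body and of its reflection have at
most one common point -/
theorem sub_one {K : Set V} (hs : StrictConvex ℝ K) {p : Bool × V}
    (h : Disjoint (interior K) (interior (mem K p))) : (K ∩ mem K p).Subsingleton := by
  rintro x1 ⟨h1, y1, g1, e1⟩ x2 ⟨h2, y2, g2, e2⟩
  by_contra hne
  have hm := hs h1 h2 hne (show (0 : ℝ) < 1 / 2 by norm_num) (show (0 : ℝ) < 1 / 2 by norm_num)
    (by norm_num)
  have hy : y1 ≠ y2 := by
    rintro rfl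
    exact hne (e1.symm.trans e2)
  have hm2 := hs g1 g2 hy (show (0 : ℝ) < 1 / 2 by norm_num) (show (0 : ℝ) < 1 / 2 by norm_num)
    (by norm_num)
  rw [interior_mem] at h
  refine Set.disjoint_left.1 h hm ⟨_, hm2, ?_⟩
  rw [← e1, ← e2]
  simp only
  split_ifs <;> module

theorem frontier_not_countable {K : Set V} (hK : Body K) : ¬ (frontier K).Countable := by
  intro h
  have hrank : 1 < Module.rank ℝ V := by simp [V]
  have hcon : IsPreconnected (frontier K)ᶜ :=
    (h.isPathConnected_compl_of_one_lt_rank hrank).isConnected.isPreconnected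
  have hcl : IsClosed K := hK.1.isClosed
  obtain ⟨p, hp⟩ := hK.2.2
  have hout : (Kᶜ).Nonempty := by
    by_contra hne
    rw [Set.not_nonempty_iff_eq_empty, Set.compl_empty_iff] at hne
    have := hK.1
    rw [hne] at this
    exact noncompact_univ V this
  obtain ⟨q, hq⟩ := hout
  have hsub : (frontier K)ᶜ ⊆ interior K ∪ Kᶜ := by
    intro z hz
    by_cases hzK : z ∈ K
    · left
      by_contra hzi
      exact hz ⟨subset_closure hzK, hzi⟩
    · exact Or.inr hzK
  have hpf : p ∈ (frontier K)ᶜ := fun hf => hf.2 hp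
  have hqf : q ∈ (frontier K)ᶜ := fun hf => hq (hcl.closure_eq ▸ hf.1)
  obtain ⟨z, -, hz1, hz2⟩ := hcon (interior K) Kᶜ isOpen_interior hcl.isOpen_compl hsub
    ⟨p, hpf, hp⟩ ⟨q, hqf, hq⟩
  exact hz2 (interior_subset hz1)

/-- a strictly convex body all of whose extreme points are contact points has uncountably many
densest packings -/
theorem uncountable_dense {K : Set V} (hK : Body K) (hs : StrictConvex ℝ K)
    {P : Set (Set (Bool × V))} (hP : ∀ S ∈ P, S.Countable ∧ IsPack K S)
    (h : ∀ x ∈ K.extremePoints ℝ, x ∈ Con P K) : ¬ P.Countable := by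
  intro hc
  apply frontier_not_countable hK
  have hsub : frontier K ⊆ ⋃ S ∈ P, ⋃ p ∈ {p | p ∈ S ∧ p ≠ (false, (0 : V)) ∧ (false, (0 : V)) ∈ S},
      (K ∩ mem K p) := by
    intro x hx
    have hxK : x ∈ K := hK.1.isClosed.closure_eq ▸ hx.1
    have hext : x ∈ K.extremePoints ℝ := by
      refine ⟨hxK, fun y hy z hz hseg => ?_⟩
      by_contra hyx
      obtain ⟨a, c, ha, hc', hac, he⟩ := hseg
      have hyz : y ≠ z := by
        rintro rfl
        apply hyx
        rw [← he, ← add_smul, hac, one_smul]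
      have := hs hy hz hyz ha hc' hac
      rw [he] at this
      exact hx.2 this
    obtain ⟨-, S, hS, h0, p, hp, hne, hxp⟩ := h x hext
    exact mem_iUnion₂.2 ⟨S, hS, mem_iUnion₂.2 ⟨p, ⟨hp, hne, h0⟩, hxK, hxp⟩⟩
  refine Set.Countable.mono hsub (hc.biUnion fun S hS => ?_)
  refine Set.Countable.biUnion ((hP S hS).1.mono fun p hp => hp.1) fun p hp => ?_
  refine (sub_one hs ?_).countable
  have := (hP S hS).2 (false, 0) hp.2.2 p hp.1 hp.2.1.symm
  have e : mem K (false, (0 : V)) = K := by unfold mem; simp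
  rwa [e] at this

end Pool.Agent.U635.Ct
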