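import Pool.Agent.U635.CtE

/-!
# Contact sets: they are planar, and finitely many of them span the body
-/

set_option autoImplicit false

open MeasureTheory Set Filter Topology
open scoped ENNReal
open Pool.Agent.H349R2.Tet Pool.Agent.TH219.DL

namespace Pool.Agent.U635.Ct

theorem mem_compact {K : Set V} (hK : IsCompact K) (p : Bool × V) : IsCompact (mem K p) := by
  apply hK.image
  by_cases h : p.1 = true
  · simp only [h, if_true]
    fun_prop
  · simp only [h, Bool.false_eq_true, if_false]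
    fun_prop

theorem mem_convex {K : Set V} (hK : Convex ℝ K) (p : Bool × V) : Convex ℝ (mem K p) := by
  rintro _ ⟨x, hx, rfl⟩ _ ⟨y, hy, rfl⟩ α β hα hβ hαβ
  refine ⟨α • x + β • y, hK hx hy hα hβ hαβ, ?_⟩
  have e : p.2 = α • p.2 + β • p.2 := by rw [← add_smul, hαβ, one_smul]
  simp only [smul_add]
  nth_rewrite 1 [e]
  split_ifs <;> module

/-- the common points of two members lie in a supporting plane -/
theorem planar {K : Set V} (hK : Body K) {p : Bool × V}
    (h : Disjoint (interior K) (interior (mem K p))) :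
    ∃ (f : V →L[ℝ] ℝ) (s : ℝ), f ≠ 0 ∧ (∀ y ∈ K, f y ≤ s) ∧ ∀ y ∈ K ∩ mem K p, f y = s := by
  have hne : (interior (mem K p)).Nonempty := by
    rw [interior_mem]
    exact hK.2.2.image _
  obtain ⟨f, u, h1, h2, h3⟩ := geometric_hahn_banach_of_nonempty_interior hK.2.1
    (mem_convex hK.2.1 p).interior h hK.2.2 hne
  have h4 : ∀ y ∈ mem K p, u ≤ f y := by
    intro y hy
    have hcl : y ∈ closure (interior (mem K p)) := by
      rw [(mem_convex hK.2.1 p).closure_interior_eq_closure_of_nonempty_interior hne]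
      exact subset_closure hy
    exact closure_minimal (t := {y | u ≤ f y}) (fun z hz => h3 z hz)
      (isClosed_le continuous_const f.continuous) hcl
  exact ⟨f, u, h1, h2, fun y hy => le_antisymm (h2 y hy.1) (h4 y hy.2)⟩

theorem mem_near {K : Set V} {R : ℝ} (hR : ∀ x ∈ K, ‖x‖ ≤ R) {p : Bool × V}
    (h : (K ∩ mem K p).Nonempty) : ‖p.2‖ ≤ 2 * R := by
  obtain ⟨x, hx, y, hy, e⟩ := h
  have h1 := hR x hx
  have h2 := hR y hy
  have e1 : p.2 = x - (if p.1 = true then -y else y) := by rw [← e]; simp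
  rw [e1]
  refine (norm_sub_le _ _).trans ?_
  split_ifs
  · rw [norm_neg]; linarith
  · linarith

theorem fin_L {K : Set V} (hK : Body K) {b : Fin 3 → V} (hb : LinearIndependent ℝ b) :
    {p | p ∈ famL b ∧ (K ∩ mem K p).Nonempty}.Finite := by
  obtain ⟨R, hR⟩ := hK.1.isBounded.exists_norm_le
  refine ((lat_finite ((dt_ne_zero_iff b).2 hb) (2 * R)).image fun c => (false, c)).subset ?_
  rintro ⟨s, c⟩ ⟨⟨h1, h2⟩, h3⟩
  exact ⟨c, ⟨h2, mem_near hR h3⟩, by rw [show s = false from h1]⟩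

theorem fin_Ls {K : Set V} (hK : Body K) {v : V} {b : Fin 3 → V} (hb : LinearIndependent ℝ b) :
    {p | p ∈ famLs v b ∧ (K ∩ mem K p).Nonempty}.Finite := by
  obtain ⟨R, hR⟩ := hK.1.isBounded.exists_norm_le
  refine (((lat_finite ((dt_ne_zero_iff b).2 hb) (2 * R)).image fun c => (false, c)).union
    ((lat_finite ((dt_ne_zero_iff b).2 hb) (2 * R + ‖v‖)).image fun c => (true, v + c))).subset ?_
  rintro ⟨s, c⟩ ⟨⟨h1, h2⟩ | ⟨h1, u, hu, h2⟩, h3⟩
  · exact Or.inl ⟨c, ⟨h2, mem_near hR h3⟩, by rw [show s = false from h1]⟩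
  · have h4 := mem_near hR h3
    rw [show c = v + u from h2] at h4
    refine Or.inr ⟨u, ⟨hu, ?_⟩, by rw [show s = true from h1, show c = v + u from h2]⟩
    have : u = (v + u) - v := by abel
    rw [this]
    refine (norm_sub_le _ _).trans ?_
    have h5 : ‖v + u‖ ≤ 2 * R := h4
    linarith

/-- if all extreme points are contact points of the packings of a finite collection, the body is the
convex hull of finitely many of the sets `K ∩ K'`, `K'` another member, each in a supporting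
plane -/
theorem fin_hull {K : Set V} (hK : Body K) {P : Set (Set (Bool × V))} (hfin : P.Finite)
    (hP : ∀ S ∈ P, {p | p ∈ S ∧ (K ∩ mem K p).Nonempty}.Finite ∧ IsPack K S)
    (h : ∀ x ∈ K.extremePoints ℝ, x ∈ Con P K) :
    ∃ T : Set (Bool × V), T.Finite ∧
      (∀ p ∈ T, (∃ S ∈ P, (false, (0 : V)) ∈ S ∧ p ∈ S ∧ p ≠ (false, 0)) ∧
        ∃ (f : V →L[ℝ] ℝ) (s : ℝ), f ≠ 0 ∧ (∀ y ∈ K, f y ≤ s) ∧ ∀ y ∈ K ∩ mem K p, f y = s) ∧
      K = convexHull ℝ (⋃ p ∈ T, K ∩ mem K p) := by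
  set T : Set (Bool × V) := ⋃ S ∈ P, {p | (p ∈ S ∧ (K ∩ mem K p).Nonempty) ∧
    (false, (0 : V)) ∈ S ∧ p ≠ (false, 0)} with hT
  have hTf : T.Finite := hfin.biUnion fun S hS => (hP S hS).1.subset fun p hp => hp.1
  refine ⟨T, hTf, fun p hp => ?_, ?_⟩
  · obtain ⟨S, hS, ⟨h1, h2⟩, h3, h4⟩ := mem_iUnion₂.1 hp
    refine ⟨⟨S, hS, h3, h1, h4⟩, planar hK ?_⟩
    have := (hP S hS).2 (false, 0) h3 p h1 h4.symm
    have e : mem K (false, (0 : V)) = K := by unfold mem; simp
    rwa [e] at this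
  · apply Subset.antisymm
    · have hc : IsCompact (convexHull ℝ (⋃ p ∈ T, K ∩ mem K p)) :=
        Pool.Agent.H73R3.compact_hull (hTf.isCompact_biUnion fun p _ =>
          hK.1.inter (mem_compact hK.1 p))
      conv_lhs => rw [← closure_convexHull_extremePoints hK.1 hK.2.1]
      refine closure_minimal (convexHull_mono fun x hx => ?_) hc.isClosed
      obtain ⟨hxK, S, hS, h0, p, hp, hne, hxp⟩ := h x hx
      exact mem_iUnion₂.2 ⟨p, mem_iUnion₂.2 ⟨S, hS, ⟨hp, x, hxK, hxp⟩, h0, hne⟩, hxK, hxp⟩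
    · exact convexHull_min (iUnion₂_subset fun p _ => inter_subset_left) hK.2.1

end Pool.Agent.U635.Ct
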