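import Pool.Agent.U635.CtF

/-!
# Contact points and segments in the boundary
-/

set_option autoImplicit false

open MeasureTheory Set Filter Topology
open scoped ENNReal
open Pool.Agent.H349R2.Tet Pool.Agent.TH219.DL

namespace Pool.Agent.U635.Ct

theorem seg_cross {K : Set V} (hK : IsClosed K) {a c : V} (ha : a ∈ interior K) (hc : c ∉ K) :
    ∃ z ∈ segment ℝ a c, z ∈ frontier K := by
  by_contra hcon
  push Not at hcon
  have hcon' : IsPreconnected (segment ℝ a c) := (convex_segment a c).isPreconnected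
  have hsub : segment ℝ a c ⊆ interior K ∪ Kᶜ := by
    intro z hz
    by_cases hzK : z ∈ K
    · left
      by_contra hzi
      exact hcon z hz ⟨subset_closure hzK, hzi⟩
    · exact Or.inr hzK
  obtain ⟨z, -, hz1, hz2⟩ := hcon' (interior K) Kᶜ isOpen_interior hK.isOpen_compl hsub
    ⟨a, left_mem_segment ℝ a c, ha⟩ ⟨c, right_mem_segment ℝ a c, hc⟩
  exact hz2 (interior_subset hz1)

/-- no nonempty relatively open part of the boundary is countable -/
theorem open_not_countable {K : Set V} (hK : Body K) {O : Set V} (hO : IsOpen O)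
    (hne : (O ∩ frontier K).Nonempty) : ¬ (O ∩ frontier K).Countable := by
  intro hcount
  obtain ⟨x, hxO, hxf⟩ := hne
  obtain ⟨r, hr, hball⟩ := Metric.isOpen_iff.1 hO x hxO
  have hcl : IsClosed K := hK.1.isClosed
  have hxK : x ∈ K := hcl.closure_eq ▸ hxf.1
  have hx1 : x ∈ closure (interior K) := by
    rw [hK.2.1.closure_interior_eq_closure_of_nonempty_interior hK.2.2]
    exact subset_closure hxK
  have hx2 : x ∈ closure Kᶜ := by
    rw [closure_compl]
    exact hxf.2
  obtain ⟨a, ha1, ha2⟩ := mem_closure_iff.1 hx1 _ Metric.isOpen_ball (Metric.mem_ball_self hr)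
  obtain ⟨c, hc1, hc2⟩ := mem_closure_iff.1 hx2 _ Metric.isOpen_ball (Metric.mem_ball_self hr)
  have hac : c - a ≠ 0 := by
    intro h
    rw [sub_eq_zero] at h
    exact hc2 (h ▸ interior_subset ha2)
  obtain ⟨i, hi⟩ : ∃ i, (c - a) i ≠ 0 := by
    by_contra hcon
    push Not at hcon
    exact hac (funext hcon)
  obtain ⟨j, hji⟩ : ∃ j : Fin 3, j ≠ i := exists_ne i
  set e : V := Pi.single j 1 with he
  have hcont : ∀ w : V, Tendsto (fun t : ℝ => w + t • e) (𝓝 0) (𝓝 w) := by
    intro w
    have : Continuous fun t : ℝ => w + t • e := by fun_prop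
    have h := this.tendsto 0
    simpa using h
  have ev1 : ∀ᶠ t : ℝ in 𝓝 0, a + t • e ∈ Metric.ball x r ∩ interior K :=
    (hcont a).eventually ((Metric.isOpen_ball.inter isOpen_interior).mem_nhds ⟨ha1, ha2⟩)
  have ev2 : ∀ᶠ t : ℝ in 𝓝 0, c + t • e ∈ Metric.ball x r ∩ Kᶜ :=
    (hcont c).eventually ((Metric.isOpen_ball.inter hcl.isOpen_compl).mem_nhds ⟨hc1, hc2⟩)
  obtain ⟨δ, hδ, hev⟩ := Metric.eventually_nhds_iff_ball.1 (ev1.and ev2)
  set l : V → ℝ := fun z => z j * (c - a) i - z i * (c - a) j with hl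
  have himg : (fun t : ℝ => l a + t * (c - a) i) '' Ioo (-δ) δ ⊆ l '' (O ∩ frontier K) := by
    rintro _ ⟨t, ht, rfl⟩
    have htb : t ∈ Metric.ball (0 : ℝ) δ := by
      rw [Metric.mem_ball, Real.dist_eq, sub_zero, abs_lt]
      exact ht
    obtain ⟨⟨g1, g2⟩, g3, g4⟩ := hev t htb
    obtain ⟨z, hz1, hz2⟩ := seg_cross hcl g2 g4
    refine ⟨z, ⟨hball ((convex_ball x r).segment_subset g1 g3 hz1), hz2⟩, ?_⟩
    obtain ⟨α, β, -, -, hαβ, rfl⟩ := hz1
    have hej : e j = 1 := by rw [he]; simp
    have hei : e i = 0 := by rw [he]; simp [hji.symm]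
    have hα : α = 1 - β := by linarith
    simp only [hl, Pi.add_apply, Pi.smul_apply, Pi.sub_apply, smul_eq_mul, hej, hei, hα]
    ring
  have h1 : ((fun t : ℝ => l a + t * (c - a) i) '' Ioo (-δ) δ).Countable :=
    (hcount.image l).mono himg
  have hinj : Function.Injective fun t : ℝ => l a + t * (c - a) i := by
    intro s t hst
    simp only [add_right_inj] at hst
    exact mul_right_cancel₀ hi hst
  have h2 := (Set.countable_of_injective_of_countable_image hinj.injOn h1)
  rw [Cardinal.Real.Ioo_countable_iff] at h2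
  linarith

/-- a plane which supports `K` meets `K` in boundary points -/
theorem supp_frontier {K : Set V} {f : V →L[ℝ] ℝ} {s : ℝ} (hf : f ≠ 0) (h : ∀ y ∈ K, f y ≤ s)
    {w : V} (hw : w ∈ K) (hws : f w = s) : w ∈ frontier K := by
  refine ⟨subset_closure hw, fun hi => ?_⟩
  obtain ⟨u, hu⟩ : ∃ u, f u ≠ 0 := by
    by_contra hcon
    push Not at hcon
    exact hf (ContinuousLinearMap.ext hcon)
  have hcont : Tendsto (fun t : ℝ => w + t • u) (𝓝 0) (𝓝 w) := by
    have : Continuous fun t : ℝ => w + t • u := by fun_prop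
    have h := this.tendsto 0
    simpa using h
  have ev := hcont.eventually (isOpen_interior.mem_nhds hi)
  obtain ⟨δ, hδ, hev⟩ := Metric.eventually_nhds_iff_ball.1 ev
  have key : ∀ t : ℝ, |t| < δ → t * f u ≤ 0 := by
    intro t ht
    have h1 := h _ (interior_subset (hev t (by rw [Metric.mem_ball, Real.dist_eq, sub_zero]; exact ht)))
    rw [map_add, map_smul, smul_eq_mul, hws] at h1
    linarith
  have h1 := key (δ / 2) (by rw [abs_of_pos (by positivity)]; linarith)
  have h2 := key (-(δ / 2)) (by rw [abs_neg, abs_of_pos (by positivity)]; linarith)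
  have h3 : f u ≤ 0 := by
    by_contra hc
    rw [not_le] at hc
    have : 0 < δ / 2 * f u := by positivity
    linarith
  have h4 : 0 ≤ f u := by
    by_contra hc
    rw [not_le] at hc
    have : 0 < δ / 2 * (-f u) := mul_pos (by positivity) (by linarith)
    linarith
  exact hu (le_antisymm h3 h4)

/-- if there are only countably many packings in `P` and the extreme points of `K` in the open set
`O` are contact points, then a nondegenerate segment in the boundary of `K` meets `O` -/
theorem seg_dense {K : Set V} (hK : Body K) {P : Set (Set (Bool × V))}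
    (hP : ∀ S ∈ P, S.Countable ∧ IsPack K S) (hc : P.Countable) {O : Set V} (hO : IsOpen O)
    (hne : (O ∩ frontier K).Nonempty) (h : ∀ x ∈ K.extremePoints ℝ, x ∈ O → x ∈ Con P K) :
    ∃ y z : V, y ≠ z ∧ segment ℝ y z ⊆ frontier K ∧ (segment ℝ y z ∩ O).Nonempty := by
  by_contra hcon
  push Not at hcon
  apply open_not_countable hK hO hne
  have hcl : IsClosed K := hK.1.isClosed
  have hsub : O ∩ frontier K ⊆ ⋃ S ∈ P,
      ⋃ p ∈ {p | p ∈ S ∧ p ≠ (false, (0 : V)) ∧ (false, (0 : V)) ∈ S}, (O ∩ (K ∩ mem K p)) := by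
    rintro x ⟨hxO, hx⟩
    have hxK : x ∈ K := hcl.closure_eq ▸ hx.1
    have hext : x ∈ K.extremePoints ℝ := by
      refine ⟨hxK, fun y hy z hz hseg => ?_⟩
      by_contra hyx
      obtain ⟨f, hf, hfx⟩ := geometric_hahn_banach_of_nonempty_interior_point hK.2.1 hx.2 hK.2.2
      obtain ⟨α, β, hα, hβ, hαβ, he⟩ := hseg
      have hyz : y ≠ z := by
        rintro rfl
        apply hyx
        rw [← he, ← add_smul, hαβ, one_smul]
      have e1 : f x = α * f y + β * f z := by rw [← he]; simp
      have e2 := hfx y hy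
      have e3 := hfx z hz
      have e6 : α * f x + β * f x = f x := by rw [← add_mul, hαβ, one_mul]
      have e4 : f y = f x := by
        apply le_antisymm e2
        by_contra hlt
        rw [not_le] at hlt
        have h1 := mul_lt_mul_of_pos_left hlt hα
        have h2 := mul_le_mul_of_nonneg_left e3 hβ.le
        linarith
      have e5 : f z = f x := by
        apply le_antisymm e3
        by_contra hlt
        rw [not_le] at hlt
        have h1 := mul_lt_mul_of_pos_left hlt hβ
        have h2 := mul_le_mul_of_nonneg_left e2 hα.le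
        linarith
      have hseg : segment ℝ y z ⊆ frontier K := by
        intro w hw
        refine supp_frontier hf hfx (hK.2.1.segment_subset hy hz hw) ?_
        obtain ⟨γ, κ, -, -, hγκ, rfl⟩ := hw
        rw [map_add, map_smul, map_smul, e4, e5, smul_eq_mul, smul_eq_mul, ← add_mul, hγκ, one_mul]
      have := hcon y z hyz hseg
      have hxs : x ∈ segment ℝ y z := ⟨α, β, hα.le, hβ.le, hαβ, he⟩
      exact Set.eq_empty_iff_forall_notMem.1 this x ⟨hxs, hxO⟩
    obtain ⟨-, S, hS, h0, p, hp, hpne, hxp⟩ := h x hext hxO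
    exact mem_iUnion₂.2 ⟨S, hS, mem_iUnion₂.2 ⟨p, ⟨hp, hpne, h0⟩, hxO, hxK, hxp⟩⟩
  refine Set.Countable.mono hsub (hc.biUnion fun S hS => ?_)
  refine Set.Countable.biUnion ((hP S hS).1.mono fun p hp => hp.1) fun p hp => ?_
  refine Set.Subsingleton.countable ?_
  have hdj : Disjoint (interior K) (interior (mem K p)) := by
    have := (hP S hS).2 (false, 0) hp.2.2 p hp.1 hp.2.1.symm
    have e : mem K (false, (0 : V)) = K := by unfold mem; simp
    rwa [e] at this
  obtain ⟨f, s, hf, hfs, hfe⟩ := planar hK hdj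
  rintro x ⟨hxO, hx⟩ y ⟨-, hy⟩
  by_contra hxy
  have hseg : segment ℝ x y ⊆ frontier K := by
    intro w hw
    refine supp_frontier hf hfs (hK.2.1.segment_subset hx.1 hy.1 hw) ?_
    obtain ⟨γ, κ, -, -, hγκ, rfl⟩ := hw
    rw [map_add, map_smul, map_smul, hfe x hx, hfe y hy, smul_eq_mul, smul_eq_mul, ← add_mul, hγκ,
      one_mul]
  exact Set.eq_empty_iff_forall_notMem.1 (hcon x y hxy hseg) x ⟨left_mem_segment ℝ x y, hxO⟩

end Pool.Agent.U635.Ct
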