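import Pool.Agent.U635.CtG

/-!
# Contact points: the category argument
-/

set_option autoImplicit false

open MeasureTheory Set Filter Topology
open scoped ENNReal
open Pool.Agent.H349R2.Tet Pool.Agent.TH219.DL

namespace Pool.Agent.U635.Ct

/-- the midpoints of the pairs of points of `K` at distance at least `1 / (n + 1)` -/
def mids (K : Set V) (n : ℕ) : Set V :=
  (fun q : V × V => (1 / 2 : ℝ) • (q.1 + q.2)) '' ((K ×ˢ K) ∩ {q | 1 / ((n : ℝ) + 1) ≤ dist q.1 q.2})

theorem mids_closed {K : Set V} (hK : IsCompact K) (n : ℕ) : IsClosed (mids K n) := by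
  refine IsCompact.isClosed (((hK.prod hK).inter_right ?_).image (by fun_prop))
  exact isClosed_le continuous_const (by fun_prop)

theorem ext_eq {K : Set V} (hK : Convex ℝ K) : K.extremePoints ℝ = K ∩ ⋂ n, (mids K n)ᶜ := by
  apply Subset.antisymm
  · intro x hx
    refine ⟨hx.1, mem_iInter.2 fun n => ?_⟩
    rintro ⟨⟨y, z⟩, ⟨⟨hy, hz⟩, hd⟩, e⟩
    have hd : 1 / ((n : ℝ) + 1) ≤ dist y z := hd
    have e : (1 / 2 : ℝ) • (y + z) = x := e
    have h1 : x ∈ openSegment ℝ y z := ⟨1 / 2, 1 / 2, by norm_num, by norm_num, by norm_num, by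
      rw [← e, smul_add]⟩
    have h2 : y = x := hx.2 hy hz h1
    have h3 : z = x := hx.2 hz hy (by rwa [openSegment_symm])
    rw [h2, h3, dist_self] at hd
    have : 0 < 1 / ((n : ℝ) + 1) := by positivity
    linarith
  · rintro x ⟨hxK, hx⟩
    rw [mem_iInter] at hx
    refine ⟨hxK, fun y hy z hz hseg => ?_⟩
    by_contra hyx
    obtain ⟨α, β, hα, hβ, hαβ, he⟩ := hseg
    have hyz : y ≠ z := by
      rintro rfl
      apply hyx
      rw [← he, ← add_smul, hαβ, one_smul]
    set t := min α β with ht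
    have ht0 : 0 < t := lt_min hα hβ
    have h1 : (α - t) • y + (β + t) • z ∈ K := hK hy hz (by
      have := min_le_left α β; linarith) (by linarith) (by linarith)
    have h2 : (α + t) • y + (β - t) • z ∈ K := hK hy hz (by linarith) (by
      have := min_le_right α β; linarith) (by linarith)
    have hne : (α - t) • y + (β + t) • z ≠ (α + t) • y + (β - t) • z := by
      intro h
      have h3 : (2 * t) • (y - z) = 0 := by
        have : (2 * t) • (y - z) = ((α + t) • y + (β - t) • z) - ((α - t) • y + (β + t) • z) := by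
          module
        rw [this, h, sub_self]
      rcases smul_eq_zero.1 h3 with h4 | h4
      · linarith
      · exact hyz (sub_eq_zero.1 h4)
    obtain ⟨n, hn⟩ := exists_nat_one_div_lt (dist_pos.2 hne)
    refine hx n ⟨((α - t) • y + (β + t) • z, (α + t) • y + (β - t) • z), ⟨⟨h1, h2⟩, hn.le⟩, ?_⟩
    show (1 / 2 : ℝ) • (((α - t) • y + (β + t) • z) + ((α + t) • y + (β - t) • z)) = x
    rw [← he]
    module

theorem ext_gdelta {K : Set V} (hK : Body K) {O : Set V} (hO : IsOpen O) :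
    IsGδ (O ∩ K.extremePoints ℝ) := by
  rw [ext_eq hK.2.1]
  exact hO.isGδ.inter (hK.1.isClosed.isGδ.inter
    (IsGδ.iInter fun n => (mids_closed hK.1 n).isOpen_compl.isGδ))

/-- if there are only countably many packings in `P` and the extreme points of `K` in the open set
`O` are contact points, then the extreme points in some smaller open set lie in one set `K ∩ K'`,
where `K'` is another member -/
theorem loc_planar {K : Set V} (hK : Body K) {P : Set (Set (Bool × V))}
    (hP : ∀ S ∈ P, S.Countable ∧ IsPack K S) (hc : P.Countable) {O : Set V} (hO : IsOpen O)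
    (hne : (O ∩ K.extremePoints ℝ).Nonempty) (h : ∀ x ∈ K.extremePoints ℝ, x ∈ O → x ∈ Con P K) :
    ∃ (O' : Set V) (p : Bool × V) (f : V →L[ℝ] ℝ) (s : ℝ), IsOpen O' ∧ O' ⊆ O ∧
      (O' ∩ K.extremePoints ℝ).Nonempty ∧ O' ∩ K.extremePoints ℝ ⊆ K ∩ mem K p ∧
      (∃ S ∈ P, (false, (0 : V)) ∈ S ∧ p ∈ S ∧ p ≠ (false, 0)) ∧ f ≠ 0 ∧ (∀ y ∈ K, f y ≤ s) ∧
      ∀ y ∈ K ∩ mem K p, f y = s := by
  set C : Set (Bool × V) := ⋃ S ∈ P, {p | p ∈ S ∧ p ≠ (false, (0 : V)) ∧ (false, (0 : V)) ∈ S}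
    with hC
  have hCc : C.Countable := hc.biUnion fun S hS => (hP S hS).1.mono fun p hp => hp.1
  have : Countable C := hCc.to_subtype
  set E : Set V := O ∩ K.extremePoints ℝ with hE
  have : BaireSpace E := (ext_gdelta hK hO).baireSpace_of_t2Space_locallyCompactSpace
  have : Nonempty E := hne.to_subtype
  obtain ⟨⟨p, hp⟩, hpi⟩ := nonempty_interior_of_iUnion_of_closed
    (f := fun p : C => ((↑) : E → V) ⁻¹' (mem K p.1))
    (fun p => (mem_compact hK.1 p.1).isClosed.preimage continuous_subtype_val) (by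
      rw [eq_univ_iff_forall]
      rintro ⟨x, hxO, hx⟩
      obtain ⟨-, S, hS, h0, p, hp, hpne, hxp⟩ := h x hx hxO
      exact mem_iUnion.2 ⟨⟨p, mem_iUnion₂.2 ⟨S, hS, hp, hpne, h0⟩⟩, hxp⟩)
  obtain ⟨x, hx⟩ := hpi
  obtain ⟨U', hU'1, hU'2, hxU'⟩ := mem_interior.1 hx
  obtain ⟨U, hU, rfl⟩ := isOpen_induced_iff.1 hU'2
  obtain ⟨S, hS, hpS, hpne, h0⟩ := mem_iUnion₂.1 hp
  have hdj : Disjoint (interior K) (interior (mem K p)) := by
    have := (hP S hS).2 (false, 0) h0 p hpS hpne.symm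
    have e : mem K (false, (0 : V)) = K := by unfold mem; simp
    rwa [e] at this
  obtain ⟨f, s, hf, hfs, hfe⟩ := planar hK hdj
  refine ⟨U ∩ O, p, f, s, hU.inter hO, inter_subset_right, ⟨x.1, ⟨hxU', x.2.1⟩, x.2.2⟩, ?_,
    ⟨S, hS, h0, hpS, hpne⟩, hf, hfs, hfe⟩
  rintro z ⟨⟨hzU, hzO⟩, hz⟩
  exact ⟨hz.1, hU'1 (show (⟨z, hzO, hz⟩ : E) ∈ ((↑) : E → V) ⁻¹' U from hzU)⟩

end Pool.Agent.U635.Ct
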