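import Pool.Agent.TH968.UST.Defs

/-!
# Random rooted graphs, graph factors of i.i.d. labels, wired uniform spanning forests
-/

set_option autoImplicit false

namespace Pool.Agent.U635

open Pool.Agent.TH968.UST MeasureTheory Filter
open scoped ENNReal Topology

/-- A random rooted graph. Its vertex set may be random: it is `V (kind ω)`, where `V 0, V 1, …`
are countable sets (for instance `ℕ` and the finite sets `{0, …, n}`), and its graph and root are
`graph (kind ω) ω` and `root (kind ω) ω`. It is almost surely connected and locally finite.
Measurability of the graph refers to the sigma-algebra on `SimpleGraph (V i)` generated by the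
adjacency events. -/
structure RandomRootedGraph {Ω : Type} [MeasurableSpace Ω] (P : Measure Ω) where
  /-- the possible vertex sets -/
  V : ℕ → Type
  countable : ∀ i, Countable (V i)
  /-- which vertex set occurs -/
  kind : Ω → ℕ
  measurable_kind : Measurable kind
  /-- the random graph (on the event that the vertex set is `V i`) -/
  graph : (i : ℕ) → Ω → SimpleGraph (V i)
  measurable_graph : ∀ i, Measurable (graph i)
  /-- the random root (on the event that the vertex set is `V i`) -/
  root : (i : ℕ) → Ω → V i
  measurable_root : ∀ i x, MeasurableSet {ω | root i ω = x}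
  connected : ∀ᵐ ω ∂P, (graph (kind ω) ω).Connected
  locallyFinite : ∀ᵐ ω ∂P, ∀ x, ((graph (kind ω) ω).neighborSet x).Finite

/-- Simple random walk on `G` started at `o` returns to `o` almost surely (or `o` has no
neighbour): `avg G (hit G o n) o` is the probability that it returns within `n + 1` steps. -/
def RecurrentAt {V : Type*} (G : SimpleGraph V) (o : V) : Prop :=
  (∃ w, G.Adj o w) → ⨆ n, avg G (hit G o n) o = 1

/-- A map from vertex-labelled graphs to sets of edges which is measurable and equivariant under
graph isomorphisms (it does not use a root). -/
def IsFactorMap (Φ : (W : Type) → SimpleGraph W → (W → unitInterval) → Set (Sym2 W)) : Prop :=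
  (∀ (W : Type) [Countable W],
    Measurable fun p : SimpleGraph W × (W → unitInterval) => Φ W p.1 p.2) ∧
  ∀ (W W' : Type) (G : SimpleGraph W) (G' : SimpleGraph W') (φ : G ≃g G')
    (u : W → unitInterval), Φ W' G' (fun w => u (φ.symm w)) = Sym2.map φ '' Φ W G u

/-- `μ` is the law of the wired uniform spanning forest of `G`: along every exhaustion of `G` by
finite sets `B n`, the uniform spanning tree of the graph obtained by identifying all vertices
outside `B n` converges to `μ`, in the sense of all finite-dimensional distributions. -/
def IsWUSF {V : Type*} (G : SimpleGraph V) (μ : Measure (Set (Sym2 V))) : Prop :=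
  ∀ B : ℕ → Finset V, Monotone B → (∀ v, ∃ n, v ∈ B n) →
    ∀ (F : Finset (Sym2 V)) (A : Set (Sym2 V)),
      Tendsto (fun n => ustProb (wired (B n)) (touch G (B n)) F A) atTop
        (𝓝 (μ {T | T ∩ (F : Set (Sym2 V)) = A}).toReal)

end Pool.Agent.U635
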