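import Pool.Agent.TH870.CWb
import Pool.Agent.TH870.FRe
import Pool.Agent.TH870.FRf

/-!
# Volume of the difference body in terms of the asymmetry
-/

set_option autoImplicit false

open MeasureTheory Set
open scoped Pointwise NNReal RealInnerProductSpace

namespace Pool.Agent.U635.Diff

/-- `vol (K - K) ≤ (2 + 6 min(3, α)) vol K` if `-(K - x) ⊆ α (K - x)` -/
theorem vol_sub_le {K : Set (EuclideanSpace ℝ (Fin 3))} (hK : IsCompact K) (hc : Convex ℝ K)
    (hi : (interior K).Nonempty) {α : ℝ} (hα : 1 ≤ α) {x : EuclideanSpace ℝ (Fin 3)}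
    (hA : ∀ y ∈ K, ∃ z ∈ K, x - y = α • (z - x)) :
    (volume (K - K)).toReal ≤ (2 + 6 * min 3 α) * (volume K).toReal := by
  set f : EuclideanSpace ℝ (Fin 3) → EuclideanSpace ℝ (Fin 3) := fun y => y + -x with hf
  set K' : Set (EuclideanSpace ℝ (Fin 3)) := f '' K with hK'
  have hKc' : IsCompact K' := hK.image (by fun_prop)
  have hcv' : Convex ℝ K' := by
    have h1 := hc.translate (-x)
    have : K' = (fun z => -x + z) '' K := by
      rw [hK', hf]
      exact image_congr fun y _ => add_comm _ _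
    rw [this]; exact h1
  have hint : (interior K').Nonempty := by
    have h1 := (Homeomorph.addRight (-x)).image_interior K
    have h2 : interior K' = (Homeomorph.addRight (-x)) '' interior K := h1.symm
    rw [h2]
    exact hi.image _
  have hneg : ∀ y ∈ K', ∃ z ∈ K', -y = α • z := by
    rintro _ ⟨y, hy, rfl⟩
    obtain ⟨z, hz, e⟩ := hA y hy
    refine ⟨f z, ⟨z, hz, rfl⟩, ?_⟩
    simp only [hf]
    rw [← sub_eq_add_neg z x, ← e]
    abel
  have hv : volume K' = volume K := by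
    rw [hK', hf, Set.image_add_right, measure_preimage_add_right]
  have hsub : K' - K' = K - K := by
    ext p
    rw [Set.mem_sub, Set.mem_sub]
    constructor
    · rintro ⟨_, ⟨a, ha, rfl⟩, _, ⟨b, hb, rfl⟩, rfl⟩
      exact ⟨a, ha, b, hb, by simp only [hf]; abel⟩
    · rintro ⟨a, ha, b, hb, rfl⟩
      exact ⟨f a, ⟨a, ha, rfl⟩, f b, ⟨b, hb, rfl⟩, by simp only [hf]; abel⟩
  obtain ⟨c, h1, h2⟩ := Pool.Agent.TH870.FR.coeffs ⟨K', hcv', hKc', hint.mono interior_subset⟩ hint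
    ⟨α, by linarith⟩ hneg
  have h3 := h1 1 1 zero_le_one zero_le_one
  change (volume ((1 : ℝ) • K' + (1 : ℝ) • (-K'))).toReal = _ at h3
  rw [one_smul, one_smul, ← sub_eq_add_neg, hsub] at h3
  have h0 := h2 0 (by norm_num)
  have h1' := h2 1 (by norm_num)
  have h2' := h2 2 (by norm_num)
  have h3' := h2 3 le_rfl
  change c 0 ≤ Pool.Agent.TH870.FR.mi 3 α 0 * (volume K').toReal at h0
  change c 1 ≤ Pool.Agent.TH870.FR.mi 3 α 1 * (volume K').toReal at h1'
  change c 2 ≤ Pool.Agent.TH870.FR.mi 3 α 2 * (volume K').toReal at h2'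
  change c 3 ≤ Pool.Agent.TH870.FR.mi 3 α 3 * (volume K').toReal at h3'
  rw [hv] at h0 h1' h2' h3'
  have hV : 0 ≤ (volume K).toReal := ENNReal.toReal_nonneg
  have m0 : Pool.Agent.TH870.FR.mi 3 α 0 ≤ 1 := by
    unfold Pool.Agent.TH870.FR.mi
    simp
  have m3 : Pool.Agent.TH870.FR.mi 3 α 3 ≤ 1 := by
    unfold Pool.Agent.TH870.FR.mi
    simp
  have m1 : Pool.Agent.TH870.FR.mi 3 α 1 ≤ min 3 α := by
    unfold Pool.Agent.TH870.FR.mi
    refine le_min ?_ ?_
    · refine (min_le_left _ _).trans ?_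
      norm_num
    · refine (min_le_right _ _).trans ((min_le_left _ _).trans ?_)
      simp
  have m2 : Pool.Agent.TH870.FR.mi 3 α 2 ≤ min 3 α := by
    unfold Pool.Agent.TH870.FR.mi
    refine le_min ?_ ?_
    · refine (min_le_left _ _).trans ?_
      norm_num [Nat.choose]
    · refine (min_le_right _ _).trans ((min_le_right _ _).trans ?_)
      simp
  rw [h3]
  simp only [Finset.sum_range_succ, Finset.sum_range_zero, one_pow, mul_one, zero_add]
  have e0 : ((3 : ℕ).choose 0 : ℝ) = 1 := by norm_num [Nat.choose]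
  have e1 : ((3 : ℕ).choose 1 : ℝ) = 3 := by norm_num [Nat.choose]
  have e2 : ((3 : ℕ).choose 2 : ℝ) = 3 := by norm_num [Nat.choose]
  have e3 : ((3 : ℕ).choose 3 : ℝ) = 1 := by norm_num [Nat.choose]
  rw [e0, e1, e2, e3]
  have q0 : c 0 ≤ 1 * (volume K).toReal := h0.trans (mul_le_mul_of_nonneg_right m0 hV)
  have q1 : c 1 ≤ min 3 α * (volume K).toReal := h1'.trans (mul_le_mul_of_nonneg_right m1 hV)
  have q2 : c 2 ≤ min 3 α * (volume K).toReal := h2'.trans (mul_le_mul_of_nonneg_right m2 hV)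
  have q3 : c 3 ≤ 1 * (volume K).toReal := h3'.trans (mul_le_mul_of_nonneg_right m3 hV)
  linarith

/-- Jung's constant in space -/
noncomputable def J : ℝ := √(3 / 8)

theorem J_lt : J < 0.612373 := by
  unfold J
  rw [Real.sqrt_lt' (by norm_num)]
  norm_num

theorem lt_J : 0.612372 < J := by
  unfold J
  rw [Real.lt_sqrt (by norm_num)]
  norm_num

/-- a body with width at least `2` in all directions and diameter at most `2 l` -/
theorem asym_near {C : Set (EuclideanSpace ℝ (Fin 3))} (hC : IsCompact C)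
    (hc : Convex ℝ C) (hne : C.Nonempty) {l : ℝ} (hl : 1 ≤ l) (hl1 : l * J < 1)
    (hw : ∀ p : EuclideanSpace ℝ (Fin 3), ‖p‖ ≤ 1 → ∃ x ∈ C, ∃ y ∈ C, p = (1 / 2 : ℝ) • (x - y))
    (hd : ∀ x ∈ C, ∀ y ∈ C, dist x y ≤ 2 * l) :
    ∃ c, ∀ y ∈ C, ∃ z ∈ C, c - y = (l * J / (1 - l * J)) • (z - c) := by
  obtain ⟨c, hcen⟩ := Pool.Agent.TH870.CW.jung (w := 2 * l) (by linarith) hd
  have hJ : Real.sqrt ((3 : ℕ) / (2 * ((3 : ℕ) + 1)) : ℝ) = J := by
    unfold J
    congr 1
    norm_num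
  rw [hJ] at hcen
  have hJ0 := lt_J
  set r : ℝ := 2 * l * J with hr
  have hb : ∀ p, dist p c ≤ 2 - r → p ∈ C := by
    intro p hp
    by_contra hpC
    obtain ⟨f, s, hf1, hf2⟩ := geometric_hahn_banach_closed_point hc hC.isClosed hpC
    set v := (InnerProductSpace.toDual ℝ (EuclideanSpace ℝ (Fin 3))).symm f with hv
    have hfv : ∀ x, f x = ⟪v, x⟫ := fun x => by rw [hv, InnerProductSpace.toDual_symm_apply]
    have hv0 : v ≠ 0 := by
      rintro h0
      obtain ⟨x, hx⟩ := hne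
      have h1 := hf1 x hx
      rw [hfv, h0, inner_zero_left] at h1
      rw [hfv, h0, inner_zero_left] at hf2
      linarith
    have hn : 0 < ‖v‖ := norm_pos_iff.2 hv0
    set u := (‖v‖)⁻¹ • v with hu
    have hu1 : ‖u‖ = 1 := by rw [hu, norm_smul, norm_inv, norm_norm, inv_mul_cancel₀ hn.ne']
    have hui : ∀ x, ⟪u, x⟫ = ‖v‖⁻¹ * f x := fun x => by rw [hu, real_inner_smul_left, hfv]
    obtain ⟨x, hx, y, hy, e⟩ := hw u hu1.le
    have h1 : ⟪u, x⟫ - ⟪u, y⟫ = 2 := by
      have h2 : x - y = (2 : ℝ) • u := by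
        rw [e, smul_smul]; norm_num
      rw [← inner_sub_right, h2, real_inner_smul_right, real_inner_self_eq_norm_sq, hu1]
      norm_num
    have h2 : ⟪u, x⟫ ≤ ‖v‖⁻¹ * s := by
      rw [hui]
      exact mul_le_mul_of_nonneg_left (hf1 x hx).le (by positivity)
    have h3 : ‖v‖⁻¹ * s < ⟪u, p⟫ := by
      rw [hui]
      exact mul_lt_mul_of_pos_left hf2 (by positivity)
    have h5 : ⟪u, c - y⟫ ≤ ‖u‖ * ‖c - y‖ := real_inner_le_norm _ _
    rw [inner_sub_right, hu1, one_mul] at h5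
    have h6 := hcen y hy
    rw [dist_comm, dist_eq_norm] at h6
    have h7 : ⟪u, p - c⟫ ≤ ‖u‖ * ‖p - c‖ := real_inner_le_norm _ _
    rw [inner_sub_right, hu1, one_mul] at h7
    rw [dist_eq_norm] at hp
    linarith
  refine ⟨c, fun y hy => ?_⟩
  have hj : 0 < 1 - l * J := by linarith
  have hj3 : 0 < l * J := by nlinarith
  have hα : 0 < l * J / (1 - l * J) := div_pos hj3 hj
  refine ⟨c + (l * J / (1 - l * J))⁻¹ • (c - y), hb _ ?_, ?_⟩
  · rw [dist_eq_norm, add_sub_cancel_left, norm_smul, Real.norm_eq_abs,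
      abs_of_pos (inv_pos.2 hα), ← dist_eq_norm, dist_comm, inv_mul_le_iff₀ hα]
    have e : l * J / (1 - l * J) * (2 - r) = 2 * l * J := by
      rw [hr]
      field_simp
    rw [e]
    exact hcen y hy
  · rw [add_sub_cancel_left, smul_smul, mul_inv_cancel₀ hα.ne', one_smul]

end Pool.Agent.U635.Diff
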