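import Pool.Agent.U635.DiffA
import Pool.Agent.U806.RevB
import Pool.Agent.N791.RU.Ball

/-!
# Packing densities of a body and of its difference body
-/

set_option autoImplicit false

open MeasureTheory Set Filter
open scoped Pointwise ENNReal
open Pool.Agent.H349R2.Tet Pool.Agent.TH219.DL

namespace Pool.Agent.U635.Diff

/-- the difference body `DK = (K - K) / 2` -/
def DB (K : Set V) : Set V := {p | ∃ x ∈ K, ∃ y ∈ K, p = (1 / 2 : ℝ) • (x - y)}

/-- `-(K - c) ⊆ α (K - c)` for some point `c` -/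
def AsymLe (K : Set V) (α : ℝ) : Prop := ∃ c : V, ∀ y ∈ K, ∃ z ∈ K, c - y = α • (z - c)

theorem DB_eq (K : Set V) : DB K = (1 / 2 : ℝ) • (K - K) := by
  ext p
  rw [Set.mem_smul_set]
  constructor
  · rintro ⟨x, hx, y, hy, rfl⟩
    exact ⟨x - y, Set.sub_mem_sub hx hy, rfl⟩
  · rintro ⟨_, ⟨x, hx, y, hy, rfl⟩, rfl⟩
    exact ⟨x, hx, y, hy, rfl⟩

theorem sub_cpt {K : Set V} (hK : IsCompact K) : IsCompact (K - K) := by
  rw [sub_eq_add_neg]
  exact hK.add hK.neg

theorem DB_compact {K : Set V} (hK : IsCompact K) : IsCompact (DB K) := by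
  rw [DB_eq]
  exact (sub_cpt hK).smul _

theorem DB_body {K : Set V} (hK : Body K) : Body (DB K) := by
  refine ⟨DB_compact hK.1, ?_, ?_⟩
  · rw [DB_eq]
    exact (hK.2.1.sub hK.2.1).smul _
  · obtain ⟨x, hx⟩ := hK.2.2
    rw [DB_eq, interior_smul₀ (by norm_num)]
    refine Set.Nonempty.smul_set ?_
    refine ⟨x - x, ?_⟩
    have h1 : IsOpen (interior K - K) := isOpen_interior.sub_right
    have h2 : interior K - K ⊆ K - K := Set.sub_subset_sub interior_subset subset_rfl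
    exact interior_maximal h2 h1 (Set.sub_mem_sub hx (interior_subset hx))

/-- the Euclidean copy -/
def eu (K : Set V) : Set (EuclideanSpace ℝ (Fin 3)) := (WithLp.ofLp) ⁻¹' K

theorem vol_eu {K : Set V} (hK : MeasurableSet K) : volume (eu K) = volume K :=
  (PiLp.volume_preserving_ofLp (Fin 3)).measure_preimage hK.nullMeasurableSet

theorem eu_compact {K : Set V} (hK : IsCompact K) : IsCompact (eu K) :=
  (PiLp.homeomorph 2 (fun _ : Fin 3 => ℝ)).isCompact_preimage.2 hK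

theorem eu_convex {K : Set V} (hK : Convex ℝ K) : Convex ℝ (eu K) :=
  hK.is_linear_preimage (WithLp.linearEquiv 2 ℝ V).isLinear

theorem eu_interior {K : Set V} (hK : (interior K).Nonempty) : (interior (eu K)).Nonempty := by
  obtain ⟨x, hx⟩ := hK
  refine ⟨WithLp.toLp 2 x, ?_⟩
  have h : IsOpen ((WithLp.ofLp : EuclideanSpace ℝ (Fin 3) → V) ⁻¹' interior K) :=
    isOpen_interior.preimage (PiLp.continuous_ofLp 2 _)
  exact interior_maximal (preimage_mono interior_subset) h hx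

theorem eu_sub (K : Set V) : eu (K - K) = eu K - eu K := by
  ext p
  constructor
  · rintro ⟨x, hx, y, hy, e⟩
    refine ⟨WithLp.toLp 2 x, hx, WithLp.toLp 2 y, hy, ?_⟩
    have : WithLp.ofLp (WithLp.toLp 2 x - WithLp.toLp 2 y) = WithLp.ofLp p := e
    exact WithLp.ofLp_injective 2 this
  · rintro ⟨x, hx, y, hy, rfl⟩
    exact ⟨_, hx, _, hy, rfl⟩

/-- `4/(1+3 min(3,α)) vol DK ≤ vol K` -/
theorem vol_DB {K : Set V} (hK : Body K) {α : ℝ} (hα : 1 ≤ α) (hA : AsymLe K α) :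
    ENNReal.ofReal (4 / (1 + 3 * min 3 α)) * volume (DB K) ≤ volume K := by
  obtain ⟨c, hc⟩ := hA
  have hcK : IsCompact (K - K) := sub_cpt hK.1
  have h1 := vol_sub_le (eu_compact hK.1) (eu_convex hK.2.1) (eu_interior hK.2.2) hα
    (x := WithLp.toLp 2 c) (by
      intro y hy
      obtain ⟨z, hz, e⟩ := hc _ hy
      refine ⟨WithLp.toLp 2 z, hz, ?_⟩
      apply WithLp.ofLp_injective 2
      exact e)
  rw [← eu_sub, vol_eu hcK.measurableSet, vol_eu hK.1.measurableSet] at h1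
  have hm : 1 ≤ min 3 α := le_min (by norm_num) hα
  have h2 : volume (DB K) = ENNReal.ofReal (1 / 8) * volume (K - K) := by
    rw [DB_eq, Measure.addHaar_smul]
    simp only [Module.finrank_fintype_fun_eq_card, Fintype.card_fin]
    congr 2
    norm_num [abs_of_pos]
  have h3 : volume (K - K) = ENNReal.ofReal (volume (K - K)).toReal :=
    (ENNReal.ofReal_toReal hcK.measure_lt_top.ne).symm
  have h4 : volume K = ENNReal.ofReal (volume K).toReal :=
    (ENNReal.ofReal_toReal hK.1.measure_lt_top.ne).symm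
  rw [h2, h3, h4, ← ENNReal.ofReal_mul (by norm_num), ← ENNReal.ofReal_mul (by positivity)]
  apply ENNReal.ofReal_le_ofReal
  rw [div_mul_eq_mul_div, div_le_iff₀ (by positivity)]
  linarith

theorem Ov_DB {K : Set V} {u : V} (h : Ov K u) : Ov (DB K) u := by
  obtain ⟨x, hx, hxu⟩ := h
  have key : ∀ a ∈ interior K, ∀ b ∈ interior K, (1 / 2 : ℝ) • (a - b) ∈ interior (DB K) := by
    intro a ha b hb
    rw [DB_eq, interior_smul₀ (by norm_num)]
    refine Set.smul_mem_smul_set ?_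
    have h1 : IsOpen (interior K - K) := isOpen_interior.sub_right
    have h2 : interior K - K ⊆ K - K := Set.sub_subset_sub interior_subset subset_rfl
    exact interior_maximal h2 h1 (Set.sub_mem_sub ha (interior_subset hb))
  refine ⟨(1 / 2 : ℝ) • (x - (x - u)), key _ hx _ hxu, ?_⟩
  have e : (1 / 2 : ℝ) • (x - (x - u)) - u = (1 / 2 : ℝ) • ((x - u) - x) := by
    module
  rw [e]
  exact key _ hxu _ hx

theorem packs_DB {K : Set V} {b : Fin 3 → V} (h : Packs (DB K) b) : Packs K b := by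
  rw [packs_iff] at h ⊢
  exact ⟨h.1, fun u hu hu0 hov => h.2 u hu hu0 (Ov_DB hov)⟩

/-- if `t vol B ≤ vol K` and all lattice packings of `B` are packings of `K`, then `t δ_L(B) ≤ δ_L(K)` -/
theorem dL_of {K B : Set V} (hK : IsCompact K) (hB : IsCompact B) {t : ℝ}
    (hv : ENNReal.ofReal t * volume B ≤ volume K) (hp : ∀ b, Packs B b → Packs K b) :
    ENNReal.ofReal t * dL B ≤ dL K := by
  rw [dL_eq, dL_eq]
  unfold deltaL
  rw [ENNReal.mul_iSup]
  refine iSup_le fun b => ?_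
  rw [ENNReal.mul_iSup]
  refine iSup_le fun hb => ?_
  refine le_trans ?_ (le_iSup₂ (f := fun b (_ : Packs K b) => dens K b) b (hp b hb))
  rw [dens_eq b hb.1 _ hB, dens_eq b hb.1 _ hK, ← mul_div_assoc]
  exact ENNReal.div_le_div_right hv _

theorem dL_DB {K : Set V} (hK : Body K) {α : ℝ} (hα : 1 ≤ α) (hA : AsymLe K α) :
    ENNReal.ofReal (4 / (1 + 3 * min 3 α)) * dL (DB K) ≤ dL K :=
  dL_of hK.1 (DB_compact hK.1) (vol_DB hK hα hA) fun _ h => packs_DB h

/-- every convex body has asymmetry at most `3` -/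
theorem asym_three {K : Set V} (hK : Body K) : AsymLe K 3 := by
  obtain ⟨x, -, hx⟩ := Pool.Agent.TH870.FR.exists_point (n := 3) (by norm_num) (eu_compact hK.1)
    (eu_convex hK.2.1) ((eu_interior hK.2.2).mono interior_subset)
  refine ⟨WithLp.ofLp x, fun y hy => ?_⟩
  obtain ⟨z, hz, e⟩ := hx (WithLp.toLp 2 y) hy
  refine ⟨WithLp.ofLp z, hz, ?_⟩
  have := congrArg WithLp.ofLp e
  simpa using this

theorem mem_eu {K : Set V} {x : V} : WithLp.toLp 2 x ∈ eu K ↔ x ∈ K := Iff.rfl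

theorem norm_toLp_sq (x : V) : ‖(WithLp.toLp 2 x : EuclideanSpace ℝ (Fin 3))‖ ^ 2 =
    x 0 ^ 2 + x 1 ^ 2 + x 2 ^ 2 := by
  rw [EuclideanSpace.norm_sq_eq]
  simp [Fin.sum_univ_three, sq_abs]

theorem mem_Bl {r : ℝ} (hr : 0 ≤ r) (x : V) :
    x ∈ Bl r ↔ ‖(WithLp.toLp 2 x : EuclideanSpace ℝ (Fin 3))‖ ≤ r := by
  rw [← sq_le_sq₀ (norm_nonneg _) hr, norm_toLp_sq]
  rfl

/-- asymmetry of a body whose difference body lies between `E` and `l E`, `E` an ellipsoid -/
theorem asym_ell {K : Set V} (hK : Body K) (L : V ≃ₗ[ℝ] V) {l : ℝ} (hl : 1 ≤ l)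
    (hl1 : l * J < 1) (h1 : L '' Bl 1 ⊆ DB K) (h2 : DB K ⊆ L '' Bl l) :
    AsymLe K (l * J / (1 - l * J)) := by
  set K1 : Set V := L.symm '' K with hK1
  have hcL : Continuous (L.symm : V → V) := LinearMap.continuous_of_finiteDimensional (L.symm : V →ₗ[ℝ] V)
  have hc1 : IsCompact K1 := hK.1.image hcL
  have hv1 : Convex ℝ K1 := hK.2.1.is_linear_image L.symm.isLinear
  have hne1 : K1.Nonempty := (hK.2.2.mono interior_subset).image _
  obtain ⟨c, hc⟩ := asym_near (C := eu K1) (eu_compact hc1) (eu_convex hv1)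
    (by obtain ⟨x, hx⟩ := hne1; exact ⟨WithLp.toLp 2 x, hx⟩) hl hl1 (by
      intro p hp
      have h3 : L (WithLp.ofLp p) ∈ DB K :=
        h1 ⟨WithLp.ofLp p, (mem_Bl zero_le_one _).2 (by simpa using hp), rfl⟩
      obtain ⟨x, hx, y, hy, e⟩ := h3
      refine ⟨WithLp.toLp 2 (L.symm x), ⟨x, hx, rfl⟩, WithLp.toLp 2 (L.symm y), ⟨y, hy, rfl⟩, ?_⟩
      apply WithLp.ofLp_injective 2
      show WithLp.ofLp p = (1 / 2 : ℝ) • (L.symm x - L.symm y)
      rw [← map_sub, ← map_smul, ← e, LinearEquiv.symm_apply_apply]) (by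
      intro x hx y hy
      obtain ⟨x', hx', ex⟩ := hx
      obtain ⟨y', hy', ey⟩ := hy
      have h3 : (1 / 2 : ℝ) • (x' - y') ∈ L '' Bl l := h2 ⟨x', hx', y', hy', rfl⟩
      obtain ⟨q, hq, eq⟩ := h3
      rw [mem_Bl (by linarith)] at hq
      have h4 : q = (1 / 2 : ℝ) • (WithLp.ofLp x - WithLp.ofLp y) := by
        apply L.injective
        rw [eq, map_smul, map_sub, ← ex, ← ey, LinearEquiv.apply_symm_apply, LinearEquiv.apply_symm_apply]
      have h5 : (WithLp.toLp 2 q : EuclideanSpace ℝ (Fin 3)) = (1 / 2 : ℝ) • (x - y) := by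
        rw [h4]; rfl
      rw [h5, norm_smul, Real.norm_eq_abs, abs_of_pos (by norm_num : (0:ℝ) < 1 / 2)] at hq
      rw [dist_eq_norm]
      linarith)
  refine ⟨L (WithLp.ofLp c), fun y hy => ?_⟩
  obtain ⟨z, ⟨z', hz', ez⟩, e⟩ := hc (WithLp.toLp 2 (L.symm y)) ⟨y, hy, rfl⟩
  refine ⟨z', hz', ?_⟩
  have h3 : WithLp.ofLp c - L.symm y = (l * J / (1 - l * J)) • (WithLp.ofLp z - WithLp.ofLp c) :=
    congrArg WithLp.ofLp e
  have h4 := congrArg L h3
  rw [map_sub, LinearEquiv.apply_symm_apply, map_smul, map_sub, ← ez, LinearEquiv.apply_symm_apply] at h4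
  exact h4

/-- the density of the difference body -/
theorem dL_ell {K : Set V} (hK : Body K) (L : V ≃ₗ[ℝ] V) {l : ℝ} (hl : 1 ≤ l)
    (h1 : L '' Bl 1 ⊆ DB K) (h2 : DB K ⊆ L '' Bl l) :
    ENNReal.ofReal (0.7404 / l ^ 3) ≤ dL (DB K) := by
  have hl0 : 0 < l := by linarith
  -- the ellipsoid `l E` as an image of the unit ball
  have hB : (L '' Bl l : Set V) = l • (L '' Bl 1) := by
    ext p
    rw [Set.mem_smul_set]
    constructor
    · rintro ⟨x, hx, rfl⟩
      refine ⟨L (l⁻¹ • x), ⟨l⁻¹ • x, ?_, rfl⟩, ?_⟩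
      · rw [mem_Bl zero_le_one, WithLp.toLp_smul, norm_smul, Real.norm_eq_abs, abs_of_pos (by positivity)]
        rw [mem_Bl hl0.le] at hx
        rw [inv_mul_le_iff₀ hl0]
        linarith
      · rw [map_smul, smul_smul, mul_inv_cancel₀ hl0.ne', one_smul]
    · rintro ⟨_, ⟨x, hx, rfl⟩, rfl⟩
      refine ⟨l • x, ?_, by rw [map_smul]⟩
      rw [mem_Bl hl0.le, WithLp.toLp_smul, norm_smul, Real.norm_eq_abs, abs_of_pos hl0]
      rw [mem_Bl zero_le_one] at hx
      nlinarith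
  have hE : IsCompact (L '' Bl l : Set V) := by
    rw [hB]
    exact (Pool.Agent.N791.RU.bl_cpt.image
      (LinearMap.continuous_of_finiteDimensional (L : V →ₗ[ℝ] V))).smul _
  set M : V ≃ₗ[ℝ] V := L.trans (LinearEquiv.smulOfUnit (Units.mk0 l hl0.ne')) with hM
  have hMi : (L '' Bl l : Set V) = (fun x => M x + 0) '' Bl 1 := by
    rw [hB, Set.image_smul.symm, Set.image_image]
    refine Set.image_congr fun x _ => ?_
    rw [add_zero]
    rfl
  have h3 : ENNReal.ofReal 0.7404 ≤ dL (L '' Bl l) := by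
    rw [hMi, dL_eq, deltaL_image Pool.Agent.N791.RU.bl_cpt M 0, ← dL_eq]
    exact Pool.Agent.N791.RU.dL_ball
  have h4 : ENNReal.ofReal (1 / l ^ 3) * volume (L '' Bl l : Set V) ≤ volume (DB K) := by
    refine le_trans (le_of_eq ?_) (measure_mono h1)
    rw [hB, Measure.addHaar_smul, ← mul_assoc, ← ENNReal.ofReal_mul (by positivity)]
    simp only [Module.finrank_fintype_fun_eq_card, Fintype.card_fin]
    rw [abs_of_pos (by positivity)]
    have : 1 / l ^ 3 * l ^ 3 = 1 := by field_simp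
    rw [this, ENNReal.ofReal_one, one_mul]
  have h5 := dL_of (DB_compact hK.1) hE h4 (fun b hb => by
    rw [packs_iff] at hb ⊢
    refine ⟨hb.1, fun u hu hu0 hov => hb.2 u hu hu0 ?_⟩
    obtain ⟨x, hx, hxu⟩ := hov
    exact ⟨x, interior_mono h2 hx, interior_mono h2 hxu⟩)
  refine le_trans ?_ h5
  calc ENNReal.ofReal (0.7404 / l ^ 3) = ENNReal.ofReal (1 / l ^ 3) * ENNReal.ofReal 0.7404 := by
        rw [← ENNReal.ofReal_mul (by positivity)]
        congr 1
        ring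
    _ ≤ _ := by gcongr

end Pool.Agent.U635.Diff
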