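import Pool.Agent.U635.DiffB
import Pool.Agent.TH219.DL.TUp

/-!
# Packings by translates of a body and of its difference body
-/

set_option autoImplicit false

open MeasureTheory Set Filter Topology
open scoped Pointwise ENNReal
open Pool.Agent.H349R2.Tet Pool.Agent.TH219.DL

namespace Pool.Agent.U635.Diff

theorem mem_tr {K : Set V} {p : Bool × V} (hp : p.1 = false) : mem K p = tr K p.2 := by
  have : p = (false, p.2) := Prod.ext hp rfl
  rw [this, mem_false]

theorem vol_tr (K : Set V) (c : V) : volume (tr K c) = volume K := by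
  unfold tr
  rw [Set.image_add_right, measure_preimage_add_right]

theorem pack_DB {K : Set V} {S : Set (Bool × V)} (hS : ∀ p ∈ S, p.1 = false)
    (h : IsPack (DB K) S) : IsPack K S := by
  intro p hp q hq hpq
  have h1 := h p hp q hq hpq
  rw [interior_mem, interior_mem] at h1 ⊢
  rw [Set.disjoint_left] at h1 ⊢
  rintro X ⟨x, hx, hxX⟩ ⟨y, hy, hyX⟩
  simp only [hS p hp] at hxX
  simp only [hS q hq] at hyX
  have hxX' : x + p.2 = X := by simpa using hxX
  have hyX' : y + q.2 = X := by simpa using hyX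
  have hov : Ov K (q.2 - p.2) := by
    refine ⟨x, hx, ?_⟩
    have : x - (q.2 - p.2) = y := by
      have e1 : x = X - p.2 := by rw [← hxX']; abel
      have e2 : y = X - q.2 := by rw [← hyX']; abel
      rw [e1, e2]; abel
    rw [this]; exact hy
  obtain ⟨z, hz, hz'⟩ := Ov_DB hov
  refine h1 (a := z + p.2) ⟨z, hz, ?_⟩ ⟨z - (q.2 - p.2), hz', ?_⟩
  · simp [hS p hp]
  · simp only [hS q hq]
    simp only [Bool.false_eq_true, if_false]
    abel

theorem bdd_diff {K B : Set V} (hK : IsCompact K) (hB : IsCompact B) :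
    ∃ R : ℝ, 0 < R ∧ ∀ h ∈ K, ∀ y ∈ B, h - y ∈ Bl R := by
  obtain ⟨R0, hR0⟩ := hK.isBounded.subset_closedBall (0 : V)
  obtain ⟨R1, hR1⟩ := hB.isBounded.subset_closedBall (0 : V)
  have h0 : K ⊆ Bl (2 * max R0 1) :=
    (hR0.trans (Metric.closedBall_subset_closedBall (le_max_left R0 1))).trans
      (ball_subset_bl _ (by positivity))
  have h1 : B ⊆ Bl (2 * max R1 1) :=
    (hR1.trans (Metric.closedBall_subset_closedBall (le_max_left R1 1))).trans
      (ball_subset_bl _ (by positivity))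
  refine ⟨2 * max R0 1 + 2 * max R1 1, by positivity, fun h hh y hy => ?_⟩
  rw [sub_eq_add_neg]
  exact bl_add (by positivity) (by positivity) (h0 hh) (bl_neg (h1 hy))

theorem dT_of {K B : Set V} (hK : IsCompact K) (hB : IsCompact B) {t : ℝ}
    (hv : ENNReal.ofReal t * volume B ≤ volume K)
    (hp : ∀ S : Set (Bool × V), (∀ p ∈ S, p.1 = false) → IsPack B S → IsPack K S) :
    ENNReal.ofReal t * dT B ≤ dT K := by
  unfold dT
  rw [ENNReal.mul_iSup]
  refine iSup_le fun S => ?_
  rw [ENNReal.mul_iSup]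
  refine iSup_le fun hS => ?_
  refine le_trans ?_ (le_iSup₂ (f := fun S (_ : (∀ p ∈ S, p.1 = false) ∧ IsPack K S) => den K S) S
    ⟨hS.1, hp S hS.1 hS.2⟩)
  obtain ⟨R, hR, hRb⟩ := bdd_diff hK hB
  have hterm : ∀ r : ℝ, 0 < r → ∀ p : S, ENNReal.ofReal t * volume (mem B p.1 ∩ Bl r)
      ≤ volume (mem K p.1 ∩ Bl (r + R)) := by
    intro r hr p
    rw [mem_tr (hS.1 p.1 p.2), mem_tr (hS.1 p.1 p.2)]
    rcases Set.eq_empty_or_nonempty (tr B p.1.2 ∩ Bl r) with he | ⟨X, ⟨y, hy, hyX⟩, hXr⟩
    · rw [he, measure_empty, mul_zero]; exact bot_le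
    · have hyX' : y + p.1.2 = X := hyX
      have hsub : tr K p.1.2 ⊆ Bl (r + R) := by
        rintro _ ⟨h, hh, rfl⟩
        have h1 := bl_add hr.le hR.le hXr (hRb h hh y hy)
        have e : X + (h - y) = h + p.1.2 := by rw [← hyX']; abel
        rwa [e] at h1
      rw [Set.inter_eq_left.2 hsub, vol_tr]
      refine le_trans ?_ hv
      have h2 : volume (tr B p.1.2 ∩ Bl r) ≤ volume B :=
        (measure_mono Set.inter_subset_left).trans (vol_tr B p.1.2).le
      gcongr
  have hsum : ∀ r : ℝ, 0 < r → ENNReal.ofReal t * ∑' p : S, volume (mem B p.1 ∩ Bl r)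
      ≤ ∑' p : S, volume (mem K p.1 ∩ Bl (r + R)) := by
    intro r hr
    rw [← ENNReal.tsum_mul_left]
    exact ENNReal.tsum_le_tsum (hterm r hr)
  set g : ℝ → ℝ≥0∞ := fun r => (∑' p : S, volume (mem K p.1 ∩ Bl r)) / volume (Bl r) with hg
  set c : ℝ → ℝ≥0∞ := fun r => ENNReal.ofReal (((r + R) / r) ^ 3) with hc
  have hup : Tendsto c atTop (𝓝 1) := by
    have h1 : Tendsto (fun r : ℝ => ((r + R) / r) ^ 3) atTop (𝓝 1) := by
      have h2 : Tendsto (fun r : ℝ => (1 + R * r⁻¹) ^ 3) atTop (𝓝 ((1 + R * 0) ^ 3)) :=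
        ((tendsto_const_nhds.add (tendsto_const_nhds.mul tendsto_inv_atTop_zero)).pow 3)
      simp only [mul_zero, add_zero, one_pow] at h2
      refine h2.congr' ?_
      filter_upwards [eventually_gt_atTop 0] with r hr
      congr 1
      field_simp
    have h3 := ENNReal.tendsto_ofReal h1
    rwa [ENNReal.ofReal_one] at h3
  have hle : ∀ r : ℝ, 0 < r → ENNReal.ofReal t * ((∑' p : S, volume (mem B p.1 ∩ Bl r)) / volume (Bl r))
      ≤ (fun r => g (r + R)) r * c r := by
    intro r hr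
    have hb1 := vol_bl hr
    have hb2 := vol_bl (show 0 < r + R by linarith)
    have hp0 := vol_bl_one_pos.ne'
    have hpt := vol_bl_one_lt_top.ne
    have hr0 : ENNReal.ofReal (r ^ 3) ≠ 0 := by
      rw [ne_eq, ENNReal.ofReal_eq_zero, not_le]; positivity
    have hrR0 : ENNReal.ofReal ((r + R) ^ 3) ≠ 0 := by
      rw [ne_eq, ENNReal.ofReal_eq_zero, not_le]; positivity
    have hv1 : volume (Bl r) ≠ 0 := by rw [hb1]; exact mul_ne_zero hr0 hp0
    have hv1t : volume (Bl r) ≠ ∞ := by rw [hb1]; exact ENNReal.mul_ne_top ENNReal.ofReal_ne_top hpt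
    have hv2 : volume (Bl (r + R)) ≠ 0 := by rw [hb2]; exact mul_ne_zero hrR0 hp0
    have hv2t : volume (Bl (r + R)) ≠ ∞ := by rw [hb2]; exact ENNReal.mul_ne_top ENNReal.ofReal_ne_top hpt
    have hcv : volume (Bl (r + R)) = c r * volume (Bl r) := by
      rw [hb1, hb2, hc, ← mul_assoc, ← ENNReal.ofReal_mul (by positivity)]
      congr 2
      field_simp
    show _ ≤ (∑' p : S, volume (mem K p.1 ∩ Bl (r + R))) / volume (Bl (r + R)) * c r
    rw [← mul_div_assoc]
    rw [ENNReal.div_le_iff_le_mul (Or.inl hv1) (Or.inl hv1t), mul_assoc, ← hcv,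
      ENNReal.div_mul_cancel hv2 hv2t]
    exact hsum r hr
  unfold den
  rw [← ENNReal.limsup_const_mul_of_ne_top ENNReal.ofReal_ne_top]
  calc limsup (fun r : ℝ => ENNReal.ofReal t * ((∑' p : S, volume (mem B p.1 ∩ Bl r)) / volume (Bl r))) atTop
      ≤ limsup ((fun r => g (r + R)) * c) atTop := by
        refine limsup_le_limsup ?_
        filter_upwards [eventually_gt_atTop 0] with r hr
        exact hle r hr
    _ ≤ limsup (fun r => g (r + R)) atTop * limsup c atTop := by
        apply ENNReal.limsup_mul_le'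
        · right; rw [hup.limsup_eq]; exact ENNReal.one_ne_top
        · right; rw [hup.limsup_eq]; exact one_ne_zero
    _ = limsup (fun r => g (r + R)) atTop := by rw [hup.limsup_eq, mul_one]
    _ ≤ limsup g atTop := by
        have h1 : Tendsto (fun r : ℝ => r + R) atTop atTop := tendsto_atTop_add_const_right _ _ tendsto_id
        have h2 : limsup (fun r => g (r + R)) atTop = limsup g (map (fun r : ℝ => r + R) atTop) := rfl
        rw [h2]
        exact limsup_le_limsup_of_le h1

theorem dT_DB {K : Set V} (hK : Body K) {α : ℝ} (hα : 1 ≤ α) (hA : AsymLe K α) :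
    ENNReal.ofReal (4 / (1 + 3 * min 3 α)) * dT (DB K) ≤ dT K :=
  dT_of hK.1 (DB_compact hK.1) (vol_DB hK hα hA)
    fun _ h1 h2 => pack_DB h1 h2

/-- the constant for bodies whose difference body lies between an ellipsoid `E` and `l E` -/
noncomputable def cE (l : ℝ) : ℝ := 0.7404 * (4 * (1 - l * √(3 / 8)) / (1 + 2 * l * √(3 / 8))) / l ^ 3

theorem cE_one : 0.516 < cE 1 := by
  have h1 := J_lt
  have h2 := lt_J
  unfold J at h1 h2
  unfold cE
  rw [one_mul, mul_one, one_pow, div_one, ← mul_div_assoc, lt_div_iff₀ (by linarith)]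
  linarith

theorem cE_far : 2 / 5 < cE 1.049 := by
  have h1 := J_lt
  have h2 := lt_J
  unfold J at h1 h2
  unfold cE
  generalize √(3 / 8) = s at h1 h2 ⊢
  rw [lt_div_iff₀ (by norm_num), ← mul_div_assoc, lt_div_iff₀ (by linarith)]
  norm_num
  linarith

theorem ell_low {K K₁ : Set V} (hK : Body K) (hK₁ : Body K₁) (hsub : K ⊆ K₁) {m : ℝ} (hm : 0 < m)
    (hv : volume K₁ ≤ ENNReal.ofReal m * volume K) (L : V ≃ₗ[ℝ] V) {l : ℝ} (hl : 1 ≤ l)
    (hl1 : l * √(3 / 8) < 1) (h1 : L '' Bl 1 ⊆ DB K₁) (h2 : DB K₁ ⊆ L '' Bl l) :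
    ENNReal.ofReal (cE l / m) ≤ dL K := by
  change l * J < 1 at hl1
  have hJ1 := J_lt
  have hJ2 := lt_J
  have hlJ : 1 / 2 ≤ l * J := by nlinarith
  have hj : 0 < 1 - l * J := by linarith
  have hA := asym_ell hK₁ L hl hl1 h1 h2
  have hα : 1 ≤ l * J / (1 - l * J) := by
    rw [le_div_iff₀ hj]
    linarith
  have h3 := dL_DB hK₁ hα hA
  have h4 := dL_ell hK₁ L hl h1 h2
  have h5 : 4 * (1 - l * J) / (1 + 2 * (l * J)) ≤ 4 / (1 + 3 * min 3 (l * J / (1 - l * J))) := by
    have h6 : 0 < min 3 (l * J / (1 - l * J)) := lt_min (by norm_num) (by linarith)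
    have h7 : min 3 (l * J / (1 - l * J)) * (1 - l * J) ≤ l * J := by
      calc min 3 (l * J / (1 - l * J)) * (1 - l * J) ≤ (l * J / (1 - l * J)) * (1 - l * J) :=
            mul_le_mul_of_nonneg_right (min_le_right _ _) hj.le
        _ = l * J := by field_simp
    rw [div_le_div_iff₀ (by linarith) (by linarith)]
    nlinarith
  have h8 : ENNReal.ofReal (cE l) ≤ dL K₁ := by
    refine le_trans ?_ h3
    calc ENNReal.ofReal (cE l) = ENNReal.ofReal (4 * (1 - l * J) / (1 + 2 * (l * J))) *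
          ENNReal.ofReal (0.7404 / l ^ 3) := by
          rw [← ENNReal.ofReal_mul (div_nonneg (by linarith) (by linarith))]
          congr 1
          unfold cE
          rw [show √(3 / 8) = J from rfl]
          ring
      _ ≤ _ := by gcongr
  have h9 := dL_of (K := K) (B := K₁) hK.1 hK₁.1 (t := 1 / m) (by
    calc ENNReal.ofReal (1 / m) * volume K₁ ≤ ENNReal.ofReal (1 / m) * (ENNReal.ofReal m * volume K) := by
          gcongr
      _ = volume K := by
          rw [← mul_assoc, ← ENNReal.ofReal_mul (by positivity)]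
          have : 1 / m * m = 1 := by field_simp
          rw [this, ENNReal.ofReal_one, one_mul]) (fun b hb => by
    rw [packs_iff] at hb ⊢
    refine ⟨hb.1, fun u hu hu0 hov => hb.2 u hu hu0 ?_⟩
    obtain ⟨x, hx, hxu⟩ := hov
    exact ⟨x, interior_mono hsub hx, interior_mono hsub hxu⟩)
  refine le_trans ?_ h9
  calc ENNReal.ofReal (cE l / m) = ENNReal.ofReal (1 / m) * ENNReal.ofReal (cE l) := by
        rw [← ENNReal.ofReal_mul (by positivity)]
        congr 1
        ring
    _ ≤ _ := by gcongr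

end Pool.Agent.U635.Diff
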