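import Pool.Agent.U635.Lab

/-!
# Equivariance under graph isomorphisms
-/

set_option autoImplicit false
set_option linter.unusedSectionVars false

namespace Pool.Agent.U635

open Pool.Agent.TH968.UST Pool.Agent.TH830.UST MeasureTheory Filter
open scoped ENNReal Topology

variable {V W : Type*} {G : SimpleGraph V} {H : SimpleGraph W} (φ : V ≃ W)

section Walk

variable (hG : ∀ x y, H.Adj (φ x) (φ y) ↔ G.Adj x y)

open Classical in
include hG in
theorem avg_iso (f : W → ℝ≥0∞) (v : V) : avg H f (φ v) = avg G (fun w => f (φ w)) v := by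
  unfold avg
  rw [← Equiv.tsum_eq φ, ← Equiv.tsum_eq φ (fun w => if H.Adj (φ v) w then (1 : ℝ≥0∞) else 0)]
  congr 1
  · exact tsum_congr fun w => if_congr (hG v w) rfl rfl
  · exact tsum_congr fun w => if_congr (hG v w) rfl rfl

open Classical in
include hG in
theorem pk_iso : ∀ (k : ℕ) (x c : V), pk H k (φ x) (φ c) = pk G k x c := by
  intro k
  induction k with
  | zero =>
    intro x c
    unfold pk
    exact if_congr φ.injective.eq_iff rfl rfl
  | succ k ih =>
    intro x c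
    change avg H (fun y => pk H k y (φ c)) (φ x) = avg G (fun y => pk G k y c) x
    rw [avg_iso φ hG]
    simp only [ih]

include hG in
theorem PN_iso (N : ℕ) (x c : V) : PN H N (φ x) (φ c) = PN G N x c := by
  unfold PN
  exact Finset.sum_congr rfl fun k _ => pk_iso φ hG k x c

include hG in
theorem wt_iso (N : ℕ) (x c : V) : wt H N (φ x) (φ c) = wt G N x c := by
  unfold wt
  rw [PN_iso φ hG]

theorem win_iso {w : V → ℝ} {w' : W → ℝ} (hw : ∀ v, w' (φ v) = w v) {a : V → unitInterval}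
    {a' : W → unitInterval} (ha : ∀ v, a' (φ v) = a v) (c : V) :
    IsWin w' a' (φ c) ↔ IsWin w a c := by
  unfold IsWin
  rw [hw]
  refine and_congr_right fun _ => ?_
  constructor
  · intro h j hj hwj
    have := h (φ j) (fun h' => hj (φ.injective h')) (by rwa [hw])
    rwa [ha, ha, hw] at this
  · intro h j hj hwj
    obtain ⟨j, rfl⟩ := φ.surjective j
    rw [hw] at hwj
    have := h j (fun h' => hj (by rw [h'])) hwj
    rwa [ha, ha, hw]

include hG in
theorem com_iso (N : ℕ) {a : V → unitInterval}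
    {a' : W → unitInterval} (ha : ∀ v, a' (φ v) = a v) (x y : V) :
    Com H N a' (φ x) (φ y) ↔ Com G N a x y := by
  unfold Com
  rw [← φ.exists_congr_right]
  refine exists_congr fun c => ?_
  rw [win_iso φ (fun v => wt_iso φ hG N x v) ha, win_iso φ (fun v => wt_iso φ hG N y v) ha]

include hG in
theorem rel_iso (N : ℕ → ℕ) {a : V → ℕ → unitInterval}
    {a' : W → ℕ → unitInterval} (ha : ∀ v, a' (φ v) = a v) (n : ℕ) (x y : V) :
    Rel H N a' n (φ x) (φ y) ↔ Rel G N a n x y := by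
  unfold Rel
  refine or_congr φ.injective.eq_iff (and_congr_right fun _ => forall_congr' fun m =>
    imp_congr_right fun _ => ?_)
  exact com_iso φ hG (N m) (fun v => by rw [ha v]) x y

end Walk

section Tree

variable (hG : ∀ x y, H.Adj (φ x) (φ y) ↔ G.Adj x y)

theorem rk_iso {Q : V → V → Prop} {Q' : W → W → Prop} (hQ : ∀ x y, Q' (φ x) (φ y) ↔ Q x y)
    {o : V → unitInterval} {o' : W → unitInterval} (ho : ∀ v, o' (φ v) = o v) (x : V) :
    rk Q' o' (φ x) = rk Q o x := by
  unfold rk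
  have : {w | Q' (φ x) w ∧ o' w < o' (φ x)} = φ '' {w | Q x w ∧ o w < o x} := by
    ext w
    obtain ⟨w, rfl⟩ := φ.surjective w
    rw [Set.mem_image_equiv, Equiv.symm_apply_apply]
    simp only [Set.mem_ofPred_eq]
    rw [hQ, ho, ho]
  rw [this, Set.ncard_image_of_injective _ φ.injective]

include hG in
theorem Ed_iso {Q : V → V → Prop} {Q' : W → W → Prop} (hQ : ∀ x y, Q' (φ x) (φ y) ↔ Q x y)
    (e : Sym2 V) : Sym2.map φ e ∈ Ed H Q' ↔ e ∈ Ed G Q := by
  constructor
  · rintro ⟨a, b, h1, h2, h3⟩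
    obtain ⟨a, rfl⟩ := φ.surjective a
    obtain ⟨b, rfl⟩ := φ.surjective b
    refine ⟨a, b, (hG a b).1 h1, (hQ a b).1 h2, ?_⟩
    rw [← Sym2.map_mk] at h3
    exact Sym2.map.injective φ.injective h3
  · rintro ⟨a, b, h1, h2, rfl⟩
    exact ⟨φ a, φ b, (hG a b).2 h1, (hQ a b).2 h2, by rw [Sym2.map_mk]⟩

theorem code_iso {Q : V → V → Prop} {Q' : W → W → Prop} (hQ : ∀ x y, Q' (φ x) (φ y) ↔ Q x y)
    {o : V → unitInterval} {o' : W → unitInterval} (ho : ∀ v, o' (φ v) = o v)
    {S : Set (Sym2 V)} {S' : Set (Sym2 W)} (hS : ∀ e, Sym2.map φ e ∈ S' ↔ e ∈ S) (x : V) :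
    code Q' o' (φ x) S' = code Q o x S := by
  ext f
  constructor
  · rintro ⟨c, d, h1, h2, h3, h4⟩
    obtain ⟨c, rfl⟩ := φ.surjective c
    obtain ⟨d, rfl⟩ := φ.surjective d
    rw [rk_iso φ hQ ho, rk_iso φ hQ ho] at h4
    rw [← Sym2.map_mk, hS] at h3
    exact ⟨c, d, (hQ x c).1 h1, (hQ x d).1 h2, h3, h4⟩
  · rintro ⟨c, d, h1, h2, h3, h4⟩
    refine ⟨φ c, φ d, (hQ x c).2 h1, (hQ x d).2 h2, ?_, ?_⟩
    · rw [← Sym2.map_mk, hS]; exact h3
    · rw [rk_iso φ hQ ho, rk_iso φ hQ ho]; exact h4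

include hG in
theorem T_iso {R : ℕ → V → V → Prop} {R' : ℕ → W → W → Prop}
    (hR : ∀ n x y, R' n (φ x) (φ y) ↔ R n x y)
    {o : V → unitInterval} {o' : W → unitInterval} (ho : ∀ v, o' (φ v) = o v)
    {r : V → ℕ → unitInterval} {r' : W → ℕ → unitInterval} (hr : ∀ v, r' (φ v) = r v) :
    ∀ (n : ℕ) (e : Sym2 V), Sym2.map φ e ∈ T H R' o' r' n ↔ e ∈ T G R o r n := by
  intro n
  induction n with
  | zero =>
    intro e
    exact ⟨fun h => absurd h (Set.notMem_empty _), fun h => absurd h (Set.notMem_empty _)⟩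
  | succ n ih =>
    intro e
    have hc1 := fun x => code_iso φ (hR (n + 1)) ho (fun e => Ed_iso φ hG (hR n) e) x
    have hc2 := fun x => code_iso φ (hR (n + 1)) ho (fun e => Ed_iso φ hG (hR (n + 1)) e) x
    have hc3 := fun x => code_iso φ (hR (n + 1)) ho ih x
    rw [mem_T_succ, mem_T_succ, ← φ.exists_congr_right]
    refine exists_congr fun a => ?_
    rw [← φ.exists_congr_right]
    refine exists_congr fun b => ?_
    rw [hG, hR, ← Sym2.map_mk, (Sym2.map.injective φ.injective).eq_iff,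
      ← φ.exists_congr_right]
    refine and_congr_right fun _ => and_congr_right fun _ => and_congr_right fun _ =>
      exists_congr fun v => ?_
    rw [hR, rk_iso φ (hR (n + 1)) ho, rk_iso φ (hR (n + 1)) ho, rk_iso φ (hR (n + 1)) ho, hr,
      hc1, hc2, hc3]

end Tree

include φ in
theorem Psi_iso (hG : ∀ x y, H.Adj (φ x) (φ y) ↔ G.Adj x y) (N : ℕ → ℕ)
    {a r : V → ℕ → unitInterval} {a' r' : W → ℕ → unitInterval} (ha : ∀ v, a' (φ v) = a v)
    (hr : ∀ v, r' (φ v) = r v) : Psi H N a' r' = Sym2.map φ '' Psi G N a r := by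
  have key : ∀ e : Sym2 V, Sym2.map φ e ∈ Psi H N a' r' ↔ e ∈ Psi G N a r := by
    intro e
    refine and_congr ?_ (exists_congr fun n0 => forall_congr' fun n => imp_congr_right fun _ => ?_)
    · induction e using Sym2.ind with
      | _ x y => rw [Sym2.map_mk]; exact hG x y
    · exact T_iso φ hG (fun n x y => rel_iso φ hG N ha n x y) (fun v => by rw [ha v]) hr n e
  ext f
  constructor
  · intro hf
    refine ⟨Sym2.map φ.symm f, ?_, ?_⟩
    · rw [← key, Sym2.map_map]
      simpa using hf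
    · rw [Sym2.map_map]
      simp
  · rintro ⟨e, he, rfl⟩
    exact (key e).2 he

end Pool.Agent.U635
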