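import Pool.Agent.TH830.J73
import Pool.Agent.TH830.J74

/-!
# Uniform spanning trees of finite graphs: monotone coupling, products, relabelling
-/

set_option autoImplicit false
set_option linter.unusedSectionVars false

namespace Pool.Agent.U635

open Finset Pool.Agent.TH968.UST Pool.Agent.TH830.UST

section Coupling

variable {V : Type*} [DecidableEq V]

theorem dom' (r r' : Setoid V) (hr : r' ≤ r) (E E' : Finset (Sym2 V)) (hE : E' ⊆ E)
    (g : Finset (Sym2 V) → ℝ) (hg : ∀ S T, S ⊆ T → g S ≤ g T) :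
    (∑ T ∈ trees r E, g (T ∩ E')) * ((trees r' E').card : ℝ) ≤
      (∑ T ∈ trees r' E', g T) * ((trees r E).card : ℝ) :=
  Pool.Agent.TH830.J74.dom Pool.Agent.TH830.J73.RM r r' hr E E' hE g hg

theorem trees_card_pos (r : Setoid V) (E : Finset (Sym2 V)) : 0 < (trees r E).card :=
  Finset.card_pos.2 (trees_nonempty r E)

open Classical in
/-- Hall's condition -/
theorem hall_count (E1 E2 : Finset (Sym2 V)) (h : E1 ⊆ E2) (A : Finset (Finset (Sym2 V)))
    (hA : A ⊆ trees ⊥ E1) :
    A.card * (trees ⊥ E2).card ≤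
      ((trees ⊥ E2).filter (fun T => ∃ T1 ∈ A, T ∩ E1 ⊆ T1)).card * (trees ⊥ E1).card := by
  have h1 := dom' (⊥ : Setoid V) ⊥ le_rfl E2 E1 h
    (fun S => if ∃ T1 ∈ A, S ⊆ T1 then (-1 : ℝ) else 0) (by
      intro S T hST
      by_cases h1 : ∃ T1 ∈ A, T ⊆ T1
      · obtain ⟨T1, hT1, hT⟩ := h1
        have h2 : ∃ T1 ∈ A, S ⊆ T1 := ⟨T1, hT1, hST.trans hT⟩
        have h1 : ∃ T1 ∈ A, T ⊆ T1 := ⟨T1, hT1, hT⟩
        simp only [if_pos h1, if_pos h2, le_refl]
      · simp only [if_neg h1]
        split_ifs <;> norm_num)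
  have e : ∀ (F : Finset (Finset (Sym2 V))) (Q : Finset (Sym2 V) → Prop) [DecidablePred Q],
      ∑ T ∈ F, (if Q T then (-1 : ℝ) else 0) = -((F.filter Q).card : ℝ) := by
    intro F Q _
    rw [← Finset.sum_filter, Finset.sum_const, nsmul_eq_mul]
    ring
  rw [e, e] at h1
  have h2 : (A.card : ℝ) ≤ (((trees ⊥ E1).filter (fun T => ∃ T1 ∈ A, T ⊆ T1)).card : ℝ) := by
    have : A ⊆ (trees ⊥ E1).filter (fun T => ∃ T1 ∈ A, T ⊆ T1) := fun T hT =>
      Finset.mem_filter.2 ⟨hA hT, T, hT, Finset.Subset.refl _⟩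
    exact_mod_cast Finset.card_le_card this
  have h3 : (0 : ℝ) ≤ ((trees ⊥ E2).card : ℝ) := Nat.cast_nonneg _
  have h4 := mul_le_mul_of_nonneg_right h2 h3
  have h5 : (A.card : ℝ) * ((trees ⊥ E2).card : ℝ) ≤
      (((trees ⊥ E2).filter (fun T => ∃ T1 ∈ A, T ∩ E1 ⊆ T1)).card : ℝ) *
        ((trees ⊥ E1).card : ℝ) := by linarith
  exact_mod_cast h5

/-- A monotone coupling of the uniform spanning trees of two nested finite edge sets. -/
theorem exists_coupling (E1 E2 : Finset (Sym2 V)) (h : E1 ⊆ E2) :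
    ∃ κ : Finset (Sym2 V) → ℕ → Finset (Sym2 V),
      (∀ T ∈ trees ⊥ E1, ∀ j < (trees ⊥ E2).card, κ T j ∈ trees ⊥ E2 ∧ κ T j ∩ E1 ⊆ T) ∧
      ∀ T' ∈ trees ⊥ E2, (((trees ⊥ E1) ×ˢ (range (trees ⊥ E2).card)).filter
        (fun p => κ p.1 p.2 = T')).card = (trees ⊥ E1).card := by
  classical
  set N1 := (trees ⊥ E1).card with hN1
  set N2 := (trees ⊥ E2).card with hN2
  let t : {T // T ∈ trees ⊥ E1} × Fin N2 → Finset (Finset (Sym2 V) × ℕ) := fun p =>
    ((trees ⊥ E2).filter (fun T => T ∩ E1 ⊆ p.1.1)) ×ˢ range N1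
  have hall : ∀ s : Finset ({T // T ∈ trees ⊥ E1} × Fin N2), s.card ≤ (s.biUnion t).card := by
    intro s
    set A : Finset (Finset (Sym2 V)) := s.image (fun p => p.1.1) with hA
    have hAs : A ⊆ trees ⊥ E1 := by
      intro T hT
      obtain ⟨p, -, rfl⟩ := Finset.mem_image.1 hT
      exact p.1.2
    have h1 : s.card ≤ A.card * N2 := by
      have : s.card ≤ (A ×ˢ (Finset.univ : Finset (Fin N2))).card := by
        refine Finset.card_le_card_of_injOn (fun p => (p.1.1, p.2)) ?_ ?_
        · intro p hp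
          rw [Finset.mem_coe, Finset.mem_product]
          exact ⟨Finset.mem_image_of_mem _ hp, Finset.mem_univ _⟩
        · intro p _ q _ hpq
          have h1 := congrArg Prod.fst hpq
          have h2 := congrArg Prod.snd hpq
          exact Prod.ext (Subtype.ext h1) h2
      simpa using this
    have h2 : s.biUnion t = ((trees ⊥ E2).filter (fun T => ∃ T1 ∈ A, T ∩ E1 ⊆ T1)) ×ˢ range N1 := by
      ext ⟨T, i⟩
      simp only [Finset.mem_biUnion, Finset.mem_product, Finset.mem_filter, t, hA,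
        Finset.mem_image]
      constructor
      · rintro ⟨p, hp, ⟨h1, h2⟩, h3⟩
        exact ⟨⟨h1, p.1.1, ⟨p, hp, rfl⟩, h2⟩, h3⟩
      · rintro ⟨⟨h1, _, ⟨p, hp, rfl⟩, h2⟩, h3⟩
        exact ⟨p, hp, ⟨h1, h2⟩, h3⟩
    rw [h2, Finset.card_product, Finset.card_range]
    exact h1.trans (hall_count E1 E2 h A hAs)
  obtain ⟨f, hf, hft⟩ := (Finset.all_card_le_biUnion_card_iff_exists_injective t).1 hall
  have hft' : ∀ p, (f p).1 ∈ trees ⊥ E2 ∧ (f p).1 ∩ E1 ⊆ p.1.1 ∧ (f p).2 < N1 := by
    intro p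
    have h1 := hft p
    simp only [t, Finset.mem_product, Finset.mem_filter, Finset.mem_range] at h1
    exact ⟨h1.1.1, h1.1.2, h1.2⟩
  have himg : (Finset.univ : Finset ({T // T ∈ trees ⊥ E1} × Fin N2)).image f =
      (trees ⊥ E2) ×ˢ range N1 := by
    apply Finset.eq_of_subset_of_card_le
    · intro q hq
      obtain ⟨p, -, rfl⟩ := Finset.mem_image.1 hq
      rw [Finset.mem_product, Finset.mem_range]
      exact ⟨(hft' p).1, (hft' p).2.2⟩
    · rw [Finset.card_image_of_injective _ hf, Finset.card_product, Finset.card_range,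
        Finset.card_univ, Fintype.card_prod, Fintype.card_fin, Fintype.card_coe, ← hN1, ← hN2,
        mul_comm]
  refine ⟨fun T j => if hT : T ∈ trees ⊥ E1 then (if hj : j < N2 then (f (⟨T, hT⟩, ⟨j, hj⟩)).1
    else ∅) else ∅, ?_, ?_⟩
  · intro T hT j hj
    simp only [dif_pos hT, dif_pos hj]
    exact ⟨(hft' _).1, (hft' _).2.1⟩
  · intro T' hT'
    have h1 : (range N1).card = N1 := Finset.card_range _
    rw [← h1]
    symm
    have hsurj : ∀ i ∈ range N1, ∃ p, f p = (T', i) := by
      intro i hi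
      have : (T', i) ∈ (trees ⊥ E2) ×ˢ range N1 := Finset.mem_product.2 ⟨hT', hi⟩
      rw [← himg] at this
      obtain ⟨p, -, hp⟩ := Finset.mem_image.1 this
      exact ⟨p, hp⟩
    choose g hg using hsurj
    refine Finset.card_bij (fun i hi => ((g i hi).1.1, ((g i hi).2 : ℕ))) ?_ ?_ ?_
    · intro i hi
      rw [Finset.mem_filter, Finset.mem_product, Finset.mem_range]
      refine ⟨⟨(g i hi).1.2, (g i hi).2.2⟩, ?_⟩
      simp only [dif_pos (g i hi).1.2, dif_pos (g i hi).2.2]
      rw [show ((⟨(g i hi).1.1, (g i hi).1.2⟩, ⟨((g i hi).2 : ℕ), (g i hi).2.2⟩) :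
        {T // T ∈ trees ⊥ E1} × Fin N2) = g i hi from rfl, hg i hi]
    · intro i hi j hj hij
      have h1 := congrArg Prod.fst hij
      have h2 := congrArg Prod.snd hij
      have h3 : g i hi = g j hj := Prod.ext (Subtype.ext h1) (Fin.ext h2)
      have h4 := hg i hi
      rw [h3, hg j hj] at h4
      exact (congrArg Prod.snd h4).symm
    · rintro ⟨T, j⟩ hTj
      rw [Finset.mem_filter, Finset.mem_product, Finset.mem_range] at hTj
      obtain ⟨⟨hT, hj⟩, hk⟩ := hTj
      simp only at hT hj hk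
      simp only [dif_pos hT, dif_pos hj] at hk
      refine ⟨(f (⟨T, hT⟩, ⟨j, hj⟩)).2, ?_, ?_⟩
      · rw [Finset.mem_range]; exact (hft' _).2.2
      · have h0 : (f (⟨T, hT⟩, ⟨j, hj⟩)).2 ∈ range N1 := by
          rw [Finset.mem_range]; exact (hft' _).2.2
        have h1 : f (g (f (⟨T, hT⟩, ⟨j, hj⟩)).2 h0) = f (⟨T, hT⟩, ⟨j, hj⟩) := by
          rw [hg _ h0, ← hk]
        have h2 := hf h1
        rw [h2]

/-- indicator sums -/
theorem sum_ind (F : Finset (Finset (Sym2 V))) (Q : Finset (Sym2 V) → Prop) [DecidablePred Q] :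
    ∑ T ∈ F, (if Q T then (1 : ℝ) else 0) = ((F.filter Q).card : ℝ) := by
  rw [Finset.sum_boole]

open Classical in
/-- probability that the tree meets `F` exactly in `A` -/
noncomputable def pr (r : Setoid V) (E : Finset (Sym2 V)) (F A : Set (Sym2 V)) : ℝ :=
  (((trees r E).filter (fun T : Finset (Sym2 V) => (T : Set (Sym2 V)) ∩ F = A)).card : ℝ) /
    ((trees r E).card : ℝ)

open Classical in
/-- probability of an edge -/
noncomputable def pe (r : Setoid V) (E : Finset (Sym2 V)) (e : Sym2 V) : ℝ :=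
  (((trees r E).filter (fun T => e ∈ T)).card : ℝ) / ((trees r E).card : ℝ)

theorem ustProb_eq (r : Setoid V) (E : Finset (Sym2 V)) (F A : Set (Sym2 V)) :
    ustProb r (E : Set (Sym2 V)) F A = pr r E F A := by
  classical
  unfold ustProb pr
  have key : ∀ Q : Set (Sym2 V) → Prop,
      {T : Set (Sym2 V) | IsSpan r (E : Set (Sym2 V)) T ∧ Q T}.ncard =
        ((trees r E).filter (fun T : Finset (Sym2 V) => Q (T : Set (Sym2 V)))).card := by
    intro Q
    have h1 : {T : Set (Sym2 V) | IsSpan r (E : Set (Sym2 V)) T ∧ Q T} =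
        (fun T : Finset (Sym2 V) => (T : Set (Sym2 V))) ''
          ((((trees r E).filter (fun T : Finset (Sym2 V) => Q (T : Set (Sym2 V)))) :
            Finset (Finset (Sym2 V))) : Set (Finset (Sym2 V))) := by
      ext T
      simp only [Set.mem_ofPred_eq, Set.mem_image, Finset.coe_filter]
      constructor
      · rintro ⟨h1, h2⟩
        have hfin : T.Finite := (E.finite_toSet).subset h1.1
        refine ⟨hfin.toFinset, ⟨?_, ?_⟩, ?_⟩
        · unfold trees
          rw [Finset.mem_filter, Finset.mem_powerset]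
          refine ⟨?_, ?_⟩
          · intro e he
            exact h1.1 (hfin.mem_toFinset.1 he)
          · rw [Set.Finite.coe_toFinset]; exact h1
        · rw [Set.Finite.coe_toFinset]; exact h2
        · rw [Set.Finite.coe_toFinset]
      · rintro ⟨S, ⟨h1, h2⟩, rfl⟩
        unfold trees at h1
        exact ⟨(Finset.mem_filter.1 h1).2, h2⟩
    rw [h1, Set.ncard_image_of_injective _ Finset.coe_injective, Set.ncard_coe_finset]
  have k1 := key (fun T => T ∩ F = A)
  have k2 := key (fun _ => True)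
  simp only [and_true, Finset.filter_true] at k2
  rw [k1, k2]
  congr!

/-- comparison of two uniform spanning trees through their edge marginals -/
theorem pr_sub_le (r : Setoid V) (E E' : Finset (Sym2 V)) (hE : E' ⊆ E) (F : Finset (Sym2 V))
    (hF : F ⊆ E') (A : Set (Sym2 V)) :
    |pr ⊥ E' (F : Set (Sym2 V)) A - pr r E (F : Set (Sym2 V)) A| ≤
      ∑ e ∈ F, (pe ⊥ E' e - pe r E e) := by
  classical
  set N : ℝ := ((trees r E).card : ℝ) with hN
  set N' : ℝ := ((trees ⊥ E').card : ℝ) with hN'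
  have hNp : 0 < N := by rw [hN]; exact_mod_cast trees_card_pos r E
  have hNp' : 0 < N' := by rw [hN']; exact_mod_cast trees_card_pos ⊥ E'
  -- the two test functions
  let h : Finset (Sym2 V) → ℝ := fun T => if (T : Set (Sym2 V)) ∩ F = A then 1 else 0
  let c : Finset (Sym2 V) → ℝ := fun T => ((T ∩ F).card : ℝ)
  have h01 : ∀ T, h T = 0 ∨ h T = 1 := by
    intro T; simp only [h]; split_ifs <;> simp
  have hkey : ∀ S T : Finset (Sym2 V), S ⊆ T → (h S = h T ∧ c S = c T) ∨ c S + 1 ≤ c T := by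
    intro S T hST
    by_cases hc : S ∩ F = T ∩ F
    · left
      refine ⟨?_, ?_⟩
      · simp only [h]
        have : (S : Set (Sym2 V)) ∩ F = (T : Set (Sym2 V)) ∩ F := by
          rw [← Finset.coe_inter, ← Finset.coe_inter, hc]
        rw [this]
      · simp only [c, hc]
    · right
      have h1 : S ∩ F ⊂ T ∩ F :=
        lt_of_le_of_ne (Finset.inter_subset_inter_right hST) hc
      have h2 := Finset.card_lt_card h1
      simp only [c]
      exact_mod_cast h2
  have mono1 : ∀ S T, S ⊆ T → h S + c S ≤ h T + c T := by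
    intro S T hST
    rcases hkey S T hST with ⟨h1, h2⟩ | h1
    · rw [h1, h2]
    · rcases h01 S with h2 | h2 <;> rcases h01 T with h3 | h3 <;> rw [h2, h3] <;> linarith
  have mono2 : ∀ S T, S ⊆ T → -h S + c S ≤ -h T + c T := by
    intro S T hST
    rcases hkey S T hST with ⟨h1, h2⟩ | h1
    · rw [h1, h2]
    · rcases h01 S with h2 | h2 <;> rcases h01 T with h3 | h3 <;> rw [h2, h3] <;> linarith
  have d1 := dom' r ⊥ bot_le E E' hE (fun T => h T + c T) mono1
  have d2 := dom' r ⊥ bot_le E E' hE (fun T => -h T + c T) mono2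
  have hinter : ∀ T : Finset (Sym2 V), h (T ∩ E') = h T ∧ c (T ∩ E') = c T := by
    intro T
    have h1 : (T ∩ E') ∩ F = T ∩ F := by
      rw [Finset.inter_assoc, Finset.inter_eq_right.2 hF]
    refine ⟨?_, ?_⟩
    · simp only [h]
      have : ((T ∩ E' : Finset (Sym2 V)) : Set (Sym2 V)) ∩ F = (T : Set (Sym2 V)) ∩ F := by
        rw [← Finset.coe_inter, ← Finset.coe_inter, h1]
      rw [this]
    · simp only [c, h1]
  simp only [(hinter _).1, (hinter _).2, Finset.sum_add_distrib, Finset.sum_neg_distrib] at d1 d2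
  have eh : ∀ (r : Setoid V) (E : Finset (Sym2 V)), ∑ T ∈ trees r E, h T =
      pr r E F A * ((trees r E).card : ℝ) := by
    intro r E
    have h0 : ((trees r E).card : ℝ) ≠ 0 := by exact_mod_cast (trees_card_pos r E).ne'
    unfold pr
    rw [div_mul_cancel₀ _ h0]
    simp only [h]
    rw [Finset.sum_boole]
  have ec : ∀ (r : Setoid V) (E : Finset (Sym2 V)), ∑ T ∈ trees r E, c T =
      (∑ e ∈ F, pe r E e) * ((trees r E).card : ℝ) := by
    intro r E
    have h0 : ((trees r E).card : ℝ) ≠ 0 := by exact_mod_cast (trees_card_pos r E).ne'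
    rw [Finset.sum_mul]
    have h1 : ∀ e ∈ F, pe r E e * ((trees r E).card : ℝ) =
        ∑ T ∈ trees r E, (if e ∈ T then (1 : ℝ) else 0) := by
      intro e _
      unfold pe
      rw [div_mul_cancel₀ _ h0, Finset.sum_boole]
    rw [Finset.sum_congr rfl h1, Finset.sum_comm]
    refine Finset.sum_congr rfl fun T _ => ?_
    simp only [c]
    rw [Finset.sum_boole, Finset.inter_comm, Finset.filter_mem_eq_inter]
  rw [eh, eh, ec, ec, ← hN, ← hN'] at d1 d2
  rw [Finset.sum_sub_distrib]
  set a := pr ⊥ E' (F : Set (Sym2 V)) A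
  set b := pr r E (F : Set (Sym2 V)) A
  set s := ∑ e ∈ F, pe ⊥ E' e
  set s' := ∑ e ∈ F, pe r E e
  have q : 0 < N * N' := mul_pos hNp hNp'
  have d1' : (b + s') * (N * N') ≤ (a + s) * (N * N') := by nlinarith
  have d2' : (-b + s') * (N * N') ≤ (-a + s) * (N * N') := by nlinarith
  have f1 := le_of_mul_le_mul_right d1' q
  have f2 := le_of_mul_le_mul_right d2' q
  rw [abs_le]
  constructor <;> linarith

end Coupling

section Product

variable {V : Type*} [DecidableEq V]

/-- all edges of `T` have both endpoints in `C` -/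
def Inside (C : Set V) (T : Set (Sym2 V)) : Prop := ∀ a b, s(a, b) ∈ T → a ∈ C ∧ b ∈ C

theorem Inside.mono {C : Set V} {S T : Set (Sym2 V)} (h : Inside C T) (hST : S ⊆ T) :
    Inside C S := fun a b hab => h a b (hST hab)

theorem conn_union {C1 C2 : Set V} (hd : Disjoint C1 C2) {T1 T2 : Set (Sym2 V)}
    (h1 : Inside C1 T1) (h2 : Inside C2 T2) {a b : V} (h : Conn ⊥ (T1 ∪ T2) a b) :
    a = b ∨ (a ∈ C1 ∧ b ∈ C1 ∧ Conn ⊥ T1 a b) ∨ (a ∈ C2 ∧ b ∈ C2 ∧ Conn ⊥ T2 a b) := by
  have hno : ∀ x, x ∈ C1 → x ∈ C2 → False := fun x hx hy => Set.disjoint_left.1 hd hx hy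
  induction h with
  | rel a b h =>
    rcases h with h | h
    · exact Or.inl h
    · rcases h with h | h
      · exact Or.inr (Or.inl ⟨(h1 a b h).1, (h1 a b h).2, cedge h⟩)
      · exact Or.inr (Or.inr ⟨(h2 a b h).1, (h2 a b h).2, cedge h⟩)
  | refl a => exact Or.inl rfl
  | symm a b _ ih =>
    rcases ih with h | ⟨k1, k2, k3⟩ | ⟨k1, k2, k3⟩
    · exact Or.inl h.symm
    · exact Or.inr (Or.inl ⟨k2, k1, csymm k3⟩)
    · exact Or.inr (Or.inr ⟨k2, k1, csymm k3⟩)
  | trans a b c _ _ ih1 ih2 =>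
    rcases ih1 with rfl | ⟨k1, k2, k3⟩ | ⟨k1, k2, k3⟩
    · exact ih2
    · rcases ih2 with rfl | ⟨l1, l2, l3⟩ | ⟨l1, l2, l3⟩
      · exact Or.inr (Or.inl ⟨k1, k2, k3⟩)
      · exact Or.inr (Or.inl ⟨k1, l2, ctrans k3 l3⟩)
      · exact (hno _ k2 l1).elim
    · rcases ih2 with rfl | ⟨l1, l2, l3⟩ | ⟨l1, l2, l3⟩
      · exact Or.inr (Or.inr ⟨k1, k2, k3⟩)
      · exact (hno _ l1 k2).elim
      · exact Or.inr (Or.inr ⟨k1, l2, ctrans k3 l3⟩)

theorem mem_trees_union {C1 C2 : Set V} (hd : Disjoint C1 C2) {E1 E2 : Finset (Sym2 V)}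
    (h1 : Inside C1 (E1 : Set (Sym2 V))) (h2 : Inside C2 (E2 : Set (Sym2 V)))
    (t : Finset (Sym2 V)) :
    t ∈ trees ⊥ (E1 ∪ E2) ↔ t ⊆ E1 ∪ E2 ∧ t ∩ E1 ∈ trees ⊥ E1 ∧ t ∩ E2 ∈ trees ⊥ E2 := by
  have hno : ∀ x, x ∈ C1 → x ∈ C2 → False := fun x hx hy => Set.disjoint_left.1 hd hx hy
  constructor
  · intro ht
    obtain ⟨k1, k2, k3⟩ := mem_trees.1 ht
    have hsplit : (t : Set (Sym2 V)) ⊆ ((t ∩ E1 : Finset (Sym2 V)) : Set (Sym2 V)) ∪
        ((t ∩ E2 : Finset (Sym2 V)) : Set (Sym2 V)) := by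
      intro e he
      have he' : e ∈ t := Finset.mem_coe.1 he
      rcases Finset.mem_union.1 (k1 he') with h | h
      · exact Or.inl (Finset.mem_coe.2 (Finset.mem_inter.2 ⟨he', h⟩))
      · exact Or.inr (Finset.mem_coe.2 (Finset.mem_inter.2 ⟨he', h⟩))
    have i1 : Inside C1 ((t ∩ E1 : Finset (Sym2 V)) : Set (Sym2 V)) :=
      h1.mono (Finset.coe_subset.2 Finset.inter_subset_right)
    have i2 : Inside C2 ((t ∩ E2 : Finset (Sym2 V)) : Set (Sym2 V)) :=
      h2.mono (Finset.coe_subset.2 Finset.inter_subset_right)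
    refine ⟨k1, mem_trees.2 ⟨Finset.inter_subset_right, ?_,
      k3.mono (Finset.coe_subset.2 Finset.inter_subset_left)⟩,
      mem_trees.2 ⟨Finset.inter_subset_right, ?_,
      k3.mono (Finset.coe_subset.2 Finset.inter_subset_left)⟩⟩
    · intro a b hab
      have hc := cmono hsplit (k2 a b (Finset.mem_union_left _ hab))
      have hC := h1 a b (Finset.mem_coe.2 hab)
      rcases conn_union hd i1 i2 hc with rfl | ⟨-, -, l3⟩ | ⟨l1, -, -⟩
      · exact crefl _ _ _
      · exact l3
      · exact (hno _ hC.1 l1).elim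
    · intro a b hab
      have hc := cmono hsplit (k2 a b (Finset.mem_union_right _ hab))
      have hC := h2 a b (Finset.mem_coe.2 hab)
      rcases conn_union hd i1 i2 hc with rfl | ⟨l1, -, -⟩ | ⟨-, -, l3⟩
      · exact crefl _ _ _
      · exact (hno _ l1 hC.1).elim
      · exact l3
  · rintro ⟨k1, k2, k3⟩
    obtain ⟨a1, a2, a3⟩ := mem_trees.1 k2
    obtain ⟨b1, b2, b3⟩ := mem_trees.1 k3
    refine mem_trees.2 ⟨k1, ?_, ?_⟩
    · intro a b hab
      rcases Finset.mem_union.1 hab with h | h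
      · exact cmono (Finset.coe_subset.2 Finset.inter_subset_left) (a2 a b h)
      · exact cmono (Finset.coe_subset.2 Finset.inter_subset_left) (b2 a b h)
    · intro a b hab hc
      have habt : s(a, b) ∈ t := Finset.mem_coe.1 hab
      have hsplit : (t : Set (Sym2 V)) \ {s(a, b)} ⊆
          (((t ∩ E1 : Finset (Sym2 V)) : Set (Sym2 V)) \ {s(a, b)}) ∪
          (((t ∩ E2 : Finset (Sym2 V)) : Set (Sym2 V)) \ {s(a, b)}) := by
        rintro e ⟨he, hne⟩
        have he' : e ∈ t := Finset.mem_coe.1 he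
        rcases Finset.mem_union.1 (k1 he') with h | h
        · exact Or.inl ⟨Finset.mem_coe.2 (Finset.mem_inter.2 ⟨he', h⟩), hne⟩
        · exact Or.inr ⟨Finset.mem_coe.2 (Finset.mem_inter.2 ⟨he', h⟩), hne⟩
      have i1 : Inside C1 (((t ∩ E1 : Finset (Sym2 V)) : Set (Sym2 V)) \ {s(a, b)}) :=
        (h1.mono (Finset.coe_subset.2 Finset.inter_subset_right)).mono Set.sdiff_subset
      have i2 : Inside C2 (((t ∩ E2 : Finset (Sym2 V)) : Set (Sym2 V)) \ {s(a, b)}) :=
        (h2.mono (Finset.coe_subset.2 Finset.inter_subset_right)).mono Set.sdiff_subset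
      have hc' := conn_union hd i1 i2 (cmono hsplit hc)
      rcases Finset.mem_union.1 (k1 habt) with h | h
      · have hm : s(a, b) ∈ ((t ∩ E1 : Finset (Sym2 V)) : Set (Sym2 V)) :=
          Finset.mem_coe.2 (Finset.mem_inter.2 ⟨habt, h⟩)
        have hC := h1 a b (Finset.mem_coe.2 h)
        rcases hc' with rfl | ⟨-, -, l3⟩ | ⟨l1, -, -⟩
        · exact a3 _ _ hm (crefl _ _ _)
        · exact a3 _ _ hm l3
        · exact hno _ hC.1 l1
      · have hm : s(a, b) ∈ ((t ∩ E2 : Finset (Sym2 V)) : Set (Sym2 V)) :=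
          Finset.mem_coe.2 (Finset.mem_inter.2 ⟨habt, h⟩)
        have hC := h2 a b (Finset.mem_coe.2 h)
        rcases hc' with rfl | ⟨l1, -, -⟩ | ⟨-, -, l3⟩
        · exact b3 _ _ hm (crefl _ _ _)
        · exact hno _ l1 hC.1
        · exact b3 _ _ hm l3

theorem disj_edges {C1 C2 : Set V} (hd : Disjoint C1 C2) {E1 E2 : Finset (Sym2 V)}
    (h1 : Inside C1 (E1 : Set (Sym2 V))) (h2 : Inside C2 (E2 : Set (Sym2 V))) :
    Disjoint E1 E2 := by
  rw [Finset.disjoint_left]
  intro e he1 he2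
  induction e using Sym2.ind with
  | _ a b =>
    exact Set.disjoint_left.1 hd (h1 a b (Finset.mem_coe.2 he1)).1 (h2 a b (Finset.mem_coe.2 he2)).1

theorem card_trees_union {C1 C2 : Set V} (hd : Disjoint C1 C2) {E1 E2 : Finset (Sym2 V)}
    (h1 : Inside C1 (E1 : Set (Sym2 V))) (h2 : Inside C2 (E2 : Set (Sym2 V))) :
    (trees ⊥ (E1 ∪ E2)).card = (trees ⊥ E1).card * (trees ⊥ E2).card := by
  have hde := disj_edges hd h1 h2
  rw [← Finset.card_product]
  refine Finset.card_bij' (fun t _ => (t ∩ E1, t ∩ E2)) (fun p _ => p.1 ∪ p.2) ?_ ?_ ?_ ?_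
  · intro t ht
    obtain ⟨k1, k2, k3⟩ := (mem_trees_union hd h1 h2 t).1 ht
    exact Finset.mem_product.2 ⟨k2, k3⟩
  · rintro ⟨p, q⟩ hpq
    obtain ⟨hp, hq⟩ := Finset.mem_product.1 hpq
    have hp' := (mem_trees.1 hp).1
    have hq' := (mem_trees.1 hq).1
    have e1 : (p ∪ q) ∩ E1 = p := by
      ext e
      simp only [Finset.mem_inter, Finset.mem_union]
      constructor
      · rintro ⟨h | h, h'⟩
        · exact h
        · exact (Finset.disjoint_left.1 hde h' (hq' h)).elim
      · intro h; exact ⟨Or.inl h, hp' h⟩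
    have e2 : (p ∪ q) ∩ E2 = q := by
      ext e
      simp only [Finset.mem_inter, Finset.mem_union]
      constructor
      · rintro ⟨h | h, h'⟩
        · exact (Finset.disjoint_left.1 hde (hp' h) h').elim
        · exact h
      · intro h; exact ⟨Or.inr h, hq' h⟩
    refine (mem_trees_union hd h1 h2 _).2 ⟨Finset.union_subset_union hp' hq', ?_, ?_⟩
    · simp only; rw [e1]; exact hp
    · simp only; rw [e2]; exact hq
  · intro t ht
    obtain ⟨k1, k2, k3⟩ := (mem_trees_union hd h1 h2 t).1 ht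
    simp only
    rw [← Finset.inter_union_distrib_left, Finset.inter_eq_left.2 k1]
  · rintro ⟨p, q⟩ hpq
    obtain ⟨hp, hq⟩ := Finset.mem_product.1 hpq
    have hp' := (mem_trees.1 hp).1
    have hq' := (mem_trees.1 hq).1
    simp only [Prod.mk.injEq]
    constructor
    · ext e
      simp only [Finset.mem_inter, Finset.mem_union]
      constructor
      · rintro ⟨h | h, h'⟩
        · exact h
        · exact (Finset.disjoint_left.1 hde h' (hq' h)).elim
      · intro h; exact ⟨Or.inl h, hp' h⟩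
    · ext e
      simp only [Finset.mem_inter, Finset.mem_union]
      constructor
      · rintro ⟨h | h, h'⟩
        · exact (Finset.disjoint_left.1 hde (hp' h) h').elim
        · exact h
      · intro h; exact ⟨Or.inr h, hq' h⟩

end Product

section Relabel

variable {V W : Type*} [DecidableEq V] [DecidableEq W]

theorem conn_map (p : V → W) {T : Set (Sym2 V)} {x y : V} (h : Conn ⊥ T x y) :
    Conn ⊥ (Sym2.map p '' T) (p x) (p y) := by
  induction h with
  | rel a b h =>
    rcases h with h | h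
    · have h1 : a = b := h
      rw [h1]
      exact crefl _ _ _
    · exact cedge ⟨s(a, b), h, by rw [Sym2.map_mk]⟩
  | refl a => exact crefl _ _ _
  | symm a b _ ih => exact csymm ih
  | trans a b c _ _ h1 h2 => exact ctrans h1 h2

theorem conn_map_iff (p : V → W) {C : Set V} (hp : Set.InjOn p C) {T : Set (Sym2 V)}
    (hT : Inside C T) {x y : V} (hx : x ∈ C) (hy : y ∈ C) :
    Conn ⊥ (Sym2.map p '' T) (p x) (p y) ↔ Conn ⊥ T x y := by
  constructor
  · intro h
    have : Nonempty V := ⟨x⟩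
    set q : W → V := Function.invFunOn p C with hq
    have hqp : ∀ z ∈ C, q (p z) = z := fun z hz =>
      hp.leftInvOn_invFunOn hz
    have key : ∀ a b : W, Conn ⊥ (Sym2.map p '' T) a b → Conn ⊥ T (q a) (q b) := by
      intro a b h
      induction h with
      | rel a b h =>
        rcases h with h | h
        · have h1 : a = b := h
          rw [h1]
          exact crefl _ _ _
        · obtain ⟨e, he, he2⟩ := h
          induction e using Sym2.ind with
          | _ u v =>
            have huv := hT u v he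
            rw [Sym2.map_mk] at he2
            rcases Sym2.eq_iff.1 he2 with ⟨h1, h2⟩ | ⟨h1, h2⟩
            · rw [← h1, ← h2, hqp u huv.1, hqp v huv.2]
              exact cedge he
            · rw [← h1, ← h2, hqp u huv.1, hqp v huv.2]
              exact csymm (cedge he)
      | refl a => exact crefl _ _ _
      | symm a b _ ih => exact csymm ih
      | trans a b c _ _ h1 h2 => exact ctrans h1 h2
    have h1 := key _ _ h
    rwa [hqp x hx, hqp y hy] at h1
  · exact conn_map p

theorem map_injOn (p : V → W) {C : Set V} (hp : Set.InjOn p C) {e f : Sym2 V}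
    (he : ∀ v ∈ e, v ∈ C) (hf : ∀ v ∈ f, v ∈ C) (h : Sym2.map p e = Sym2.map p f) : e = f := by
  induction e using Sym2.ind with
  | _ a b =>
    induction f using Sym2.ind with
    | _ c d =>
      have ha : a ∈ C := he a (by simp)
      have hb : b ∈ C := he b (by simp)
      have hc : c ∈ C := hf c (by simp)
      have hd : d ∈ C := hf d (by simp)
      rw [Sym2.map_mk, Sym2.map_mk] at h
      rcases Sym2.eq_iff.1 h with ⟨h1, h2⟩ | ⟨h1, h2⟩
      · rw [hp ha hc h1, hp hb hd h2]
      · rw [hp ha hd h1, hp hb hc h2, Sym2.eq_swap]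

theorem Inside.mem {C : Set V} {T : Set (Sym2 V)} (h : Inside C T) {e : Sym2 V} (he : e ∈ T) :
    ∀ v ∈ e, v ∈ C := by
  induction e using Sym2.ind with
  | _ a b =>
    intro v hv
    rcases Sym2.mem_iff.1 hv with rfl | rfl
    · exact (h _ _ he).1
    · exact (h _ _ he).2

theorem mem_image_iff (p : V → W) {C : Set V} (hp : Set.InjOn p C) {T : Finset (Sym2 V)}
    (hT : Inside C (T : Set (Sym2 V))) {e : Sym2 V} (he : ∀ v ∈ e, v ∈ C) :
    Sym2.map p e ∈ T.image (Sym2.map p) ↔ e ∈ T := by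
  constructor
  · intro h
    obtain ⟨f, hf, hfe⟩ := Finset.mem_image.1 h
    have := map_injOn p hp (hT.mem (Finset.mem_coe.2 hf)) he hfe
    rwa [← this]
  · exact Finset.mem_image_of_mem _

/-- spanning trees of a relabelled edge set -/
theorem image_mem_trees (p : V → W) {C : Set V} (hp : Set.InjOn p C) {E : Finset (Sym2 V)}
    (hE : Inside C (E : Set (Sym2 V))) {t : Finset (Sym2 V)} (ht : t ⊆ E) :
    t.image (Sym2.map p) ∈ trees ⊥ (E.image (Sym2.map p)) ↔ t ∈ trees ⊥ E := by
  have hti : Inside C (t : Set (Sym2 V)) := hE.mono (Finset.coe_subset.2 ht)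
  rw [mem_trees, mem_trees]
  have hconn : ∀ (s : Finset (Sym2 V)), Inside C (s : Set (Sym2 V)) → ∀ x ∈ C, ∀ y ∈ C,
      (Conn ⊥ ((s.image (Sym2.map p) : Finset (Sym2 W)) : Set (Sym2 W)) (p x) (p y) ↔
        Conn ⊥ (s : Set (Sym2 V)) x y) := by
    intro s hs x hx y hy
    rw [Finset.coe_image]
    exact conn_map_iff p hp hs hx hy
  have herase : ∀ e ∈ t, ((t.image (Sym2.map p) : Finset (Sym2 W)) : Set (Sym2 W)) \
      {Sym2.map p e} = (((t.erase e).image (Sym2.map p) : Finset (Sym2 W)) : Set (Sym2 W)) := by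
    intro e he
    ext f
    simp only [Set.mem_sdiff, Finset.mem_coe, Set.mem_singleton_iff, Finset.mem_image,
      Finset.mem_erase]
    constructor
    · rintro ⟨⟨g, hg, rfl⟩, hne⟩
      exact ⟨g, ⟨fun h => hne (by rw [h]), hg⟩, rfl⟩
    · rintro ⟨g, ⟨hne, hg⟩, rfl⟩
      refine ⟨⟨g, hg, rfl⟩, fun h => hne ?_⟩
      exact map_injOn p hp (hti.mem (Finset.mem_coe.2 hg)) (hti.mem (Finset.mem_coe.2 he)) h
  constructor
  · rintro ⟨h1, h2, h3⟩
    refine ⟨ht, ?_, ?_⟩
    · intro a b hab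
      have hC := hE a b (Finset.mem_coe.2 hab)
      refine (hconn t hti a hC.1 b hC.2).1 (h2 _ _ ?_)
      rw [← Sym2.map_mk]
      exact Finset.mem_image_of_mem _ hab
    · intro a b hab hc
      have habt : s(a, b) ∈ t := Finset.mem_coe.1 hab
      have hC := hti a b hab
      have hei : Inside C ((t.erase s(a, b) : Finset (Sym2 V)) : Set (Sym2 V)) :=
        hti.mono (Finset.coe_subset.2 (Finset.erase_subset _ _))
      refine h3 (p a) (p b) ?_ ?_
      · rw [← Sym2.map_mk]
        exact Finset.mem_coe.2 (Finset.mem_image_of_mem _ habt)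
      · rw [← Sym2.map_mk, herase _ habt]
        refine (hconn _ hei a hC.1 b hC.2).2 ?_
        rw [Finset.coe_erase]
        exact hc
  · rintro ⟨h1, h2, h3⟩
    refine ⟨Finset.image_subset_image ht, ?_, ?_⟩
    · intro a b hab
      obtain ⟨e, he, hab'⟩ := Finset.mem_image.1 hab
      induction e using Sym2.ind with
      | _ u v =>
        have hC := hE u v (Finset.mem_coe.2 he)
        rw [Sym2.map_mk] at hab'
        have hc := (hconn t hti u hC.1 v hC.2).2 (h2 u v he)
        rcases Sym2.eq_iff.1 hab' with ⟨rfl, rfl⟩ | ⟨rfl, rfl⟩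
        · exact hc
        · exact csymm hc
    · intro a b hab hc
      obtain ⟨e, he, hab'⟩ := Finset.mem_image.1 (Finset.mem_coe.1 hab)
      rw [← hab', herase e he] at hc
      have hei : Inside C ((t.erase e : Finset (Sym2 V)) : Set (Sym2 V)) :=
        hti.mono (Finset.coe_subset.2 (Finset.erase_subset _ _))
      induction e using Sym2.ind with
      | _ u v =>
        have hC := hti u v (Finset.mem_coe.2 he)
        rw [Sym2.map_mk] at hab'
        have hc' : Conn ⊥ (((t.erase s(u, v)).image (Sym2.map p) : Finset (Sym2 W)) :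
            Set (Sym2 W)) (p u) (p v) := by
          rcases Sym2.eq_iff.1 hab' with ⟨h1, h2⟩ | ⟨h1, h2⟩
          · rw [h1, h2]; exact hc
          · rw [h1, h2]; exact csymm hc
        have := (hconn _ hei u hC.1 v hC.2).1 hc'
        rw [Finset.coe_erase] at this
        exact h3 u v (Finset.mem_coe.2 he) this

/-- decoding -/
def dec (p : V → W) (E : Finset (Sym2 V)) (s : Finset (Sym2 W)) : Finset (Sym2 V) :=
  E.filter (fun e => Sym2.map p e ∈ s)

theorem image_dec (p : V → W) (E : Finset (Sym2 V)) {s : Finset (Sym2 W)}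
    (hs : s ⊆ E.image (Sym2.map p)) : (dec p E s).image (Sym2.map p) = s := by
  ext f
  rw [Finset.mem_image]
  constructor
  · rintro ⟨e, he, rfl⟩
    exact (Finset.mem_filter.1 he).2
  · intro hf
    obtain ⟨e, he, rfl⟩ := Finset.mem_image.1 (hs hf)
    exact ⟨e, Finset.mem_filter.2 ⟨he, hf⟩, rfl⟩

theorem dec_image (p : V → W) {C : Set V} (hp : Set.InjOn p C) {E : Finset (Sym2 V)}
    (hE : Inside C (E : Set (Sym2 V))) {t : Finset (Sym2 V)} (ht : t ⊆ E) :
    dec p E (t.image (Sym2.map p)) = t := by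
  ext e
  unfold dec
  rw [Finset.mem_filter]
  constructor
  · rintro ⟨h1, h2⟩
    exact (mem_image_iff p hp (hE.mono (Finset.coe_subset.2 ht))
      (hE.mem (Finset.mem_coe.2 h1))).1 h2
  · intro h
    exact ⟨ht h, Finset.mem_image_of_mem _ h⟩

theorem dec_mem_trees (p : V → W) {C : Set V} (hp : Set.InjOn p C) {E : Finset (Sym2 V)}
    (hE : Inside C (E : Set (Sym2 V))) {s : Finset (Sym2 W)}
    (hs : s ∈ trees ⊥ (E.image (Sym2.map p))) : dec p E s ∈ trees ⊥ E := by
  have h1 := image_dec p E (mem_trees.1 hs).1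
  have h2 : dec p E s ⊆ E := Finset.filter_subset _ _
  rw [← image_mem_trees p hp hE h2, h1]
  exact hs

theorem card_trees_image (p : V → W) {C : Set V} (hp : Set.InjOn p C) {E : Finset (Sym2 V)}
    (hE : Inside C (E : Set (Sym2 V))) :
    (trees ⊥ (E.image (Sym2.map p))).card = (trees ⊥ E).card := by
  symm
  refine Finset.card_bij' (fun t _ => t.image (Sym2.map p)) (fun s _ => dec p E s) ?_ ?_ ?_ ?_
  · intro t ht
    exact (image_mem_trees p hp hE (mem_trees.1 ht).1).2 ht
  · intro s hs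
    exact dec_mem_trees p hp hE hs
  · intro t ht
    exact dec_image p hp hE (mem_trees.1 ht).1
  · intro s hs
    exact image_dec p E (mem_trees.1 hs).1

end Relabel

end Pool.Agent.U635
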