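import Pool.Agent.U635.Fin
import Pool.Agent.U635.Part

/-!
# Free and wired uniform spanning trees of a recurrent graph
-/

set_option autoImplicit false
set_option linter.unusedSectionVars false

namespace Pool.Agent.U635

open Pool.Agent.TH968.UST Pool.Agent.TH830.UST MeasureTheory Filter
open scoped ENNReal Topology

variable {V : Type*}

section Energy

theorem dsq_mk (φ : V → ℝ) (a b : V) : dsq φ s(a, b) = (φ a - φ b) ^ 2 := rfl

theorem dsq_nonneg (φ : V → ℝ) (e : Sym2 V) : 0 ≤ dsq φ e := by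
  induction e using Sym2.ind with
  | _ a b => rw [dsq_mk]; positivity

theorem energy_mono {E E' : Finset (Sym2 V)} (h : E ⊆ E') (φ : V → ℝ) :
    energy E φ ≤ energy E' φ :=
  Finset.sum_le_sum_of_subset_of_nonneg h fun e _ _ => dsq_nonneg φ e

variable [DecidableEq V] (G : SimpleGraph V) (hf : ∀ v, (G.neighborSet v).Finite)

/-- neighbours as a finite set -/
noncomputable def nb (v : V) : Finset V := (hf v).toFinset

theorem mem_nb {v w : V} : w ∈ nb G hf v ↔ G.Adj v w := Set.Finite.mem_toFinset _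

/-- summation by parts -/
theorem energy_parts (χ : V → ℝ) (S : Finset V) (hS : ∀ v, v ∉ S → χ v = 0)
    (E : Finset (Sym2 V)) (hE : ∀ e ∈ E, e ∈ G.edgeSet) :
    energy E χ ≤ ∑ u ∈ S, ∑ v ∈ nb G hf u, χ u * (χ u - χ v) := by
  classical
  set S' : Finset V := S ∪ S.biUnion (fun u => nb G hf u) with hS'
  have hsub : S ⊆ S' := Finset.subset_union_left
  have hnb : ∀ u ∈ S, nb G hf u ⊆ S' := fun u hu =>
    (Finset.subset_biUnion_of_mem (fun u => nb G hf u) hu).trans Finset.subset_union_right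
  set D : Finset (V × V) := (S' ×ˢ S').filter (fun p => G.Adj p.1 p.2) with hD
  set E' : Finset (Sym2 V) := D.image (fun p => s(p.1, p.2)) with hE'
  have h1 : energy E χ ≤ energy E' χ := by
    unfold energy
    rw [← Finset.sum_filter_add_sum_filter_not E (fun e => e ∈ E')]
    have h2 : ∑ e ∈ E.filter (fun e => ¬ e ∈ E'), dsq χ e = 0 := by
      refine Finset.sum_eq_zero fun e he => ?_
      obtain ⟨he1, he2⟩ := Finset.mem_filter.1 he
      have hadj := hE e he1
      induction e using Sym2.ind with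
      | _ a b =>
        have hadj' : G.Adj a b := hadj
        have hno : ∀ a b : V, G.Adj a b → s(a, b) ∉ E' → χ a = 0 := by
          intro a b hab hn
          apply hS
          intro ha
          apply hn
          refine Finset.mem_image.2 ⟨(a, b), Finset.mem_filter.2
            ⟨Finset.mem_product.2 ⟨hsub ha, hnb a ha ((mem_nb G hf).2 hab)⟩, hab⟩, rfl⟩
        rw [dsq_mk, hno a b hadj' he2, hno b a hadj'.symm (by rwa [Sym2.eq_swap])]
        ring
    rw [h2, add_zero]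
    exact Finset.sum_le_sum_of_subset_of_nonneg
      (fun e he => (Finset.mem_filter.1 he).2) fun e _ _ => dsq_nonneg χ e
  refine h1.trans (le_of_eq ?_)
  have h2 : ∑ p ∈ D, dsq χ s(p.1, p.2) = 2 * energy E' χ := by
    unfold energy
    rw [Finset.mul_sum, ← Finset.sum_fiberwise_of_maps_to
      (g := fun p : V × V => s(p.1, p.2)) (t := E')
      (fun p hp => Finset.mem_image_of_mem (fun p : V × V => s(p.1, p.2)) hp)]
    refine Finset.sum_congr rfl fun e he => ?_
    obtain ⟨⟨a, b⟩, hp, rfl⟩ := Finset.mem_image.1 he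
    have hp' := Finset.mem_filter.1 hp
    have hab : G.Adj a b := hp'.2
    have hSS := Finset.mem_product.1 hp'.1
    have h3 : D.filter (fun p => s(p.1, p.2) = s(a, b)) = {(a, b), (b, a)} := by
      ext ⟨c, d⟩
      simp only [Finset.mem_filter, Finset.mem_insert, Finset.mem_singleton, Prod.mk.injEq,
        Sym2.eq_iff, D, Finset.mem_product]
      constructor
      · rintro ⟨-, h⟩
        exact h
      · rintro (⟨rfl, rfl⟩ | ⟨rfl, rfl⟩)
        · exact ⟨⟨⟨hSS.1, hSS.2⟩, hab⟩, Or.inl ⟨rfl, rfl⟩⟩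
        · exact ⟨⟨⟨hSS.2, hSS.1⟩, hab.symm⟩, Or.inr ⟨rfl, rfl⟩⟩
    rw [h3, Finset.sum_pair]
    · simp only [dsq_mk]; ring
    · intro h
      exact hab.ne (congrArg Prod.fst h)
  have h3 : ∑ p ∈ D, χ p.1 * (χ p.1 - χ p.2) = ∑ p ∈ D, χ p.2 * (χ p.2 - χ p.1) := by
    refine Finset.sum_bij' (fun p _ => (p.2, p.1)) (fun p _ => (p.2, p.1)) ?_ ?_ ?_ ?_ ?_
    · rintro ⟨a, b⟩ hp
      have hp' := Finset.mem_filter.1 hp
      have hSS := Finset.mem_product.1 hp'.1
      exact Finset.mem_filter.2 ⟨Finset.mem_product.2 ⟨hSS.2, hSS.1⟩, hp'.2.symm⟩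
    · rintro ⟨a, b⟩ hp
      have hp' := Finset.mem_filter.1 hp
      have hSS := Finset.mem_product.1 hp'.1
      exact Finset.mem_filter.2 ⟨Finset.mem_product.2 ⟨hSS.2, hSS.1⟩, hp'.2.symm⟩
    · rintro ⟨a, b⟩ _; rfl
    · rintro ⟨a, b⟩ _; rfl
    · rintro ⟨a, b⟩ _; rfl
  have h4 : ∑ p ∈ D, dsq χ s(p.1, p.2) = 2 * ∑ p ∈ D, χ p.1 * (χ p.1 - χ p.2) := by
    rw [two_mul]
    conv_rhs => rw [h3]
    rw [show ∑ p ∈ D, χ p.2 * (χ p.2 - χ p.1) + ∑ p ∈ D, χ p.2 * (χ p.2 - χ p.1) =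
      ∑ p ∈ D, χ p.1 * (χ p.1 - χ p.2) + ∑ p ∈ D, χ p.2 * (χ p.2 - χ p.1) by rw [h3],
      ← Finset.sum_add_distrib]
    refine Finset.sum_congr rfl fun p _ => ?_
    rw [dsq_mk]; ring
  have h5 : ∑ p ∈ D, χ p.1 * (χ p.1 - χ p.2) =
      ∑ u ∈ S, ∑ v ∈ nb G hf u, χ u * (χ u - χ v) := by
    rw [hD, Finset.sum_filter, Finset.sum_product]
    symm
    refine Finset.sum_subset_zero_on_sdiff hsub ?_ ?_
    · intro u hu
      have h0 := hS u (Finset.mem_sdiff.1 hu).2
      refine Finset.sum_eq_zero fun v _ => ?_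
      simp only [h0]
      split_ifs <;> simp
    · intro u hu
      refine Finset.sum_subset_zero_on_sdiff (hnb u hu) ?_ ?_
      · intro v hv
        have : ¬ G.Adj u v := fun h => (Finset.mem_sdiff.1 hv).2 ((mem_nb G hf).2 h)
        simp only [if_neg this]
      · intro v hv
        have : G.Adj u v := (mem_nb G hf).1 hv
        simp only [if_pos this]
  linarith

/-- the hitting probabilities, as real numbers -/
noncomputable def ch (G : SimpleGraph V) (o : V) (n : ℕ) (v : V) : ℝ := (hit G o n v).toReal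

theorem hit_supp (hf : ∀ v, (G.neighborSet v).Finite) (o : V) (n : ℕ) :
    {v | hit G o n v ≠ 0}.Finite := by
  induction n with
  | zero =>
    refine (Set.finite_singleton o).subset fun v hv => ?_
    by_contra h
    apply hv
    have h' : ¬ v = o := h
    simp [hit, h']
  | succ n ih =>
    refine ((Set.finite_singleton o).union (ih.biUnion fun y _ => hf y)).subset fun v hv => ?_
    by_cases h : v = o
    · exact Or.inl h
    · right
      have h1 : hit G o (n + 1) v = avg G (hit G o n) v := by simp [hit, h]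
      have h2 : hit G o (n + 1) v ≠ 0 := hv
      rw [h1] at h2
      obtain ⟨w, hw, hw2⟩ := avg_ne_zero h2
      exact Set.mem_biUnion (show w ∈ {v | hit G o n v ≠ 0} from hw2) hw.symm

theorem dg_toReal (v : V) : (dg G v).toReal = ((nb G hf v).card : ℝ) := by
  rw [dg_eq G v (hf v), ENNReal.toReal_natCast]
  rfl

theorem avg_real (f : V → ℝ≥0∞) (hfin : ∀ v, f v ≠ ∞) (v : V) (hv : ∃ w, G.Adj v w) :
    (avg G f v).toReal * ((nb G hf v).card : ℝ) = ∑ w ∈ nb G hf v, (f w).toReal := by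
  classical
  have h1 := avg_mul_dg G f v hv (hf v)
  rw [← dg_toReal G hf v, ← ENNReal.toReal_mul, h1, tsum_eq_sum (s := nb G hf v),
    ENNReal.toReal_sum]
  · refine Finset.sum_congr rfl fun w hw => ?_
    rw [if_pos ((mem_nb G hf).1 hw)]
  · intro w _
    split_ifs
    · exact hfin w
    · exact ENNReal.zero_ne_top
  · intro w hw
    rw [if_neg fun h => hw ((mem_nb G hf).2 h)]

theorem ch_self (o : V) (n : ℕ) : ch G o n o = 1 := by
  unfold ch
  rw [hit_self]; rfl

theorem ch_nonneg (o : V) (n : ℕ) (v : V) : 0 ≤ ch G o n v := ENNReal.toReal_nonneg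

theorem ch_le_one (hf : ∀ v, (G.neighborSet v).Finite) (o : V) (n : ℕ) (v : V) :
    ch G o n v ≤ 1 := by
  unfold ch
  have := ENNReal.toReal_mono ENNReal.one_ne_top (hit_le_one G hf o n v)
  simpa using this

theorem hit_ne_top (hf : ∀ v, (G.neighborSet v).Finite) (o : V) (n : ℕ) (v : V) :
    hit G o n v ≠ ∞ := ne_top_of_le_ne_top ENNReal.one_ne_top (hit_le_one G hf o n v)

/-- subharmonicity of the cutoff off the root -/
theorem ch_sub (o : V) (n : ℕ) (u : V) (hu : u ≠ o) :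
    ∑ v ∈ nb G hf u, (ch G o n u - ch G o n v) ≤ 0 := by
  by_cases hex : ∃ w, G.Adj u w
  · rw [Finset.sum_sub_distrib, Finset.sum_const, nsmul_eq_mul]
    cases n with
    | zero =>
      have h0 : ch G o 0 u = 0 := by
        unfold ch
        simp [hit, hu]
      rw [h0, mul_zero, zero_sub]
      exact neg_nonpos.2 (Finset.sum_nonneg fun v _ => ch_nonneg G o 0 v)
    | succ n =>
      have h1 : hit G o (n + 1) u = avg G (hit G o n) u := by simp [hit, hu]
      have h2 := avg_real G hf (hit G o n) (hit_ne_top G hf o n) u hex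
      rw [← h1] at h2
      have h3 : ∑ w ∈ nb G hf u, (hit G o n w).toReal ≤ ∑ w ∈ nb G hf u, ch G o (n + 1) w := by
        refine Finset.sum_le_sum fun w _ => ?_
        exact ENNReal.toReal_mono (hit_ne_top G hf o (n + 1) w) (hit_mono G o n w)
      have h4 : ch G o (n + 1) u = (hit G o (n + 1) u).toReal := rfl
      rw [h4, mul_comm]
      linarith
  · have : nb G hf u = ∅ := by
      rw [Finset.eq_empty_iff_forall_notMem]
      intro w hw
      exact hex ⟨w, (mem_nb G hf).1 hw⟩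
    rw [this, Finset.sum_empty]

/-- energy of the cutoff function -/
theorem ch_energy (o : V) (ho : ∃ w, G.Adj o w) (n : ℕ) (E : Finset (Sym2 V))
    (hE : ∀ e ∈ E, e ∈ G.edgeSet) :
    energy E (ch G o n) ≤ ((nb G hf o).card : ℝ) * (1 - (avg G (hit G o n) o).toReal) := by
  set S : Finset V := (hit_supp G hf o n).toFinset with hS
  have hS0 : ∀ v, v ∉ S → ch G o n v = 0 := by
    intro v hv
    unfold ch
    have : hit G o n v = 0 := by
      by_contra h
      exact hv ((Set.Finite.mem_toFinset _).2 h)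
    rw [this]; rfl
  have hoS : o ∈ S := by
    refine (Set.Finite.mem_toFinset _).2 ?_
    change hit G o n o ≠ 0
    rw [hit_self]; exact one_ne_zero
  refine (energy_parts G hf (ch G o n) S hS0 E hE).trans ?_
  rw [← Finset.add_sum_erase S _ hoS]
  have h1 : ∑ u ∈ S.erase o, ∑ v ∈ nb G hf u, ch G o n u * (ch G o n u - ch G o n v) ≤ 0 := by
    refine Finset.sum_nonpos fun u hu => ?_
    rw [← Finset.mul_sum]
    exact mul_nonpos_of_nonneg_of_nonpos (ch_nonneg G o n u)
      (ch_sub G hf o n u (Finset.ne_of_mem_erase hu))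
  have h2 : ∑ v ∈ nb G hf o, ch G o n o * (ch G o n o - ch G o n v) =
      ((nb G hf o).card : ℝ) * (1 - (avg G (hit G o n) o).toReal) := by
    rw [ch_self]
    simp only [one_mul]
    rw [Finset.sum_sub_distrib, Finset.sum_const, nsmul_eq_mul, mul_sub,
      mul_comm _ (avg G (hit G o n) o).toReal,
      avg_real G hf (hit G o n) (hit_ne_top G hf o n) o ho]
    rfl
  linarith

/-- cutoff functions of small energy -/
theorem exists_cutoff (hf : ∀ v, (G.neighborSet v).Finite) (o : V) (ho : ∃ w, G.Adj o w) (hR : ⨆ n, avg G (hit G o n) o = 1)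
    (δ : ℝ) (hδ : 0 < δ) :
    ∃ (S : Finset V) (χ : V → ℝ), (∀ v, v ∉ S → χ v = 0) ∧ (∀ v, 0 ≤ χ v ∧ χ v ≤ 1) ∧
      χ o = 1 ∧ ∀ E : Finset (Sym2 V), (∀ e ∈ E, e ∈ G.edgeSet) → energy E χ ≤ δ := by
  have h1 : Tendsto (fun n => avg G (hit G o n) o) atTop (𝓝 1) := by
    rw [← hR]
    refine tendsto_atTop_iSup ?_
    intro m n hmn
    exact avg_mono G o fun w _ => hit_monotone G o w hmn
  have h2 : Tendsto (fun n => (avg G (hit G o n) o).toReal) atTop (𝓝 1) := by
    have := (ENNReal.tendsto_toReal ENNReal.one_ne_top).comp h1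
    rw [ENNReal.toReal_one] at this
    exact this
  have h3 : Tendsto (fun n => ((nb G hf o).card : ℝ) * (1 - (avg G (hit G o n) o).toReal)) atTop
      (𝓝 (((nb G hf o).card : ℝ) * (1 - 1))) := (h2.const_sub 1).const_mul _
  rw [sub_self, mul_zero] at h3
  obtain ⟨n, hn⟩ := (h3.eventually (gt_mem_nhds hδ)).exists
  refine ⟨(hit_supp G hf o n).toFinset, ch G o n, ?_, ?_, ch_self G o n, ?_⟩
  · intro v hv
    unfold ch
    have : hit G o n v = 0 := by
      by_contra h
      exact hv ((Set.Finite.mem_toFinset _).2 h)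
    rw [this]; rfl
  · exact fun v => ⟨ch_nonneg G o n v, ch_le_one G hf o n v⟩
  · intro E hE
    exact (ch_energy G hf o ho n E hE).trans hn.le

end Energy

section Compare

variable [DecidableEq V] (G : SimpleGraph V) (hf : ∀ v, (G.neighborSet v).Finite)

theorem pe_nonneg (r : Setoid V) (E : Finset (Sym2 V)) (e : Sym2 V) : 0 ≤ pe r E e :=
  div_nonneg (Nat.cast_nonneg _) (Nat.cast_nonneg _)

theorem pe_le_one (r : Setoid V) (E : Finset (Sym2 V)) (e : Sym2 V) : pe r E e ≤ 1 := by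
  classical
  unfold pe
  have h0 : (0 : ℝ) < ((trees r E).card : ℝ) := by exact_mod_cast trees_card_pos r E
  rw [div_le_one h0]
  exact_mod_cast Finset.card_le_card (Finset.filter_subset _ _)

theorem sq_mul_diff (p q a b t : ℝ) (ht : 0 < t) (ha : 0 ≤ a ∧ a ≤ 1) (hq : 0 ≤ q ∧ q ≤ 1) :
    (p * a - q * b) ^ 2 ≤ (1 + t) * (p - q) ^ 2 + (1 + 1 / t) * (a - b) ^ 2 := by
  have e1 : p * a - q * b = a * (p - q) + q * (a - b) := by ring
  rw [e1]
  set x := p - q
  set y := a - b
  have h1 : (a * x) ^ 2 ≤ x ^ 2 := by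
    have : a ^ 2 ≤ 1 := by nlinarith
    have h0 := sq_nonneg x
    nlinarith
  have h2 : (q * y) ^ 2 ≤ y ^ 2 := by
    have : q ^ 2 ≤ 1 := by nlinarith
    have h0 := sq_nonneg y
    nlinarith
  have h3 : (a * x + q * y) ^ 2 ≤ (1 + t) * (a * x) ^ 2 + (1 + 1 / t) * (q * y) ^ 2 := by
    have h4 : 0 ≤ (t * (a * x) - q * y) ^ 2 / t := div_nonneg (sq_nonneg _) ht.le
    have h5 : (t * (a * x) - q * y) ^ 2 / t = t * (a * x) ^ 2 - 2 * (a * x) * (q * y) +
        1 / t * (q * y) ^ 2 := by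
      field_simp
      ring
    rw [h5] at h4
    nlinarith
  have h6 : 0 ≤ 1 + 1 / t := by positivity
  have h7 : 0 ≤ 1 + t := by positivity
  nlinarith [mul_le_mul_of_nonneg_left h1 h7, mul_le_mul_of_nonneg_left h2 h6]

/-- The free edge marginals are at most the wired ones, up to the energy of the cutoff. -/
theorem pe_compare {x y : V} (hxy : G.Adj x y) (S : Finset V) (χ : V → ℝ)
    (hS : ∀ v, v ∉ S → χ v = 0) (h01 : ∀ v, 0 ≤ χ v ∧ χ v ≤ 1) (hx : χ x = 1) (δ : ℝ)
    (hδ : ∀ E : Finset (Sym2 V), (∀ e ∈ E, e ∈ G.edgeSet) → energy E χ ≤ δ) (t : ℝ) (ht : 0 < t)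
    (E' : Finset (Sym2 V)) (hSE : ∀ e ∈ G.edgeSet, (∃ v ∈ S, v ∈ e) → e ∈ E')
    (B : Finset V) (hB : S ⊆ B) (E2 : Finset (Sym2 V))
    (hE2 : (E2 : Set (Sym2 V)) = touch G B) :
    pe ⊥ E' s(x, y) ≤ pe (wired B) E2 s(x, y) + (t + (1 + 1 / t) * δ) := by
  classical
  have hxS : x ∈ S := by
    by_contra h
    rw [hS x h] at hx
    exact zero_ne_one hx
  have hxyE' : s(x, y) ∈ E' := hSE _ hxy ⟨x, hxS, by simp⟩
  have hE2m : ∀ e, e ∈ E2 ↔ e ∈ G.edgeSet ∧ ∃ v ∈ B, v ∈ e := by
    intro e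
    rw [← Finset.mem_coe, hE2]
    rfl
  have hxyE2 : s(x, y) ∈ E2 := (hE2m _).2 ⟨hxy, x, hB hxS, by simp⟩
  obtain ⟨φ, -, hφ01, hφx, hφy, hφe⟩ := Pool.Agent.TH830.J73.K2 (⊥ : Setoid V) E' x y hxyE'
    (fun h => hxy.ne h)
  set ψ : V → ℝ := fun v => φ v * χ v with hψ
  have hψB : ∀ a b, (wired B) a b → ψ a = ψ b := by
    intro a b hab
    rcases hab with h | ⟨ha, hb⟩
    · rw [h]
    · simp only [hψ]
      rw [hS a (fun h => ha (hB h)), hS b (fun h => hb (hB h)), mul_zero, mul_zero]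
  have hK1 := Pool.Agent.TH830.J73.K1 (wired B) E2 x y hxyE2 ψ hψB
  have hψx : ψ x = 1 := by simp only [hψ, hφx, hx, mul_one]
  have hψy : ψ y = 0 := by simp only [hψ, hφy, zero_mul]
  rw [hψx, hψy, sub_zero, one_pow, one_mul] at hK1
  -- energy of the product
  have hen : energy E2 ψ ≤ (1 + t) * energy E' φ + (1 + 1 / t) * energy E2 χ := by
    have h1 : ∀ e ∈ E2, dsq ψ e ≤ (1 + t) * (if e ∈ E' then dsq φ e else 0) +
        (1 + 1 / t) * dsq χ e := by
      intro e he
      have h7 : 0 ≤ (1 + 1 / t) * dsq χ e := mul_nonneg (by positivity) (dsq_nonneg χ e)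
      split_ifs with h
      · induction e using Sym2.ind with
        | _ a b =>
          rw [dsq_mk, dsq_mk, dsq_mk]
          exact sq_mul_diff _ _ _ _ t ht (h01 a) (hφ01 b)
      · have h2 : dsq ψ e = 0 := by
          induction e using Sym2.ind with
          | _ a b =>
            have hno : ∀ v ∈ s(a, b), χ v = 0 := by
              intro v hv
              apply hS
              intro hvS
              exact h (hSE _ ((hE2m _).1 he).1 ⟨v, hvS, hv⟩)
            rw [dsq_mk]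
            simp only [hψ]
            rw [hno a (by simp), hno b (by simp)]
            ring
        rw [h2]
        linarith
    have h2 : energy E2 ψ ≤ ∑ e ∈ E2, ((1 + t) * (if e ∈ E' then dsq φ e else 0) +
        (1 + 1 / t) * dsq χ e) := Finset.sum_le_sum h1
    rw [Finset.sum_add_distrib, ← Finset.mul_sum, ← Finset.mul_sum, ← Finset.sum_filter] at h2
    have h3 : ∑ e ∈ E2.filter (fun e => e ∈ E'), dsq φ e ≤ energy E' φ :=
      Finset.sum_le_sum_of_subset_of_nonneg (fun e he => (Finset.mem_filter.1 he).2)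
        fun e _ _ => dsq_nonneg φ e
    have h4 : (1 + t) * ∑ e ∈ E2.filter (fun e => e ∈ E'), dsq φ e ≤ (1 + t) * energy E' φ :=
      mul_le_mul_of_nonneg_left h3 (by positivity)
    have h5 : (1 + 1 / t) * ∑ e ∈ E2, dsq χ e = (1 + 1 / t) * energy E2 χ := rfl
    linarith
  have hE2G : ∀ e ∈ E2, e ∈ G.edgeSet := fun e he => ((hE2m e).1 he).1
  have hχ := hδ E2 hE2G
  -- in terms of probabilities
  set P := pe ⊥ E' s(x, y) with hP
  set W := pe (wired B) E2 s(x, y) with hW
  have hn1 : (0 : ℝ) < ((trees ⊥ E').card : ℝ) := by exact_mod_cast trees_card_pos ⊥ E'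
  have hn2 : (0 : ℝ) < ((trees (wired B) E2).card : ℝ) := by
    exact_mod_cast trees_card_pos (wired B) E2
  have hPe : P * energy E' φ = 1 := by
    rw [hP]
    unfold pe
    rw [div_mul_eq_mul_div, div_eq_one_iff_eq hn1.ne']
    convert! hφe using 4
  have hWe : 1 ≤ W * energy E2 ψ := by
    rw [hW]
    unfold pe
    rw [div_mul_eq_mul_div, one_le_div hn2]
    convert! hK1 using 4
  have hP0 : 0 ≤ P := pe_nonneg _ _ _
  have hW0 : 0 ≤ W := pe_nonneg _ _ _
  have hP1 : P ≤ 1 := pe_le_one _ _ _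
  have hW1 : W ≤ 1 := pe_le_one _ _ _
  have hc : 0 ≤ 1 + 1 / t := by positivity
  have h1 : 1 ≤ W * ((1 + t) * energy E' φ + (1 + 1 / t) * δ) := by
    refine hWe.trans (mul_le_mul_of_nonneg_left (hen.trans ?_) hW0)
    have := mul_le_mul_of_nonneg_left hχ hc
    linarith
  have hδ0 : 0 ≤ δ := by
    have := hδ ∅ (fun e he => absurd he (Finset.notMem_empty e))
    unfold energy at this
    simpa using this
  have hcd : 0 ≤ (1 + 1 / t) * δ := mul_nonneg hc hδ0
  have h2 : P ≤ P * (W * ((1 + t) * energy E' φ + (1 + 1 / t) * δ)) := by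
    have := mul_le_mul_of_nonneg_left h1 hP0
    linarith
  have h3 : P * (W * ((1 + t) * energy E' φ + (1 + 1 / t) * δ)) =
      W * (1 + t) * (P * energy E' φ) + P * W * ((1 + 1 / t) * δ) := by ring
  rw [h3, hPe, mul_one] at h2
  have hPW : P * W ≤ 1 := by nlinarith
  have h4 : P * W * ((1 + 1 / t) * δ) ≤ 1 * ((1 + 1 / t) * δ) :=
    mul_le_mul_of_nonneg_right hPW hcd
  have h5 : W * t ≤ 1 * t := mul_le_mul_of_nonneg_right hW1 ht.le
  nlinarith

theorem pe_compare' (hf : ∀ v, (G.neighborSet v).Finite) {x y : V} (hxy : G.Adj x y) (hR : ⨆ n, avg G (hit G x n) x = 1)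
    (ε : ℝ) (hε : 0 < ε) :
    ∃ S : Finset V, ∀ E' : Finset (Sym2 V),
      (∀ e ∈ G.edgeSet, (∃ v ∈ S, v ∈ e) → e ∈ E') → ∀ B : Finset V, S ⊆ B →
      ∀ E2 : Finset (Sym2 V), (E2 : Set (Sym2 V)) = touch G B →
      pe ⊥ E' s(x, y) ≤ pe (wired B) E2 s(x, y) + ε := by
  have ht : 0 < ε / 2 := by linarith
  have hc : 0 < 1 + 1 / (ε / 2) := by positivity
  obtain ⟨S, χ, h1, h2, h3, h4⟩ := exists_cutoff G hf x ⟨y, hxy⟩ hR
    (ε / 2 / (1 + 1 / (ε / 2))) (by positivity)
  refine ⟨S, fun E' hE' B hB E2 hE2 => ?_⟩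
  have h5 := pe_compare G hxy S χ h1 h2 h3 _ h4 (ε / 2) ht E' hE' B hB E2 hE2
  have h6 : (1 + 1 / (ε / 2)) * (ε / 2 / (1 + 1 / (ε / 2))) = ε / 2 := by
    field_simp
  rw [h6] at h5
  linarith

/-- the edges touching a finite set of vertices are finite in number -/
theorem touch_finite (hf : ∀ v, (G.neighborSet v).Finite) (B : Finset V) :
    (touch G B).Finite := by
  have h1 : touch G B ⊆ ⋃ v ∈ (B : Set V), (fun w => s(v, w)) '' G.neighborSet v := by
    rintro e ⟨he, v, hv, hve⟩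
    obtain ⟨w, rfl⟩ := Sym2.mem_iff_exists.1 hve
    exact Set.mem_biUnion (Finset.mem_coe.2 hv) ⟨w, he, rfl⟩
  exact (Set.Finite.biUnion B.finite_toSet fun v _ => (hf v).image _).subset h1

/-- Convergence of the wired probabilities to the limit of the free ones. -/
theorem wired_tendsto (hf : ∀ v, (G.neighborSet v).Finite) (hrec : ∀ x, (∃ w, G.Adj x w) → ⨆ n, avg G (hit G x n) x = 1)
    (fr : ℕ → Finset (Sym2 V)) (hfr : ∀ n, ∀ e ∈ fr n, e ∈ G.edgeSet)
    (hcov : ∀ F' : Finset (Sym2 V), (∀ e ∈ F', e ∈ G.edgeSet) → ∃ n0, ∀ n, n0 ≤ n → F' ⊆ fr n)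
    (F : Finset (Sym2 V)) (hF : ∀ e ∈ F, e ∈ G.edgeSet) (A : Set (Sym2 V)) (L : ℝ)
    (hL : Tendsto (fun n => pr ⊥ (fr n) F A) atTop (𝓝 L)) (B : ℕ → Finset V)
    (hB : ∀ v, ∃ m0, ∀ m, m0 ≤ m → v ∈ B m) :
    Tendsto (fun m => ustProb (wired (B m)) (touch G (B m)) F A) atTop (𝓝 L) := by
  classical
  rw [Metric.tendsto_atTop]
  intro ε hε
  have hε' : 0 < ε / (2 * ((F.card : ℝ) + 1)) := by positivity
  have hS : ∀ e ∈ F, ∃ S : Finset V, ∀ E' : Finset (Sym2 V),
      (∀ e ∈ G.edgeSet, (∃ v ∈ S, v ∈ e) → e ∈ E') → ∀ B : Finset V, S ⊆ B →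
      ∀ E2 : Finset (Sym2 V), (E2 : Set (Sym2 V)) = touch G B →
      pe ⊥ E' e ≤ pe (wired B) E2 e + ε / (2 * ((F.card : ℝ) + 1)) := by
    intro e he
    have := hF e he
    induction e using Sym2.ind with
    | _ x y =>
      have hxy : G.Adj x y := this
      exact pe_compare' G hf hxy (hrec x ⟨y, hxy⟩) _ hε'
  choose! Sf hSf using hS
  set S : Finset V := F.biUnion Sf with hSdef
  have hTf := touch_finite G hf S
  obtain ⟨n1, hn1⟩ := hcov (hTf.toFinset ∪ F) (by
    intro e he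
    rcases Finset.mem_union.1 he with h | h
    · exact ((Set.Finite.mem_toFinset _).1 h).1
    · exact hF e h)
  obtain ⟨n2, hn2⟩ := Metric.tendsto_atTop.1 hL (ε / 2) (by linarith)
  set n := max n1 n2 with hn
  have hcovn := hn1 n (le_max_left _ _)
  have hLn := hn2 n (le_max_right _ _)
  have hSE : ∀ e ∈ F, ∀ e' ∈ G.edgeSet, (∃ v ∈ Sf e, v ∈ e') → e' ∈ fr n := by
    rintro e he e' he' ⟨v, hv, hv2⟩
    refine hcovn (Finset.mem_union_left _ ((Set.Finite.mem_toFinset _).2 ⟨he', v, ?_, hv2⟩))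
    exact Finset.mem_biUnion.2 ⟨e, he, hv⟩
  -- vertices which have to be covered
  have hVB : ∀ D : Finset V, ∃ m0, ∀ m, m0 ≤ m → D ⊆ B m := by
    intro D
    induction D using Finset.induction_on with
    | empty => exact ⟨0, fun m _ => Finset.empty_subset _⟩
    | insert v D _ ih =>
      obtain ⟨m0, hm0⟩ := ih
      obtain ⟨m1, hm1⟩ := hB v
      refine ⟨max m0 m1, fun m hm => Finset.insert_subset (hm1 m ((le_max_right _ _).trans hm))
        (hm0 m ((le_max_left _ _).trans hm))⟩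
  obtain ⟨m0, hm0⟩ := hVB (S ∪ (fr n).image (fun e => e.out.1))
  refine ⟨m0, fun m hm => ?_⟩
  have hBm := hm0 m hm
  have hSB : S ⊆ B m := Finset.subset_union_left.trans hBm
  set E2 : Finset (Sym2 V) := (touch_finite G hf (B m)).toFinset with hE2
  have hE2c : (E2 : Set (Sym2 V)) = touch G (B m) := Set.Finite.coe_toFinset _
  rw [← hE2c, ustProb_eq]
  have hfrE2 : fr n ⊆ E2 := by
    intro e he
    rw [hE2, Set.Finite.mem_toFinset]
    refine ⟨hfr n e he, e.out.1, ?_, Sym2.out_fst_mem e⟩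
    exact hBm (Finset.mem_union_right _ (Finset.mem_image_of_mem (fun e : Sym2 V => e.out.1) he))
  have hFfr : F ⊆ fr n := Finset.subset_union_right.trans hcovn
  have h1 := pr_sub_le (wired (B m)) E2 (fr n) hfrE2 F hFfr A
  have h2 : ∑ e ∈ F, (pe ⊥ (fr n) e - pe (wired (B m)) E2 e) ≤
      ∑ _e ∈ F, ε / (2 * ((F.card : ℝ) + 1)) := by
    refine Finset.sum_le_sum fun e he => ?_
    have h3 := hSf e he (fr n) (hSE e he) (B m)
      ((Finset.subset_biUnion_of_mem Sf he).trans hSB) E2 hE2c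
    linarith
  rw [Finset.sum_const, nsmul_eq_mul] at h2
  have h4 : (F.card : ℝ) * (ε / (2 * ((F.card : ℝ) + 1))) < ε / 2 := by
    have h5 : (0 : ℝ) ≤ F.card := Nat.cast_nonneg _
    rw [← mul_div_assoc, div_lt_div_iff₀ (by positivity) (by norm_num)]
    nlinarith
  rw [Real.dist_eq] at hLn ⊢
  have h6 := abs_le.1 (h1.trans h2)
  have h7 := abs_lt.1 hLn
  rw [abs_lt]
  constructor <;> linarith [h6.1, h6.2, h7.1, h7.2]

end Compare

end Pool.Agent.U635
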