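import Pool.Agent.U635.Lim

/-!
# Splitting labels
-/

set_option autoImplicit false
set_option linter.unusedSectionVars false

namespace Pool.Agent.U635

open MeasureTheory Filter
open scoped ENNReal Topology

section Split

variable {ι κ : Type*}

theorem elim_map : ((mu ι).prod (mu κ)).map (fun p : (ι → unitInterval) × (κ → unitInterval) =>
    Sum.elim p.1 p.2) = mu (ι ⊕ κ) := by
  have hm : Measurable (fun p : (ι → unitInterval) × (κ → unitInterval) =>
      (Sum.elim p.1 p.2 : ι ⊕ κ → unitInterval)) := by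
    refine measurable_pi_iff.2 fun i => ?_
    rcases i with i | i
    · simp only [Sum.elim_inl]; fun_prop
    · simp only [Sum.elim_inr]; fun_prop
  refine Measure.eq_infinitePi (fun _ : ι ⊕ κ => (volume : Measure unitInterval))
    fun s t ht => ?_
  rw [Measure.map_apply hm (.pi s.countable_toSet fun i _ => ht i)]
  have h1 : (fun p : (ι → unitInterval) × (κ → unitInterval) =>
      (Sum.elim p.1 p.2 : ι ⊕ κ → unitInterval)) ⁻¹' (Set.pi (s : Set (ι ⊕ κ)) t) =
      (Set.pi (s.toLeft : Set ι) fun i => t (Sum.inl i)) ×ˢ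
      (Set.pi (s.toRight : Set κ) fun i => t (Sum.inr i)) := by
    ext p
    simp only [Set.mem_preimage, Set.mem_pi, Set.mem_prod, Finset.mem_coe, Finset.mem_toLeft,
      Finset.mem_toRight]
    constructor
    · intro h
      exact ⟨fun i hi => h (Sum.inl i) hi, fun i hi => h (Sum.inr i) hi⟩
    · rintro ⟨h1, h2⟩ i hi
      rcases i with i | i
      · exact h1 i hi
      · exact h2 i hi
  rw [h1, Measure.prod_prod, Measure.infinitePi_pi _ fun i _ => ht _,
    Measure.infinitePi_pi _ fun i _ => ht _]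
  conv_rhs => rw [← Finset.toLeft_disjSum_toRight (u := s), Finset.prod_disjSum]

/-- labels of both kinds at each vertex -/
noncomputable abbrev lamL (V : Type*) : Measure (V → ℕ ⊕ ℕ → unitInterval) :=
  Measure.infinitePi fun _ : V => Measure.infinitePi fun _ : ℕ ⊕ ℕ =>
    (volume : Measure unitInterval)

theorem lamL_split (V : Type*) : (lamL V).map (fun w => ((fun v n => w v (Sum.inl n) :
    V → ℕ → unitInterval), (fun v n => w v (Sum.inr n) : V → ℕ → unitInterval))) =
    (lam V).prod (lam V) := by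
  -- everything is an image of the flat product
  let e : V × (ℕ ⊕ ℕ) → (V × ℕ) ⊕ (V × ℕ) := fun p =>
    Sum.elim (fun n => Sum.inl (p.1, n)) (fun n => Sum.inr (p.1, n)) p.2
  have he : Function.Injective e := by
    rintro ⟨v, n | n⟩ ⟨w, m | m⟩ h
    · simp only [e, Sum.elim_inl] at h
      have := Sum.inl_injective h
      rw [Prod.mk.injEq] at this
      rw [this.1, this.2]
    · simp [e] at h
    · simp [e] at h
    · simp only [e, Sum.elim_inr] at h
      have := Sum.inr_injective h
      rw [Prod.mk.injEq] at this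
      rw [this.1, this.2]
  have h1 : (mu ((V × ℕ) ⊕ (V × ℕ))).map (fun f p => f (e p)) = mu (V × (ℕ ⊕ ℕ)) :=
    Measure.map_infinitePi_infinitePi_of_inj
      (P := fun _ : (V × ℕ) ⊕ (V × ℕ) => (volume : Measure unitInterval)) he
  have h2 : (mu (V × (ℕ ⊕ ℕ))).map (MeasurableEquiv.curry V (ℕ ⊕ ℕ) unitInterval) = lamL V :=
    Measure.infinitePi_map_curry (fun (_ : V) (_ : ℕ ⊕ ℕ) => (volume : Measure unitInterval))
  have h3 : (mu (V × ℕ)).map (MeasurableEquiv.curry V ℕ unitInterval) = lam V :=
    Measure.infinitePi_map_curry (fun (_ : V) (_ : ℕ) => (volume : Measure unitInterval))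
  have hm1 : Measurable (fun (f : (V × ℕ) ⊕ (V × ℕ) → unitInterval) (p : V × (ℕ ⊕ ℕ)) =>
      f (e p)) := by fun_prop
  have hm2 : Measurable (fun w : V → ℕ ⊕ ℕ → unitInterval => ((fun v n => w v (Sum.inl n) :
    V → ℕ → unitInterval), (fun v n => w v (Sum.inr n) : V → ℕ → unitInterval))) := by fun_prop
  rw [← h2, ← h1, Measure.map_map (MeasurableEquiv.measurable _) hm1,
    Measure.map_map hm2 ((MeasurableEquiv.measurable _).comp hm1), ← elim_map, ← h3,
    Measure.map_prod_map _ _ (MeasurableEquiv.measurable _) (MeasurableEquiv.measurable _)]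
  rw [Measure.map_map (hm2.comp ((MeasurableEquiv.measurable _).comp hm1))]
  · rfl
  · refine measurable_pi_iff.2 fun i => ?_
    rcases i with i | i
    · simp only [Sum.elim_inl]; fun_prop
    · simp only [Sum.elim_inr]; fun_prop

/-- one uniform label encodes countably many -/
theorem exists_s : ∃ s : unitInterval → (ℕ ⊕ ℕ → unitInterval), Measurable s ∧
    (volume : Measure unitInterval).map s =
      Measure.infinitePi fun _ : ℕ ⊕ ℕ => (volume : Measure unitInterval) :=
  Measure.exists_measurable_map_eq _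

/-- a fixed encoding -/
noncomputable def sv : unitInterval → (ℕ ⊕ ℕ → unitInterval) := exists_s.choose

theorem sv_meas : Measurable sv := exists_s.choose_spec.1

theorem sv_map : (volume : Measure unitInterval).map sv =
    Measure.infinitePi fun _ : ℕ ⊕ ℕ => (volume : Measure unitInterval) := exists_s.choose_spec.2

theorem mu_sv (V : Type*) : (mu V).map (fun u v => sv (u v)) = lamL V := by
  have h := Measure.infinitePi_map_pi (μ := fun _ : V => (volume : Measure unitInterval))
    (f := fun (_ : V) => sv) (fun _ => sv_meas)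
  have h2 : (fun (_ : V) => Measure.map sv (volume : Measure unitInterval)) = fun _ : V =>
      Measure.infinitePi fun _ : ℕ ⊕ ℕ => (volume : Measure unitInterval) := by
    funext v
    exact sv_map
  rw [show mu V = Measure.infinitePi fun _ : V => (volume : Measure unitInterval) from rfl, h]
  congr 1

theorem mu_split (V : Type*) : (mu V).map (fun u => ((fun v n => sv (u v) (Sum.inl n) :
    V → ℕ → unitInterval), (fun v n => sv (u v) (Sum.inr n) : V → ℕ → unitInterval))) =
    (lam V).prod (lam V) := by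
  have hm2 : Measurable (fun w : V → ℕ ⊕ ℕ → unitInterval => ((fun v n => w v (Sum.inl n) :
    V → ℕ → unitInterval), (fun v n => w v (Sum.inr n) : V → ℕ → unitInterval))) := by fun_prop
  have hm1 : Measurable (fun (u : V → unitInterval) v => sv (u v)) := by
    have := sv_meas
    fun_prop
  rw [← lamL_split, ← mu_sv, Measure.map_map hm2 hm1]
  rfl

end Split

section Select

/-- choosing a sequence of scales -/
theorem exists_scales {ι : Type*} [Countable ι] (f : ℕ → ι → ℝ≥0∞) (C : ι → ℝ≥0∞)
    (hC : ∀ i, C i ≠ ∞) (hfC : ∀ N i, f N i ≤ C i)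
    (hf : ∀ i, Tendsto (fun N => f N i) atTop (𝓝 0)) :
    ∃ N : ℕ → ℕ, (∀ n, 1 ≤ N n) ∧ ∀ i, ∑' n, f (N n) i ≠ ∞ := by
  classical
  obtain ⟨enc, henc⟩ := exists_injective_nat ι
  have hfin : ∀ n : ℕ, {i : ι | enc i ≤ n}.Finite := fun n =>
    Set.Finite.preimage henc.injOn (Set.finite_le_nat n)
  have hstep : ∀ n : ℕ, ∃ N, 1 ≤ N ∧ ∀ i, enc i ≤ n → f N i ≤ (2⁻¹ : ℝ≥0∞) ^ n := by
    intro n
    have h1 : ∀ i ∈ (hfin n).toFinset, ∀ᶠ N in atTop, f N i ≤ (2⁻¹ : ℝ≥0∞) ^ n := by
      intro i _
      have hpos : (0 : ℝ≥0∞) < (2⁻¹ : ℝ≥0∞) ^ n :=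
        ENNReal.pow_pos (ENNReal.inv_pos.2 (by norm_num)) n
      exact ((hf i).eventually (gt_mem_nhds hpos)).mono fun N h => le_of_lt h
    have h2 := (Finset.eventually_all (hfin n).toFinset).2 h1
    obtain ⟨N, hN1, hN2⟩ := ((eventually_ge_atTop 1).and h2).exists
    exact ⟨N, hN1, fun i hi => hN2 i ((Set.Finite.mem_toFinset _).2 hi)⟩
  choose N hN1 hN2 using hstep
  refine ⟨N, hN1, fun i => ?_⟩
  have h1 : ∀ n, f (N n) i ≤ (if n < enc i then C i else 0) + (2⁻¹ : ℝ≥0∞) ^ n := by
    intro n
    by_cases h : n < enc i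
    · rw [if_pos h]
      exact (hfC _ _).trans le_self_add
    · rw [if_neg h, zero_add]
      exact hN2 n i (not_lt.1 h)
  have h2 : ∑' n, f (N n) i ≤ ∑' n, ((if n < enc i then C i else 0) + (2⁻¹ : ℝ≥0∞) ^ n) :=
    ENNReal.tsum_le_tsum h1
  refine ne_top_of_le_ne_top ?_ h2
  rw [ENNReal.tsum_add]
  refine ENNReal.add_ne_top.2 ⟨?_, ?_⟩
  · rw [tsum_eq_sum (s := Finset.range (enc i))]
    · rw [ENNReal.sum_ne_top]
      intro n _
      split_ifs
      · exact hC i
      · exact ENNReal.zero_ne_top
    · intro n hn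
      rw [if_neg]
      simpa using hn
  · rw [ENNReal.tsum_geometric]
    rw [ENNReal.inv_ne_top]
    intro h
    rw [ENNReal.one_sub_inv_two] at h
    exact ENNReal.inv_ne_zero.2 (by norm_num) h

end Select

end Pool.Agent.U635
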