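import Pool.Agent.U635.Meas

/-!
# The law of the forests: uniform spanning trees of the finite classes
-/

set_option autoImplicit false
set_option linter.unusedSectionVars false

namespace Pool.Agent.U635

open Pool.Agent.TH968.UST Pool.Agent.TH830.UST MeasureTheory ProbabilityTheory
open scoped ENNReal

variable {V : Type*} [Countable V]

section Indep

/-- coordinates in disjoint finite sets are independent -/
theorem indep_coords (S S' : Finset (V × ℕ)) (hd : Disjoint S S')
    {A B : Set (V → ℕ → unitInterval)} (hA : MeasurableSet A) (hB : MeasurableSet B)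
    (hA' : ∀ r r', (∀ p ∈ S, r p.1 p.2 = r' p.1 p.2) → (r ∈ A → r' ∈ A))
    (hB' : ∀ r r', (∀ p ∈ S', r p.1 p.2 = r' p.1 p.2) → (r ∈ B → r' ∈ B)) :
    lam V (A ∩ B) = lam V A * lam V B := by
  classical
  have hind : iIndepFun (fun (p : V × ℕ) (r : V → ℕ → unitInterval) => r p.1 p.2) (lam V) :=
    iIndepFun_uncurry_infinitePi' (ι := V) (κ := ℕ) (Ω := fun _ _ => unitInterval)
      (X := fun _ _ x => x) (μ := fun _ _ => (volume : Measure unitInterval))
      (fun _ _ => measurable_id)
  have hI := hind.indepFun_finset S S' hd (fun p => by fun_prop)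
  let ext : (S : Finset (V × ℕ)) → (S → unitInterval) → V → ℕ → unitInterval :=
    fun S y v n => if h : (v, n) ∈ S then y ⟨(v, n), h⟩ else 0
  have hext : ∀ S, Measurable (ext S) := by
    intro S
    refine measurable_pi_iff.2 fun v => measurable_pi_iff.2 fun n => ?_
    by_cases h : (v, n) ∈ S
    · simp only [ext, dif_pos h]
      exact measurable_pi_apply _
    · simp only [ext, dif_neg h]
      exact measurable_const
  have key : ∀ (S : Finset (V × ℕ)) (A : Set (V → ℕ → unitInterval)),
      (∀ r r', (∀ p ∈ S, r p.1 p.2 = r' p.1 p.2) → (r ∈ A → r' ∈ A)) →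
      (fun (r : V → ℕ → unitInterval) (p : S) => r p.1.1 p.1.2) ⁻¹' (ext S ⁻¹' A) = A := by
    intro S A hA'
    ext r
    rw [Set.mem_preimage, Set.mem_preimage]
    constructor
    · refine hA' _ _ fun p hp => ?_
      simp only [ext, dif_pos hp]
    · refine hA' _ _ fun p hp => ?_
      simp only [ext, dif_pos hp]
  have h := hI.measure_inter_preimage_eq_mul _ _ (hext S hA) (hext S' hB)
  rw [key S A hA', key S' B hB'] at h
  exact h

theorem lam_coord (v : V) (n : ℕ) {B : Set unitInterval} (hB : MeasurableSet B) :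
    lam V {r | r v n ∈ B} = volume B := by
  have h1 : (lam V).map (fun r => r v n) = volume := by
    have h2 : (lam V).map (fun r => r v) =
        Measure.infinitePi fun _ : ℕ => (volume : Measure unitInterval) :=
      Measure.infinitePi_map_eval
        (fun _ : V => Measure.infinitePi fun _ : ℕ => (volume : Measure unitInterval)) v
    have h3 := Measure.infinitePi_map_eval (fun _ : ℕ => (volume : Measure unitInterval)) n
    rw [← h2, Measure.map_map (measurable_pi_apply n) (measurable_pi_apply v)] at h3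
    exact h3
  rw [← h1, Measure.map_apply (by fun_prop) hB]
  rfl

theorem vol_jj {k j : ℕ} (hj : j < k) : volume {t : unitInterval | jj t k = j} =
    (k : ℝ≥0∞)⁻¹ := by
  have hk : 0 < k := by omega
  have hk' : (0 : ℝ) < k := by exact_mod_cast hk
  have hj' : (j : ℝ) + 1 ≤ k := by exact_mod_cast hj
  have hj0 : (0 : ℝ) ≤ j := Nat.cast_nonneg j
  have m1 : (j : ℝ) / k ∈ unitInterval :=
    ⟨by positivity, (div_le_one hk').2 (by linarith)⟩
  have m2 : ((j : ℝ) + 1) / k ∈ unitInterval :=
    ⟨by positivity, (div_le_one hk').2 hj'⟩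
  have h1 : ∀ᵐ t : unitInterval, t ≠ 1 := by
    rw [ae_iff]
    simp
  have h2 : {t : unitInterval | jj t k = j} =ᵐ[volume]
      Set.Ico (⟨(j : ℝ) / k, m1⟩ : unitInterval) ⟨((j : ℝ) + 1) / k, m2⟩ := by
    filter_upwards [h1] with t ht
    have ht1 : (t : ℝ) < 1 := lt_of_le_of_ne t.2.2 (fun h => ht (Subtype.ext h))
    have ht0 : (0 : ℝ) ≤ t := t.2.1
    have hf : ⌊(t : ℝ) * k⌋₊ < k := by
      rw [Nat.floor_lt (mul_nonneg ht0 hk'.le)]
      nlinarith
    apply propext
    change jj t k = j ↔ t ∈ Set.Ico (⟨(j : ℝ) / k, m1⟩ : unitInterval) ⟨((j : ℝ) + 1) / k, m2⟩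
    unfold jj
    rw [Nat.mod_eq_of_lt hf, Nat.floor_eq_iff (mul_nonneg ht0 hk'.le), Set.mem_Ico,
      ← Subtype.coe_le_coe, ← Subtype.coe_lt_coe]
    simp only
    rw [div_le_iff₀ hk', lt_div_iff₀ hk']
  rw [measure_congr h2, unitInterval.volume_Ico]
  simp only
  have h3 : ((j : ℝ) + 1) / k - (j : ℝ) / k = (k : ℝ)⁻¹ := by
    field_simp; ring
  rw [h3, ENNReal.ofReal_inv_of_pos hk', ENNReal.ofReal_natCast]

theorem lam_jj (v : V) (n : ℕ) {k : ℕ} (J : Finset ℕ) (hJ : ∀ j ∈ J, j < k) :
    lam V {r | jj (r v n) k ∈ J} = (J.card : ℝ≥0∞) * (k : ℝ≥0∞)⁻¹ := by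
  have hm : ∀ j, MeasurableSet {t : unitInterval | jj t k = j} := fun j =>
    (meas_jj k) (measurableSet_singleton j)
  have h1 : {r : V → ℕ → unitInterval | jj (r v n) k ∈ J} =
      {r | r v n ∈ ⋃ j ∈ J, {t : unitInterval | jj t k = j}} := by
    ext r; simp
  rw [h1, lam_coord v n (Finset.measurableSet_biUnion _ fun j _ => hm j),
    measure_biUnion_finset _ fun j _ => hm j]
  · rw [Finset.sum_congr rfl fun j hj => vol_jj (hJ j hj), Finset.sum_const, nsmul_eq_mul]
  · intro i _ j _ hij
    rw [Function.onFun, Set.disjoint_left]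
    intro t h1 h2
    exact hij ((show jj t k = i from h1).symm.trans h2)

end Indep

section Law

variable {G : SimpleGraph V} {R : ℕ → V → V → Prop} {o : V → unitInterval}

theorem meas_rsT (n : ℕ) (D : Finset V) (t : Finset (Sym2 V)) :
    MeasurableSet {r : V → ℕ → unitInterval | rs (T G R o r n) D = t} := by
  classical
  apply measurableSet_setOfPred.2
  simp only [Finset.ext_iff]
  refine Measurable.forall fun e => Measurable.iff ?_ measurable_const
  unfold rs
  simp only [Finset.mem_filter]
  refine Measurable.and measurable_const ?_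
  exact meas_T (Ω := V → ℕ → unitInterval) (G := fun _ => G) (R := fun _ => R) (o := fun _ => o)
    (r := fun r => r) measurable_const (fun _ _ _ => measurable_const)
    (fun _ => measurable_const) (fun v n => by fun_prop) n e

/-- The forest of level `n` is uniform on the saturated set `D`. -/
def Uni (G : SimpleGraph V) (R : ℕ → V → V → Prop) (o : V → unitInterval) (n : ℕ)
    (D : Finset V) : Prop :=
  ∀ t ∈ trees ⊥ (rs (Ed G (R n)) D), lam V {r | rs (T G R o r n) D = t} =
    ((trees ⊥ (rs (Ed G (R n)) D)).card : ℝ≥0∞)⁻¹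

theorem uni_class [DecidableEq V] (hR : Chain R) (ho : Function.Injective o) (n : ℕ) (x : V)
    (h : Uni G R o n (cl hR (n + 1) x)) : Uni G R o (n + 1) (cl hR (n + 1) x) := by
  intro t' ht'
  obtain ⟨v, hv, hv0⟩ := exists_min (o := o) (hR.refl (n + 1)) (hR.symm (n + 1))
    (hR.trans (n + 1)) (hR.fin (n + 1)) x
  set C := cl hR (n + 1) x with hC
  set E1 := rs (Ed G (R n)) C with hE1
  set E2 := rs (Ed G (R (n + 1))) C with hE2
  set p : Sym2 V → Sym2 ℕ := Sym2.map (rk (R (n + 1)) o) with hp
  set A1 := E1.image p with hA1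
  set A2 := E2.image p with hA2
  have hinj := rk_injOn (o := o) hR ho (n + 1) x
  have hA12 : A1 ⊆ A2 := Finset.image_subset_image (rs_mono (Ed_mono hR n) _)
  have hN1 : (trees ⊥ A1).card = (trees ⊥ E1).card := card_trees_image _ hinj (rs_inside _ _)
  have hN2 : (trees ⊥ A2).card = (trees ⊥ E2).card := card_trees_image _ hinj (rs_inside _ _)
  have hsat := Sat.down (hR := hR) (sat_cl hR (n + 1) x)
  have hIsT := isT (G := G) hR ho n C hsat
  let J : Finset (Sym2 V) → Finset ℕ := fun t =>
    (Finset.range (trees ⊥ A2).card).filter (fun j => kap A1 A2 (t.image p) j = t'.image p)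
  let A : Finset (Sym2 V) → Set (V → ℕ → unitInterval) := fun t => {r | rs (T G R o r n) C = t}
  let B : Finset (Sym2 V) → Set (V → ℕ → unitInterval) := fun t =>
    {r | jj (r v n) (trees ⊥ A2).card ∈ J t}
  have hset : {r | rs (T G R o r (n + 1)) C = t'} = ⋃ t ∈ trees ⊥ E1, (A t ∩ B t) := by
    ext r
    simp only [Set.mem_ofPred_eq, Set.mem_iUnion, Set.mem_inter_iff, A, B, J, Finset.mem_filter,
      Finset.mem_range, exists_prop]
    have hj := jj_lt (r v n) (trees_card_pos ⊥ A2)
    have hstep := rs_T_succ (G := G) hR ho r n x v hv hv0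
    have himg : img hR o n x (T G R o r n) = (rs (T G R o r n) C).image p := rfl
    have hk := ((kap_spec hA12).1 _ (img_T_mem (G := G) hR ho n x hIsT r) _ hj).1
    change rs (T G R o r (n + 1)) C = dec (rk (R (n + 1)) o) E2
      (kap A1 A2 (img hR o n x (T G R o r n)) (jj (r v n) (trees ⊥ A2).card)) at hstep
    rw [himg] at hstep hk
    constructor
    · intro hr
      refine ⟨rs (T G R o r n) C, hIsT r, rfl, hj, ?_⟩
      rw [hstep] at hr
      rw [← hr]
      exact (image_dec _ E2 (mem_trees.1 hk).1).symm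
    · rintro ⟨t, ht, hrt, -, hk2⟩
      rw [hstep, hrt, hk2]
      exact dec_image _ hinj (rs_inside _ _) (mem_trees.1 ht').1
  have hAm : ∀ t, MeasurableSet (A t) := fun t => meas_rsT n C t
  have hBm : ∀ t, MeasurableSet (B t) := by
    intro t
    have h1 : Measurable fun r : V → ℕ → unitInterval => jj (r v n) (trees ⊥ A2).card :=
      (meas_jj _).comp (by fun_prop)
    exact h1 (Finset.measurableSet (J t))
  rw [hset, measure_biUnion_finset _ fun t _ => (hAm t).inter (hBm t)]
  · have hval : ∀ t ∈ trees ⊥ E1, lam V (A t ∩ B t) =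
        ((trees ⊥ E1).card : ℝ≥0∞)⁻¹ * (((J t).card : ℝ≥0∞) * ((trees ⊥ A2).card : ℝ≥0∞)⁻¹) := by
      intro t ht
      rw [indep_coords (C ×ˢ Finset.range n) {(v, n)} _ (hAm t) (hBm t)]
      · rw [h t ht, lam_jj v n (J t) fun j hj => Finset.mem_range.1 (Finset.mem_filter.1 hj).1]
      · intro r r' hrr hr
        have := T_local (G := G) (o := o) hR ho n C hsat r r' (fun v hv m hm =>
          hrr (v, m) (Finset.mem_product.2 ⟨hv, Finset.mem_range.2 hm⟩))
        change rs (T G R o r' n) C = t
        rw [← this]; exact hr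
      · intro r r' hrr hr
        have := hrr (v, n) (Finset.mem_singleton_self _)
        simp only at this
        change jj (r' v n) _ ∈ J t
        rw [← this]; exact hr
      · rw [Finset.disjoint_singleton_right, Finset.mem_product, Finset.mem_range]
        exact fun h => lt_irrefl _ h.2
    rw [Finset.sum_congr rfl hval, ← Finset.mul_sum, ← Finset.sum_mul]
    have hcount : ∑ t ∈ trees ⊥ E1, (J t).card = (trees ⊥ E1).card := by
      have h1 := (kap_spec hA12).2 (t'.image p)
        ((image_mem_trees _ hinj (rs_inside _ _) (mem_trees.1 ht').1).2 ht')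
      rw [← hN1, ← h1, Finset.card_filter, Finset.sum_product]
      have h2 : ∀ t, (J t).card = ∑ j ∈ Finset.range (trees ⊥ A2).card,
          (if kap A1 A2 (t.image p) j = t'.image p then 1 else 0) := fun t =>
        Finset.card_filter _ _
      rw [Finset.sum_congr rfl fun t _ => h2 t]
      refine Finset.sum_bij' (fun t _ => t.image p) (fun s _ => dec (rk (R (n + 1)) o) E1 s)
        ?_ ?_ ?_ ?_ ?_
      · intro t ht
        exact (image_mem_trees _ hinj (rs_inside _ _) (mem_trees.1 ht).1).2 ht
      · intro s hs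
        exact dec_mem_trees _ hinj (rs_inside _ _) hs
      · intro t ht
        exact dec_image _ hinj (rs_inside _ _) (mem_trees.1 ht).1
      · intro s hs
        exact image_dec _ E1 (mem_trees.1 hs).1
      · intro t ht
        rfl
    rw [← Nat.cast_sum, hcount, hN2, ← mul_assoc, ENNReal.inv_mul_cancel, one_mul]
    · exact_mod_cast (trees_card_pos ⊥ E1).ne'
    · exact ENNReal.natCast_ne_top _
  · intro s _ t _ hst
    rw [Function.onFun, Set.disjoint_left]
    rintro r ⟨h1, -⟩ ⟨h2, -⟩
    exact hst ((show rs (T G R o r n) C = s from h1).symm.trans h2)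

theorem uni_union [DecidableEq V] (hR : Chain R) (ho : Function.Injective o) {n : ℕ}
    {D1 D2 : Finset V} (h1 : Sat R n D1)
    (h2 : Sat R n D2) (hd : Disjoint D1 D2) (i1 : Uni G R o n D1) (i2 : Uni G R o n D2) :
    Uni G R o n (D1 ∪ D2) := by
  intro t ht
  have hd' : Disjoint (D1 : Set V) (D2 : Set V) := Finset.disjoint_coe.2 hd
  have hE := rs_union hR h1 h2 (Set.Subset.refl (Ed G (R n)))
  rw [hE] at ht ⊢
  obtain ⟨k1, k2, k3⟩ := (mem_trees_union hd' (rs_inside _ _) (rs_inside _ _) t).1 ht
  rw [card_trees_union hd' (rs_inside _ _) (rs_inside _ _)]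
  have hset : {r | rs (T G R o r n) (D1 ∪ D2) = t} =
      {r | rs (T G R o r n) D1 = t ∩ rs (Ed G (R n)) D1} ∩
      {r | rs (T G R o r n) D2 = t ∩ rs (Ed G (R n)) D2} := by
    ext r
    simp only [Set.mem_ofPred_eq, Set.mem_inter_iff]
    constructor
    · intro hr
      rw [← hr]
      exact ⟨(rs_inter _ _ _ _ (T_sub _ _ _ _ _) Finset.subset_union_left).symm,
        (rs_inter _ _ _ _ (T_sub _ _ _ _ _) Finset.subset_union_right).symm⟩
    · rintro ⟨e1, e2⟩
      rw [rs_union hR h1 h2 (T_sub _ _ _ _ _), e1, e2, ← Finset.inter_union_distrib_left,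
        Finset.inter_eq_left.2 k1]
  rw [hset, indep_coords (D1 ×ˢ Finset.range n) (D2 ×ˢ Finset.range n) _ (meas_rsT n D1 _)
    (meas_rsT n D2 _)]
  · rw [i1 _ k2, i2 _ k3, Nat.cast_mul, ENNReal.mul_inv]
    · exact Or.inr (ENNReal.natCast_ne_top _)
    · exact Or.inl (ENNReal.natCast_ne_top _)
  · intro r r' hrr hr
    have := T_local (G := G) (o := o) hR ho n D1 h1 r r' (fun v hv m hm =>
      hrr (v, m) (Finset.mem_product.2 ⟨hv, Finset.mem_range.2 hm⟩))
    change rs (T G R o r' n) D1 = _
    rw [← this]; exact hr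
  · intro r r' hrr hr
    have := T_local (G := G) (o := o) hR ho n D2 h2 r r' (fun v hv m hm =>
      hrr (v, m) (Finset.mem_product.2 ⟨hv, Finset.mem_range.2 hm⟩))
    change rs (T G R o r' n) D2 = _
    rw [← this]; exact hr
  · rw [Finset.disjoint_left]
    rintro ⟨v, m⟩ hv hv'
    exact Finset.disjoint_left.1 hd (Finset.mem_product.1 hv).1 (Finset.mem_product.1 hv').1

theorem uni_empty [DecidableEq V] (n : ℕ) (D : Finset V) (hE : rs (Ed G (R n)) D = ∅) :
    Uni G R o n D := by
  intro t ht
  rw [hE, trees_empty, Finset.mem_singleton] at ht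
  rw [hE, trees_empty, Finset.card_singleton, Nat.cast_one, inv_one, ht]
  have : {r : V → ℕ → unitInterval | rs (T G R o r n) D = ∅} = Set.univ := by
    ext r
    simp only [Set.mem_ofPred_eq, Set.mem_univ, iff_true]
    have h1 := rs_mono (T_sub G R o r n) D
    rw [hE] at h1
    exact Finset.subset_empty.1 h1
  rw [this, measure_univ]

/-- The forest of level `n` is uniform on every saturated finite set. -/
theorem uni [DecidableEq V] (hR : Chain R) (ho : Function.Injective o) :
    ∀ n D, Sat R n D → Uni G R o n D := by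
  intro n
  induction n with
  | zero =>
    intro D _
    exact uni_empty 0 D (by rw [Ed_zero hR, rs_set_empty])
  | succ n ih =>
    refine sat_induction hR (n + 1) _ ?_ ?_ ?_
    · exact uni_empty (n + 1) ∅ (rs_empty _)
    · intro x
      exact uni_class hR ho n x (ih _ (Sat.down (hR := hR) (sat_cl hR (n + 1) x)))
    · intro D1 D2 h1 h2 hd i1 i2
      exact uni_union hR ho h1 h2 hd i1 i2

/-- finite-dimensional distributions of the forest of level `n` -/
theorem law_pr [DecidableEq V] (hR : Chain R) (ho : Function.Injective o) (n : ℕ) (D : Finset V)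
    (hD : Sat R n D) (F : Finset (Sym2 V)) (hF : F ⊆ rs (Ed G (R n)) D) (A : Set (Sym2 V)) :
    lam V {r | T G R o r n ∩ (F : Set (Sym2 V)) = A} =
      ENNReal.ofReal (pr ⊥ (rs (Ed G (R n)) D) F A) := by
  classical
  set E := rs (Ed G (R n)) D with hE
  have hIsT := isT (G := G) hR ho n D hD
  have hinter : ∀ r, T G R o r n ∩ (F : Set (Sym2 V)) =
      ((rs (T G R o r n) D : Finset (Sym2 V)) : Set (Sym2 V)) ∩ F := by
    intro r
    ext e
    simp only [Set.mem_inter_iff, Finset.mem_coe]
    refine and_congr_left fun he => ?_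
    have he' := hF he
    induction e using Sym2.ind with
    | _ a b =>
      rw [mem_rs]
      have := mem_rs.1 he'
      exact ⟨fun h => ⟨this.1, this.2.1, h⟩, fun h => h.2.2⟩
  have hset : {r | T G R o r n ∩ (F : Set (Sym2 V)) = A} =
      ⋃ t ∈ (trees ⊥ E).filter (fun t : Finset (Sym2 V) => (t : Set (Sym2 V)) ∩ F = A),
        {r | rs (T G R o r n) D = t} := by
    ext r
    simp only [Set.mem_ofPred_eq, Set.mem_iUnion, Finset.mem_filter, exists_prop]
    rw [hinter r]
    constructor
    · intro h
      exact ⟨rs (T G R o r n) D, ⟨hIsT r, h⟩, rfl⟩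
    · rintro ⟨t, ⟨-, h⟩, rfl⟩
      exact h
  rw [hset, measure_biUnion_finset _ fun t _ => meas_rsT n D t]
  · rw [Finset.sum_congr rfl fun t ht => uni hR ho n D hD t (Finset.mem_filter.1 ht).1,
      Finset.sum_const, nsmul_eq_mul]
    unfold pr
    have hpos : (0 : ℝ) < ((trees ⊥ E).card : ℝ) := by exact_mod_cast trees_card_pos ⊥ E
    rw [ENNReal.ofReal_div_of_pos hpos, ENNReal.ofReal_natCast, ENNReal.ofReal_natCast,
      div_eq_mul_inv]
  · intro s _ t _ hst
    rw [Function.onFun, Set.disjoint_left]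
    intro r h1 h2
    exact hst ((show rs (T G R o r n) D = s from h1).symm.trans h2)

end Law

end Pool.Agent.U635
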