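import Pool.Agent.U635.Defs
import Pool.Agent.U635.TreeLaw
import Pool.Agent.U635.Free

/-!
# The limiting forest
-/

set_option autoImplicit false
set_option linter.unusedSectionVars false
set_option linter.unusedVariables false

namespace Pool.Agent.U635

open Pool.Agent.TH968.UST Pool.Agent.TH830.UST MeasureTheory Filter
open scoped ENNReal Topology

section Limit

variable {V : Type*}

/-- The limiting forest, as a function of the graph and of two families of labels. -/
noncomputable def Psi (G : SimpleGraph V) (N : ℕ → ℕ) (a r : V → ℕ → unitInterval) :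
    Set (Sym2 V) :=
  {e | e ∈ G.edgeSet ∧ ∃ n0, ∀ n, n0 ≤ n → e ∈ T G (Rel G N a) (fun v => a v 0) r n}

variable {G : SimpleGraph V} {N : ℕ → ℕ} {a : V → ℕ → unitInterval}

theorem chain_rel (hf : ∀ v, (G.neighborSet v).Finite) : Chain (Rel G N a) where
  refl n x := Rel.refl n x
  symm n x y h := h.symm
  trans n x y z h h' := h.trans h'
  mono n x y h := h.mono (Nat.le_succ n)
  zero x y h := Rel.zero.1 h
  fin n x := Rel.finite hf n x

variable [Countable V]

theorem meas_Psi {Ω : Type*} [MeasurableSpace Ω] {G : Ω → SimpleGraph V}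
    {a r : Ω → V → ℕ → unitInterval} (hG : Measurable G)
    (ha : ∀ v n, Measurable fun ω => a ω v n) (hr : ∀ v n, Measurable fun ω => r ω v n)
    (N : ℕ → ℕ) (e : Sym2 V) : Measurable fun ω => e ∈ Psi (G ω) N (a ω) (r ω) := by
  refine Measurable.and ?_ (Measurable.exists fun n0 => Measurable.forall fun n =>
    measurable_const.imp ?_)
  · have h1 := SimpleGraph.measurable_edgeSet.comp hG
    exact (measurable_set_iff.1 h1) e
  · exact meas_T hG (fun n x y => meas_Rel hG N ha n x y) (fun v => ha v 0) hr n e

theorem meas_inter {Ω : Type*} [MeasurableSpace Ω] {S : Ω → Set (Sym2 V)}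
    (hS : ∀ e, Measurable fun ω => e ∈ S ω) (F A : Set (Sym2 V)) :
    MeasurableSet {ω | S ω ∩ F = A} := by
  apply measurableSet_setOfPred.2
  simp only [Set.ext_iff, Set.mem_inter_iff]
  exact Measurable.forall fun e => ((hS e).and measurable_const).iff measurable_const

/-- vertices of a finite set of edges -/
theorem exists_verts [DecidableEq V] (F : Finset (Sym2 V)) :
    ∃ D : Finset V, ∀ a b, s(a, b) ∈ F → a ∈ D ∧ b ∈ D := by
  induction F using Finset.induction_on with
  | empty => exact ⟨∅, fun a b h => absurd h (Finset.notMem_empty _)⟩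
  | insert e F _ ih =>
    obtain ⟨D, hD⟩ := ih
    induction e using Sym2.ind with
    | _ c d =>
      refine ⟨insert c (insert d D), fun a b hab => ?_⟩
      rcases Finset.mem_insert.1 hab with h | h
      · rcases Sym2.eq_iff.1 h with ⟨rfl, rfl⟩ | ⟨rfl, rfl⟩
        · exact ⟨by simp, by simp⟩
        · exact ⟨by simp, by simp⟩
      · have := hD a b h
        exact ⟨Finset.mem_insert_of_mem (Finset.mem_insert_of_mem this.1),
          Finset.mem_insert_of_mem (Finset.mem_insert_of_mem this.2)⟩

/-- every finite set of edges is eventually inside the class of `x0` -/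
theorem exists_level [DecidableEq V] (hf : ∀ v, (G.neighborSet v).Finite) (hc : G.Connected)
    (hrel : ∀ x y, G.Adj x y → ∃ n, Rel G N a n x y) (x0 : V) (F : Finset (Sym2 V))
    (hF : ∀ e ∈ F, e ∈ G.edgeSet) :
    ∃ n0, ∀ n, n0 ≤ n → F ⊆ rs (Ed G (Rel G N a n)) (cl (chain_rel (N := N) (a := a) hf) n x0) := by
  obtain ⟨D, hD⟩ := exists_verts F
  obtain ⟨n0, hn0⟩ := rel_finset hc hrel x0 D
  refine ⟨n0, fun n hn e he => ?_⟩
  induction e using Sym2.ind with
  | _ x y =>
    have hxy := hD x y he
    have hx := hn0 n hn x hxy.1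
    have hy := hn0 n hn y hxy.2
    have hadj : G.Adj x y := hF _ he
    exact mem_rs.2 ⟨mem_cl.2 hx, mem_cl.2 hy,
      (mem_Ed ((chain_rel (N := N) (a := a) hf).symm n)).2 ⟨hadj, hx.symm.trans hy⟩⟩

/-- Law of the limiting forest for fixed environment labels `a`. -/
theorem law_Psi (hf : ∀ v, (G.neighborSet v).Finite) (hc : G.Connected)
    (hrec : Recurrent G) (hinj : Function.Injective fun v => a v 0)
    (hrel : ∀ x y, G.Adj x y → ∃ n, Rel G N a n x y)
    (B : ℕ → Finset V) (hB : ∀ v, ∃ m0, ∀ m, m0 ≤ m → v ∈ B m)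
    (F : Finset (Sym2 V)) (A : Set (Sym2 V)) :
    Tendsto (fun n => ustProb (wired (B n)) (touch G (B n)) F A) atTop
      (𝓝 (lam V {r | Psi G N a r ∩ (F : Set (Sym2 V)) = A}).toReal) := by
  classical
  have hR := chain_rel (N := N) (a := a) hf
  obtain ⟨x0⟩ := hc.nonempty
  -- the case of edges of `G`
  have main : ∀ F : Finset (Sym2 V), (∀ e ∈ F, e ∈ G.edgeSet) →
      Tendsto (fun n => ustProb (wired (B n)) (touch G (B n)) F A) atTop
        (𝓝 (lam V {r | Psi G N a r ∩ (F : Set (Sym2 V)) = A}).toReal) := by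
    intro F hF
    set fr : ℕ → Finset (Sym2 V) := fun n => rs (Ed G (Rel G N a n)) (cl hR n x0) with hfr
    obtain ⟨n0, hn0⟩ := exists_level (N := N) (a := a) hf hc hrel x0 F hF
    have hmT : ∀ n, MeasurableSet {r | T G (Rel G N a) (fun v => a v 0) r n ∩
        (F : Set (Sym2 V)) = A} := fun n =>
      meas_inter (fun e => meas_T (Ω := V → ℕ → unitInterval) (G := fun _ => G)
        (R := fun _ => Rel G N a) (o := fun _ v => a v 0)
        (r := fun r => r) measurable_const (fun _ _ _ => measurable_const)
        (fun _ => measurable_const) (fun v n => by fun_prop) n e) _ _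
    have hmP : MeasurableSet {r | Psi G N a r ∩ (F : Set (Sym2 V)) = A} :=
      meas_inter (fun e => meas_Psi (Ω := V → ℕ → unitInterval) (G := fun _ => G)
        (a := fun _ => a) (r := fun r => r) measurable_const (fun _ _ => measurable_const)
        (fun v n => by fun_prop) N e) _ _
    have hconv : Tendsto (fun n => lam V {r | T G (Rel G N a) (fun v => a v 0) r n ∩
        (F : Set (Sym2 V)) = A}) atTop
        (𝓝 (lam V {r | Psi G N a r ∩ (F : Set (Sym2 V)) = A})) := by
      refine tendsto_measure_of_ae_tendsto_indicator_of_isFiniteMeasure atTop hmP hmT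
        (Filter.Eventually.of_forall fun r => ?_)
      have hev : ∀ e ∈ F, ∀ᶠ n in atTop,
          (e ∈ T G (Rel G N a) (fun v => a v 0) r n ↔ e ∈ Psi G N a r) := by
        intro e he
        have hstep : ∀ n, n0 ≤ n → e ∈ T G (Rel G N a) (fun v => a v 0) r (n + 1) →
            e ∈ T G (Rel G N a) (fun v => a v 0) r n := fun n hn h =>
          T_anti hR hinj r n ⟨h, mem_rs' (hn0 n hn he)⟩
        have hdown : ∀ k n, n0 ≤ n → e ∈ T G (Rel G N a) (fun v => a v 0) r (n + k) →
            e ∈ T G (Rel G N a) (fun v => a v 0) r n := by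
          intro k
          induction k with
          | zero => exact fun n _ h => h
          | succ k ih => exact fun n hn h => ih n hn (hstep _ (by omega) h)
        by_cases h : e ∈ Psi G N a r
        · obtain ⟨-, n1, hn1⟩ := h
          filter_upwards [eventually_ge_atTop n1] with n hn
          exact ⟨fun _ => ⟨hF e he, n1, hn1⟩, fun _ => hn1 n hn⟩
        · have hex : ∃ n1, n0 ≤ n1 ∧ e ∉ T G (Rel G N a) (fun v => a v 0) r n1 := by
            by_contra hcon
            push Not at hcon
            exact h ⟨hF e he, n0, hcon⟩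
          obtain ⟨n1, hn1, hn1'⟩ := hex
          filter_upwards [eventually_ge_atTop n1] with n hn
          refine ⟨fun h' => ?_, fun h' => (h h').elim⟩
          exact (hn1' (hdown (n - n1) n1 hn1 (by
            rw [Nat.add_sub_cancel' hn]; exact h'))).elim
      have hall : ∀ᶠ n in atTop, ∀ e ∈ F,
          (e ∈ T G (Rel G N a) (fun v => a v 0) r n ↔ e ∈ Psi G N a r) :=
        (Finset.eventually_all F).2 hev
      filter_upwards [hall] with n hn
      have : T G (Rel G N a) (fun v => a v 0) r n ∩ (F : Set (Sym2 V)) =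
          Psi G N a r ∩ (F : Set (Sym2 V)) := by
        ext e
        simp only [Set.mem_inter_iff, Finset.mem_coe]
        exact and_congr_left fun he => hn e he
      change T G (Rel G N a) (fun v => a v 0) r n ∩ (F : Set (Sym2 V)) = A ↔
        Psi G N a r ∩ (F : Set (Sym2 V)) = A
      rw [this]
    have hpr : Tendsto (fun n => pr ⊥ (fr n) F A) atTop
        (𝓝 (lam V {r | Psi G N a r ∩ (F : Set (Sym2 V)) = A}).toReal) := by
      have h1 := (ENNReal.tendsto_toReal (measure_ne_top (lam V) _)).comp hconv
      refine h1.congr' ?_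
      filter_upwards [eventually_ge_atTop n0] with n hn
      have h2 := law_pr (o := fun v => a v 0) hR hinj n _ (sat_cl hR n x0) F (hn0 n hn) A
      change (lam V {r | T G (Rel G N a) (fun v => a v 0) r n ∩
        (F : Set (Sym2 V)) = A}).toReal = _
      rw [h2, ENNReal.toReal_ofReal]
      exact div_nonneg (Nat.cast_nonneg _) (Nat.cast_nonneg _)
    refine wired_tendsto G hf (fun x hx => hrec x hx) fr ?_ ?_ F hF A _ hpr B hB
    · intro n e he
      obtain ⟨c, d, h1, -, rfl⟩ := mem_rs' he
      exact h1
    · intro F' hF'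
      exact exists_level (N := N) (a := a) hf hc hrel x0 F' hF'
  -- reduction to edges of `G`
  set F1 : Finset (Sym2 V) := F.filter (fun e => e ∈ G.edgeSet) with hF1
  have h1 := main F1 fun e he => (Finset.mem_filter.1 he).2
  have hint : ∀ T : Set (Sym2 V), T ⊆ G.edgeSet → T ∩ (F : Set (Sym2 V)) =
      T ∩ (F1 : Set (Sym2 V)) := by
    intro T hT
    ext e
    simp only [Set.mem_inter_iff, Finset.mem_coe, hF1, Finset.mem_filter]
    exact ⟨fun h => ⟨h.1, h.2, hT h.1⟩, fun h => ⟨h.1, h.2.1⟩⟩
  have h2 : {r | Psi G N a r ∩ (F : Set (Sym2 V)) = A} =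
      {r | Psi G N a r ∩ (F1 : Set (Sym2 V)) = A} := by
    ext r
    simp only [Set.mem_ofPred_eq]
    rw [hint (Psi G N a r) (fun e he => he.1)]
  have h3 : ∀ n, ustProb (wired (B n)) (touch G (B n)) (F : Set (Sym2 V)) A =
      ustProb (wired (B n)) (touch G (B n)) (F1 : Set (Sym2 V)) A := by
    intro n
    unfold ustProb
    have h4 : {T : Set (Sym2 V) | IsSpan (wired (B n)) (touch G (B n)) T ∧
        T ∩ (F : Set (Sym2 V)) = A} =
        {T : Set (Sym2 V) | IsSpan (wired (B n)) (touch G (B n)) T ∧
        T ∩ (F1 : Set (Sym2 V)) = A} := by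
      ext T
      simp only [Set.mem_ofPred_eq]
      refine and_congr_right fun hT => ?_
      rw [hint T (fun e he => (hT.1 he).1)]
    rw [h4]
  rw [h2]
  simp only [h3]
  exact h1

end Limit

end Pool.Agent.U635
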