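import Pool.Agent.U635.Tree

/-!
# Measurability
-/

set_option autoImplicit false
set_option linter.unusedSectionVars false

namespace Pool.Agent.U635

open Pool.Agent.TH968.UST Pool.Agent.TH830.UST MeasureTheory
open scoped ENNReal

variable {V : Type*} [Countable V] {Ω : Type*} [MeasurableSpace Ω]

theorem meas_ncard {S : Ω → Set V} (h : ∀ v, Measurable fun ω => v ∈ S ω) :
    Measurable fun ω => (S ω).ncard := by
  refine measurable_to_countable' fun k => ?_
  have : (fun ω => (S ω).ncard) ⁻¹' {k} = {ω | (∃ F : Finset V, F.card = k ∧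
      ∀ v, (v ∈ S ω ↔ v ∈ F)) ∨ (k = 0 ∧ ∀ F : Finset V, ¬ ∀ v, (v ∈ S ω ↔ v ∈ F))} := by
    ext ω
    simp only [Set.mem_preimage, Set.mem_singleton_iff, Set.mem_ofPred_eq]
    constructor
    · intro hk
      by_cases hf : (S ω).Finite
      · refine Or.inl ⟨hf.toFinset, ?_, fun v => (Set.Finite.mem_toFinset hf).symm⟩
        rw [← hk, Set.ncard_eq_toFinset_card _ hf]
      · refine Or.inr ⟨?_, fun F hF => hf ?_⟩
        · rw [← hk, Set.Infinite.ncard hf]
        · have : S ω = (F : Set V) := Set.ext fun v => (hF v).trans Finset.mem_coe.symm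
          rw [this]; exact F.finite_toSet
    · rintro (⟨F, hF, hF2⟩ | ⟨hk, hF⟩)
      · have : S ω = (F : Set V) := Set.ext fun v => (hF2 v).trans Finset.mem_coe.symm
        rw [this, Set.ncard_coe_finset, hF]
      · rw [hk]
        apply Set.Infinite.ncard
        intro hf
        exact hF hf.toFinset fun v => (Set.Finite.mem_toFinset hf).symm
  rw [this]
  refine measurableSet_setOfPred.2 (Measurable.or (Measurable.exists fun F => ?_) ?_)
  · exact measurable_const.and (Measurable.forall fun v => (h v).iff measurable_const)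
  · exact measurable_const.and (Measurable.forall fun F =>
      (Measurable.forall fun v => (h v).iff measurable_const).not)

theorem meas_lt {f g : Ω → unitInterval} (hf : Measurable f) (hg : Measurable g) :
    Measurable fun ω => f ω < g ω :=
  measurableSet_setOfPred.1 (measurableSet_lt hf hg)

theorem meas_rk {Q : Ω → V → V → Prop} {o : Ω → V → unitInterval}
    (hQ : ∀ x y, Measurable fun ω => Q ω x y) (ho : ∀ v, Measurable fun ω => o ω v) (x : V) :
    Measurable fun ω => rk (Q ω) (o ω) x :=
  meas_ncard fun v => (hQ x v).and (meas_lt (ho v) (ho x))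

theorem meas_adj {G : Ω → SimpleGraph V} (hG : Measurable G) (x y : V) :
    Measurable fun ω => (G ω).Adj x y := SimpleGraph.measurable_iff_adj.1 hG x y

theorem meas_Ed {G : Ω → SimpleGraph V} {Q : Ω → V → V → Prop} (hG : Measurable G)
    (hQ : ∀ x y, Measurable fun ω => Q ω x y) (e : Sym2 V) :
    Measurable fun ω => e ∈ Ed (G ω) (Q ω) :=
  Measurable.exists fun a => Measurable.exists fun b =>
    (meas_adj hG a b).and ((hQ a b).and measurable_const)

theorem meas_code {Q : Ω → V → V → Prop} {o : Ω → V → unitInterval} {S : Ω → Set (Sym2 V)}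
    (hQ : ∀ x y, Measurable fun ω => Q ω x y) (ho : ∀ v, Measurable fun ω => o ω v)
    (hS : ∀ e, Measurable fun ω => e ∈ S ω) (x : V) (f : Sym2 ℕ) :
    Measurable fun ω => f ∈ code (Q ω) (o ω) x (S ω) := by
  refine Measurable.exists fun c => Measurable.exists fun d =>
    (hQ x c).and ((hQ x d).and ((hS s(c, d)).and ?_))
  have h1 : Measurable fun p : ℕ × ℕ => f = s(p.1, p.2) := Measurable.of_discrete
  exact h1.comp ((meas_rk hQ ho c).prodMk (meas_rk hQ ho d))

theorem meas_code_eq {Q : Ω → V → V → Prop} {o : Ω → V → unitInterval} {S : Ω → Set (Sym2 V)}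
    (hQ : ∀ x y, Measurable fun ω => Q ω x y) (ho : ∀ v, Measurable fun ω => o ω v)
    (hS : ∀ e, Measurable fun ω => e ∈ S ω) (x : V) (A : Finset (Sym2 ℕ)) :
    Measurable fun ω => code (Q ω) (o ω) x (S ω) = (A : Set (Sym2 ℕ)) := by
  simp only [Set.ext_iff]
  exact Measurable.forall fun f => (meas_code hQ ho hS x f).iff measurable_const

theorem meas_jj (k : ℕ) : Measurable fun t : unitInterval => jj t k := by
  unfold jj
  have h1 : Measurable fun n : ℕ => n % k := Measurable.of_discrete
  exact h1.comp (Nat.measurable_floor.comp (by fun_prop))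

omit [Countable V] in
theorem mem_T_succ (G : SimpleGraph V) (R : ℕ → V → V → Prop) (o : V → unitInterval)
    (r : V → ℕ → unitInterval) (n : ℕ) (e : Sym2 V) :
    e ∈ T G R o r (n + 1) ↔ ∃ a b, G.Adj a b ∧ R (n + 1) a b ∧ e = s(a, b) ∧
      ∃ v, R (n + 1) a v ∧ rk (R (n + 1)) o v = 0 ∧ ∃ A1 A2 A3 : Finset (Sym2 ℕ),
      code (R (n + 1)) o a (Ed G (R n)) = A1 ∧ code (R (n + 1)) o a (Ed G (R (n + 1))) = A2 ∧
      code (R (n + 1)) o a (T G R o r n) = A3 ∧
      s(rk (R (n + 1)) o a, rk (R (n + 1)) o b) ∈
        kap A1 A2 A3 (jj (r v n) (trees ⊥ A2).card) := Iff.rfl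

theorem meas_three (Ω : Type*) [MeasurableSpace Ω] {u v j : Ω → ℕ} (hu : Measurable u)
    (hv : Measurable v) (hj : Measurable j) (K : ℕ → ℕ → ℕ → Prop) :
    Measurable fun ω => K (u ω) (v ω) (j ω) := by
  have h1 : Measurable fun p : (ℕ × ℕ) × ℕ => K p.1.1 p.1.2 p.2 :=
    Measurable.of_discrete
  exact h1.comp ((hu.prodMk hv).prodMk hj)

theorem meas_T {G : Ω → SimpleGraph V} {R : Ω → ℕ → V → V → Prop} {o : Ω → V → unitInterval}
    {r : Ω → V → ℕ → unitInterval} (hG : Measurable G)
    (hR : ∀ n x y, Measurable fun ω => R ω n x y) (ho : ∀ v, Measurable fun ω => o ω v)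
    (hr : ∀ v n, Measurable fun ω => r ω v n) :
    ∀ (n : ℕ) (e : Sym2 V), Measurable fun ω => e ∈ T (G ω) (R ω) (o ω) (r ω) n := by
  intro n
  induction n with
  | zero => intro e; exact measurable_const
  | succ n ih =>
    intro e
    simp only [mem_T_succ]
    apply Measurable.exists; intro a
    apply Measurable.exists; intro b
    apply Measurable.and (meas_adj hG a b)
    apply Measurable.and (hR (n + 1) a b)
    apply Measurable.and measurable_const
    apply Measurable.exists; intro v
    apply Measurable.and (hR (n + 1) a v)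
    apply Measurable.and
    · have h1 : Measurable fun m : ℕ => m = 0 := Measurable.of_discrete
      exact h1.comp (meas_rk (hR (n + 1)) ho v)
    · apply Measurable.exists; intro A1
      apply Measurable.exists; intro A2
      apply Measurable.exists; intro A3
      apply Measurable.and (meas_code_eq (hR (n + 1)) ho (fun e => meas_Ed hG (hR n) e) a A1)
      apply Measurable.and (meas_code_eq (hR (n + 1)) ho (fun e => meas_Ed hG (hR (n + 1)) e) a A2)
      apply Measurable.and (meas_code_eq (hR (n + 1)) ho ih a A3)
      exact meas_three Ω (meas_rk (hR (n + 1)) ho a) (meas_rk (hR (n + 1)) ho b)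
        ((meas_jj (trees ⊥ A2).card).comp (hr v n)) (fun u w j => s(u, w) ∈ kap A1 A2 A3 j)

section Rel

open Classical in
theorem meas_avg {G : Ω → SimpleGraph V} (hG : Measurable G) {f : Ω → V → ℝ≥0∞}
    (hf : ∀ v, Measurable fun ω => f ω v) (x : V) : Measurable fun ω => avg (G ω) (f ω) x := by
  unfold avg
  refine Measurable.div (Measurable.tsum fun w => ?_) (Measurable.tsum fun w => ?_)
  · exact Measurable.ite (measurableSet_setOfPred.2 (meas_adj hG x w)) (hf w) measurable_const
  · exact Measurable.ite (measurableSet_setOfPred.2 (meas_adj hG x w)) measurable_const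
      measurable_const

theorem meas_pk {G : Ω → SimpleGraph V} (hG : Measurable G) :
    ∀ (k : ℕ) (x c : V), Measurable fun ω => pk (G ω) k x c := by
  intro k
  induction k with
  | zero => intro x c; exact measurable_const
  | succ k ih => intro x c; exact meas_avg hG (fun y => ih y c) x

theorem meas_PN {G : Ω → SimpleGraph V} (hG : Measurable G) (N : ℕ) (x c : V) :
    Measurable fun ω => PN (G ω) N x c := by
  unfold PN
  exact Finset.measurable_sum _ fun k _ => meas_pk hG k x c

theorem meas_dl {G : Ω → SimpleGraph V} (hG : Measurable G) (N : ℕ) (x y : V) :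
    Measurable fun ω => dl (G ω) N x y := by
  unfold dl ov
  exact (measurable_const.sub ((Measurable.tsum fun c =>
    (meas_PN hG N x c).min (meas_PN hG N y c)).div measurable_const))

theorem meas_wt {G : Ω → SimpleGraph V} (hG : Measurable G) (N : ℕ) (x c : V) :
    Measurable fun ω => wt (G ω) N x c := (meas_PN hG N x c).ennreal_toReal

theorem meas_win {w : Ω → V → ℝ} {a : Ω → V → unitInterval}
    (hw : ∀ v, Measurable fun ω => w ω v) (ha : ∀ v, Measurable fun ω => a ω v) (c : V) :
    Measurable fun ω => IsWin (w ω) (a ω) c := by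
  refine Measurable.and (measurableSet_setOfPred.1 (measurableSet_lt measurable_const (hw c)))
    (Measurable.forall fun j => measurable_const.imp (Measurable.imp
    (measurableSet_setOfPred.1 (measurableSet_lt measurable_const (hw j))) ?_))
  have hc := ha c
  have hj := ha j
  have hwc := hw c
  have hwj := hw j
  exact measurableSet_setOfPred.1 (measurableSet_lt (by fun_prop) (by fun_prop))

theorem meas_Rel {G : Ω → SimpleGraph V} (hG : Measurable G) (N : ℕ → ℕ)
    {a : Ω → V → ℕ → unitInterval} (ha : ∀ v n, Measurable fun ω => a ω v n) (n : ℕ) (x y : V) :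
    Measurable fun ω => Rel (G ω) N (a ω) n x y := by
  refine measurable_const.or (measurable_const.and (Measurable.forall fun m =>
    measurable_const.imp (Measurable.exists fun c => Measurable.and ?_ ?_)))
  · exact meas_win (fun v => meas_wt hG _ _ _) (fun v => ha v m) c
  · exact meas_win (fun v => meas_wt hG _ _ _) (fun v => ha v m) c

end Rel

end Pool.Agent.U635
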