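import Pool.Agent.U635.Fin
import Pool.Agent.U635.Part

/-!
# Monotone coupling of uniform spanning trees along an increasing sequence of finite partitions
-/

set_option autoImplicit false
set_option linter.unusedSectionVars false

namespace Pool.Agent.U635

open Pool.Agent.TH968.UST Pool.Agent.TH830.UST MeasureTheory ProbabilityTheory
open scoped ENNReal

variable {V : Type*}

section Defs

/-- rank of `x` inside its class, in the order given by the labels `o` -/
noncomputable def rk (Q : V → V → Prop) (o : V → unitInterval) (x : V) : ℕ :=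
  {w | Q x w ∧ o w < o x}.ncard

/-- edges inside the classes -/
def Ed (G : SimpleGraph V) (Q : V → V → Prop) : Set (Sym2 V) :=
  {e | ∃ a b, G.Adj a b ∧ Q a b ∧ e = s(a, b)}

/-- the part of `S` inside the class of `x`, written in terms of the ranks -/
def code (Q : V → V → Prop) (o : V → unitInterval) (x : V) (S : Set (Sym2 V)) : Set (Sym2 ℕ) :=
  {f | ∃ c d, Q x c ∧ Q x d ∧ s(c, d) ∈ S ∧ f = s(rk Q o c, rk Q o d)}

open Classical in
/-- a fixed choice of monotone couplings on the integers -/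
noncomputable def kap (A1 A2 A3 : Finset (Sym2 ℕ)) (j : ℕ) : Finset (Sym2 ℕ) :=
  if h : A1 ⊆ A2 then (exists_coupling A1 A2 h).choose A3 j else ∅

/-- a uniform element of `{0, …, k - 1}` from a uniform label -/
noncomputable def jj (t : unitInterval) (k : ℕ) : ℕ := ⌊(t : ℝ) * k⌋₊ % k

/-- the spanning forests of the partitions -/
noncomputable def T (G : SimpleGraph V) (R : ℕ → V → V → Prop) (o : V → unitInterval)
    (r : V → ℕ → unitInterval) : ℕ → Set (Sym2 V)
  | 0 => ∅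
  | n + 1 => {e | ∃ a b, G.Adj a b ∧ R (n + 1) a b ∧ e = s(a, b) ∧ ∃ v, R (n + 1) a v ∧
      rk (R (n + 1)) o v = 0 ∧ ∃ A1 A2 A3 : Finset (Sym2 ℕ),
      code (R (n + 1)) o a (Ed G (R n)) = A1 ∧ code (R (n + 1)) o a (Ed G (R (n + 1))) = A2 ∧
      code (R (n + 1)) o a (T G R o r n) = A3 ∧
      s(rk (R (n + 1)) o a, rk (R (n + 1)) o b) ∈
        kap A1 A2 A3 (jj (r v n) (trees ⊥ A2).card)}

/-- an increasing sequence of equivalence relations with finite classes -/
structure Chain (R : ℕ → V → V → Prop) : Prop where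
  refl : ∀ n x, R n x x
  symm : ∀ n x y, R n x y → R n y x
  trans : ∀ n x y z, R n x y → R n y z → R n x z
  mono : ∀ n x y, R n x y → R (n + 1) x y
  zero : ∀ x y, R 0 x y → x = y
  fin : ∀ n x, {y | R n x y}.Finite

open Classical in
/-- the edges of `S` inside the finite set `D` -/
noncomputable def rs (S : Set (Sym2 V)) (D : Finset V) : Finset (Sym2 V) :=
  D.sym2.filter (fun e => e ∈ S)

theorem mem_rs {S : Set (Sym2 V)} {D : Finset V} {a b : V} :
    s(a, b) ∈ rs S D ↔ a ∈ D ∧ b ∈ D ∧ s(a, b) ∈ S := by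
  classical
  unfold rs
  rw [Finset.mem_filter, Finset.mk_mem_sym2_iff, and_assoc]

theorem mem_rs' {S : Set (Sym2 V)} {D : Finset V} {e : Sym2 V} (h : e ∈ rs S D) : e ∈ S := by
  classical
  unfold rs at h
  exact (Finset.mem_filter.1 h).2

theorem rs_inside (S : Set (Sym2 V)) (D : Finset V) :
    Inside (D : Set V) ((rs S D : Finset (Sym2 V)) : Set (Sym2 V)) := by
  intro a b hab
  have := mem_rs.1 (Finset.mem_coe.1 hab)
  exact ⟨this.1, this.2.1⟩

theorem rs_mono {S S' : Set (Sym2 V)} (h : S ⊆ S') (D : Finset V) : rs S D ⊆ rs S' D := by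
  intro e
  induction e using Sym2.ind with
  | _ a b =>
    rw [mem_rs, mem_rs]
    exact fun k => ⟨k.1, k.2.1, h k.2.2⟩

theorem mem_Ed {G : SimpleGraph V} {Q : V → V → Prop} (hs : ∀ x y, Q x y → Q y x) {a b : V} :
    s(a, b) ∈ Ed G Q ↔ G.Adj a b ∧ Q a b := by
  constructor
  · rintro ⟨c, d, h1, h2, h3⟩
    rcases Sym2.eq_iff.1 h3 with ⟨rfl, rfl⟩ | ⟨rfl, rfl⟩
    · exact ⟨h1, h2⟩
    · exact ⟨h1.symm, hs _ _ h2⟩
  · rintro ⟨h1, h2⟩
    exact ⟨a, b, h1, h2, rfl⟩

theorem T_sub (G : SimpleGraph V) (R : ℕ → V → V → Prop) (o : V → unitInterval)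
    (r : V → ℕ → unitInterval) (n : ℕ) : T G R o r n ⊆ Ed G (R n) := by
  cases n with
  | zero => intro e he; exact absurd he (Set.notMem_empty e)
  | succ n =>
    rintro e ⟨a, b, h1, h2, h3, -⟩
    exact ⟨a, b, h1, h2, h3⟩

theorem kap_spec {A1 A2 : Finset (Sym2 ℕ)} (h : A1 ⊆ A2) :
    (∀ A3 ∈ trees ⊥ A1, ∀ j < (trees ⊥ A2).card,
      kap A1 A2 A3 j ∈ trees ⊥ A2 ∧ kap A1 A2 A3 j ∩ A1 ⊆ A3) ∧
    ∀ T' ∈ trees ⊥ A2, (((trees ⊥ A1) ×ˢ (Finset.range (trees ⊥ A2).card)).filter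
        (fun p => kap A1 A2 p.1 p.2 = T')).card = (trees ⊥ A1).card := by
  have h1 : ∀ A3 j, kap A1 A2 A3 j = (exists_coupling A1 A2 h).choose A3 j := by
    intro A3 j
    unfold kap
    rw [dif_pos h]
  simp only [h1]
  exact (exists_coupling A1 A2 h).choose_spec

theorem jj_lt (t : unitInterval) {k : ℕ} (hk : 0 < k) : jj t k < k := Nat.mod_lt _ hk

end Defs

section Class

variable {Q : V → V → Prop} {o : V → unitInterval}

theorem rk_lt (hs : ∀ x y, Q x y → Q y x) (ht : ∀ x y z, Q x y → Q y z → Q x z)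
    (hf : ∀ x, {y | Q x y}.Finite) {x y : V} (hxy : Q x y) (h : o x < o y) :
    rk Q o x < rk Q o y := by
  unfold rk
  refine Set.ncard_lt_ncard ?_ ((hf y).subset fun w hw => hw.1)
  refine ⟨fun w hw => ⟨ht _ _ _ (hs _ _ hxy) hw.1, hw.2.trans h⟩, fun hsub => ?_⟩
  have : x ∈ {w | Q x w ∧ o w < o x} := hsub ⟨hs _ _ hxy, h⟩
  exact lt_irrefl _ this.2

theorem rk_inj (hs : ∀ x y, Q x y → Q y x) (ht : ∀ x y z, Q x y → Q y z → Q x z)
    (hf : ∀ x, {y | Q x y}.Finite) (ho : Function.Injective o) {x y : V} (hxy : Q x y)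
    (h : rk Q o x = rk Q o y) : x = y := by
  rcases lt_trichotomy (o x) (o y) with h1 | h1 | h1
  · exact absurd h (rk_lt hs ht hf hxy h1).ne
  · exact ho h1
  · exact absurd h.symm (rk_lt hs ht hf (hs _ _ hxy) h1).ne

theorem exists_min (hr : ∀ x, Q x x) (hs : ∀ x y, Q x y → Q y x)
    (ht : ∀ x y z, Q x y → Q y z → Q x z)
    (hf : ∀ x, {y | Q x y}.Finite) (x : V) : ∃ v, Q x v ∧ rk Q o v = 0 := by
  obtain ⟨v, hv, hmin⟩ := Set.exists_min_image {y | Q x y} o (hf x) ⟨x, hr x⟩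
  refine ⟨v, hv, ?_⟩
  unfold rk
  have : {w | Q v w ∧ o w < o v} = ∅ := by
    ext w
    simp only [Set.mem_ofPred_eq, Set.mem_empty_iff_false, iff_false]
    rintro ⟨h1, h2⟩
    exact absurd (hmin w (ht _ _ _ hv h1)) (not_le.2 h2)
  rw [this, Set.ncard_empty]

theorem code_class (hs : ∀ x y, Q x y → Q y x)
    (ht : ∀ x y z, Q x y → Q y z → Q x z) {x a : V} (hxa : Q x a) (S : Set (Sym2 V)) :
    code Q o a S = code Q o x S := by
  ext f
  constructor
  · rintro ⟨c, d, h1, h2, h3⟩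
    exact ⟨c, d, ht _ _ _ hxa h1, ht _ _ _ hxa h2, h3⟩
  · rintro ⟨c, d, h1, h2, h3⟩
    exact ⟨c, d, ht _ _ _ (hs _ _ hxa) h1, ht _ _ _ (hs _ _ hxa) h2, h3⟩

theorem code_eq (hf : ∀ x, {y | Q x y}.Finite) (x : V) (S : Set (Sym2 V)) :
    code Q o x S =
      (((rs S (hf x).toFinset).image (Sym2.map (rk Q o)) : Finset (Sym2 ℕ)) : Set (Sym2 ℕ)) := by
  ext f
  rw [Finset.mem_coe, Finset.mem_image]
  constructor
  · rintro ⟨c, d, h1, h2, h3, rfl⟩
    refine ⟨s(c, d), mem_rs.2 ⟨(Set.Finite.mem_toFinset _).2 h1,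
      (Set.Finite.mem_toFinset _).2 h2, h3⟩, by rw [Sym2.map_mk]⟩
  · rintro ⟨e, he, rfl⟩
    induction e using Sym2.ind with
    | _ c d =>
      obtain ⟨h1, h2, h3⟩ := mem_rs.1 he
      exact ⟨c, d, (Set.Finite.mem_toFinset _).1 h1, (Set.Finite.mem_toFinset _).1 h2, h3,
        by rw [Sym2.map_mk]⟩

end Class

section Step

variable {G : SimpleGraph V} {R : ℕ → V → V → Prop} {o : V → unitInterval}

/-- the class of `x` at level `n` -/
noncomputable def cl (hR : Chain R) (n : ℕ) (x : V) : Finset V := (hR.fin n x).toFinset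

theorem mem_cl {hR : Chain R} {n : ℕ} {x y : V} : y ∈ cl hR n x ↔ R n x y :=
  Set.Finite.mem_toFinset _

/-- saturated sets -/
def Sat (R : ℕ → V → V → Prop) (n : ℕ) (D : Finset V) : Prop := ∀ x ∈ D, ∀ y, R n x y → y ∈ D

theorem sat_cl (hR : Chain R) (n : ℕ) (x : V) : Sat R n (cl hR n x) := by
  intro y hy z hz
  rw [mem_cl] at hy ⊢
  exact hR.trans _ _ _ _ hy hz

theorem Sat.down {hR : Chain R} {n : ℕ} {D : Finset V} (h : Sat R (n + 1) D) : Sat R n D :=
  fun x hx y hy => h x hx y (hR.mono _ _ _ hy)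

theorem Ed_mono (hR : Chain R) (n : ℕ) : Ed G (R n) ⊆ Ed G (R (n + 1)) := by
  rintro e ⟨a, b, h1, h2, h3⟩
  exact ⟨a, b, h1, hR.mono _ _ _ h2, h3⟩

theorem rk_injOn (hR : Chain R) (ho : Function.Injective o) (n : ℕ) (x : V) :
    Set.InjOn (rk (R n) o) (cl hR n x : Set V) := by
  intro a ha b hb hab
  have ha' : R n x a := mem_cl.1 (Finset.mem_coe.1 ha)
  have hb' : R n x b := mem_cl.1 (Finset.mem_coe.1 hb)
  exact rk_inj (hR.symm n) (hR.trans n) (hR.fin n) ho
    (hR.trans _ _ _ _ (hR.symm _ _ _ ha') hb') hab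

/-- coded edge sets of a class of level `n + 1` -/
noncomputable def img (hR : Chain R) (o : V → unitInterval) (n : ℕ) (x : V)
    (S : Set (Sym2 V)) : Finset (Sym2 ℕ) :=
  (rs S (cl hR (n + 1) x)).image (Sym2.map (rk (R (n + 1)) o))

theorem T_succ (hR : Chain R) (ho : Function.Injective o)
    (r : V → ℕ → unitInterval) (n : ℕ) (x v : V) (hv : R (n + 1) x v)
    (hv0 : rk (R (n + 1)) o v = 0) {a b : V} (ha : R (n + 1) x a) (hb : R (n + 1) x b) :
    s(a, b) ∈ T G R o r (n + 1) ↔ s(a, b) ∈ Ed G (R (n + 1)) ∧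
      Sym2.map (rk (R (n + 1)) o) s(a, b) ∈
        kap (img hR o n x (Ed G (R n))) (img hR o n x (Ed G (R (n + 1))))
          (img hR o n x (T G R o r n))
          (jj (r v n) (trees ⊥ (img hR o n x (Ed G (R (n + 1))))).card) := by
  have hc : ∀ (a : V), R (n + 1) x a → ∀ S, code (R (n + 1)) o a S = (img hR o n x S : Set _) := by
    intro a ha S
    rw [code_class (hR.symm (n + 1)) (hR.trans (n + 1)) ha]
    exact code_eq (hR.fin (n + 1)) x S
  rw [Sym2.map_mk]
  constructor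
  · rintro ⟨c, d, h1, h2, h3, w, hw, hw0, A1, A2, A3, hA1, hA2, hA3, hk⟩
    have hxc : R (n + 1) x c := by
      rcases Sym2.eq_iff.1 h3 with ⟨h, -⟩ | ⟨-, h⟩
      · rw [← h]; exact ha
      · rw [← h]; exact hb
    rw [hc c hxc] at hA1 hA2 hA3
    have e1 := Finset.coe_injective hA1
    have e2 := Finset.coe_injective hA2
    have e3 := Finset.coe_injective hA3
    have hwv : w = v := rk_inj (hR.symm (n + 1)) (hR.trans (n + 1)) (hR.fin (n + 1)) ho
      (hR.trans _ _ _ _ (hR.trans _ _ _ _ (hR.symm _ _ _ hw) (hR.symm _ _ _ hxc)) hv)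
      (hw0.trans hv0.symm)
    subst hwv
    subst e1 e2 e3
    refine ⟨?_, ?_⟩
    · rw [h3]; exact (mem_Ed (hR.symm (n + 1))).2 ⟨h1, h2⟩
    · rcases Sym2.eq_iff.1 h3 with ⟨rfl, rfl⟩ | ⟨rfl, rfl⟩
      · exact hk
      · rw [Sym2.eq_swap]; exact hk
  · rintro ⟨h1, h2⟩
    obtain ⟨h3, h4⟩ := (mem_Ed (hR.symm (n + 1))).1 h1
    exact ⟨a, b, h3, h4, rfl, v, hR.trans _ _ _ _ (hR.symm _ _ _ ha) hv, hv0, _, _, _,
      hc a ha _, hc a ha _, hc a ha _, h2⟩

/-- the forest of level `n + 1` on a class -/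
theorem rs_T_succ [DecidableEq V] (hR : Chain R) (ho : Function.Injective o)
    (r : V → ℕ → unitInterval) (n : ℕ) (x v : V) (hv : R (n + 1) x v)
    (hv0 : rk (R (n + 1)) o v = 0) :
    rs (T G R o r (n + 1)) (cl hR (n + 1) x) =
      dec (rk (R (n + 1)) o) (rs (Ed G (R (n + 1))) (cl hR (n + 1) x))
        (kap (img hR o n x (Ed G (R n))) (img hR o n x (Ed G (R (n + 1))))
          (img hR o n x (T G R o r n))
          (jj (r v n) (trees ⊥ (img hR o n x (Ed G (R (n + 1))))).card)) := by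
  ext e
  induction e using Sym2.ind with
  | _ a b =>
    unfold dec
    rw [Finset.mem_filter, mem_rs, mem_rs]
    constructor
    · rintro ⟨h1, h2, h3⟩
      obtain ⟨h4, h5⟩ := (T_succ hR ho r n x v hv hv0 (mem_cl.1 h1) (mem_cl.1 h2)).1 h3
      exact ⟨⟨h1, h2, h4⟩, h5⟩
    · rintro ⟨⟨h1, h2, h3⟩, h4⟩
      exact ⟨h1, h2, (T_succ hR ho r n x v hv hv0 (mem_cl.1 h1) (mem_cl.1 h2)).2 ⟨h3, h4⟩⟩

theorem img_mono (hR : Chain R) (n : ℕ) (x : V) :
    img hR o n x (Ed G (R n)) ⊆ img hR o n x (Ed G (R (n + 1))) :=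
  Finset.image_subset_image (rs_mono (Ed_mono hR n) _)

/-- the forest of level `n` restricted to a saturated set is a spanning tree -/
def IsT (G : SimpleGraph V) (R : ℕ → V → V → Prop) (o : V → unitInterval) (n : ℕ)
    (D : Finset V) : Prop := ∀ r, rs (T G R o r n) D ∈ trees ⊥ (rs (Ed G (R n)) D)

theorem img_T_mem [DecidableEq V] (hR : Chain R) (ho : Function.Injective o) (n : ℕ) (x : V)
    (h : IsT G R o n (cl hR (n + 1) x)) (r : V → ℕ → unitInterval) :
    img hR o n x (T G R o r n) ∈ trees ⊥ (img hR o n x (Ed G (R n))) := by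
  unfold img
  rw [image_mem_trees (rk (R (n + 1)) o) (rk_injOn hR ho (n + 1) x) (rs_inside _ _)
    (rs_mono (T_sub G R o r n) _)]
  exact h r

theorem isT_class [DecidableEq V] (hR : Chain R) (ho : Function.Injective o) (n : ℕ) (x : V)
    (h : IsT G R o n (cl hR (n + 1) x)) : IsT G R o (n + 1) (cl hR (n + 1) x) := by
  intro r
  obtain ⟨v, hv, hv0⟩ := exists_min (o := o) (hR.refl (n + 1)) (hR.symm (n + 1))
    (hR.trans (n + 1)) (hR.fin (n + 1)) x
  rw [rs_T_succ hR ho r n x v hv hv0]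
  refine dec_mem_trees _ (rk_injOn hR ho (n + 1) x) (rs_inside _ _) ?_
  exact ((kap_spec (img_mono hR n x)).1 _ (img_T_mem hR ho n x h r) _
    (jj_lt _ (trees_card_pos _ _))).1

/-- splitting a saturated set -/
theorem rs_union [DecidableEq V] (hR : Chain R) {n : ℕ} {D1 D2 : Finset V} (h1 : Sat R n D1)
    (h2 : Sat R n D2) {S : Set (Sym2 V)} (hS : S ⊆ Ed G (R n)) :
    rs S (D1 ∪ D2) = rs S D1 ∪ rs S D2 := by
  ext e
  induction e using Sym2.ind with
  | _ a b =>
    rw [Finset.mem_union, mem_rs, mem_rs, mem_rs, Finset.mem_union, Finset.mem_union]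
    constructor
    · rintro ⟨k1, k2, k3⟩
      have hab := ((mem_Ed (hR.symm n)).1 (hS k3)).2
      rcases k1 with k1 | k1
      · exact Or.inl ⟨k1, h1 a k1 b hab, k3⟩
      · exact Or.inr ⟨k1, h2 a k1 b hab, k3⟩
    · rintro (⟨k1, k2, k3⟩ | ⟨k1, k2, k3⟩)
      · exact ⟨Or.inl k1, Or.inl k2, k3⟩
      · exact ⟨Or.inr k1, Or.inr k2, k3⟩

theorem rs_inter [DecidableEq V] (S S' : Set (Sym2 V)) (D1 D2 : Finset V) (h : S ⊆ S')
    (hD : D1 ⊆ D2) : rs S D2 ∩ rs S' D1 = rs S D1 := by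
  ext e
  induction e using Sym2.ind with
  | _ a b =>
    rw [Finset.mem_inter, mem_rs, mem_rs, mem_rs]
    constructor
    · rintro ⟨⟨-, -, k3⟩, k4, k5, -⟩
      exact ⟨k4, k5, k3⟩
    · rintro ⟨k1, k2, k3⟩
      exact ⟨⟨hD k1, hD k2, k3⟩, k1, k2, h k3⟩

theorem isT_union [DecidableEq V] (hR : Chain R) {n : ℕ} {D1 D2 : Finset V} (h1 : Sat R n D1)
    (h2 : Sat R n D2) (hd : Disjoint D1 D2) (i1 : IsT G R o n D1) (i2 : IsT G R o n D2) :
    IsT G R o n (D1 ∪ D2) := by
  intro r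
  have hd' : Disjoint (D1 : Set V) (D2 : Set V) := Finset.disjoint_coe.2 hd
  rw [rs_union hR h1 h2 (Set.Subset.refl (Ed G (R n))), mem_trees_union hd' (rs_inside _ _)
    (rs_inside _ _)]
  refine ⟨?_, ?_, ?_⟩
  · rw [← rs_union hR h1 h2 (Set.Subset.refl (Ed G (R n)))]
    exact rs_mono (T_sub _ _ _ _ _) _
  · rw [rs_inter _ _ _ _ (T_sub _ _ _ _ _) Finset.subset_union_left]
    exact i1 r
  · rw [rs_inter _ _ _ _ (T_sub _ _ _ _ _) Finset.subset_union_right]
    exact i2 r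

theorem sat_sdiff [DecidableEq V] (hR : Chain R) {n : ℕ} {D : Finset V} (h : Sat R n D) (x : V) :
    Sat R n (D \ cl hR n x) := by
  intro y hy z hz
  rw [Finset.mem_sdiff, mem_cl] at hy ⊢
  exact ⟨h y hy.1 z hz, fun hxz => hy.2 (hR.trans _ _ _ _ hxz (hR.symm _ _ _ hz))⟩

/-- induction over saturated sets -/
theorem sat_induction [DecidableEq V] (hR : Chain R) (n : ℕ) (P : Finset V → Prop) (h0 : P ∅)
    (hcl : ∀ x, P (cl hR n x))
    (hun : ∀ D1 D2, Sat R n D1 → Sat R n D2 → Disjoint D1 D2 → P D1 → P D2 → P (D1 ∪ D2)) :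
    ∀ D, Sat R n D → P D := by
  intro D
  induction D using Finset.strongInduction with
  | H D ih =>
    intro hD
    rcases D.eq_empty_or_nonempty with rfl | ⟨x, hx⟩
    · exact h0
    · have hsub : cl hR n x ⊆ D := fun y hy => hD x hx y (mem_cl.1 hy)
      have hlt : D \ cl hR n x ⊂ D := by
        refine ⟨Finset.sdiff_subset, fun h => ?_⟩
        have := h hx
        rw [Finset.mem_sdiff] at this
        exact this.2 (mem_cl.2 (hR.refl n x))
      have h1 := ih _ hlt (sat_sdiff hR hD x)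
      have h2 := hun _ _ (sat_cl hR n x) (sat_sdiff hR hD x) Finset.disjoint_sdiff (hcl x) h1
      rwa [Finset.union_sdiff_of_subset hsub] at h2

theorem rs_empty (S : Set (Sym2 V)) : rs S ∅ = ∅ := by
  ext e
  induction e using Sym2.ind with
  | _ a b => rw [mem_rs]; simp

theorem Ed_zero (hR : Chain R) : Ed G (R 0) = ∅ := by
  ext e
  simp only [Set.mem_empty_iff_false, iff_false]
  rintro ⟨a, b, h1, h2, -⟩
  exact h1.ne (hR.zero _ _ h2)

theorem trees_empty [DecidableEq V] : trees ⊥ (∅ : Finset (Sym2 V)) = {∅} := by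
  ext t
  rw [Finset.mem_singleton]
  constructor
  · intro h
    exact Finset.subset_empty.1 (mem_trees.1 h).1
  · rintro rfl
    obtain ⟨t, ht⟩ := trees_nonempty ⊥ (∅ : Finset (Sym2 V))
    have := Finset.subset_empty.1 (mem_trees.1 ht).1
    rwa [this] at ht

theorem rs_set_empty (D : Finset V) : rs (∅ : Set (Sym2 V)) D = ∅ := by
  ext e
  induction e using Sym2.ind with
  | _ a b => rw [mem_rs]; simp

theorem isT [DecidableEq V] (hR : Chain R) (ho : Function.Injective o) :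
    ∀ n D, Sat R n D → IsT G R o n D := by
  intro n
  induction n with
  | zero =>
    intro D _ r
    have h1 : T G R o r 0 = ∅ := rfl
    rw [h1, Ed_zero hR, rs_set_empty, trees_empty]
    exact Finset.mem_singleton_self _
  | succ n ih =>
    refine sat_induction hR (n + 1) _ ?_ ?_ ?_
    · intro r
      rw [rs_empty, rs_empty, trees_empty]
      exact Finset.mem_singleton_self _
    · intro x
      exact isT_class hR ho n x (ih _ (Sat.down (hR := hR) (sat_cl hR (n + 1) x)))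
    · intro D1 D2 h1 h2 hd i1 i2
      exact isT_union hR h1 h2 hd i1 i2

/-- monotonicity -/
theorem T_anti [DecidableEq V] (hR : Chain R) (ho : Function.Injective o)
    (r : V → ℕ → unitInterval) (n : ℕ) :
    T G R o r (n + 1) ∩ Ed G (R n) ⊆ T G R o r n := by
  rintro e ⟨h1, h2⟩
  induction e using Sym2.ind with
  | _ a b =>
    obtain ⟨hadj, hab⟩ := (mem_Ed (hR.symm n)).1 h2
    obtain ⟨v, hv, hv0⟩ := exists_min (o := o) (hR.refl (n + 1)) (hR.symm (n + 1))
      (hR.trans (n + 1)) (hR.fin (n + 1)) a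
    have haa := hR.refl (n + 1) a
    have hab' := hR.mono _ _ _ hab
    obtain ⟨-, h3⟩ := (T_succ hR ho r n a v hv hv0 haa hab').1 h1
    have hsat := Sat.down (hR := hR) (sat_cl hR (n + 1) a)
    have h4 := ((kap_spec (img_mono (G := G) (o := o) hR n a)).1 _
      (img_T_mem hR ho n a (isT hR ho n _ hsat) r) _
      (jj_lt (r v n) (trees_card_pos _ _))).2
    have h5 : Sym2.map (rk (R (n + 1)) o) s(a, b) ∈ img hR o n a (Ed G (R n)) :=
      Finset.mem_image_of_mem _ (mem_rs.2 ⟨mem_cl.2 haa, mem_cl.2 hab', h2⟩)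
    have h6 := h4 (Finset.mem_inter.2 ⟨h3, h5⟩)
    unfold img at h6
    rw [mem_image_iff (rk (R (n + 1)) o) (rk_injOn hR ho (n + 1) a) (rs_inside _ _)] at h6
    · exact mem_rs' h6
    · intro w hw
      rcases Sym2.mem_iff.1 hw with rfl | rfl
      · exact Finset.mem_coe.2 (mem_cl.2 haa)
      · exact Finset.mem_coe.2 (mem_cl.2 hab')

/-- locality -/
theorem T_local [DecidableEq V] (hR : Chain R) (ho : Function.Injective o) :
    ∀ (n : ℕ) (D : Finset V), Sat R n D → ∀ r r' : V → ℕ → unitInterval,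
      (∀ v ∈ D, ∀ m < n, r v m = r' v m) → rs (T G R o r n) D = rs (T G R o r' n) D := by
  intro n
  induction n with
  | zero => intro D _ r r' _; rfl
  | succ n ih =>
    intro D hD r r' hrr
    ext e
    induction e using Sym2.ind with
    | _ a b =>
      rw [mem_rs, mem_rs]
      refine and_congr_right fun ha => and_congr_right fun hb => ?_
      obtain ⟨v, hv, hv0⟩ := exists_min (o := o) (hR.refl (n + 1)) (hR.symm (n + 1))
        (hR.trans (n + 1)) (hR.fin (n + 1)) a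
      have hvD : v ∈ D := hD a ha v hv
      have hsub : cl hR (n + 1) a ⊆ D := fun y hy => hD a ha y (mem_cl.1 hy)
      have hsat := Sat.down (hR := hR) (sat_cl hR (n + 1) a)
      have h1 : rs (T G R o r n) (cl hR (n + 1) a) = rs (T G R o r' n) (cl hR (n + 1) a) :=
        ih _ hsat r r' fun v hv m hm => hrr v (hsub hv) m (by omega)
      have h2 : img hR o n a (T G R o r n) = img hR o n a (T G R o r' n) := by
        unfold img
        rw [h1]
      have h3 : r v n = r' v n := hrr v hvD n (by omega)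
      by_cases hab : R (n + 1) a b
      · rw [T_succ hR ho r n a v hv hv0 (hR.refl _ _) hab,
          T_succ hR ho r' n a v hv hv0 (hR.refl _ _) hab, h2, h3]
      · constructor
        · intro h
          exact absurd ((mem_Ed (hR.symm (n + 1))).1 (T_sub _ _ _ _ _ h)).2 hab
        · intro h
          exact absurd ((mem_Ed (hR.symm (n + 1))).1 (T_sub _ _ _ _ _ h)).2 hab

end Step

end Pool.Agent.U635
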