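import Pool.Agent.TH968.UST.Defs

/-!
# Occupation measures of simple random walk on a recurrent graph
-/

set_option autoImplicit false
set_option linter.unusedSectionVars false

namespace Pool.Agent.U635

open Pool.Agent.TH968.UST MeasureTheory Filter
open scoped ENNReal Topology

variable {V : Type*}

section Avg

open Classical in
theorem avg_mono (G : SimpleGraph V) {f g : V → ℝ≥0∞} (v : V)
    (h : ∀ w, G.Adj v w → f w ≤ g w) : avg G f v ≤ avg G g v := by
  unfold avg
  refine ENNReal.div_le_div_right (ENNReal.tsum_le_tsum fun w => ?_) _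
  split_ifs with hw
  · exact h w hw
  · exact le_rfl

open Classical in
theorem avg_mul (G : SimpleGraph V) (f : V → ℝ≥0∞) (c : ℝ≥0∞) (v : V) :
    avg G (fun w => f w * c) v = avg G f v * c := by
  unfold avg
  have h1 : ∀ w, (if G.Adj v w then f w * c else 0) = (if G.Adj v w then f w else 0) * c := by
    intro w; split_ifs <;> simp
  rw [tsum_congr h1, ENNReal.tsum_mul_right, div_eq_mul_inv, div_eq_mul_inv]
  ring

open Classical in
theorem avg_add (G : SimpleGraph V) (f g : V → ℝ≥0∞) (v : V) :
    avg G (fun w => f w + g w) v = avg G f v + avg G g v := by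
  unfold avg
  have h1 : ∀ w, (if G.Adj v w then f w + g w else 0) =
      (if G.Adj v w then f w else 0) + (if G.Adj v w then g w else 0) := by
    intro w; split_ifs <;> simp
  rw [tsum_congr h1, ENNReal.tsum_add, ENNReal.add_div]

open Classical in
theorem avg_zero (G : SimpleGraph V) (v : V) : avg G (fun _ => 0) v = 0 := by
  unfold avg
  simp

theorem avg_sum (G : SimpleGraph V) (N : ℕ) (f : ℕ → V → ℝ≥0∞) (v : V) :
    avg G (fun w => ∑ k ∈ Finset.range N, f k w) v = ∑ k ∈ Finset.range N, avg G (f k) v := by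
  induction N with
  | zero => simp [avg_zero]
  | succ N ih =>
    simp only [Finset.sum_range_succ]
    rw [avg_add, ih]

open Classical in
theorem avg_tsum (G : SimpleGraph V) {ι : Type*} (f : ι → V → ℝ≥0∞) (v : V) :
    avg G (fun w => ∑' i, f i w) v = ∑' i, avg G (f i) v := by
  unfold avg
  have h1 : ∀ w, (if G.Adj v w then ∑' i, f i w else 0) =
      ∑' i, (if G.Adj v w then f i w else 0) := by
    intro w; split_ifs <;> simp
  rw [tsum_congr h1, ENNReal.tsum_comm]
  simp only [div_eq_mul_inv]
  rw [ENNReal.tsum_mul_right]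

open Classical in
/-- the degree -/
noncomputable def dg (G : SimpleGraph V) (v : V) : ℝ≥0∞ := ∑' w, if G.Adj v w then 1 else 0

open Classical in
theorem dg_ne_zero (G : SimpleGraph V) (v : V) (h : ∃ w, G.Adj v w) : dg G v ≠ 0 := by
  obtain ⟨w, hw⟩ := h
  unfold dg
  intro h0
  have := ENNReal.tsum_eq_zero.1 h0 w
  rw [if_pos hw] at this
  exact one_ne_zero this

open Classical in
theorem dg_eq (G : SimpleGraph V) (v : V) (hf : (G.neighborSet v).Finite) :
    dg G v = (hf.toFinset.card : ℝ≥0∞) := by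
  unfold dg
  rw [tsum_eq_sum (s := hf.toFinset)]
  · rw [Finset.sum_congr rfl (g := fun _ => (1 : ℝ≥0∞))]
    · simp
    · intro w hw
      rw [hf.mem_toFinset] at hw
      have hw' : G.Adj v w := hw
      rw [if_pos hw']
  · intro w hw
    rw [hf.mem_toFinset] at hw
    rw [if_neg]
    exact hw

theorem dg_ne_top (G : SimpleGraph V) (v : V) (hf : (G.neighborSet v).Finite) :
    dg G v ≠ ∞ := by
  rw [dg_eq G v hf]
  exact ENNReal.natCast_ne_top _

theorem avg_one (G : SimpleGraph V) (v : V) (h : ∃ w, G.Adj v w)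
    (hf : (G.neighborSet v).Finite) : avg G (fun _ => 1) v = 1 := by
  have h1 := ENNReal.div_self (dg_ne_zero G v h) (dg_ne_top G v hf)
  unfold avg
  exact h1

open Classical in
theorem avg_mul_dg (G : SimpleGraph V) (f : V → ℝ≥0∞) (v : V) (h : ∃ w, G.Adj v w)
    (hf : (G.neighborSet v).Finite) :
    avg G f v * dg G v = ∑' w, if G.Adj v w then f w else 0 := by
  unfold avg
  exact ENNReal.div_mul_cancel (dg_ne_zero G v h) (dg_ne_top G v hf)

end Avg

section PK

open Classical in
/-- transition probabilities of simple random walk -/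
noncomputable def pk (G : SimpleGraph V) : ℕ → V → V → ℝ≥0∞
  | 0, x, c => if x = c then 1 else 0
  | k + 1, x, c => avg G (fun y => pk G k y c) x

/-- occupation measure of the first `N` steps -/
noncomputable def PN (G : SimpleGraph V) (N : ℕ) (x c : V) : ℝ≥0∞ :=
  ∑ k ∈ Finset.range N, pk G k x c

theorem PN_succ (G : SimpleGraph V) (N : ℕ) (x c : V) :
    PN G (N + 1) x c = pk G 0 x c + avg G (fun y => PN G N y c) x := by
  unfold PN
  rw [Finset.sum_range_succ', add_comm]
  congr 1
  rw [avg_sum]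
  rfl

theorem PN_mono (G : SimpleGraph V) {N M : ℕ} (h : N ≤ M) (x c : V) :
    PN G N x c ≤ PN G M x c :=
  Finset.sum_le_sum_of_subset (Finset.range_mono h)

theorem hit_self (G : SimpleGraph V) (o : V) (n : ℕ) : hit G o n o = 1 := by
  cases n <;> simp [hit]

/-- the key inequality: walk from `x` to `y`, then stay near `y` -/
theorem key_ineq (G : SimpleGraph V) (N : ℕ) (y c : V) :
    ∀ (K : ℕ) (x : V), hit G y K x * PN G N y c ≤ PN G (N + K) x c := by
  intro K
  induction K with
  | zero =>
    intro x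
    by_cases h : x = y
    · subst h
      rw [hit_self, one_mul]
      exact le_rfl
    · simp [hit, h]
  | succ K ih =>
    intro x
    by_cases h : x = y
    · subst h
      rw [hit_self, one_mul]
      exact PN_mono G (by omega) _ _
    · have h1 : hit G y (K + 1) x = avg G (hit G y K) x := by
        simp [hit, h]
      rw [h1, ← avg_mul, ← add_assoc, PN_succ]
      exact (avg_mono G x fun w _ => ih w).trans le_add_self

theorem hit_le_one (G : SimpleGraph V) (hf : ∀ v, (G.neighborSet v).Finite) (o : V) :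
    ∀ (n : ℕ) (x : V), hit G o n x ≤ 1 := by
  intro n
  induction n with
  | zero =>
    intro x
    by_cases h : x = o <;> simp [hit, h]
  | succ n ih =>
    intro x
    by_cases h : x = o
    · simp [hit, h]
    · have h1 : hit G o (n + 1) x = avg G (hit G o n) x := by
        simp [hit, h]
      rw [h1]
      by_cases hx : ∃ w, G.Adj x w
      · rw [← avg_one G x hx (hf x)]
        exact avg_mono G x fun w _ => ih w
      · push Not at hx
        have : avg G (hit G o n) x ≤ avg G (fun _ => 0) x :=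
          avg_mono G x fun w hw => (hx w hw).elim
        rw [avg_zero] at this
        exact this.trans zero_le_one

theorem hit_mono (G : SimpleGraph V) (o : V) : ∀ (n : ℕ) (x : V), hit G o n x ≤ hit G o (n + 1) x := by
  intro n
  induction n with
  | zero =>
    intro x
    by_cases h : x = o
    · subst h; rw [hit_self, hit_self]
    · simp [hit, h]
  | succ n ih =>
    intro x
    by_cases h : x = o
    · subst h; rw [hit_self, hit_self]
    · have h1 : ∀ m, hit G o (m + 1) x = avg G (hit G o m) x := fun m => by simp [hit, h]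
      rw [h1 n, h1 (n + 1)]
      exact avg_mono G x fun w _ => ih w

theorem hit_monotone (G : SimpleGraph V) (o x : V) : Monotone (fun n => hit G o n x) :=
  monotone_nat_of_le_succ fun n => hit_mono G o n x

open Classical in
theorem pk_mass (G : SimpleGraph V) (hf : ∀ v, (G.neighborSet v).Finite) :
    ∀ (k : ℕ) (x : V), (∃ w, G.Adj x w) → ∑' c, pk G k x c = 1 := by
  intro k
  induction k with
  | zero =>
    intro x _
    have : ∀ c, pk G 0 x c = if c = x then 1 else 0 := by
      intro c
      by_cases h : x = c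
      · subst h; simp [pk]
      · have h' : ¬ c = x := fun h' => h h'.symm
        simp [pk, h, h']
    rw [tsum_congr this, tsum_ite_eq]
  | succ k ih =>
    intro x hx
    have h1 : ∀ c, pk G (k + 1) x c = avg G (fun y => pk G k y c) x := fun c => rfl
    rw [tsum_congr h1, ← avg_tsum]
    rw [← avg_one G x hx (hf x)]
    refine le_antisymm (avg_mono G x fun w hw => ?_) (avg_mono G x fun w hw => ?_)
    · rw [ih w ⟨x, hw.symm⟩]
    · rw [ih w ⟨x, hw.symm⟩]

theorem PN_mass (G : SimpleGraph V) (hf : ∀ v, (G.neighborSet v).Finite) (N : ℕ) (x : V)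
    (hx : ∃ w, G.Adj x w) : ∑' c, PN G N x c = N := by
  unfold PN
  rw [Summable.tsum_finsetSum fun _ _ => ENNReal.summable]
  rw [Finset.sum_congr rfl fun k _ => pk_mass G hf k x hx]
  simp

/-- overlap of the occupation measures -/
noncomputable def ov (G : SimpleGraph V) (N : ℕ) (x y : V) : ℝ≥0∞ :=
  ∑' c, min (PN G N x c) (PN G N y c)

/-- normalised defect of the overlap -/
noncomputable def dl (G : SimpleGraph V) (N : ℕ) (x y : V) : ℝ≥0∞ :=
  1 - ov G N x y / N

theorem dl_le_one (G : SimpleGraph V) (N : ℕ) (x y : V) : dl G N x y ≤ 1 := tsub_le_self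

theorem ov_ge (G : SimpleGraph V) (hf : ∀ v, (G.neighborSet v).Finite) (N K : ℕ) (x y : V)
    (hy : ∃ w, G.Adj y w) : hit G y K x * N ≤ ov G (N + K) x y := by
  rw [← PN_mass G hf N y hy, ← ENNReal.tsum_mul_left]
  refine ENNReal.tsum_le_tsum fun c => le_min (key_ineq G N y c K x) ?_
  calc hit G y K x * PN G N y c ≤ 1 * PN G N y c :=
        mul_le_mul_left (hit_le_one G hf y K x) _
    _ ≤ PN G (N + K) y c := by rw [one_mul]; exact PN_mono G (by omega) _ _

open Classical in
theorem hit_sup (G : SimpleGraph V) (hf : ∀ v, (G.neighborSet v).Finite) {x y : V}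
    (hxy : G.Adj y x) (hR : ⨆ n, avg G (hit G y n) y = 1) : ⨆ n, hit G y n x = 1 := by
  have hy : ∃ w, G.Adj y w := ⟨x, hxy⟩
  apply le_antisymm (iSup_le fun n => hit_le_one G hf y n x)
  set h : ℝ≥0∞ := ⨆ n, hit G y n x with hh
  have h1 : ∀ n, avg G (hit G y n) y * dg G y + (1 - h) ≤ dg G y := by
    intro n
    rw [avg_mul_dg G _ y hy (hf y)]
    have e1 : (1 - h) = ∑' w, (if w = x then (1 - h) else 0) := by rw [tsum_ite_eq]
    rw [e1, ← ENNReal.tsum_add]
    unfold dg
    refine ENNReal.tsum_le_tsum fun w => ?_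
    by_cases hw : w = x
    · subst hw
      rw [if_pos hxy, if_pos hxy, if_pos rfl]
      have : hit G y n w ≤ h := le_iSup (fun n => hit G y n w) n
      calc hit G y n w + (1 - h) ≤ h + (1 - h) := add_le_add_left this _
        _ = 1 := add_tsub_cancel_of_le (iSup_le fun n => hit_le_one G hf y n w)
    · rw [if_neg hw, add_zero]
      split_ifs
      · exact hit_le_one G hf y n w
      · exact le_rfl
  have h2 : (⨆ n, avg G (hit G y n) y) * dg G y + (1 - h) ≤ dg G y := by
    rw [ENNReal.iSup_mul, ENNReal.iSup_add]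
    exact iSup_le h1
  rw [hR, one_mul] at h2
  have h3 : (1 : ℝ≥0∞) - h ≤ 0 := by
    have := ENNReal.le_sub_of_add_le_left (dg_ne_top G y (hf y)) h2
    rwa [tsub_self] at this
  exact tsub_eq_zero_iff_le.1 (le_antisymm h3 zero_le)

theorem tendsto_ratio (K : ℕ) :
    Tendsto (fun n : ℕ => ((n : ℝ≥0∞)) / ((n + K : ℕ) : ℝ≥0∞)) atTop (𝓝 1) := by
  have h1 : Tendsto (fun n : ℕ => (n : ℝ) / ((n : ℝ) + K)) atTop (𝓝 1) := by
    exact tendsto_natCast_div_add_atTop (K : ℝ)
  have h2 := ENNReal.tendsto_ofReal h1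
  rw [ENNReal.ofReal_one] at h2
  refine h2.congr' ?_
  filter_upwards [eventually_ge_atTop 1] with n hn
  have hn' : (0 : ℝ) < (n : ℝ) + K := by
    have : (1 : ℝ) ≤ n := by exact_mod_cast hn
    have h0 : (0 : ℝ) ≤ K := Nat.cast_nonneg _
    linarith
  rw [ENNReal.ofReal_div_of_pos hn', ENNReal.ofReal_natCast]
  congr 1
  rw [show (n : ℝ) + (K : ℝ) = ((n + K : ℕ) : ℝ) by push_cast; ring, ENNReal.ofReal_natCast]

theorem dl_tendsto (G : SimpleGraph V) (hf : ∀ v, (G.neighborSet v).Finite) {x y : V}
    (hxy : G.Adj y x) (hR : ⨆ n, avg G (hit G y n) y = 1) :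
    Tendsto (fun N => dl G N x y) atTop (𝓝 0) := by
  have hy : ∃ w, G.Adj y w := ⟨x, hxy⟩
  rw [ENNReal.tendsto_atTop_zero]
  intro ε hε
  -- choose `K`
  have hsup := hit_sup G hf hxy hR
  have hK : ∃ K, 1 - hit G y K x < ε := by
    have h1 : Tendsto (fun n => hit G y n x) atTop (𝓝 (⨆ n, hit G y n x)) :=
      tendsto_atTop_iSup (hit_monotone G y x)
    rw [hsup] at h1
    have h2 : Tendsto (fun n => 1 - hit G y n x) atTop (𝓝 (1 - 1)) :=
      ENNReal.Tendsto.sub tendsto_const_nhds h1 (Or.inl ENNReal.one_ne_top)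
    rw [tsub_self] at h2
    exact ((h2.eventually (gt_mem_nhds hε)).exists)
  obtain ⟨K, hK⟩ := hK
  have h3 : Tendsto (fun n : ℕ => 1 - hit G y K x * ((n : ℝ≥0∞) / ((n + K : ℕ) : ℝ≥0∞))) atTop
      (𝓝 (1 - hit G y K x * 1)) := by
    refine ENNReal.Tendsto.sub tendsto_const_nhds ?_ (Or.inl ENNReal.one_ne_top)
    exact ENNReal.Tendsto.const_mul (tendsto_ratio K) (Or.inl one_ne_zero)
  rw [mul_one] at h3
  obtain ⟨n0, hn0⟩ := eventually_atTop.1 (h3.eventually (gt_mem_nhds hK))
  refine ⟨n0 + K, fun n hn => ?_⟩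
  obtain ⟨m, rfl⟩ : ∃ m, n = m + K := ⟨n - K, by omega⟩
  have hm : n0 ≤ m := by omega
  refine le_trans ?_ (hn0 m hm).le
  unfold dl
  refine tsub_le_tsub_left ?_ _
  rw [← mul_div_assoc]
  exact ENNReal.div_le_div_right (ov_ge G hf m K x y hy) _

end PK

end Pool.Agent.U635
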